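import Pool.Agent.Tuan.Def

/-!
MODULE Pell (size 3).  Solutions of `A x^2 + k = B y^2` grow geometrically.

SKETCH of `pell_gap`.  Work in `ℤ`.  Suppose `x2 < 2 * x1`, so `x1 > 0`.
Identity: `(B y1 y2 - A x1 x2)^2 - A B (x1 y2 - x2 y1)^2 = (A x1^2 - B y1^2)(A x2^2 - B y2^2) = k^2`.
`x1 y2 ≠ x2 y1`: otherwise `x1^2 (A x2^2 + k) = x1^2 B y2^2 = x2^2 B y1^2 = x2^2 (A x1^2 + k)`, so
`x1 = x2`.  Also `B ≥ 1` (as `k ≥ 1`), hence with `u = B y1 y2 - A x1 x2` we get `u^2 ≥ k^2 + 1`.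
`u > 0` because `(B y1 y2)^2 = (A x1^2 + k)(A x2^2 + k) > (A x1 x2)^2`.  So `u ≥ k + 1`, and
`(A x1^2 + k)(A x2^2 + k) = (B y1 y2)^2 ≥ (A x1 x2 + k + 1)^2` gives
`k A (x1^2 + x2^2) > 2 (k+1) A x1 x2`, so `k (x1^2 + x2^2) > 2 (k+1) x1 x2`; for `1 ≤ k ≤ 3` this is
`3 (x1^2 + x2^2) > 8 x1 x2` (in each of the three cases), impossible for `x1 < x2 < 2 x1`
(`2(x1^2+x2^2) ≤ 5 x1 x2` from `(x2 - 2 x1)(2 x2 - x1) ≤ 0`).

SKETCH of `pell_count`.  On the elements `x ≥ 1` of the set the map `Nat.log 2` is injective by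
`pell_gap` (`2 * x1 ≤ x2` implies `Nat.log 2 x1 < Nat.log 2 x2`), with values `≤ Nat.log 2 Y`.
-/

namespace Tuan

theorem pell_gap (k A B x1 y1 x2 y2 : ℕ) (hk : 1 ≤ k) (hk3 : k ≤ 3) (hA : 1 ≤ A)
    (h1 : A * x1 ^ 2 + k = B * y1 ^ 2) (h2 : A * x2 ^ 2 + k = B * y2 ^ 2) (hlt : x1 < x2) :
    2 * x1 ≤ x2 := by
  by_contra hcon
  push Not at hcon
  have hk' : (1 : ℤ) ≤ k := by exact_mod_cast hk
  have hk3' : (k : ℤ) ≤ 3 := by exact_mod_cast hk3
  have hA' : (1 : ℤ) ≤ A := by exact_mod_cast hA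
  have h1' : (A : ℤ) * x1 ^ 2 + k = B * y1 ^ 2 := by exact_mod_cast h1
  have h2' : (A : ℤ) * x2 ^ 2 + k = B * y2 ^ 2 := by exact_mod_cast h2
  have hlt' : (x1 : ℤ) < x2 := by exact_mod_cast hlt
  have hcon' : (x2 : ℤ) < 2 * x1 := by exact_mod_cast hcon
  have hx1 : (0 : ℤ) < x1 := by linarith
  have hB' : (1 : ℤ) ≤ B := by
    have : B ≠ 0 := by
      rintro rfl
      simp at h1
      omega
    have : 1 ≤ B := Nat.one_le_iff_ne_zero.2 this
    exact_mod_cast this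
  generalize (A : ℤ) = A at *
  generalize (B : ℤ) = B at *
  generalize (k : ℤ) = k at *
  have hy1 : (0 : ℤ) ≤ y1 := by positivity
  have hy2 : (0 : ℤ) ≤ y2 := by positivity
  generalize (y1 : ℤ) = y1 at *
  generalize (y2 : ℤ) = y2 at *
  generalize (x1 : ℤ) = x1 at *
  generalize (x2 : ℤ) = x2 at *
  have hx2 : 0 < x2 := hx1.trans hlt'
  -- the identity
  have hid : (B * y1 * y2 - A * x1 * x2) ^ 2 - A * B * (x1 * y2 - x2 * y1) ^ 2 = k ^ 2 := by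
    have e1 : (B * y1 * y2 - A * x1 * x2) ^ 2 - A * B * (x1 * y2 - x2 * y1) ^ 2
        = (B * y1 ^ 2 - A * x1 ^ 2) * (B * y2 ^ 2 - A * x2 ^ 2) := by ring
    rw [e1, ← h1', ← h2']
    ring
  have hne : x1 * y2 - x2 * y1 ≠ 0 := by
    intro h0
    have h3 : x1 * y2 = x2 * y1 := by linarith
    have h4 : x1 ^ 2 * (A * x2 ^ 2 + k) = x2 ^ 2 * (A * x1 ^ 2 + k) := by
      rw [h1', h2']
      calc x1 ^ 2 * (B * y2 ^ 2) = B * (x1 * y2) ^ 2 := by ring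
        _ = B * (x2 * y1) ^ 2 := by rw [h3]
        _ = x2 ^ 2 * (B * y1 ^ 2) := by ring
    have h5 : k * (x2 ^ 2 - x1 ^ 2) = 0 := by linear_combination -h4
    have h6 : 0 < x2 ^ 2 - x1 ^ 2 := by nlinarith
    have h7 : 0 < k * (x2 ^ 2 - x1 ^ 2) := mul_pos (by linarith) h6
    linarith
  have hsq : 1 ≤ (x1 * y2 - x2 * y1) ^ 2 := by
    have : 0 < (x1 * y2 - x2 * y1) ^ 2 := by positivity
    linarith
  have hAB : 1 ≤ A * B := by nlinarith
  have hu2 : k ^ 2 + 1 ≤ (B * y1 * y2 - A * x1 * x2) ^ 2 := by nlinarith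
  have hPQ : (B * y1 * y2) ^ 2 = (A * x1 * x2) ^ 2 + k * A * (x1 ^ 2 + x2 ^ 2) + k ^ 2 := by
    calc (B * y1 * y2) ^ 2 = (B * y1 ^ 2) * (B * y2 ^ 2) := by ring
      _ = (A * x1 ^ 2 + k) * (A * x2 ^ 2 + k) := by rw [h1', h2']
      _ = _ := by ring
  have hP0 : 0 ≤ B * y1 * y2 := by positivity
  have hQ0 : 0 < A * x1 * x2 := by positivity
  have hu : 0 < B * y1 * y2 - A * x1 * x2 := by
    have h3 : (A * x1 * x2) ^ 2 < (B * y1 * y2) ^ 2 := by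
      have : 0 < k * A * (x1 ^ 2 + x2 ^ 2) := by positivity
      nlinarith
    have := abs_lt_of_sq_lt_sq h3 hP0
    have := abs_lt.1 this
    linarith
  have hu' : k + 1 ≤ B * y1 * y2 - A * x1 * x2 := by
    by_contra hc
    push Not at hc
    have h3 : B * y1 * y2 - A * x1 * x2 ≤ k := by linarith
    nlinarith
  have h3 : (A * x1 * x2 + (k + 1)) ^ 2 ≤ (B * y1 * y2) ^ 2 := by
    apply pow_le_pow_left₀ (by positivity)
    linarith
  have h4 : 2 * (k + 1) * (A * x1 * x2) < k * A * (x1 ^ 2 + x2 ^ 2) := by nlinarith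
  have h5 : 2 * (x1 ^ 2 + x2 ^ 2) ≤ 5 * (x1 * x2) := by nlinarith
  have h6 : k * A * (2 * (x1 ^ 2 + x2 ^ 2)) ≤ k * A * (5 * (x1 * x2)) :=
    mul_le_mul_of_nonneg_left h5 (by positivity)
  have h7 : (4 - k) * (A * x1 * x2) < 0 := by nlinarith
  have h8 : 0 ≤ (4 - k) * (A * x1 * x2) := mul_nonneg (by linarith) hQ0.le
  linarith

theorem pell_count (k A B Y : ℕ) (hk : 1 ≤ k) (hk3 : k ≤ 3) (hA : 1 ≤ A) :
    {x : ℕ | x ≤ Y ∧ ∃ y, A * x ^ 2 + k = B * y ^ 2}.ncard ≤ 2 + Nat.log 2 Y := by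
  classical
  set S : Set ℕ := {x : ℕ | x ≤ Y ∧ ∃ y, A * x ^ 2 + k = B * y ^ 2} with hS
  have hfin : S.Finite := (Set.finite_Iic Y).subset fun x hx => hx.1
  have hsub : S ⊆ {0} ∪ (S \ {0}) := by
    intro x hx
    by_cases h : x = 0
    · left; exact h
    · right; exact ⟨hx, h⟩
  have h1 : (S \ {0}).ncard ≤ (Set.Iic (Nat.log 2 Y)).ncard := by
    apply Set.ncard_le_ncard_of_injOn (fun x => Nat.log 2 x)
    · intro x hx
      exact Nat.log_mono_right hx.1.1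
    · intro x hx y hy hxy
      by_contra hne
      have key : ∀ a b : ℕ, a ∈ S \ {0} → b ∈ S \ {0} → a < b →
          Nat.log 2 a < Nat.log 2 b := by
        intro a b ha hb hab
        obtain ⟨⟨-, ya, hya⟩, ha0⟩ := ha
        obtain ⟨⟨-, yb, hyb⟩, hb0⟩ := hb
        have h2 := pell_gap k A B a ya b yb hk hk3 hA hya hyb hab
        have ha0' : a ≠ 0 := ha0
        calc Nat.log 2 a < Nat.log 2 a + 1 := Nat.lt_succ_self _
          _ = Nat.log 2 (a * 2) := (Nat.log_mul_base (by norm_num) ha0').symm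
          _ ≤ Nat.log 2 b := Nat.log_mono_right (by linarith)
      rcases lt_or_gt_of_ne hne with h | h
      · exact absurd hxy (key x y hx hy h).ne
      · exact absurd hxy (key y x hy hx h).ne'
  have h2 : (Set.Iic (Nat.log 2 Y)).ncard = Nat.log 2 Y + 1 := by
    rw [← Nat.card_coe_set_eq, Nat.card_eq_fintype_card]
    simp
  calc S.ncard ≤ ({0} ∪ (S \ {0})).ncard :=
        Set.ncard_le_ncard hsub ((Set.finite_singleton 0).union (hfin.subset Set.sdiff_subset))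
    _ ≤ ({0} : Set ℕ).ncard + (S \ {0}).ncard := Set.ncard_union_le _ _
    _ ≤ 1 + (Nat.log 2 Y + 1) := by
        rw [Set.ncard_singleton, ← h2]
        exact Nat.add_le_add_left h1 1
    _ = 2 + Nat.log 2 Y := by ring

end Tuan
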