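import Pool.Agent.Tuan.Def

/-!
MODULE Tail (size 3).  The numbers `n = e a^2 b^3 ≤ t` with `b ≥ B`.

SKETCH.  The set is contained in the image of `{(a,b) | B ≤ b, b ≤ ⌊t⌋, 1 ≤ a, a^2 * b^3 ≤ t}` under
`(a,b) ↦ e a^2 b^3` (`n ≥ 1` forces `e, a, b ≥ 1`).  For fixed `b` the number of `a` is at most
`sqrt (t / b^3) = sqrt t * b ^ (-3/2)`, and `∑_{b = B}^{N} b^(-3/2) ≤ 4 / sqrt B` because
`1 / (b * sqrt b) ≤ 4 * (1 / sqrt b - 1 / sqrt (b+1))` for `b ≥ 1` (the difference is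
`1 / (sqrt b * sqrt (b+1) * (sqrt b + sqrt (b+1)))` and `sqrt (b+1) ≤ sqrt 2 * sqrt b`), which
telescopes (induction on `N`).
-/

namespace Tuan

theorem Tail_step (b : ℕ) (hb : 1 ≤ b) :
    1 / ((b : ℝ) * Real.sqrt b) ≤ 4 * (1 / Real.sqrt b - 1 / Real.sqrt ((b + 1 : ℕ) : ℝ)) := by
  have hb' : (1 : ℝ) ≤ b := by exact_mod_cast hb
  set u := Real.sqrt b with hu
  set v := Real.sqrt ((b + 1 : ℕ) : ℝ) with hv
  have hu0 : 0 < u := Real.sqrt_pos.2 (by linarith)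
  have hv0 : 0 < v := Real.sqrt_pos.2 (by push_cast; linarith)
  have hu2 : u ^ 2 = b := Real.sq_sqrt (by linarith)
  have hv2 : v ^ 2 = b + 1 := by
    rw [hv, Real.sq_sqrt (by positivity)]
    push_cast
    ring
  have huv : u ≤ v := by
    apply Real.sqrt_le_sqrt
    push_cast
    linarith
  have h1 : v * (u + v) ≤ 4 * u ^ 2 := by
    have h2 : v ^ 2 ≤ 2 * u ^ 2 := by rw [hv2, hu2]; linarith
    nlinarith [sq_nonneg (v - u)]
  have h2 : (v - u) * (v + u) = 1 := by nlinarith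
  have h3 : 1 / u - 1 / v = 1 / (u * v * (u + v)) := by
    rw [div_sub_div _ _ hu0.ne' hv0.ne', div_eq_div_iff (by positivity) (by positivity)]
    nlinarith
  rw [h3, ← hu2, mul_one_div, div_le_div_iff₀ (by positivity) (by positivity)]
  have h4 : u * v * (u + v) = u * (v * (u + v)) := by ring
  rw [h4, one_mul]
  calc u * (v * (u + v)) ≤ u * (4 * u ^ 2) := mul_le_mul_of_nonneg_left h1 hu0.le
    _ = 4 * (u ^ 2 * u) := by ring

theorem Tail_sum (B M : ℕ) (hB : 1 ≤ B) (hM : B ≤ M) :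
    ∑ b ∈ Finset.Ico B M, 1 / ((b : ℝ) * Real.sqrt b) ≤ 4 * (1 / Real.sqrt B - 1 / Real.sqrt M) := by
  induction M, hM using Nat.le_induction with
  | base => simp
  | succ M hM ih =>
    rw [Finset.sum_Ico_succ_top hM]
    have := Tail_step M (by omega)
    linarith

theorem tail_count (e B : ℕ) (hB : 1 ≤ B) (t : ℝ) (ht : 1 ≤ t) :
    ({n : ℕ | 1 ≤ n ∧ (n : ℝ) ≤ t ∧ ∃ a b : ℕ, B ≤ b ∧ n = e * a ^ 2 * b ^ 3}.ncard : ℝ) ≤
      4 * Real.sqrt (t / B) := by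
  classical
  set N := ⌊t⌋₊ with hN
  set P : Finset (ℕ × ℕ) := (Finset.Ico B (N + 1)).biUnion fun b =>
    (Finset.Icc 1 ⌊Real.sqrt (t / (b : ℝ) ^ 3)⌋₊).image fun a => (a, b) with hP
  have hsub : {n : ℕ | 1 ≤ n ∧ (n : ℝ) ≤ t ∧ ∃ a b : ℕ, B ≤ b ∧ n = e * a ^ 2 * b ^ 3} ⊆
      ((P.image fun p => e * p.1 ^ 2 * p.2 ^ 3 : Finset ℕ) : Set ℕ) := by
    rintro n ⟨h1, h2, a, b, hb, rfl⟩
    have he : 1 ≤ e := by
      rcases Nat.eq_zero_or_pos e with h | h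
      · rw [h] at h1; simp at h1
      · exact h
    have ha : 1 ≤ a := by
      rcases Nat.eq_zero_or_pos a with h | h
      · rw [h] at h1; simp at h1
      · exact h
    have hb1 : 1 ≤ b := hB.trans hb
    have h3 : a ^ 2 * b ^ 3 ≤ e * a ^ 2 * b ^ 3 := by
      rw [mul_assoc]
      exact Nat.le_mul_of_pos_left _ he
    have h4 : ((a ^ 2 * b ^ 3 : ℕ) : ℝ) ≤ t := (Nat.cast_le.2 h3).trans h2
    have h5 : b ≤ N := by
      apply Nat.le_floor
      refine le_trans (Nat.cast_le.2 ?_) h4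
      calc b ≤ b ^ 3 := Nat.le_self_pow (by norm_num) b
        _ ≤ a ^ 2 * b ^ 3 := Nat.le_mul_of_pos_left _ (by positivity)
    have h6 : a ≤ ⌊Real.sqrt (t / (b : ℝ) ^ 3)⌋₊ := by
      apply Nat.le_floor
      apply Real.le_sqrt_of_sq_le
      have hb3 : (0 : ℝ) < (b : ℝ) ^ 3 := by positivity
      rw [le_div_iff₀ hb3]
      exact_mod_cast h4
    rw [Finset.mem_coe, Finset.mem_image]
    refine ⟨(a, b), ?_, rfl⟩
    rw [hP, Finset.mem_biUnion]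
    exact ⟨b, Finset.mem_Ico.2 ⟨hb, by omega⟩, Finset.mem_image.2 ⟨a, Finset.mem_Icc.2 ⟨ha, h6⟩, rfl⟩⟩
  have h1 : {n : ℕ | 1 ≤ n ∧ (n : ℝ) ≤ t ∧ ∃ a b : ℕ, B ≤ b ∧ n = e * a ^ 2 * b ^ 3}.ncard ≤ P.card := by
    calc _ ≤ ((P.image fun p => e * p.1 ^ 2 * p.2 ^ 3 : Finset ℕ) : Set ℕ).ncard :=
          Set.ncard_le_ncard hsub (Finset.finite_toSet _)
      _ = (P.image fun p => e * p.1 ^ 2 * p.2 ^ 3).card := Set.ncard_coe_finset _
      _ ≤ P.card := Finset.card_image_le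
  have h2 : (P.card : ℝ) ≤ ∑ b ∈ Finset.Ico B (N + 1), Real.sqrt t * (1 / ((b : ℝ) * Real.sqrt b)) := by
    have h3 : P.card ≤ ∑ b ∈ Finset.Ico B (N + 1), ⌊Real.sqrt (t / (b : ℝ) ^ 3)⌋₊ := by
      refine Finset.card_biUnion_le.trans (Finset.sum_le_sum fun b _ => ?_)
      refine Finset.card_image_le.trans ?_
      rw [Nat.card_Icc]
      omega
    refine (Nat.cast_le.2 h3).trans ?_
    rw [Nat.cast_sum]
    refine Finset.sum_le_sum fun b hb => ?_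
    have hb1 : 1 ≤ b := hB.trans (Finset.mem_Ico.1 hb).1
    have hb' : (0 : ℝ) < b := by exact_mod_cast hb1
    refine (Nat.floor_le (Real.sqrt_nonneg _)).trans (le_of_eq ?_)
    rw [Real.sqrt_div' _ (by positivity), mul_one_div]
    congr 1
    have h4 : (b : ℝ) ^ 3 = (b : ℝ) ^ 2 * b := by ring
    rw [h4, Real.sqrt_mul (by positivity), Real.sqrt_sq hb'.le]
  refine (Nat.cast_le.2 h1).trans (h2.trans ?_)
  rw [← Finset.mul_sum]
  have hBr : (0 : ℝ) < B := by exact_mod_cast hB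
  rw [Real.sqrt_div' _ hBr.le]
  rcases le_or_gt B (N + 1) with h | h
  · have h3 := Tail_sum B (N + 1) hB h
    have h4 : 0 ≤ 1 / Real.sqrt ((N + 1 : ℕ) : ℝ) := by positivity
    calc Real.sqrt t * ∑ b ∈ Finset.Ico B (N + 1), 1 / ((b : ℝ) * Real.sqrt b)
        ≤ Real.sqrt t * (4 * (1 / Real.sqrt B)) :=
          mul_le_mul_of_nonneg_left (by linarith) (Real.sqrt_nonneg _)
      _ = 4 * (Real.sqrt t / Real.sqrt B) := by ring
  · rw [Finset.Ico_eq_empty (by omega), Finset.sum_empty, mul_zero]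
    positivity

end Tuan
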