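import Pool.Agent.Tuan.Pow
import Pool.Agent.Tuan.Tail
import Pool.Agent.Tuan.Pell

/-!
MODULE CCons (size 4).  Two consecutive numbers which are squarefull away from 2.

SKETCH.  Let `B = ⌈t^(1/5)⌉₊`, so `t^(1/5) ≤ B ≤ 2 t^(1/5)` and `B ≥ 1`.  By `rep_off` write
`n = e1 a^2 b^3`, `n + 1 = e2 c^2 d^3` with `e1, e2 ∣ 2`, so `e1, e2 ∈ {1, 2}`; `b, d, a, c ≥ 1`.
(i) `B ≤ b`: at most `2 * 4 * sqrt (t / B) ≤ 8 t^(2/5)` values of `n` (`tail_count e1 B t`).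
(ii) `B ≤ d`: at most `2 * 4 * sqrt ((t+1) / B) ≤ 16 t^(2/5)` values of `n + 1`, hence of `n`.
(iii) `b < B` and `d < B`: for fixed `e1, e2, b, d` the number `a` satisfies
`(e1 b^3) a^2 + 1 = (e2 d^3) c^2` and `a ≤ ⌊t⌋₊`, so by `pell_count` (k = 1, A = e1 b^3, B = e2 d^3)
at most `2 + Nat.log 2 ⌊t⌋₊ ≤ 2 + log t / log 2` values; total at most
`4 * B^2 * (2 + log t / log 2) ≤ 16 t^(2/5) * (2 + 2 log t)`.
-/

namespace Tuan

private theorem CCons_cover {ι : Type} (S : Set ℕ) (I : Finset ι) (F : ι → Set ℕ) (K : ℝ)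
    (hfin : ∀ i, (F i).Finite) (hF : ∀ i, ((F i).ncard : ℝ) ≤ K)
    (hS : ∀ n ∈ S, ∃ i ∈ I, n ∈ F i) : (S.ncard : ℝ) ≤ I.card * K := by
  classical
  set G : ι → Finset ℕ := fun i => (hfin i).toFinset with hG
  have h1 : S ⊆ ↑(I.biUnion G) := by
    intro n hn
    obtain ⟨i, hi, hni⟩ := hS n hn
    simp only [Finset.coe_biUnion, Set.mem_iUnion, Finset.mem_coe]
    exact ⟨i, hi, by simpa [hG] using hni⟩
  have h2 : S.ncard ≤ ∑ i ∈ I, (G i).card := by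
    calc S.ncard ≤ (↑(I.biUnion G) : Set ℕ).ncard := Set.ncard_le_ncard h1 (Finset.finite_toSet _)
      _ = (I.biUnion G).card := Set.ncard_coe_finset _
      _ ≤ _ := Finset.card_biUnion_le
  have h3 : (S.ncard : ℝ) ≤ ∑ i ∈ I, ((G i).card : ℝ) := by exact_mod_cast h2
  refine h3.trans ?_
  rw [← nsmul_eq_mul]
  refine Finset.sum_le_card_nsmul I _ K ?_
  intro i _
  have := hF i
  rw [Set.ncard_eq_toFinset_card _ (hfin i)] at this
  exact this

private theorem CCons_log (Y : ℕ) (s : ℝ) (hs : 1 ≤ s) (hY : (Y : ℝ) ≤ s) :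
    (Nat.log 2 Y : ℝ) ≤ 2 * Real.log s := by
  have hlog : 0 ≤ Real.log s := Real.log_nonneg hs
  rcases Nat.eq_zero_or_pos Y with h | h
  · subst h
    simp
    exact hlog
  · have h1 : 2 ^ Nat.log 2 Y ≤ Y := Nat.pow_log_le_self 2 h.ne'
    have h2 : ((2 : ℝ)) ^ Nat.log 2 Y ≤ s := by
      have : ((2 ^ Nat.log 2 Y : ℕ) : ℝ) ≤ Y := by exact_mod_cast h1
      push_cast at this
      linarith
    have h3 : (Nat.log 2 Y : ℝ) * Real.log 2 ≤ Real.log s := by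
      rw [← Real.log_pow]
      exact Real.log_le_log (by positivity) h2
    have h4 : (1 : ℝ) / 2 ≤ Real.log 2 := by
      have := Real.log_two_gt_d9
      linarith
    have h5 : (Nat.log 2 Y : ℝ) * (1 / 2) ≤ (Nat.log 2 Y : ℝ) * Real.log 2 :=
      mul_le_mul_of_nonneg_left h4 (by positivity)
    linarith

private theorem CCons_fin (k A B Y : ℕ) :
    {x : ℕ | x ≤ Y ∧ ∃ y, A * x ^ 2 + k = B * y ^ 2}.Finite :=
  (Set.finite_Iic Y).subset fun _ hx => hx.1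

/-- powers of `t ^ (1/5)` -/
private theorem CCons_pow (t : ℝ) (ht : 0 ≤ t) (k : ℕ) :
    t ^ ((k : ℝ) / 5) = (t ^ ((1 : ℝ) / 5)) ^ k := by
  rw [← Real.rpow_natCast (t ^ ((1 : ℝ) / 5)) k, ← Real.rpow_mul ht]
  congr 1
  ring

private theorem CCons_finU (P : ℕ → Prop) (t : ℝ) :
    {n : ℕ | 1 ≤ n ∧ (n : ℝ) ≤ t ∧ P n}.Finite := by
  refine (Set.finite_Iic ⌊t⌋₊).subset ?_
  rintro n ⟨-, hn, -⟩
  exact Nat.le_floor hn

theorem count_consec : ∃ C : ℝ, 0 < C ∧ ∀ t : ℝ, 1 ≤ t →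
    ({n : ℕ | 1 ≤ n ∧ (n : ℝ) ≤ t ∧ (SqOff 2 n ∧ SqOff 2 (n + 1))}.ncard : ℝ) ≤
      C * t ^ ((2 : ℝ) / 5) * (1 + Real.log t) := by
  refine ⟨108, by norm_num, fun t ht => ?_⟩
  have ht0 : (0 : ℝ) ≤ t := by linarith
  have hlogt : 0 ≤ Real.log t := Real.log_nonneg ht
  set u : ℝ := t ^ ((1 : ℝ) / 5) with hu
  have hu1 : 1 ≤ u := Real.one_le_rpow ht (by norm_num)
  have hu5 : u ^ 5 = t := by
    have := CCons_pow t ht0 5
    rw [← this]
    norm_num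
  have hu2 : t ^ ((2 : ℝ) / 5) = u ^ 2 := by
    have := CCons_pow t ht0 2
    rw [← this]
    norm_num
  rw [hu2]
  set B : ℕ := ⌈u⌉₊ with hB
  have hBu : u ≤ B := Nat.le_ceil u
  have hBu2 : (B : ℝ) ≤ 2 * u := by
    have := Nat.ceil_lt_add_one (show 0 ≤ u by linarith)
    linarith
  have hB1 : 1 ≤ B := by
    have : (1 : ℝ) ≤ B := hu1.trans hBu
    exact_mod_cast this
  have hBpos : (0 : ℝ) < B := by exact_mod_cast hB1
  have hupos : (0 : ℝ) < u := by linarith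
  -- the three sets
  set S1 : Set ℕ := {n : ℕ | ∃ e ∈ Finset.range 3, n ∈
    {n : ℕ | 1 ≤ n ∧ (n : ℝ) ≤ t ∧ ∃ a b : ℕ, B ≤ b ∧ n = e * a ^ 2 * b ^ 3}} with hS1
  set S2 : Set ℕ := {n : ℕ | ∃ e ∈ Finset.range 3, n + 1 ∈
    {n : ℕ | 1 ≤ n ∧ (n : ℝ) ≤ t + 1 ∧ ∃ a b : ℕ, B ≤ b ∧ n = e * a ^ 2 * b ^ 3}} with hS2
  set G : (ℕ × ℕ) × (ℕ × ℕ) → Set ℕ := fun p =>
    (fun x => p.1.1 * x ^ 2 * p.2.1 ^ 3) '' {x : ℕ | x ≤ ⌊t⌋₊ ∧ ∃ y,
      (max 1 (p.1.1 * p.2.1 ^ 3)) * x ^ 2 + 1 = (p.1.2 * p.2.2 ^ 3) * y ^ 2} with hG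
  set I : Finset ((ℕ × ℕ) × (ℕ × ℕ)) :=
    (Finset.range 3 ×ˢ Finset.range 3) ×ˢ (Finset.range B ×ˢ Finset.range B) with hI
  set S3 : Set ℕ := {n : ℕ | ∃ p ∈ I, n ∈ G p} with hS3
  have hsub : {n : ℕ | 1 ≤ n ∧ (n : ℝ) ≤ t ∧ (SqOff 2 n ∧ SqOff 2 (n + 1))} ⊆
      S1 ∪ (S2 ∪ S3) := by
    rintro n ⟨hn1, hnt, hq1, hq2⟩
    obtain ⟨e1, a, b, he1, hr1⟩ := rep_off 2 n (by norm_num) (by omega) hq1
    obtain ⟨e2, c, d, he2, hr2⟩ := rep_off 2 (n + 1) (by norm_num) (by omega) hq2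
    have h1 : e1 ≤ 2 := Nat.le_of_dvd (by norm_num) he1
    have h2 : e2 ≤ 2 := Nat.le_of_dvd (by norm_num) he2
    rcases le_or_gt B b with hb | hb
    · left
      exact ⟨e1, Finset.mem_range.2 (by omega), hn1, hnt, a, b, hb, hr1⟩
    · right
      rcases le_or_gt B d with hd | hd
      · left
        refine ⟨e2, Finset.mem_range.2 (by omega), by omega, ?_, c, d, hd, hr2⟩
        push_cast
        linarith
      · right
        have hA : 1 ≤ e1 * b ^ 3 := by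
          rcases Nat.eq_zero_or_pos (e1 * b ^ 3) with h | h
          · have : n = 0 := by
              rw [hr1, show e1 * a ^ 2 * b ^ 3 = (e1 * b ^ 3) * a ^ 2 by ring, h, zero_mul]
            omega
          · exact h
        refine ⟨((e1, e2), (b, d)), ?_, a, ⟨?_, c, ?_⟩, ?_⟩
        · simp only [hI, Finset.mem_product, Finset.mem_range]
          exact ⟨⟨by omega, by omega⟩, hb, hd⟩
        · have h3 : a ≤ n := by
            rw [hr1, show e1 * a ^ 2 * b ^ 3 = (e1 * b ^ 3) * a ^ 2 by ring]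
            calc a ≤ a ^ 2 := Nat.le_self_pow (by norm_num) a
              _ ≤ (e1 * b ^ 3) * a ^ 2 := Nat.le_mul_of_pos_left _ hA
          exact h3.trans (Nat.le_floor hnt)
        · simp only
          rw [max_eq_right hA]
          have h4 : e1 * b ^ 3 * a ^ 2 = n := by
            conv_rhs => rw [hr1]
            ring
          rw [h4, hr2]
          ring
        · simp only
          exact hr1.symm
  have hf1 : S1.Finite := by
    refine (Set.finite_Iic ⌊t⌋₊).subset ?_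
    rintro n ⟨e, -, -, hn, -⟩
    exact Nat.le_floor hn
  have hf2 : S2.Finite := by
    refine (Set.finite_Iic ⌊t⌋₊).subset ?_
    rintro n ⟨e, -, -, hn, -⟩
    push_cast at hn
    exact Nat.le_floor (by linarith)
  have hGfin : ∀ p, (G p).Finite := fun p => (CCons_fin _ _ _ _).image _
  have hf3 : S3.Finite := by
    have : S3 = ⋃ p ∈ I, G p := by
      ext n
      simp [hS3]
    rw [this]
    exact Set.Finite.biUnion I.finite_toSet fun p _ => hGfin p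
  -- bounds
  have hb1 : (S1.ncard : ℝ) ≤ 12 * u ^ 2 := by
    have h1 := CCons_cover S1 (Finset.range 3) (fun e =>
      {n : ℕ | 1 ≤ n ∧ (n : ℝ) ≤ t ∧ ∃ a b : ℕ, B ≤ b ∧ n = e * a ^ 2 * b ^ 3}) _
      (fun e => CCons_finU _ t) (fun e => tail_count e B hB1 t ht) (fun n hn => hn)
    have h2 : Real.sqrt (t / B) ≤ u ^ 2 := by
      rw [Real.sqrt_le_left (by positivity), div_le_iff₀ hBpos, ← hu5]
      calc u ^ 5 = (u ^ 2) ^ 2 * u := by ring
        _ ≤ (u ^ 2) ^ 2 * B := mul_le_mul_of_nonneg_left hBu (by positivity)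
    rw [Finset.card_range] at h1
    push_cast at h1
    linarith
  have hb2 : (S2.ncard : ℝ) ≤ 24 * u ^ 2 := by
    have h1 := CCons_cover S2 (Finset.range 3) (fun e => {n : ℕ | n + 1 ∈
      {n : ℕ | 1 ≤ n ∧ (n : ℝ) ≤ t + 1 ∧ ∃ a b : ℕ, B ≤ b ∧ n = e * a ^ 2 * b ^ 3}})
      (4 * Real.sqrt ((t + 1) / B)) ?_ ?_ (fun n hn => hn)
    · have h2 : Real.sqrt ((t + 1) / B) ≤ 2 * u ^ 2 := by
        rw [Real.sqrt_le_left (by positivity), div_le_iff₀ hBpos]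
        have h3 : (2 * u ^ 2) ^ 2 * u ≤ (2 * u ^ 2) ^ 2 * B :=
          mul_le_mul_of_nonneg_left hBu (by positivity)
        have h4 : (2 * u ^ 2) ^ 2 * u = 4 * t := by
          rw [← hu5]
          ring
        linarith
      rw [Finset.card_range] at h1
      push_cast at h1
      linarith
    · intro e
      refine (Set.finite_Iic ⌊t⌋₊).subset ?_
      rintro n ⟨-, hn, -⟩
      push_cast at hn
      exact Nat.le_floor (by linarith)
    · intro e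
      refine le_trans ?_ (tail_count e B hB1 (t + 1) (by linarith))
      have := Set.ncard_le_ncard_of_injOn (s := {n : ℕ | n + 1 ∈
        {n : ℕ | 1 ≤ n ∧ (n : ℝ) ≤ t + 1 ∧ ∃ a b : ℕ, B ≤ b ∧ n = e * a ^ 2 * b ^ 3}})
        (t := {n : ℕ | 1 ≤ n ∧ (n : ℝ) ≤ t + 1 ∧ ∃ a b : ℕ, B ≤ b ∧ n = e * a ^ 2 * b ^ 3})
        (fun n => n + 1) (fun n hn => hn) (fun a _ b _ hab => by simp only at hab; omega)
        (CCons_finU _ (t + 1))
      exact_mod_cast this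
  have hb3 : (S3.ncard : ℝ) ≤ 72 * u ^ 2 * (1 + Real.log t) := by
    have h1 := CCons_cover S3 I G (2 + (Nat.log 2 ⌊t⌋₊ : ℝ)) hGfin ?_ (fun n hn => hn)
    · have hY : ((⌊t⌋₊ : ℕ) : ℝ) ≤ t := Nat.floor_le ht0
      have hlog := CCons_log ⌊t⌋₊ t ht hY
      have h2 : (I.card : ℝ) = 9 * (B : ℝ) ^ 2 := by
        rw [hI]
        simp only [Finset.card_product, Finset.card_range]
        push_cast
        ring
      have h3 : (I.card : ℝ) ≤ 36 * u ^ 2 := by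
        rw [h2]
        have : (B : ℝ) ^ 2 ≤ (2 * u) ^ 2 := pow_le_pow_left₀ hBpos.le hBu2 2
        nlinarith
      calc (S3.ncard : ℝ) ≤ I.card * (2 + (Nat.log 2 ⌊t⌋₊ : ℝ)) := h1
        _ ≤ (36 * u ^ 2) * (2 + 2 * Real.log t) :=
            mul_le_mul h3 (by linarith) (by positivity) (by positivity)
        _ = _ := by ring
    · intro p
      have h1 := pell_count 1 (max 1 (p.1.1 * p.2.1 ^ 3)) (p.1.2 * p.2.2 ^ 3) ⌊t⌋₊ le_rfl
        (by norm_num) (le_max_left _ _)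
      have h2 : (G p).ncard ≤ 2 + Nat.log 2 ⌊t⌋₊ :=
        (Set.ncard_image_le (CCons_fin _ _ _ _)).trans h1
      exact_mod_cast h2
  have htot : {n : ℕ | 1 ≤ n ∧ (n : ℝ) ≤ t ∧ (SqOff 2 n ∧ SqOff 2 (n + 1))}.ncard ≤
      S1.ncard + (S2.ncard + S3.ncard) := by
    refine (Set.ncard_le_ncard hsub (hf1.union (hf2.union hf3))).trans ?_
    refine (Set.ncard_union_le _ _).trans ?_
    exact Nat.add_le_add_left (Set.ncard_union_le _ _) _
  have htot' : ({n : ℕ | 1 ≤ n ∧ (n : ℝ) ≤ t ∧ (SqOff 2 n ∧ SqOff 2 (n + 1))}.ncard : ℝ) ≤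
      S1.ncard + (S2.ncard + S3.ncard) := by exact_mod_cast htot
  have h5 : 0 ≤ u ^ 2 * Real.log t := by positivity
  nlinarith

end Tuan
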