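import Pool.Agent.Tuan.Pow
import Pool.Agent.Tuan.Tail

/-!
MODULE COff (size 2).  Numbers which are squarefull away from 6.

SKETCH.  By `rep_off` the set is contained in the union over the divisors `e` of `T` of the sets of
`tail_count e 1` (in `n = e a^2 b^3 ≥ 1` we have `b ≥ 1`).  There are finitely many `e`; each set has
at most `4 * sqrt t` elements.  All sets are finite (`n ≤ t`).  `1 ≤ 1 + log t`.
-/

namespace Tuan

theorem count_off (T : ℕ) (hT : T ≠ 0) : ∃ C : ℝ, 0 < C ∧ ∀ t : ℝ, 1 ≤ t →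
    ({n : ℕ | 1 ≤ n ∧ (n : ℝ) ≤ t ∧ SqOff T n}.ncard : ℝ) ≤
      C * t ^ ((1 : ℝ) / 2) * (1 + Real.log t) := by
  classical
  refine ⟨4 * (T.divisors.card : ℝ) + 1, by positivity, fun t ht => ?_⟩
  set R : Finset ℕ := Finset.Icc 1 ⌊t⌋₊ with hR
  have hmem : ∀ n : ℕ, n ∈ R ↔ 1 ≤ n ∧ (n : ℝ) ≤ t := by
    intro n
    rw [hR, Finset.mem_Icc, Nat.le_floor_iff (by linarith)]
  have e1 : {n : ℕ | 1 ≤ n ∧ (n : ℝ) ≤ t ∧ SqOff T n} = ((R.filter fun n => SqOff T n : Finset ℕ) : Set ℕ) := by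
    ext n
    simp only [Set.mem_ofPred_eq, Finset.coe_filter, hmem, and_assoc]
  have e2 : ∀ e : ℕ, {n : ℕ | 1 ≤ n ∧ (n : ℝ) ≤ t ∧ ∃ a b : ℕ, 1 ≤ b ∧ n = e * a ^ 2 * b ^ 3} =
      ((R.filter fun n => ∃ a b : ℕ, 1 ≤ b ∧ n = e * a ^ 2 * b ^ 3 : Finset ℕ) : Set ℕ) := by
    intro e
    ext n
    simp only [Set.mem_ofPred_eq, Finset.coe_filter, hmem, and_assoc]
  have hsub : (R.filter fun n => SqOff T n) ⊆
      T.divisors.biUnion fun e => R.filter fun n => ∃ a b : ℕ, 1 ≤ b ∧ n = e * a ^ 2 * b ^ 3 := by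
    intro n hn
    obtain ⟨h1, h2⟩ := Finset.mem_filter.1 hn
    have hn1 : 0 < n := ((hmem n).1 h1).1
    obtain ⟨e, a, b, he, rfl⟩ := rep_off T n hT hn1 h2
    rw [Finset.mem_biUnion]
    refine ⟨e, Nat.mem_divisors.2 ⟨he, hT⟩, Finset.mem_filter.2 ⟨h1, a, b, ?_, rfl⟩⟩
    rcases Nat.eq_zero_or_pos b with h | h
    · rw [h] at hn1; simp at hn1
    · exact h
  have h1 : ((R.filter fun n => SqOff T n).card : ℝ) ≤ (T.divisors.card : ℝ) * (4 * Real.sqrt t) := by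
    have h2 : ((R.filter fun n => SqOff T n).card : ℝ) ≤
        ∑ e ∈ T.divisors, ((R.filter fun n => ∃ a b : ℕ, 1 ≤ b ∧ n = e * a ^ 2 * b ^ 3).card : ℝ) := by
      rw [← Nat.cast_sum]
      exact Nat.cast_le.2 ((Finset.card_le_card hsub).trans Finset.card_biUnion_le)
    refine h2.trans ?_
    rw [← nsmul_eq_mul]
    refine Finset.sum_le_card_nsmul _ _ _ fun e _ => ?_
    have h3 := tail_count e 1 le_rfl t ht
    rw [e2 e, Set.ncard_coe_finset, Nat.cast_one, div_one] at h3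
    exact h3
  rw [e1, Set.ncard_coe_finset, ← Real.sqrt_eq_rpow]
  have h2 : 0 ≤ Real.log t := Real.log_nonneg ht
  have h3 : 0 ≤ Real.sqrt t := Real.sqrt_nonneg t
  have h4 : (0 : ℝ) ≤ T.divisors.card := Nat.cast_nonneg _
  have h5 : 0 ≤ (4 * (T.divisors.card : ℝ) + 1) * Real.sqrt t := by positivity
  calc ((R.filter fun n => SqOff T n).card : ℝ) ≤ (T.divisors.card : ℝ) * (4 * Real.sqrt t) := h1
    _ ≤ (4 * (T.divisors.card : ℝ) + 1) * Real.sqrt t := by nlinarith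
    _ = (4 * (T.divisors.card : ℝ) + 1) * Real.sqrt t * 1 := by ring
    _ ≤ (4 * (T.divisors.card : ℝ) + 1) * Real.sqrt t * (1 + Real.log t) :=
      mul_le_mul_of_nonneg_left (by linarith) h5

end Tuan
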