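import Pool.Agent.Tuan.Pow
import Pool.Agent.Tuan.Pell

/-!
MODULE CQuad (size 4).  Quadratic polynomials with (almost) squarefull values.

SKETCH of `count_quad1`.  By `rep_off`, `n^2 + 1 = e c^2 d^3` with `e ∈ {1, 2}` (`e ∣ 2`), `c, d ≥ 1`,
so `d^3 ≤ n^2 + 1 ≤ 2 t^2`, `d ≤ D := ⌊(2 t^2)^(1/3)⌋₊ ≤ 2 t^(2/3)`.  For fixed `e, d` the number of
`n ≤ ⌊t⌋₊` with `1 * n^2 + 1 = (e d^3) c^2` is at most `2 + Nat.log 2 ⌊t⌋₊` (`pell_count`, k = 1,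
A = 1).  Total `2 * 2 t^(2/3) * (2 + log t / log 2)` (use `0 ≤ log t`; `D` values of `d`, as `d ≥ 1`).

SKETCH of `count_quad3`.  `n^2 + n + 1 = e c^2 d^3`, `e ∣ 3`, so `e ∈ {1,3}`; `x = 2n+1` satisfies
`1 * x^2 + 3 = (e d^3) (2c)^2`, `x ≤ ⌊2t+1⌋₊ ≤ 3t`, `d^3 ≤ 3 t^2`; `pell_count` with `k = 3, A = 1`;
`n ↦ 2n+1` is injective.
-/

namespace Tuan

private theorem CQuad_cover {ι : Type} (S : Set ℕ) (I : Finset ι) (F : ι → Set ℕ) (K : ℕ)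
    (hfin : ∀ i, (F i).Finite) (hF : ∀ i, (F i).ncard ≤ K) (hS : ∀ n ∈ S, ∃ i ∈ I, n ∈ F i) :
    S.ncard ≤ I.card * K := by
  classical
  set G : ι → Finset ℕ := fun i => (hfin i).toFinset with hG
  have h1 : S ⊆ ↑(I.biUnion G) := by
    intro n hn
    obtain ⟨i, hi, hni⟩ := hS n hn
    simp only [Finset.coe_biUnion, Set.mem_iUnion, Finset.mem_coe]
    exact ⟨i, hi, by simpa [hG] using hni⟩
  calc S.ncard ≤ (↑(I.biUnion G) : Set ℕ).ncard := Set.ncard_le_ncard h1 (Finset.finite_toSet _)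
    _ = (I.biUnion G).card := Set.ncard_coe_finset _
    _ ≤ I.card * K := by
      refine Finset.card_biUnion_le_card_mul I G K ?_
      intro i _
      have := hF i
      rw [Set.ncard_eq_toFinset_card _ (hfin i)] at this
      exact this

private theorem CQuad_log (Y : ℕ) (s : ℝ) (hs : 1 ≤ s) (hY : (Y : ℝ) ≤ s) :
    (Nat.log 2 Y : ℝ) ≤ 2 * Real.log s := by
  have hlog : 0 ≤ Real.log s := Real.log_nonneg hs
  rcases Nat.eq_zero_or_pos Y with h | h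
  · subst h
    simp
    exact hlog
  · have h1 : 2 ^ Nat.log 2 Y ≤ Y := Nat.pow_log_le_self 2 h.ne'
    have h2 : ((2 : ℝ)) ^ Nat.log 2 Y ≤ s := by
      have : ((2 ^ Nat.log 2 Y : ℕ) : ℝ) ≤ Y := by exact_mod_cast h1
      push_cast at this
      linarith
    have h3 : (Nat.log 2 Y : ℝ) * Real.log 2 ≤ Real.log s := by
      rw [← Real.log_pow]
      exact Real.log_le_log (by positivity) h2
    have h4 : (1 : ℝ) / 2 ≤ Real.log 2 := by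
      have := Real.log_two_gt_d9
      linarith
    have h5 : (Nat.log 2 Y : ℝ) * (1 / 2) ≤ (Nat.log 2 Y : ℝ) * Real.log 2 :=
      mul_le_mul_of_nonneg_left h4 (by positivity)
    linarith

private theorem CQuad_dbound (d : ℕ) (t : ℝ) (ht : 1 ≤ t) (hd : (d : ℝ) ^ 3 ≤ 8 * t ^ 2) :
    d < ⌊2 * t ^ ((2 : ℝ) / 3)⌋₊ + 1 := by
  have ht0 : (0 : ℝ) ≤ t := by linarith
  have h1 : (2 * t ^ ((2 : ℝ) / 3)) ^ 3 = 8 * t ^ 2 := by
    rw [mul_pow, ← Real.rpow_natCast (t ^ ((2 : ℝ) / 3)) 3, ← Real.rpow_mul ht0]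
    have : ((2 : ℝ) / 3) * ((3 : ℕ) : ℝ) = ((2 : ℕ) : ℝ) := by norm_num
    rw [this, Real.rpow_natCast]
    norm_num
  have h2 : (d : ℝ) ≤ 2 * t ^ ((2 : ℝ) / 3) := by
    rw [← h1] at hd
    exact le_of_pow_le_pow_left₀ (by norm_num) (by positivity) hd
  have h3 : d ≤ ⌊2 * t ^ ((2 : ℝ) / 3)⌋₊ := Nat.le_floor h2
  omega

private theorem CQuad_final (D Y a : ℕ) (c t : ℝ) (ht : 1 ≤ t) (hc : 0 ≤ c)
    (hD : (D : ℝ) ≤ 2 * t ^ ((2 : ℝ) / 3)) (hY : (Nat.log 2 Y : ℝ) ≤ c + 2 * Real.log t) :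
    (((a * (D + 1)) * (2 + Nat.log 2 Y) : ℕ) : ℝ) ≤
      (a * 3 * (2 + c)) * t ^ ((2 : ℝ) / 3) * (1 + Real.log t) := by
  have hlog : 0 ≤ Real.log t := Real.log_nonneg ht
  have h1 : (1 : ℝ) ≤ t ^ ((2 : ℝ) / 3) := Real.one_le_rpow ht (by norm_num)
  have h2 : (D : ℝ) + 1 ≤ 3 * t ^ ((2 : ℝ) / 3) := by linarith
  have h3 : (2 : ℝ) + Nat.log 2 Y ≤ (2 + c) * (1 + Real.log t) := by
    nlinarith [mul_nonneg hc hlog]
  have h4 : ((D : ℝ) + 1) * (2 + Nat.log 2 Y) ≤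
      (3 * t ^ ((2 : ℝ) / 3)) * ((2 + c) * (1 + Real.log t)) :=
    mul_le_mul h2 h3 (by positivity) (by positivity)
  push_cast
  calc (a : ℝ) * (D + 1) * (2 + Nat.log 2 Y) = a * (((D : ℝ) + 1) * (2 + Nat.log 2 Y)) := by ring
    _ ≤ a * ((3 * t ^ ((2 : ℝ) / 3)) * ((2 + c) * (1 + Real.log t))) :=
        mul_le_mul_of_nonneg_left h4 (by positivity)
    _ = _ := by ring

private theorem CQuad_fin (k A B Y : ℕ) :
    {x : ℕ | x ≤ Y ∧ ∃ y, A * x ^ 2 + k = B * y ^ 2}.Finite :=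
  (Set.finite_Iic Y).subset fun _ hx => hx.1

theorem count_quad1 : ∃ C : ℝ, 0 < C ∧ ∀ t : ℝ, 1 ≤ t →
    ({n : ℕ | 1 ≤ n ∧ (n : ℝ) ≤ t ∧ SqOff 2 (n ^ 2 + 1)}.ncard : ℝ) ≤
      C * t ^ ((2 : ℝ) / 3) * (1 + Real.log t) := by
  refine ⟨((3 : ℕ) : ℝ) * 3 * (2 + 0), by norm_num, fun t ht => ?_⟩
  have ht0 : (0 : ℝ) ≤ t := by linarith
  set D : ℕ := ⌊2 * t ^ ((2 : ℝ) / 3)⌋₊ with hD
  have hD1 : (D : ℝ) ≤ 2 * t ^ ((2 : ℝ) / 3) := Nat.floor_le (by positivity)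
  have hY : ((⌊t⌋₊ : ℕ) : ℝ) ≤ t := Nat.floor_le ht0
  have hlog := CQuad_log ⌊t⌋₊ t ht hY
  have key : {n : ℕ | 1 ≤ n ∧ (n : ℝ) ≤ t ∧ SqOff 2 (n ^ 2 + 1)}.ncard ≤
      (Finset.range 3 ×ˢ Finset.range (D + 1)).card * (2 + Nat.log 2 ⌊t⌋₊) := by
    refine CQuad_cover _ _ (fun p : ℕ × ℕ =>
      {x : ℕ | x ≤ ⌊t⌋₊ ∧ ∃ y, 1 * x ^ 2 + 1 = (p.1 * p.2 ^ 3) * y ^ 2}) _
      (fun p => CQuad_fin _ _ _ _)
      (fun p => pell_count 1 1 (p.1 * p.2 ^ 3) ⌊t⌋₊ le_rfl (by norm_num) le_rfl) ?_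
    rintro n ⟨hn1, hnt, hsq⟩
    obtain ⟨e, a, b, he, hrep⟩ := rep_off 2 (n ^ 2 + 1) (by norm_num) (by positivity) hsq
    have he2 : e ≤ 2 := Nat.le_of_dvd (by norm_num) he
    have hea : 1 ≤ e * a ^ 2 := by
      rcases Nat.eq_zero_or_pos (e * a ^ 2) with h | h
      · rw [h] at hrep
        simp at hrep
      · exact h
    have hb3 : b ^ 3 ≤ n ^ 2 + 1 := by
      rw [hrep]
      exact Nat.le_mul_of_pos_left _ hea
    have hb3' : (b : ℝ) ^ 3 ≤ 8 * t ^ 2 := by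
      have h1 : ((b ^ 3 : ℕ) : ℝ) ≤ ((n ^ 2 + 1 : ℕ) : ℝ) := by exact_mod_cast hb3
      push_cast at h1
      have h2 : (n : ℝ) ^ 2 ≤ t ^ 2 := pow_le_pow_left₀ (by positivity) hnt 2
      nlinarith
    refine ⟨(e, b), ?_, Nat.le_floor hnt, a, ?_⟩
    · rw [Finset.mem_product, Finset.mem_range, Finset.mem_range]
      exact ⟨by simp only; omega, CQuad_dbound b t ht hb3'⟩
    · simp only
      rw [one_mul, hrep]
      ring
  rw [Finset.card_product, Finset.card_range, Finset.card_range] at key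
  have key' : ({n : ℕ | 1 ≤ n ∧ (n : ℝ) ≤ t ∧ SqOff 2 (n ^ 2 + 1)}.ncard : ℝ) ≤
      (((3 * (D + 1)) * (2 + Nat.log 2 ⌊t⌋₊) : ℕ) : ℝ) := by exact_mod_cast key
  refine key'.trans (CQuad_final D ⌊t⌋₊ 3 0 t ht le_rfl hD1 (by linarith))

theorem count_quad3 : ∃ C : ℝ, 0 < C ∧ ∀ t : ℝ, 1 ≤ t →
    ({n : ℕ | 1 ≤ n ∧ (n : ℝ) ≤ t ∧ SqOff 3 (n ^ 2 + n + 1)}.ncard : ℝ) ≤
      C * t ^ ((2 : ℝ) / 3) * (1 + Real.log t) := by
  refine ⟨((4 : ℕ) : ℝ) * 3 * (2 + 2 * Real.log 3), by positivity, fun t ht => ?_⟩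
  have ht0 : (0 : ℝ) ≤ t := by linarith
  set D : ℕ := ⌊2 * t ^ ((2 : ℝ) / 3)⌋₊ with hD
  have hD1 : (D : ℝ) ≤ 2 * t ^ ((2 : ℝ) / 3) := Nat.floor_le (by positivity)
  have hY : ((⌊3 * t⌋₊ : ℕ) : ℝ) ≤ 3 * t := Nat.floor_le (by positivity)
  have hlog := CQuad_log ⌊3 * t⌋₊ (3 * t) (by linarith) hY
  rw [Real.log_mul (by norm_num) (by linarith), mul_add] at hlog
  have key : {n : ℕ | 1 ≤ n ∧ (n : ℝ) ≤ t ∧ SqOff 3 (n ^ 2 + n + 1)}.ncard ≤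
      (Finset.range 4 ×ˢ Finset.range (D + 1)).card * (2 + Nat.log 2 ⌊3 * t⌋₊) := by
    refine CQuad_cover _ _ (fun p : ℕ × ℕ =>
      {n : ℕ | 2 * n + 1 ∈ {x : ℕ | x ≤ ⌊3 * t⌋₊ ∧ ∃ y, 1 * x ^ 2 + 3 = (p.1 * p.2 ^ 3) * y ^ 2}}) _
      ?_ ?_ ?_
    · intro p
      refine (Set.finite_Iic ⌊3 * t⌋₊).subset ?_
      rintro n ⟨hn, -⟩
      simp only [Set.mem_Iic]
      omega
    · intro p
      refine le_trans ?_ (pell_count 3 1 (p.1 * p.2 ^ 3) ⌊3 * t⌋₊ (by norm_num) le_rfl le_rfl)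
      refine Set.ncard_le_ncard_of_injOn (fun n => 2 * n + 1) (fun n hn => hn) ?_
        (CQuad_fin _ _ _ _)
      intro a _ b _ hab
      simp only at hab
      omega
    · rintro n ⟨hn1, hnt, hsq⟩
      obtain ⟨e, a, b, he, hrep⟩ := rep_off 3 (n ^ 2 + n + 1) (by norm_num) (by positivity) hsq
      have he2 : e ≤ 3 := Nat.le_of_dvd (by norm_num) he
      have hea : 1 ≤ e * a ^ 2 := by
        rcases Nat.eq_zero_or_pos (e * a ^ 2) with h | h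
        · rw [h] at hrep
          simp at hrep
        · exact h
      have hb3 : b ^ 3 ≤ n ^ 2 + n + 1 := by
        rw [hrep]
        exact Nat.le_mul_of_pos_left _ hea
      have hb3' : (b : ℝ) ^ 3 ≤ 8 * t ^ 2 := by
        have h1 : ((b ^ 3 : ℕ) : ℝ) ≤ ((n ^ 2 + n + 1 : ℕ) : ℝ) := by exact_mod_cast hb3
        push_cast at h1
        have h2 : (n : ℝ) ^ 2 ≤ t ^ 2 := pow_le_pow_left₀ (by positivity) hnt 2
        nlinarith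
      refine ⟨(e, b), ?_, ?_, 2 * a, ?_⟩
      · rw [Finset.mem_product, Finset.mem_range, Finset.mem_range]
        exact ⟨by simp only; omega, CQuad_dbound b t ht hb3'⟩
      · refine Nat.le_floor ?_
        push_cast
        linarith
      · simp only
        have h4 : 1 * (2 * n + 1) ^ 2 + 3 = 4 * (n ^ 2 + n + 1) := by ring
        rw [h4, hrep]
        ring
  rw [Finset.card_product, Finset.card_range, Finset.card_range] at key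
  have key' : ({n : ℕ | 1 ≤ n ∧ (n : ℝ) ≤ t ∧ SqOff 3 (n ^ 2 + n + 1)}.ncard : ℝ) ≤
      (((4 * (D + 1)) * (2 + Nat.log 2 ⌊3 * t⌋₊) : ℕ) : ℝ) := by exact_mod_cast key
  refine key'.trans (CQuad_final D ⌊3 * t⌋₊ 4 (2 * Real.log 3) t ht (by positivity) hD1 hlog)

end Tuan
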