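import Mathlib

/-!
The list of the classification of the finite simple groups, as a list of names
with their orders.  All divisions below are exact and all subtractions are
subtractions of `1` from a positive number.
-/

namespace Tuan

/-- `m` is squarefull: no prime divides `m` exactly once. -/
def SqFull (m : ℕ) : Prop := ∀ r : ℕ, r.Prime → r ∣ m → r ^ 2 ∣ m

/-- `m` is squarefull away from the prime divisors of `T`. -/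
def SqOff (T m : ℕ) : Prop := ∀ r : ℕ, r.Prime → ¬ r ∣ T → r ∣ m → r ^ 2 ∣ m

/-- The order of `PSL_n(q)`. -/
def ordL (n q : ℕ) : ℕ :=
  q ^ (n * (n - 1) / 2) * (∏ i ∈ Finset.Icc 2 n, (q ^ i - 1)) / Nat.gcd n (q - 1)

/-- The order of `PSU_n(q)`. -/
def ordU (n q : ℕ) : ℕ :=
  q ^ (n * (n - 1) / 2) *
    (∏ i ∈ Finset.Icc 2 n, (if Even i then q ^ i - 1 else q ^ i + 1)) / Nat.gcd n (q + 1)

/-- The order of `PSp_{2n}(q)` and of `Omega_{2n+1}(q)`. -/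
def ordB (n q : ℕ) : ℕ :=
  q ^ (n ^ 2) * (∏ i ∈ Finset.Icc 1 n, (q ^ (2 * i) - 1)) / Nat.gcd 2 (q - 1)

/-- The order of the simple group `D_n(q)`. -/
def ordD (n q : ℕ) : ℕ :=
  q ^ (n * (n - 1)) * (q ^ n - 1) * (∏ i ∈ Finset.Icc 1 (n - 1), (q ^ (2 * i) - 1)) /
    Nat.gcd 4 (q ^ n - 1)

/-- The order of the simple group `2D_n(q)`. -/
def ordD2 (n q : ℕ) : ℕ :=
  q ^ (n * (n - 1)) * (q ^ n + 1) * (∏ i ∈ Finset.Icc 1 (n - 1), (q ^ (2 * i) - 1)) /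
    Nat.gcd 4 (q ^ n + 1)

def ordE6 (q : ℕ) : ℕ :=
  q ^ 36 * (q ^ 12 - 1) * (q ^ 9 - 1) * (q ^ 8 - 1) * (q ^ 6 - 1) * (q ^ 5 - 1) * (q ^ 2 - 1) /
    Nat.gcd 3 (q - 1)

def ordE7 (q : ℕ) : ℕ :=
  q ^ 63 * (q ^ 18 - 1) * (q ^ 14 - 1) * (q ^ 12 - 1) * (q ^ 10 - 1) * (q ^ 8 - 1) *
    (q ^ 6 - 1) * (q ^ 2 - 1) / Nat.gcd 2 (q - 1)

def ordE8 (q : ℕ) : ℕ :=
  q ^ 120 * (q ^ 30 - 1) * (q ^ 24 - 1) * (q ^ 20 - 1) * (q ^ 18 - 1) * (q ^ 14 - 1) *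
    (q ^ 12 - 1) * (q ^ 8 - 1) * (q ^ 2 - 1)

def ordF4 (q : ℕ) : ℕ :=
  q ^ 24 * (q ^ 12 - 1) * (q ^ 8 - 1) * (q ^ 6 - 1) * (q ^ 2 - 1)

def ordG2 (q : ℕ) : ℕ := q ^ 6 * (q ^ 6 - 1) * (q ^ 2 - 1)

/-- The order of `2E_6(q)`. -/
def ordE62 (q : ℕ) : ℕ :=
  q ^ 36 * (q ^ 12 - 1) * (q ^ 9 + 1) * (q ^ 8 - 1) * (q ^ 6 - 1) * (q ^ 5 + 1) * (q ^ 2 - 1) /
    Nat.gcd 3 (q + 1)

/-- The order of `3D_4(q)`. -/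
def ordD43 (q : ℕ) : ℕ := q ^ 12 * (q ^ 8 + q ^ 4 + 1) * (q ^ 6 - 1) * (q ^ 2 - 1)

/-- The order of the Suzuki group `Sz(q)`. -/
def ordSz (q : ℕ) : ℕ := q ^ 2 * (q ^ 2 + 1) * (q - 1)

/-- The order of the Ree group `2G_2(q)`. -/
def ordRee (q : ℕ) : ℕ := q ^ 3 * (q ^ 3 + 1) * (q - 1)

/-- The order of the Ree group `2F_4(q)`. -/
def ordF42 (q : ℕ) : ℕ := q ^ 12 * (q ^ 6 + 1) * (q ^ 4 - 1) * (q ^ 3 + 1) * (q - 1)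

/-- The orders of the 26 sporadic groups: `M11, M12, M22, M23, M24, J1, J2, J3, J4, HS, McL,
He, Ru, Suz, ON, Co3, Co2, Co1, Fi22, Fi23, Fi24', HN, Ly, Th, B, M`. -/
def ordSpor : Fin 26 → ℕ := ![
  2 ^ 4 * 3 ^ 2 * 5 * 11,
  2 ^ 6 * 3 ^ 3 * 5 * 11,
  2 ^ 7 * 3 ^ 2 * 5 * 7 * 11,
  2 ^ 7 * 3 ^ 2 * 5 * 7 * 11 * 23,
  2 ^ 10 * 3 ^ 3 * 5 * 7 * 11 * 23,
  2 ^ 3 * 3 * 5 * 7 * 11 * 19,
  2 ^ 7 * 3 ^ 3 * 5 ^ 2 * 7,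
  2 ^ 7 * 3 ^ 5 * 5 * 17 * 19,
  2 ^ 21 * 3 ^ 3 * 5 * 7 * 11 ^ 3 * 23 * 29 * 31 * 37 * 43,
  2 ^ 9 * 3 ^ 2 * 5 ^ 3 * 7 * 11,
  2 ^ 7 * 3 ^ 6 * 5 ^ 3 * 7 * 11,
  2 ^ 10 * 3 ^ 3 * 5 ^ 2 * 7 ^ 3 * 17,
  2 ^ 14 * 3 ^ 3 * 5 ^ 3 * 7 * 13 * 29,
  2 ^ 13 * 3 ^ 7 * 5 ^ 2 * 7 * 11 * 13,
  2 ^ 9 * 3 ^ 4 * 5 * 7 ^ 3 * 11 * 19 * 31,
  2 ^ 10 * 3 ^ 7 * 5 ^ 3 * 7 * 11 * 23,
  2 ^ 18 * 3 ^ 6 * 5 ^ 3 * 7 * 11 * 23,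
  2 ^ 21 * 3 ^ 9 * 5 ^ 4 * 7 ^ 2 * 11 * 13 * 23,
  2 ^ 17 * 3 ^ 9 * 5 ^ 2 * 7 * 11 * 13,
  2 ^ 18 * 3 ^ 13 * 5 ^ 2 * 7 * 11 * 13 * 17 * 23,
  2 ^ 21 * 3 ^ 16 * 5 ^ 2 * 7 ^ 3 * 11 * 13 * 17 * 23 * 29,
  2 ^ 14 * 3 ^ 6 * 5 ^ 6 * 7 * 11 * 19,
  2 ^ 8 * 3 ^ 7 * 5 ^ 6 * 7 * 11 * 31 * 37 * 67,
  2 ^ 15 * 3 ^ 10 * 5 ^ 3 * 7 ^ 2 * 13 * 19 * 31,
  2 ^ 41 * 3 ^ 13 * 5 ^ 6 * 7 ^ 2 * 11 * 13 * 17 * 19 * 23 * 31 * 47,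
  2 ^ 46 * 3 ^ 20 * 5 ^ 9 * 7 ^ 6 * 11 ^ 2 * 13 ^ 3 * 17 * 19 * 23 * 29 * 31 * 41 * 47 * 59 * 71]

/-- The names of the finite simple groups. -/
inductive Name : Type
  | cyclic (p : ℕ) : Name
  | alt (n : ℕ) : Name
  | L (n q : ℕ) : Name
  | U (n q : ℕ) : Name
  | B (n q : ℕ) : Name
  | C (n q : ℕ) : Name
  | D (n q : ℕ) : Name
  | D2 (n q : ℕ) : Name
  | E6 (q : ℕ) : Name
  | E7 (q : ℕ) : Name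
  | E8 (q : ℕ) : Name
  | F4 (q : ℕ) : Name
  | G2 (q : ℕ) : Name
  | E62 (q : ℕ) : Name
  | D43 (q : ℕ) : Name
  | Sz (m : ℕ) : Name
  | Ree (m : ℕ) : Name
  | F42 (m : ℕ) : Name
  | tits : Name
  | sporadic (i : Fin 26) : Name

/-- The order of the group with the given name. -/
def order : Name → ℕ
  | .cyclic p => p
  | .alt n => n.factorial / 2
  | .L n q => ordL n q
  | .U n q => ordU n q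
  | .B n q => ordB n q
  | .C n q => ordB n q
  | .D n q => ordD n q
  | .D2 n q => ordD2 n q
  | .E6 q => ordE6 q
  | .E7 q => ordE7 q
  | .E8 q => ordE8 q
  | .F4 q => ordF4 q
  | .G2 q => ordG2 q
  | .E62 q => ordE62 q
  | .D43 q => ordD43 q
  | .Sz m => ordSz (2 ^ (2 * m + 1))
  | .Ree m => ordRee (3 ^ (2 * m + 1))
  | .F42 m => ordF42 (2 ^ (2 * m + 1))
  | .tits => 2 ^ 11 * 3 ^ 3 * 5 ^ 2 * 13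
  | .sporadic i => ordSpor i

/-- The parameters for which the name denotes a finite simple group. -/
def Valid : Name → Prop
  | .cyclic p => p.Prime
  | .alt n => 5 ≤ n
  | .L n q => 2 ≤ n ∧ IsPrimePow q ∧ ¬ (n = 2 ∧ q ≤ 3)
  | .U n q => 3 ≤ n ∧ IsPrimePow q ∧ ¬ (n = 3 ∧ q = 2)
  | .B n q => 2 ≤ n ∧ IsPrimePow q ∧ ¬ (n = 2 ∧ q = 2)
  | .C n q => 3 ≤ n ∧ IsPrimePow q
  | .D n q => 4 ≤ n ∧ IsPrimePow q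
  | .D2 n q => 4 ≤ n ∧ IsPrimePow q
  | .E6 q => IsPrimePow q
  | .E7 q => IsPrimePow q
  | .E8 q => IsPrimePow q
  | .F4 q => IsPrimePow q
  | .G2 q => IsPrimePow q ∧ q ≠ 2
  | .E62 q => IsPrimePow q
  | .D43 q => IsPrimePow q
  | .Sz m => 1 ≤ m
  | .Ree m => 1 ≤ m
  | .F42 m => 1 ≤ m
  | .tits => True
  | .sporadic _ => True

/-- The names of simple groups with property (*) and order at most `X`. -/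
def starSet (X : ℕ) : Set Name := {s | Valid s ∧ order s ≤ X ∧ SqFull (order s)}

/-- The bound function. -/
noncomputable def bd (X : ℕ) : ℝ := (X : ℝ) ^ ((1 : ℝ) / 15) * Real.log X

/-- A set-valued function is small if its values are finite with at most `C * bd X` elements. -/
def Small (S : ℕ → Set Name) : Prop :=
  ∃ C : ℝ, 0 < C ∧ ∀ X : ℕ, 2 ≤ X → (S X).Finite ∧ ((S X).ncard : ℝ) ≤ C * bd X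

end Tuan
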