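import Pool.Agent.Tuan.Def

/-!
MODULE Grid (size 3).  General lemmas on `Small` set-valued functions.

SKETCH.  `bd X = X^(1/15) * log X ≥ log 2 > 0.69` for `X ≥ 2`.
`grid_small`: the set is contained in the image under `(n,q) ↦ g n q` of the finite box
`n ≤ Nat.log 2 (16 X)`, `q ≤ ⌊(16 X)^(1/15)⌋₊`, whose cardinality is at most
`(Nat.log 2 (16 X) + 1) * ((16 X)^(1/15) + 1) ≤ C * log X * X^(1/15)`.
`line_small`, `log_small`: the same with one parameter.
-/

namespace Tuan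

private theorem Grid_small_of_image {α : Type} (g : α → Name) (S : ℕ → Set Name) (C : ℝ)
    (hC : 0 < C) (B : ℕ → Finset α) (hB : ∀ X, 2 ≤ X → ((B X).card : ℝ) ≤ C * bd X)
    (h : ∀ X, ∀ s ∈ S X, ∃ a ∈ B X, s = g a) : Small S := by
  classical
  refine ⟨C, hC, fun X hX => ?_⟩
  have hsub : S X ⊆ ((B X).image g : Set Name) := by
    intro s hs
    obtain ⟨a, ha, rfl⟩ := h X s hs
    exact Finset.mem_coe.2 (Finset.mem_image_of_mem g ha)
  have hfin : (((B X).image g : Finset Name) : Set Name).Finite := Finset.finite_toSet _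
  refine ⟨hfin.subset hsub, ?_⟩
  have h1 : (S X).ncard ≤ ((B X).image g).card := by
    rw [← Set.ncard_coe_finset]
    exact Set.ncard_le_ncard hsub hfin
  have h2 : ((B X).image g).card ≤ (B X).card := Finset.card_image_le
  calc ((S X).ncard : ℝ) ≤ ((B X).card : ℝ) := by exact_mod_cast h1.trans h2
    _ ≤ C * bd X := hB X hX

private theorem Grid_root (X : ℕ) (hX : 2 ≤ X) : (1 : ℝ) ≤ (X : ℝ) ^ ((1 : ℝ) / 15) :=
  Real.one_le_rpow (by exact_mod_cast (by omega : 1 ≤ X)) (by norm_num)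

private theorem Grid_log (X : ℕ) (hX : 2 ≤ X) : (1 : ℝ) ≤ 2 * Real.log X := by
  have h1 : Real.log 2 ≤ Real.log X := Real.log_le_log (by norm_num) (by exact_mod_cast hX)
  have h2 := Real.log_two_gt_d9
  linarith

private theorem Grid_half (X : ℕ) (hX : 2 ≤ X) : (1 : ℝ) ≤ 2 * bd X := by
  unfold bd
  have h1 := Grid_root X hX
  have h2 := Grid_log X hX
  nlinarith

private theorem Grid_q (X : ℕ) (hX : 2 ≤ X) :
    ((Nat.floor ((16 * X : ℝ) ^ ((1 : ℝ) / 15)) + 1 : ℕ) : ℝ) ≤ 3 * (X : ℝ) ^ ((1 : ℝ) / 15) := by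
  have h1 := Grid_root X hX
  have hX0 : (0 : ℝ) ≤ X := Nat.cast_nonneg _
  have h2 : (16 * X : ℝ) ^ ((1 : ℝ) / 15) ≤ 2 * (X : ℝ) ^ ((1 : ℝ) / 15) := by
    rw [Real.mul_rpow (by norm_num) hX0]
    have h3 : (16 : ℝ) ^ ((1 : ℝ) / 15) ≤ 2 := by
      calc (16 : ℝ) ^ ((1 : ℝ) / 15) ≤ ((2 : ℝ) ^ (15 : ℝ)) ^ ((1 : ℝ) / 15) :=
            Real.rpow_le_rpow (by norm_num) (by norm_num) (by norm_num)
        _ = 2 := by
            rw [← Real.rpow_mul (by norm_num)]
            norm_num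
    exact mul_le_mul_of_nonneg_right h3 (by linarith)
  have h4 : ((Nat.floor ((16 * X : ℝ) ^ ((1 : ℝ) / 15)) : ℕ) : ℝ) ≤
      (16 * X : ℝ) ^ ((1 : ℝ) / 15) := Nat.floor_le (by positivity)
  push_cast
  linarith

private theorem Grid_q_mem (X q : ℕ) (h : q ^ 15 ≤ 16 * X) :
    q ∈ Finset.range (Nat.floor ((16 * X : ℝ) ^ ((1 : ℝ) / 15)) + 1) := by
  rw [Finset.mem_range, Nat.lt_add_one_iff]
  apply Nat.le_floor
  have h1 : ((q : ℝ) ^ 15) ≤ 16 * X := by exact_mod_cast h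
  calc (q : ℝ) = ((q : ℝ) ^ (15 : ℕ)) ^ ((1 : ℝ) / 15) := by
        rw [← Real.rpow_natCast, ← Real.rpow_mul (Nat.cast_nonneg _)]
        norm_num
    _ ≤ (16 * X : ℝ) ^ ((1 : ℝ) / 15) := Real.rpow_le_rpow (by positivity) h1 (by norm_num)

private theorem Grid_n (Y : ℕ) (hY : 1 ≤ Y) : (Nat.log 2 Y : ℝ) * Real.log 2 ≤ Real.log Y := by
  have h1 := Nat.pow_log_le_self 2 (x := Y) (by omega)
  have h2 : ((2 : ℝ) ^ (Nat.log 2 Y)) ≤ Y := by exact_mod_cast h1
  have h3 := Real.log_le_log (by positivity) h2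
  rwa [Real.log_pow] at h3

theorem grid_small (g : ℕ → ℕ → Name) (S : ℕ → Set Name)
    (h : ∀ X, ∀ s ∈ S X, ∃ n q, s = g n q ∧ 2 ^ n ≤ 16 * X ∧ q ^ 15 ≤ 16 * X) : Small S := by
  refine Grid_small_of_image (fun a : ℕ × ℕ => g a.1 a.2) S 48 (by norm_num)
    (fun X => (Finset.range (Nat.log 2 (16 * X) + 1)) ×ˢ
      (Finset.range (Nat.floor ((16 * X : ℝ) ^ ((1 : ℝ) / 15)) + 1))) ?_ ?_
  · intro X hX
    rw [Finset.card_product, Finset.card_range, Finset.card_range, Nat.cast_mul]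
    have h1 := Grid_q X hX
    have h2 := Grid_n (16 * X) (by omega)
    have h3 : Real.log ((16 * X : ℕ) : ℝ) = 4 * Real.log 2 + Real.log X := by
      have hX0 : (X : ℝ) ≠ 0 := by
        have : X ≠ 0 := by omega
        exact_mod_cast this
      push_cast
      rw [Real.log_mul (by norm_num) hX0]
      have : (16 : ℝ) = 2 ^ 4 := by norm_num
      rw [this, Real.log_pow]
      norm_num
    rw [h3] at h2
    have h4 : Real.log 2 ≤ Real.log X := Real.log_le_log (by norm_num) (by exact_mod_cast hX)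
    have h5 := Real.log_two_gt_d9
    have h6 : ((Nat.log 2 (16 * X) + 1 : ℕ) : ℝ) ≤ 16 * Real.log X := by
      push_cast
      by_contra hc
      push Not at hc
      have : (16 * Real.log X - 1) * Real.log 2 < (Nat.log 2 (16 * X) : ℝ) * Real.log 2 := by
        apply mul_lt_mul_of_pos_right _ (by linarith)
        linarith
      nlinarith
    have h7 := Grid_root X hX
    unfold bd
    calc ((Nat.log 2 (16 * X) + 1 : ℕ) : ℝ) *
          ((Nat.floor ((16 * X : ℝ) ^ ((1 : ℝ) / 15)) + 1 : ℕ) : ℝ)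
        ≤ (16 * Real.log X) * (3 * (X : ℝ) ^ ((1 : ℝ) / 15)) := by
          apply mul_le_mul h6 h1 (by positivity) (by linarith)
      _ = 48 * ((X : ℝ) ^ ((1 : ℝ) / 15) * Real.log X) := by ring
  · intro X s hs
    obtain ⟨n, q, rfl, h1, h2⟩ := h X s hs
    refine ⟨(n, q), Finset.mem_product.2 ⟨?_, Grid_q_mem X q h2⟩, rfl⟩
    exact Finset.mem_range.2 (Nat.lt_add_one_iff.2 (Nat.le_log_of_pow_le (by norm_num) h1))

theorem line_small (g : ℕ → Name) (S : ℕ → Set Name)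
    (h : ∀ X, ∀ s ∈ S X, ∃ q, s = g q ∧ q ^ 15 ≤ 16 * X) : Small S := by
  refine Grid_small_of_image g S 6 (by norm_num)
    (fun X => Finset.range (Nat.floor ((16 * X : ℝ) ^ ((1 : ℝ) / 15)) + 1)) ?_ ?_
  · intro X hX
    rw [Finset.card_range]
    have h1 := Grid_q X hX
    have h2 := Grid_log X hX
    have h3 := Grid_root X hX
    unfold bd
    nlinarith
  · intro X s hs
    obtain ⟨q, rfl, h2⟩ := h X s hs
    exact ⟨q, Grid_q_mem X q h2, rfl⟩

theorem log_small (g : ℕ → Name) (S : ℕ → Set Name)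
    (h : ∀ X, ∀ s ∈ S X, ∃ m, s = g m ∧ 2 ^ m ≤ X) : Small S := by
  refine Grid_small_of_image g S 4 (by norm_num) (fun X => Finset.range (Nat.log 2 X + 1)) ?_ ?_
  · intro X hX
    rw [Finset.card_range]
    have h2 := Grid_n X (by omega)
    have h4 : Real.log 2 ≤ Real.log X := Real.log_le_log (by norm_num) (by exact_mod_cast hX)
    have h5 := Real.log_two_gt_d9
    have h6 : ((Nat.log 2 X + 1 : ℕ) : ℝ) ≤ 4 * Real.log X := by
      push_cast
      by_contra hc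
      push Not at hc
      have : (4 * Real.log X - 1) * Real.log 2 < (Nat.log 2 X : ℝ) * Real.log 2 := by
        apply mul_lt_mul_of_pos_right _ (by linarith)
        linarith
      nlinarith
    have h7 := Grid_root X hX
    unfold bd
    nlinarith
  · intro X s hs
    obtain ⟨m, rfl, h2⟩ := h X s hs
    exact ⟨m, Finset.mem_range.2 (Nat.lt_add_one_iff.2 (Nat.le_log_of_pow_le (by norm_num) h2)),
      rfl⟩

theorem union_small (S T : ℕ → Set Name) (hS : Small S) (hT : Small T) :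
    Small (fun X => S X ∪ T X) := by
  obtain ⟨C, hC, h1⟩ := hS
  obtain ⟨D, hD, h2⟩ := hT
  refine ⟨C + D, by linarith, fun X hX => ?_⟩
  obtain ⟨f1, b1⟩ := h1 X hX
  obtain ⟨f2, b2⟩ := h2 X hX
  refine ⟨f1.union f2, ?_⟩
  have h3 : ((S X ∪ T X).ncard : ℝ) ≤ ((S X).ncard : ℝ) + (T X).ncard := by
    exact_mod_cast Set.ncard_union_le (S X) (T X)
  linarith

theorem const_small (F : Set Name) (hF : F.Finite) : Small (fun _ => F) := by
  refine ⟨2 * (F.ncard + 1), by positivity, fun X hX => ⟨hF, ?_⟩⟩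
  have h1 := Grid_half X hX
  have h2 : (0 : ℝ) ≤ F.ncard := Nat.cast_nonneg _
  nlinarith

theorem subset_small (S T : ℕ → Set Name) (hT : Small T) (h : ∀ X, S X ⊆ T X) : Small S := by
  obtain ⟨C, hC, h1⟩ := hT
  refine ⟨C, hC, fun X hX => ?_⟩
  obtain ⟨f1, b1⟩ := h1 X hX
  refine ⟨f1.subset (h X), le_trans ?_ b1⟩
  exact_mod_cast Set.ncard_le_ncard (h X) f1

end Tuan
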