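import Pool.Agent.Tuan.Def

/-!
MODULE LowA (size 3).  Lower bounds for the orders in types `A_n` and `2A_n`.

SKETCH.  `n = 4`: `ordL 4 q = q^6 (q^2-1)(q^3-1)(q^4-1) / gcd 4 (q-1)`, `gcd ≤ 4`,
`q^2 - 1 ≥ 3/4 q^2`, `q^3 - 1 ≥ 7/8 q^3`, `q^4 - 1 ≥ 15/16 q^4`, so the order is at least
`q^15 * 0.15`; the same for `U`.  (Write `q^2 - 1` etc. over `ℕ` with `4 (q^2-1) ≥ 3 q^2`;
`Nat.div` : from `g ≤ 4` we get `N / g ≥ N / 4`.)
`n ≥ 5`: `q^i - 1 ≥ q^(i-1)` and `gcd n (q-1) ≤ q - 1 < q`, so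
`ordL n q ≥ q^(n(n-1)/2 + n(n-1)/2 - 1) = q^(n(n-1) - 1)` and `n(n-1) - 1 ≥ 15 + n - 1`.  For `U`:
`gcd n (q+1) ≤ q + 1 ≤ q^2`, exponent `≥ n(n-1) - 2 ≥ 15 + n - 2`.
(Prove by induction on `n` that `∏ i ∈ Icc 2 n, (q^i - 1) ≥ q^(n(n-1)/2)`.)
-/

namespace Tuan

private theorem lowA_prod (q : ℕ) (f : ℕ → ℕ) (hf : ∀ i, 2 ≤ i → q ^ (i - 1) ≤ f i) (n : ℕ) :
    q ^ (n * (n - 1) / 2) ≤ ∏ i ∈ Finset.Icc 2 n, f i := by
  induction n with
  | zero => simp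
  | succ n ih =>
    rcases Nat.eq_zero_or_pos n with rfl | hn
    · simp
    · rw [Finset.prod_Icc_succ_top (by omega), Nat.triangle_succ, pow_add]
      exact Nat.mul_le_mul ih (by simpa using hf (n + 1) (by omega))

private theorem lowA_pred (q i : ℕ) (hq : 2 ≤ q) (hi : 2 ≤ i) : q ^ (i - 1) ≤ q ^ i - 1 := by
  obtain ⟨j, rfl⟩ : ∃ j, i = j + 1 := ⟨i - 1, by omega⟩
  rw [Nat.add_sub_cancel]
  have h1 : 1 ≤ q ^ j := Nat.one_le_pow _ _ (by omega)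
  have h2 : q ^ (j + 1) = q ^ j * q := pow_succ q j
  have h3 : q ^ j * 2 ≤ q ^ j * q := Nat.mul_le_mul_left _ hq
  omega

private theorem lowA_two (n : ℕ) : 2 * (n * (n - 1) / 2) = n * (n - 1) := by
  have : 2 ∣ n * (n - 1) := (Nat.even_mul_pred_self n).two_dvd
  exact Nat.mul_div_cancel' this

/-- general form: `N / g ≥ q ^ (n (n-1) - e)` when `g ≤ q ^ e`. -/
private theorem lowA_gen (n q e g P : ℕ) (hn : 5 ≤ n) (hq : 2 ≤ q) (he : e ≤ 2) (hg0 : 0 < g) (hg : g ≤ q ^ e)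
    (hP : q ^ (n * (n - 1) / 2) ≤ P) :
    q ^ 15 ≤ 16 * (q ^ (n * (n - 1) / 2) * P / g) ∧ 2 ^ n ≤ 16 * (q ^ (n * (n - 1) / 2) * P / g) := by
  have h20 : 4 * n ≤ n * (n - 1) := by
    rw [mul_comm]
    exact Nat.mul_le_mul_left _ (by omega)
  have h1 : q ^ (n * (n - 1)) ≤ q ^ (n * (n - 1) / 2) * P := by
    calc q ^ (n * (n - 1)) = q ^ (n * (n - 1) / 2) * q ^ (n * (n - 1) / 2) := by
          rw [← pow_add, ← two_mul, lowA_two]
      _ ≤ _ := Nat.mul_le_mul_left _ hP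
  have h2 : q ^ (n * (n - 1) - e) ≤ q ^ (n * (n - 1) / 2) * P / g := by
    rw [Nat.le_div_iff_mul_le hg0]
    calc q ^ (n * (n - 1) - e) * g ≤ q ^ (n * (n - 1) - e) * q ^ e := Nat.mul_le_mul_left _ hg
      _ = q ^ (n * (n - 1)) := by rw [← pow_add]; congr 1; omega
      _ ≤ _ := h1
  have h3 : q ^ 15 ≤ q ^ (n * (n - 1) - e) := Nat.pow_le_pow_right (by omega) (by omega)
  have h4 : q ^ n ≤ q ^ (n * (n - 1) - e) := Nat.pow_le_pow_right (by omega) (by omega)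
  have h5 : 2 ^ n ≤ q ^ n := Nat.pow_le_pow_left hq n
  constructor <;> omega

private theorem lowA_four (q g a b c : ℕ) (hq : 2 ≤ q) (hg0 : 0 < g) (hg : g ≤ 4)
    (ha : 3 * q ^ 2 ≤ 4 * a) (hb : 7 * q ^ 3 ≤ 8 * b) (hc : 15 * q ^ 4 ≤ 16 * c) :
    q ^ 15 ≤ 16 * (q ^ 6 * (a * b * c) / g) ∧ 2 ^ 4 ≤ 16 * (q ^ 6 * (a * b * c) / g) := by
  have h1 : 315 * q ^ 15 ≤ 512 * (q ^ 6 * (a * b * c)) := by
    have h := Nat.mul_le_mul (Nat.mul_le_mul ha hb) hc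
    have h' := Nat.mul_le_mul_left (q ^ 6) h
    calc 315 * q ^ 15 = q ^ 6 * (3 * q ^ 2 * (7 * q ^ 3) * (15 * q ^ 4)) := by ring
      _ ≤ q ^ 6 * (4 * a * (8 * b) * (16 * c)) := h'
      _ = 512 * (q ^ 6 * (a * b * c)) := by ring
  have h2 : q ^ 6 * (a * b * c) / 4 ≤ q ^ 6 * (a * b * c) / g := Nat.div_le_div_left hg hg0
  have h3 : 2 ^ 15 ≤ q ^ 15 := Nat.pow_le_pow_left hq 15
  set N := q ^ 6 * (a * b * c)
  norm_num at h3
  constructor <;> omega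

private theorem lowA_sub (q i : ℕ) (hq : 2 ≤ q) : 2 ^ i ≤ q ^ i := Nat.pow_le_pow_left hq i

theorem low_L (n q : ℕ) (hn : 4 ≤ n) (hq : 2 ≤ q) :
    q ^ 15 ≤ 16 * ordL n q ∧ 2 ^ n ≤ 16 * ordL n q := by
  unfold ordL
  rcases Nat.lt_or_ge 4 n with h5 | h4
  · have hg0 : 0 < Nat.gcd n (q - 1) := Nat.gcd_pos_of_pos_left _ (by omega)
    have hg : Nat.gcd n (q - 1) ≤ q ^ 1 := by
      have := Nat.gcd_le_right n (show 0 < q - 1 by omega)
      rw [pow_one]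
      omega
    exact lowA_gen n q 1 _ _ (by omega) hq (by norm_num) hg0 hg
      (lowA_prod q (fun i => q ^ i - 1) (fun i hi => lowA_pred q i hq hi) n)
  · obtain rfl : n = 4 := by omega
    have hg0 : 0 < Nat.gcd 4 (q - 1) := Nat.gcd_pos_of_pos_left _ (by omega)
    have hg : Nat.gcd 4 (q - 1) ≤ 4 := Nat.gcd_le_left (m := 4) (q - 1) (by norm_num)
    have e : (∏ i ∈ Finset.Icc 2 4, (q ^ i - 1)) = (q ^ 2 - 1) * (q ^ 3 - 1) * (q ^ 4 - 1) := by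
      rw [show Finset.Icc 2 4 = {2, 3, 4} by decide]
      rw [Finset.prod_insert (by decide), Finset.prod_insert (by decide), Finset.prod_singleton]
      ring
    rw [e]
    have h2 := lowA_sub q 2 hq
    have h3 := lowA_sub q 3 hq
    have h4 := lowA_sub q 4 hq
    exact lowA_four q _ _ _ _ hq hg0 hg (by omega) (by omega) (by omega)

theorem low_U (n q : ℕ) (hn : 4 ≤ n) (hq : 2 ≤ q) :
    q ^ 15 ≤ 16 * ordU n q ∧ 2 ^ n ≤ 16 * ordU n q := by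
  unfold ordU
  rcases Nat.lt_or_ge 4 n with h5 | h4
  · have hg0 : 0 < Nat.gcd n (q + 1) := Nat.gcd_pos_of_pos_left _ (by omega)
    have hg : Nat.gcd n (q + 1) ≤ q ^ 2 := by
      have := Nat.gcd_le_right n (show 0 < q + 1 by omega)
      nlinarith
    refine lowA_gen n q 2 _ _ (by omega) hq (by norm_num) hg0 hg
      (lowA_prod q (fun i => if Even i then q ^ i - 1 else q ^ i + 1) (fun i hi => ?_) n)
    have := lowA_pred q i hq hi
    split_ifs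
    · exact this
    · omega
  · obtain rfl : n = 4 := by omega
    have hg0 : 0 < Nat.gcd 4 (q + 1) := Nat.gcd_pos_of_pos_left _ (by omega)
    have hg : Nat.gcd 4 (q + 1) ≤ 4 := Nat.gcd_le_left (m := 4) (q + 1) (by norm_num)
    have e : (∏ i ∈ Finset.Icc 2 4, (if Even i then q ^ i - 1 else q ^ i + 1)) =
        (q ^ 2 - 1) * (q ^ 3 + 1) * (q ^ 4 - 1) := by
      rw [show Finset.Icc 2 4 = {2, 3, 4} by decide]
      rw [Finset.prod_insert (by decide), Finset.prod_insert (by decide), Finset.prod_singleton]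
      rw [if_pos (by decide), if_neg (by decide), if_pos (by decide)]
      ring
    rw [e]
    have h2 := lowA_sub q 2 hq
    have h3 := lowA_sub q 3 hq
    have h4 := lowA_sub q 4 hq
    exact lowA_four q _ _ _ _ hq hg0 hg (by omega) (by omega) (by omega)

end Tuan
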