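import Pool.Agent.Tuan.Def

/-!
MODULE LowB (size 3).  Lower bounds for the orders in types `B_n, C_n, D_n, 2D_n`.

SKETCH.  `q^(2i) - 1 ≥ q^(2i-1)`, so `∏ i ∈ Icc 1 n, (q^(2i) - 1) ≥ q^(n^2)` (induction) and
`ordB n q ≥ q^(2 n^2) / 2`, with `2 n^2 ≥ 15 + n` for `n ≥ 3`.
`ordD n q ≥ q^(n(n-1)) q^(n-1) q^((n-1)^2) / 4 = q^(2n(n-1)) / 4`, `2n(n-1) ≥ 15 + n` for `n ≥ 4`;
`ordD2` the same with `q^n + 1 ≥ q^n`.  (gcds are at most `2`, `4`; to handle the floor of the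
division use `N / g ≥ N / 4` and `16 * (N / 4) ≥ N` for `N ≥ 4`.)
-/

namespace Tuan

private theorem LowB_core {P g : ℕ} (hg : 0 < g) (hg4 : g ≤ 4) (hP : 4 ≤ P) : P ≤ 16 * (P / g) := by
  have h1 : P / 4 ≤ P / g := Nat.div_le_div_left hg4 hg
  omega

private theorem LowB_step {q : ℕ} (hq : 2 ≤ q) (k : ℕ) : q ^ k ≤ q ^ (k + 1) - 1 := by
  have h1 : 0 < q ^ k := Nat.pow_pos (by omega)
  have h2 : q ^ (k + 1) = q ^ k * q := pow_succ q k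
  have h3 : q ^ k * 2 ≤ q ^ k * q := Nat.mul_le_mul_left _ hq
  omega

private theorem LowB_prod {q : ℕ} (hq : 2 ≤ q) (m : ℕ) :
    q ^ (m ^ 2) ≤ ∏ i ∈ Finset.Icc 1 m, (q ^ (2 * i) - 1) := by
  induction m with
  | zero => simp
  | succ m ih =>
    rw [Finset.prod_Icc_succ_top (by omega)]
    have h1 : q ^ ((m + 1) ^ 2) = q ^ (m ^ 2) * q ^ (2 * m + 1) := by
      rw [← pow_add]
      congr 1
      ring
    rw [h1]
    have h2 := LowB_step hq (2 * m + 1)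
    rw [show 2 * m + 1 + 1 = 2 * (m + 1) by ring] at h2
    exact Nat.mul_le_mul ih h2

private theorem LowB_fin {n q k P m : ℕ} (hq : 2 ≤ q) (hk : 15 + n ≤ k) (hP : q ^ k ≤ P) (hm : P ≤ 16 * m) :
    q ^ 15 ≤ 16 * m ∧ 2 ^ n ≤ 16 * m := by
  constructor
  · exact (Nat.pow_le_pow_right (by omega) (by omega)).trans (hP.trans hm)
  · calc 2 ^ n ≤ q ^ n := Nat.pow_le_pow_left hq n
      _ ≤ q ^ k := Nat.pow_le_pow_right (by omega) (by omega)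
      _ ≤ 16 * m := hP.trans hm

private theorem LowB_four {q k P : ℕ} (hq : 2 ≤ q) (hk : 15 ≤ k) (hP : q ^ k ≤ P) : 4 ≤ P := by
  calc 4 = 2 ^ 2 := by norm_num
    _ ≤ 2 ^ k := Nat.pow_le_pow_right (by norm_num) (by omega)
    _ ≤ q ^ k := Nat.pow_le_pow_left hq k
    _ ≤ P := hP

theorem low_B (n q : ℕ) (hn : 3 ≤ n) (hq : 2 ≤ q) :
    q ^ 15 ≤ 16 * ordB n q ∧ 2 ^ n ≤ 16 * ordB n q := by
  have hP : q ^ (n ^ 2 + n ^ 2) ≤ q ^ (n ^ 2) * (∏ i ∈ Finset.Icc 1 n, (q ^ (2 * i) - 1)) := by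
    rw [pow_add]
    exact Nat.mul_le_mul_left _ (LowB_prod hq n)
  have hk : 15 + n ≤ n ^ 2 + n ^ 2 := by nlinarith
  refine LowB_fin hq hk hP ?_
  unfold ordB
  have hg : 0 < Nat.gcd 2 (q - 1) := Nat.gcd_pos_of_pos_left _ (by norm_num)
  have hg4 : Nat.gcd 2 (q - 1) ≤ 4 := (Nat.gcd_le_left _ (by norm_num)).trans (by norm_num)
  exact LowB_core hg hg4 (LowB_four hq (by omega) hP)

theorem low_D (n q : ℕ) (hn : 4 ≤ n) (hq : 2 ≤ q) :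
    q ^ 15 ≤ 16 * ordD n q ∧ 2 ^ n ≤ 16 * ordD n q := by
  obtain ⟨m, rfl⟩ : ∃ m, n = m + 1 := ⟨n - 1, by omega⟩
  have hP : q ^ ((m + 1) * m + m + m ^ 2) ≤
      q ^ ((m + 1) * m) * (q ^ (m + 1) - 1) * (∏ i ∈ Finset.Icc 1 m, (q ^ (2 * i) - 1)) := by
    rw [pow_add, pow_add]
    exact Nat.mul_le_mul (Nat.mul_le_mul_left _ (LowB_step hq m)) (LowB_prod hq m)
  have hk : 15 + (m + 1) ≤ (m + 1) * m + m + m ^ 2 := by nlinarith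
  refine LowB_fin hq hk hP ?_
  unfold ordD
  rw [Nat.add_sub_cancel]
  have hg : 0 < Nat.gcd 4 (q ^ (m + 1) - 1) := Nat.gcd_pos_of_pos_left _ (by norm_num)
  have hg4 : Nat.gcd 4 (q ^ (m + 1) - 1) ≤ 4 := Nat.gcd_le_left _ (by norm_num)
  exact LowB_core hg hg4 (LowB_four hq (by omega) hP)

theorem low_D2 (n q : ℕ) (hn : 4 ≤ n) (hq : 2 ≤ q) :
    q ^ 15 ≤ 16 * ordD2 n q ∧ 2 ^ n ≤ 16 * ordD2 n q := by
  obtain ⟨m, rfl⟩ : ∃ m, n = m + 1 := ⟨n - 1, by omega⟩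
  have hP : q ^ ((m + 1) * m + m + m ^ 2) ≤
      q ^ ((m + 1) * m) * (q ^ (m + 1) + 1) * (∏ i ∈ Finset.Icc 1 m, (q ^ (2 * i) - 1)) := by
    rw [pow_add, pow_add]
    refine Nat.mul_le_mul (Nat.mul_le_mul_left _ ?_) (LowB_prod hq m)
    have := LowB_step hq m
    omega
  have hk : 15 + (m + 1) ≤ (m + 1) * m + m + m ^ 2 := by nlinarith
  refine LowB_fin hq hk hP ?_
  unfold ordD2
  rw [Nat.add_sub_cancel]
  have hg : 0 < Nat.gcd 4 (q ^ (m + 1) + 1) := Nat.gcd_pos_of_pos_left _ (by norm_num)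
  have hg4 : Nat.gcd 4 (q ^ (m + 1) + 1) ≤ 4 := Nat.gcd_le_left _ (by norm_num)
  exact LowB_core hg hg4 (LowB_four hq (by omega) hP)

end Tuan
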