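import Pool.Agent.Tuan.Def

/-!
MODULE LowE (size 2).  Lower bounds for the orders of the exceptional groups and of the small
families.

SKETCH.  Crude: `q^i - 1 ≥ q^(i-1)`, gcds at most `2`, `3`; the power of `q` in front is already
`≥ q^12`.  For `low_small`: `ordL 2 q = q (q^2-1) / gcd 2 (q-1)` with `gcd ≤ 2` and
`4 (q^2-1) ≥ 3 q^2`, etc. (beware of the floor of the division; all divisions are exact,
and `16` leaves much room).
-/

namespace Tuan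

private theorem LowE_div (N A d : ℕ) (hd : 0 < d) (hd3 : d ≤ 3) (h : 3 * A ≤ N) :
    A ≤ 16 * (N / d) := by
  have h1 : A ≤ N / d := by
    rw [Nat.le_div_iff_mul_le hd]
    calc A * d ≤ A * 3 := Nat.mul_le_mul_left _ hd3
      _ ≤ N := by omega
  omega

private theorem LowE_pos (q i : ℕ) (hq : 2 ≤ q) (hi : i ≠ 0) : 0 < q ^ i - 1 := by
  have : 1 < q ^ i := Nat.one_lt_pow hi (by omega)
  omega

private theorem LowE_pow (q n : ℕ) (hq : 2 ≤ q) (hn : 17 ≤ n) : 3 * q ^ 15 ≤ q ^ n := by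
  obtain ⟨m, rfl⟩ : ∃ m, n = 15 + (2 + m) := ⟨n - 17, by omega⟩
  have h1 : 3 ≤ q ^ (2 + m) := by
    calc 3 ≤ 2 ^ 2 := by norm_num
      _ ≤ 2 ^ (2 + m) := Nat.pow_le_pow_right (by norm_num) (by omega)
      _ ≤ q ^ (2 + m) := Nat.pow_le_pow_left hq _
  rw [pow_add]
  nlinarith [pow_pos (show 0 < q by omega) 15]

theorem low_E (q : ℕ) (hq : 2 ≤ q) :
    q ^ 15 ≤ 16 * ordE6 q ∧ q ^ 15 ≤ 16 * ordE7 q ∧ q ^ 15 ≤ 16 * ordE8 q ∧
      q ^ 15 ≤ 16 * ordF4 q ∧ q ^ 15 ≤ 16 * ordE62 q ∧ q ^ 15 ≤ 16 * ordD43 q := by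
  have P := fun i hi => LowE_pos q i hq hi
  have g2 : Nat.gcd 2 (q - 1) ≤ 3 := (Nat.gcd_le_left _ (by norm_num)).trans (by norm_num)
  have g3 : Nat.gcd 3 (q - 1) ≤ 3 := Nat.gcd_le_left _ (by norm_num)
  have g3' : Nat.gcd 3 (q + 1) ≤ 3 := Nat.gcd_le_left _ (by norm_num)
  have g2p : 0 < Nat.gcd 2 (q - 1) := Nat.gcd_pos_of_pos_left _ (by norm_num)
  have g3p : 0 < Nat.gcd 3 (q - 1) := Nat.gcd_pos_of_pos_left _ (by norm_num)
  have g3p' : 0 < Nat.gcd 3 (q + 1) := Nat.gcd_pos_of_pos_left _ (by norm_num)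
  refine ⟨?_, ?_, ?_, ?_, ?_, ?_⟩
  · refine LowE_div _ _ _ g3p g3 ?_
    refine (LowE_pow q 36 hq (by norm_num)).trans ?_
    simp only [mul_assoc]
    refine Nat.le_mul_of_pos_right _ ?_
    have h1 := P 12 (by norm_num)
    have h2 := P 9 (by norm_num)
    have h3 := P 8 (by norm_num)
    have h4 := P 6 (by norm_num)
    have h5 := P 5 (by norm_num)
    have h6 := P 2 (by norm_num)
    positivity
  · refine LowE_div _ _ _ g2p g2 ?_
    refine (LowE_pow q 63 hq (by norm_num)).trans ?_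
    simp only [mul_assoc]
    refine Nat.le_mul_of_pos_right _ ?_
    have h1 := P 18 (by norm_num)
    have h2 := P 14 (by norm_num)
    have h3 := P 12 (by norm_num)
    have h4 := P 10 (by norm_num)
    have h5 := P 8 (by norm_num)
    have h6 := P 6 (by norm_num)
    have h7 := P 2 (by norm_num)
    positivity
  · have h0 : 3 * q ^ 15 ≤ ordE8 q := by
      unfold ordE8
      refine (LowE_pow q 120 hq (by norm_num)).trans ?_
      simp only [mul_assoc]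
      refine Nat.le_mul_of_pos_right _ ?_
      have h1 := P 30 (by norm_num)
      have h2 := P 24 (by norm_num)
      have h3 := P 20 (by norm_num)
      have h4 := P 18 (by norm_num)
      have h5 := P 14 (by norm_num)
      have h6 := P 12 (by norm_num)
      have h7 := P 8 (by norm_num)
      have h8 := P 2 (by norm_num)
      positivity
    omega
  · have h0 : 3 * q ^ 15 ≤ ordF4 q := by
      unfold ordF4
      refine (LowE_pow q 24 hq (by norm_num)).trans ?_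
      simp only [mul_assoc]
      refine Nat.le_mul_of_pos_right _ ?_
      have h1 := P 12 (by norm_num)
      have h2 := P 8 (by norm_num)
      have h3 := P 6 (by norm_num)
      have h4 := P 2 (by norm_num)
      positivity
    omega
  · refine LowE_div _ _ _ g3p' g3' ?_
    refine (LowE_pow q 36 hq (by norm_num)).trans ?_
    simp only [mul_assoc]
    refine Nat.le_mul_of_pos_right _ ?_
    have h1 := P 12 (by norm_num)
    have h3 := P 8 (by norm_num)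
    have h4 := P 6 (by norm_num)
    have h6 := P 2 (by norm_num)
    positivity
  · have h0 : 3 * q ^ 15 ≤ ordD43 q := by
      unfold ordD43
      refine (LowE_pow q 20 hq (by norm_num)).trans ?_
      have h4 := P 6 (by norm_num)
      have h6 := P 2 (by norm_num)
      calc q ^ 20 = q ^ 12 * q ^ 8 := by ring
        _ ≤ q ^ 12 * (q ^ 8 + q ^ 4 + 1) := Nat.mul_le_mul_left _ (by omega)
        _ ≤ q ^ 12 * (q ^ 8 + q ^ 4 + 1) * (q ^ 6 - 1) := Nat.le_mul_of_pos_right _ h4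
        _ ≤ q ^ 12 * (q ^ 8 + q ^ 4 + 1) * (q ^ 6 - 1) * (q ^ 2 - 1) :=
            Nat.le_mul_of_pos_right _ h6
    omega

theorem low_tw (m : ℕ) : 2 ^ m ≤ ordSz (2 ^ (2 * m + 1)) ∧ 2 ^ m ≤ ordRee (3 ^ (2 * m + 1)) ∧
    2 ^ m ≤ ordF42 (2 ^ (2 * m + 1)) := by
  have h2 : 2 ^ m ≤ 2 ^ (2 * m + 1) := Nat.pow_le_pow_right (by norm_num) (by omega)
  have h3 : 2 ^ m ≤ 3 ^ (2 * m + 1) :=
    h2.trans (Nat.pow_le_pow_left (by norm_num) _)
  have h20 : 2 ≤ 2 ^ (2 * m + 1) := by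
    calc 2 = 2 ^ 1 := by norm_num
      _ ≤ _ := Nat.pow_le_pow_right (by norm_num) (by omega)
  have h30 : 2 ≤ 3 ^ (2 * m + 1) := h20.trans (Nat.pow_le_pow_left (by norm_num) _)
  refine ⟨?_, ?_, ?_⟩
  · generalize 2 ^ (2 * m + 1) = q at h2 h20
    unfold ordSz
    refine h2.trans ?_
    have h4 : 0 < q - 1 := by omega
    calc q = q ^ 1 := by ring
      _ ≤ q ^ 2 := Nat.pow_le_pow_right (by omega) (by norm_num)
      _ ≤ q ^ 2 * (q ^ 2 + 1) := Nat.le_mul_of_pos_right _ (by positivity)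
      _ ≤ _ := Nat.le_mul_of_pos_right _ h4
  · generalize 3 ^ (2 * m + 1) = q at h3 h30
    unfold ordRee
    refine h3.trans ?_
    have h4 : 0 < q - 1 := by omega
    calc q = q ^ 1 := by ring
      _ ≤ q ^ 3 := Nat.pow_le_pow_right (by omega) (by norm_num)
      _ ≤ q ^ 3 * (q ^ 3 + 1) := Nat.le_mul_of_pos_right _ (by positivity)
      _ ≤ _ := Nat.le_mul_of_pos_right _ h4
  · generalize 2 ^ (2 * m + 1) = q at h2 h20
    unfold ordF42
    refine h2.trans ?_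
    have h4 : 0 < q - 1 := by omega
    have h5 := LowE_pos q 4 h20 (by norm_num)
    calc q = q ^ 1 := by ring
      _ ≤ q ^ 12 := Nat.pow_le_pow_right (by omega) (by norm_num)
      _ ≤ q ^ 12 * (q ^ 6 + 1) := Nat.le_mul_of_pos_right _ (by positivity)
      _ ≤ q ^ 12 * (q ^ 6 + 1) * (q ^ 4 - 1) := Nat.le_mul_of_pos_right _ h5
      _ ≤ q ^ 12 * (q ^ 6 + 1) * (q ^ 4 - 1) * (q ^ 3 + 1) :=
          Nat.le_mul_of_pos_right _ (by positivity)
      _ ≤ _ := Nat.le_mul_of_pos_right _ h4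

private theorem LowE_sub (q i : ℕ) (hq : 2 ≤ q) (hi : 2 ≤ i) : 3 * q ^ i ≤ 4 * (q ^ i - 1) := by
  have h1 : 4 ≤ q ^ i := by
    calc 4 = 2 ^ 2 := by norm_num
      _ ≤ 2 ^ i := Nat.pow_le_pow_right (by norm_num) hi
      _ ≤ q ^ i := Nat.pow_le_pow_left hq _
  omega

private theorem LowE_div' (N A d : ℕ) (hd : 0 < d) (hd3 : d ≤ 3) (hA : 8 ≤ A) (h : 9 * A ≤ 16 * N) :
    A ≤ 16 * (N / d) := by
  have h1 : N / 3 ≤ N / d := Nat.div_le_div_left hd3 hd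
  omega

theorem low_small (q : ℕ) (hq : 2 ≤ q) :
    q ^ 3 ≤ 16 * ordL 2 q ∧ q ^ 8 ≤ 16 * ordL 3 q ∧ q ^ 8 ≤ 16 * ordU 3 q ∧
      q ^ 10 ≤ 16 * ordB 2 q ∧ q ^ 14 ≤ 16 * ordG2 q := by
  have g2 : Nat.gcd 2 (q - 1) ≤ 3 := (Nat.gcd_le_left _ (by norm_num)).trans (by norm_num)
  have g3 : Nat.gcd 3 (q - 1) ≤ 3 := Nat.gcd_le_left _ (by norm_num)
  have g3' : Nat.gcd 3 (q + 1) ≤ 3 := Nat.gcd_le_left _ (by norm_num)
  have g2p : 0 < Nat.gcd 2 (q - 1) := Nat.gcd_pos_of_pos_left _ (by norm_num)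
  have g3p : 0 < Nat.gcd 3 (q - 1) := Nat.gcd_pos_of_pos_left _ (by norm_num)
  have g3p' : 0 < Nat.gcd 3 (q + 1) := Nat.gcd_pos_of_pos_left _ (by norm_num)
  have s2 := LowE_sub q 2 hq (by norm_num)
  have s3 := LowE_sub q 3 hq (by norm_num)
  have s4 := LowE_sub q 4 hq (by norm_num)
  have s6 := LowE_sub q 6 hq (by norm_num)
  have big : ∀ n, 3 ≤ n → 8 ≤ q ^ n := fun n hn => by
    calc 8 = 2 ^ 3 := by norm_num
      _ ≤ 2 ^ n := Nat.pow_le_pow_right (by norm_num) hn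
      _ ≤ q ^ n := Nat.pow_le_pow_left hq _
  refine ⟨?_, ?_, ?_, ?_, ?_⟩
  · have e : ordL 2 q = q * (q ^ 2 - 1) / Nat.gcd 2 (q - 1) := by
      unfold ordL
      simp
    rw [e]
    refine LowE_div' _ _ _ g2p g2 (big 3 (by norm_num)) ?_
    have h1 := Nat.mul_le_mul_left q s2
    have e1 : q * (3 * q ^ 2) = 3 * q ^ 3 := by ring
    have e2 : q * (4 * (q ^ 2 - 1)) = 4 * (q * (q ^ 2 - 1)) := by ring
    rw [e1, e2] at h1
    omega
  · have e : ordL 3 q = q ^ 3 * ((q ^ 2 - 1) * (q ^ 3 - 1)) / Nat.gcd 3 (q - 1) := by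
      unfold ordL
      rw [show Finset.Icc 2 3 = {2, 3} from rfl]
      simp
    rw [e]
    refine LowE_div' _ _ _ g3p g3 (big 8 (by norm_num)) ?_
    have h1 := Nat.mul_le_mul_left (q ^ 3) (Nat.mul_le_mul s2 s3)
    have e1 : q ^ 3 * (3 * q ^ 2 * (3 * q ^ 3)) = 9 * q ^ 8 := by ring
    have e2 : q ^ 3 * (4 * (q ^ 2 - 1) * (4 * (q ^ 3 - 1))) =
        16 * (q ^ 3 * ((q ^ 2 - 1) * (q ^ 3 - 1))) := by ring
    rw [e1, e2] at h1
    exact h1
  · have e : ordU 3 q = q ^ 3 * ((q ^ 2 - 1) * (q ^ 3 + 1)) / Nat.gcd 3 (q + 1) := by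
      unfold ordU
      rw [show Finset.Icc 2 3 = {2, 3} from rfl]
      simp [Nat.even_iff]
    rw [e]
    refine LowE_div' _ _ _ g3p' g3' (big 8 (by norm_num)) ?_
    have s3' : 3 * q ^ 3 ≤ 4 * (q ^ 3 + 1) := by omega
    have h1 := Nat.mul_le_mul_left (q ^ 3) (Nat.mul_le_mul s2 s3')
    have e1 : q ^ 3 * (3 * q ^ 2 * (3 * q ^ 3)) = 9 * q ^ 8 := by ring
    have e2 : q ^ 3 * (4 * (q ^ 2 - 1) * (4 * (q ^ 3 + 1))) =
        16 * (q ^ 3 * ((q ^ 2 - 1) * (q ^ 3 + 1))) := by ring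
    rw [e1, e2] at h1
    exact h1
  · have e : ordB 2 q = q ^ 4 * ((q ^ 2 - 1) * (q ^ 4 - 1)) / Nat.gcd 2 (q - 1) := by
      unfold ordB
      rw [show Finset.Icc 1 2 = {1, 2} from rfl]
      simp
    rw [e]
    refine LowE_div' _ _ _ g2p g2 (big 10 (by norm_num)) ?_
    have h1 := Nat.mul_le_mul_left (q ^ 4) (Nat.mul_le_mul s2 s4)
    have e1 : q ^ 4 * (3 * q ^ 2 * (3 * q ^ 4)) = 9 * q ^ 10 := by ring
    have e2 : q ^ 4 * (4 * (q ^ 2 - 1) * (4 * (q ^ 4 - 1))) =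
        16 * (q ^ 4 * ((q ^ 2 - 1) * (q ^ 4 - 1))) := by ring
    rw [e1, e2] at h1
    exact h1
  · unfold ordG2
    have h1 := Nat.mul_le_mul_left (q ^ 6) (Nat.mul_le_mul s6 s2)
    have e1 : q ^ 6 * (3 * q ^ 6 * (3 * q ^ 2)) = 9 * q ^ 14 := by ring
    have e2 : q ^ 6 * (4 * (q ^ 6 - 1) * (4 * (q ^ 2 - 1))) =
        16 * (q ^ 6 * (q ^ 6 - 1) * (q ^ 2 - 1)) := by ring
    rw [e1, e2] at h1
    omega

end Tuan
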