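import Pool.Agent.Tuan.Def

/-!
MODULE Power (size 3).  Transfer of a counting bound on integers to names.

SKETCH.  For `X ≥ 2` let `t = (c X)^(1/k) ≥ 1`.  Every `s ∈ S X` is `g n` with
`1 ≤ n`, `n ≤ t`, `P n`, so `S X` is contained in the image under `g` of the finite set in `hP`,
`ncard (S X) ≤ C * t^α * (1 + log t)`.  Now `t^α = (c X)^(α/k) ≤ c * X^(1/15)` (as `0 < α/k ≤ 1/15 ≤ 1`,
`c, X ≥ 1`) and `log t ≤ log (c X) = log c + log X ≤ (log c / log 2 + 1) log X`, `1 ≤ log X / log 2`.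
-/

namespace Tuan

theorem power_small (g : ℕ → Name) (P : ℕ → Prop) (α : ℝ) (hα : 0 < α) (k c : ℕ) (hk : 1 ≤ k)
    (hc : 1 ≤ c) (hαk : α / k ≤ 1 / 15)
    (hP : ∃ C : ℝ, 0 < C ∧ ∀ t : ℝ, 1 ≤ t →
      ({n : ℕ | 1 ≤ n ∧ (n : ℝ) ≤ t ∧ P n}.ncard : ℝ) ≤ C * t ^ α * (1 + Real.log t))
    (S : ℕ → Set Name)
    (h : ∀ X, ∀ s ∈ S X, ∃ n, 1 ≤ n ∧ s = g n ∧ n ^ k ≤ c * X ∧ P n) : Small S := by
  classical
  obtain ⟨C, hC, hCt⟩ := hP
  have hc1 : (1 : ℝ) ≤ c := by exact_mod_cast hc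
  have hk1 : (1 : ℝ) ≤ k := by exact_mod_cast hk
  have hlc : 0 ≤ Real.log c := Real.log_nonneg hc1
  have hl2 := Real.log_two_gt_d9
  refine ⟨C * c * (3 + 2 * Real.log c), by positivity, fun X hX => ?_⟩
  have hX2 : (2 : ℝ) ≤ X := by exact_mod_cast hX
  have hX1 : (1 : ℝ) ≤ X := by linarith
  have hX0 : (0 : ℝ) ≤ X := by linarith
  have hY1 : (1 : ℝ) ≤ c * X := by nlinarith
  set t : ℝ := (c * X : ℝ) ^ ((1 : ℝ) / k) with ht
  have ht1 : 1 ≤ t := Real.one_le_rpow hY1 (by positivity)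
  have hfin : {n : ℕ | 1 ≤ n ∧ (n : ℝ) ≤ t ∧ P n}.Finite := by
    refine (Set.finite_Iic (Nat.floor t)).subset ?_
    rintro n ⟨-, h1, -⟩
    exact Set.mem_Iic.2 (Nat.le_floor h1)
  have hsub : S X ⊆ g '' {n : ℕ | 1 ≤ n ∧ (n : ℝ) ≤ t ∧ P n} := by
    intro s hs
    obtain ⟨n, hn, rfl, h1, h2⟩ := h X s hs
    refine ⟨n, ⟨hn, ?_, h2⟩, rfl⟩
    have h3 : ((n : ℝ) ^ k) ≤ c * X := by exact_mod_cast h1
    calc (n : ℝ) = ((n : ℝ) ^ (k : ℕ)) ^ ((1 : ℝ) / k) := by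
          rw [← Real.rpow_natCast, ← Real.rpow_mul (Nat.cast_nonneg _)]
          rw [mul_one_div_cancel (by linarith), Real.rpow_one]
      _ ≤ t := Real.rpow_le_rpow (by positivity) h3 (by positivity)
  have hfin2 := hfin.image g
  refine ⟨hfin2.subset hsub, ?_⟩
  have h1 : ((S X).ncard : ℝ) ≤ ({n : ℕ | 1 ≤ n ∧ (n : ℝ) ≤ t ∧ P n}.ncard : ℝ) := by
    exact_mod_cast (Set.ncard_le_ncard hsub hfin2).trans (Set.ncard_image_le hfin)
  have h2 := hCt t ht1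
  have h3 : t ^ α ≤ c * (X : ℝ) ^ ((1 : ℝ) / 15) := by
    rw [ht, ← Real.rpow_mul (by linarith), show (1 : ℝ) / k * α = α / k by ring]
    calc (c * X : ℝ) ^ (α / k) ≤ (c * X : ℝ) ^ ((1 : ℝ) / 15) :=
          Real.rpow_le_rpow_of_exponent_le hY1 (by linarith)
      _ = (c : ℝ) ^ ((1 : ℝ) / 15) * (X : ℝ) ^ ((1 : ℝ) / 15) :=
          Real.mul_rpow (by linarith) hX0
      _ ≤ c * (X : ℝ) ^ ((1 : ℝ) / 15) := by
          apply mul_le_mul_of_nonneg_right _ (by positivity)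
          calc (c : ℝ) ^ ((1 : ℝ) / 15) ≤ (c : ℝ) ^ (1 : ℝ) :=
                Real.rpow_le_rpow_of_exponent_le hc1 (by norm_num)
            _ = c := Real.rpow_one _
  have h4 : Real.log t ≤ Real.log c + Real.log X := by
    rw [ht, Real.log_rpow (by linarith), Real.log_mul (by linarith) (by linarith)]
    have h5 : 0 ≤ Real.log c + Real.log X := add_nonneg hlc (Real.log_nonneg hX1)
    have h6 : (1 : ℝ) / k ≤ 1 := by
      rw [div_le_one (by linarith)]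
      exact hk1
    nlinarith
  have h5 : Real.log 2 ≤ Real.log X := Real.log_le_log (by norm_num) hX2
  have h6 : 1 + Real.log t ≤ (3 + 2 * Real.log c) * Real.log X := by nlinarith
  have h7 : 0 ≤ t ^ α := by positivity
  have h8 : 0 ≤ 1 + Real.log t := by
    have := Real.log_nonneg ht1
    linarith
  unfold bd
  calc ((S X).ncard : ℝ) ≤ C * t ^ α * (1 + Real.log t) := h1.trans h2
    _ ≤ C * (c * (X : ℝ) ^ ((1 : ℝ) / 15)) * ((3 + 2 * Real.log c) * Real.log X) := by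
        apply mul_le_mul _ h6 h8 (by positivity)
        exact mul_le_mul_of_nonneg_left h3 hC.le
    _ = C * c * (3 + 2 * Real.log c) * ((X : ℝ) ^ ((1 : ℝ) / 15) * Real.log X) := by ring

end Tuan
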