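import Pool.Agent.Tuan.Def

/-!
MODULE Red3 (size 3).  What squarefullness says for `PSL_3(q)`, `PSU_3(q)`, `PSp_4(q)`, `G_2(q)`.

SKETCH.  `ordL 3 q * gcd 3 (q-1) = q^3 (q^2-1)(q^3-1)`.  Let `r` be an odd prime, `r ∣ q+1`.  Then
`r ∤ q`, `r ∤ q-1` (else `r ∣ 2`), so `r ∤ gcd 3 (q-1)`, `r ∣ ordL 3 q`, `r^2 ∣ ordL 3 q`,
`r^2 ∣ q^3 (q-1)^2 (q+1)(q^2+q+1)` and `q^2+q+1 = q(q+1)+1` is prime to `r`; so `r^2 ∣ q+1`.
`ordU 3 q * gcd 3 (q+1) = q^3 (q^2-1)(q^3+1)` (Icc 2 3 = {2,3}, 2 even, 3 odd).  `r` odd, `r ∣ q-1`: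
`r ∤ q+1`, `q^3+1 ≡ 2`; so `r^2 ∣ q-1`.
`ordB 2 q * gcd 2 (q-1) = q^4 (q^2-1)(q^4-1)`.  `r` odd, `r ∣ q^2+1`: `q^2-1 ≡ -2`,
`q^4-1 = (q^2-1)(q^2+1)`; so `r^2 ∣ q^2+1`.
`ordG2 q = q^6 (q^6-1)(q^2-1)`, `q^6 - 1 = (q-1)(q^2+q+1)(q+1)(q^2-q+1)`.  `r ≠ 3`, `r ∣ q^2+q+1`:
`r ∤ q`, `r ∤ q - 1` (else `r ∣ 3`), `r ∤ q+1`, `r ∤ q^2-q+1` (else `r ∣ 2q`, but `q^2+q+1` is odd);
so `r^2 ∣ q^2+q+1`.
-/

namespace Tuan

private theorem Red3_core {m a b g r : ℕ} (hr : r.Prime) (hN : m * g = a * b) (hg : ¬ r ∣ g) (ha : r ∣ a)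
    (hb : ¬ r ∣ b) (h : SqFull m) : r ^ 2 ∣ a := by
  have h1 : r ∣ m * g := by rw [hN]; exact Dvd.dvd.mul_right ha b
  have h2 : r ∣ m := (hr.dvd_mul.mp h1).resolve_right hg
  have h3 : r ^ 2 ∣ a * b := by rw [← hN]; exact Dvd.dvd.mul_right (h r hr h2) g
  exact Nat.Coprime.dvd_of_dvd_mul_right (Nat.Coprime.pow_left 2 ((Nat.Prime.coprime_iff_not_dvd hr).mpr hb)) h3

theorem red_L3 (q : ℕ) (hq : 2 ≤ q) (h : SqFull (ordL 3 q)) : SqOff 2 (q + 1) := by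
  intro r hr h2 hd
  obtain ⟨s, rfl⟩ : ∃ s, q = s + 1 := ⟨q - 1, by omega⟩
  have hI : (Finset.Icc 2 3 : Finset ℕ) = {2, 3} := by decide
  have e1 : (s + 1) ^ 2 - 1 = s * (s + 2) := by
    have : (s + 1) ^ 2 = s * (s + 2) + 1 := by ring
    omega
  have e2 : (s + 1) ^ 3 - 1 = s * (s ^ 2 + 3 * s + 3) := by
    have : (s + 1) ^ 3 = s * (s ^ 2 + 3 * s + 3) + 1 := by ring
    omega
  have hord : ordL 3 (s + 1) = (s + 1) ^ 3 * ((s * (s + 2)) * (s * (s ^ 2 + 3 * s + 3))) / Nat.gcd 3 s := by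
    unfold ordL
    rw [hI, Finset.prod_pair (by norm_num), e1, e2]
    norm_num
  have hgs : Nat.gcd 3 s ∣ s := Nat.gcd_dvd_right 3 s
  have hN : ordL 3 (s + 1) * Nat.gcd 3 s = (s + 1 + 1) * ((s + 1) ^ 3 * s * (s * (s ^ 2 + 3 * s + 3))) := by
    rw [hord, Nat.div_mul_cancel]
    · ring
    · exact Dvd.dvd.mul_left (Dvd.dvd.mul_right (Dvd.dvd.mul_right hgs _) _) _
  have n1 : ¬ r ∣ 1 := hr.one_lt.ne' ∘ Nat.dvd_one.mp
  have hs : ¬ r ∣ s := by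
    intro hc
    have : r ∣ (s + 1 + 1) - s := Nat.dvd_sub hd hc
    rw [show (s + 1 + 1) - s = 2 by omega] at this
    exact h2 this
  have hq1 : ¬ r ∣ s + 1 := by
    intro hc
    have : r ∣ (s + 1 + 1) - (s + 1) := Nat.dvd_sub hd hc
    rw [show (s + 1 + 1) - (s + 1) = 1 by omega] at this
    exact n1 this
  have hq2 : ¬ r ∣ s ^ 2 + 3 * s + 3 := by
    intro hc
    have h4 : s ^ 2 + 3 * s + 3 = (s + 1 + 1) * (s + 1) + 1 := by ring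
    rw [h4] at hc
    exact n1 ((Nat.dvd_add_right (Dvd.dvd.mul_right hd _)).mp hc)
  refine Red3_core hr hN (fun hc => hs (hc.trans hgs)) hd ?_ h
  intro hc
  rcases hr.dvd_mul.mp hc with h3 | h3
  · rcases hr.dvd_mul.mp h3 with h4 | h4
    · exact hq1 (hr.dvd_of_dvd_pow h4)
    · exact hs h4
  · rcases hr.dvd_mul.mp h3 with h4 | h4
    · exact hs h4
    · exact hq2 h4

theorem red_U3 (q : ℕ) (hq : 2 ≤ q) (h : SqFull (ordU 3 q)) : SqOff 2 (q - 1) := by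
  intro r hr h2 hd
  obtain ⟨s, rfl⟩ : ∃ s, q = s + 1 := ⟨q - 1, by omega⟩
  rw [Nat.add_sub_cancel] at hd ⊢
  have hI : (Finset.Icc 2 3 : Finset ℕ) = {2, 3} := by decide
  have e1 : (s + 1) ^ 2 - 1 = s * (s + 2) := by
    have : (s + 1) ^ 2 = s * (s + 2) + 1 := by ring
    omega
  have hord : ordU 3 (s + 1) = (s + 1) ^ 3 * ((s * (s + 2)) * ((s + 1) ^ 3 + 1)) / Nat.gcd 3 (s + 2) := by
    unfold ordU
    rw [hI, Finset.prod_pair (by norm_num), if_pos (by decide), if_neg (by decide), e1]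
  have hgs : Nat.gcd 3 (s + 2) ∣ s + 2 := Nat.gcd_dvd_right 3 (s + 2)
  have hN : ordU 3 (s + 1) * Nat.gcd 3 (s + 2) = s * ((s + 1) ^ 3 * (s + 2) * ((s + 1) ^ 3 + 1)) := by
    rw [hord, Nat.div_mul_cancel]
    · ring
    · exact Dvd.dvd.mul_left (Dvd.dvd.mul_right (Dvd.dvd.mul_left hgs _) _) _
  have n1 : ¬ r ∣ 1 := hr.one_lt.ne' ∘ Nat.dvd_one.mp
  have hs2 : ¬ r ∣ s + 2 := fun hc => h2 ((Nat.dvd_add_right hd).mp hc)
  have hq1 : ¬ r ∣ s + 1 := fun hc => n1 ((Nat.dvd_add_right hd).mp hc)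
  have hq2 : ¬ r ∣ (s + 1) ^ 3 + 1 := by
    intro hc
    have h4 : (s + 1) ^ 3 + 1 = s * (s ^ 2 + 3 * s + 3) + 2 := by ring
    rw [h4] at hc
    exact h2 ((Nat.dvd_add_right (Dvd.dvd.mul_right hd _)).mp hc)
  refine Red3_core hr hN (fun hc => hs2 (hc.trans hgs)) hd ?_ h
  intro hc
  rcases hr.dvd_mul.mp hc with h3 | h3
  · rcases hr.dvd_mul.mp h3 with h4 | h4
    · exact hq1 (hr.dvd_of_dvd_pow h4)
    · exact hs2 h4
  · exact hq2 h3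

theorem red_B2 (q : ℕ) (hq : 2 ≤ q) (h : SqFull (ordB 2 q)) : SqOff 2 (q ^ 2 + 1) := by
  intro r hr h2 hd
  obtain ⟨s, rfl⟩ : ∃ s, q = s + 1 := ⟨q - 1, by omega⟩
  have hI : (Finset.Icc 1 2 : Finset ℕ) = {1, 2} := by decide
  have e1 : (s + 1) ^ (2 * 1) - 1 = s * (s + 2) := by
    have : (s + 1) ^ (2 * 1) = s * (s + 2) + 1 := by ring
    omega
  have e2 : (s + 1) ^ (2 * 2) - 1 = s * (s + 2) * ((s + 1) ^ 2 + 1) := by
    have : (s + 1) ^ (2 * 2) = s * (s + 2) * ((s + 1) ^ 2 + 1) + 1 := by ring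
    omega
  have hord : ordB 2 (s + 1) = (s + 1) ^ 4 * ((s * (s + 2)) * (s * (s + 2) * ((s + 1) ^ 2 + 1))) / Nat.gcd 2 s := by
    unfold ordB
    rw [hI, Finset.prod_pair (by norm_num), e1, e2]
    norm_num
  have hgs : Nat.gcd 2 s ∣ s := Nat.gcd_dvd_right 2 s
  have hg2 : Nat.gcd 2 s ∣ 2 := Nat.gcd_dvd_left 2 s
  have hN : ordB 2 (s + 1) * Nat.gcd 2 s = ((s + 1) ^ 2 + 1) * ((s + 1) ^ 4 * (s * (s + 2)) * (s * (s + 2))) := by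
    rw [hord, Nat.div_mul_cancel]
    · ring
    · exact Dvd.dvd.mul_left (Dvd.dvd.mul_right (Dvd.dvd.mul_right hgs _) _) _
  have n1 : ¬ r ∣ 1 := hr.one_lt.ne' ∘ Nat.dvd_one.mp
  have hss : ¬ r ∣ s * (s + 2) := by
    intro hc
    have h4 : (s + 1) ^ 2 + 1 = s * (s + 2) + 2 := by ring
    rw [h4] at hd
    exact h2 ((Nat.dvd_add_right hc).mp hd)
  have hq1 : ¬ r ∣ s + 1 := by
    intro hc
    exact n1 ((Nat.dvd_add_right (dvd_pow hc two_ne_zero)).mp hd)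
  refine Red3_core hr hN (fun hc => h2 (hc.trans hg2)) hd ?_ h
  intro hc
  rcases hr.dvd_mul.mp hc with h3 | h3
  · rcases hr.dvd_mul.mp h3 with h4 | h4
    · exact hq1 (hr.dvd_of_dvd_pow h4)
    · exact hss h4
  · exact hss h3

theorem red_G2 (q : ℕ) (hq : 2 ≤ q) (h : SqFull (ordG2 q)) : SqOff 3 (q ^ 2 + q + 1) := by
  intro r hr h2 hd
  obtain ⟨s, rfl⟩ : ∃ s, q = s + 1 := ⟨q - 1, by omega⟩
  have e1 : (s + 1) ^ 2 - 1 = s * (s + 2) := by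
    have : (s + 1) ^ 2 = s * (s + 2) + 1 := by ring
    omega
  have e2 : (s + 1) ^ 6 - 1 = s * ((s + 1) ^ 2 + (s + 1) + 1) * (s + 2) * (s ^ 2 + s + 1) := by
    have : (s + 1) ^ 6 = s * ((s + 1) ^ 2 + (s + 1) + 1) * (s + 2) * (s ^ 2 + s + 1) + 1 := by ring
    omega
  have hN : ordG2 (s + 1) * 1 = ((s + 1) ^ 2 + (s + 1) + 1) * ((s + 1) ^ 6 * s * (s + 2) * (s ^ 2 + s + 1) * (s * (s + 2))) := by
    unfold ordG2
    rw [e1, e2]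
    ring
  have n1 : ¬ r ∣ 1 := hr.one_lt.ne' ∘ Nat.dvd_one.mp
  have hs : ¬ r ∣ s := by
    intro hc
    have h4 : (s + 1) ^ 2 + (s + 1) + 1 = s * (s + 3) + 3 := by ring
    rw [h4] at hd
    exact h2 ((Nat.dvd_add_right (Dvd.dvd.mul_right hc _)).mp hd)
  have hq1 : ¬ r ∣ s + 1 := by
    intro hc
    have h4 : (s + 1) ^ 2 + (s + 1) + 1 = (s + 1) * (s + 2) + 1 := by ring
    rw [h4] at hd
    exact n1 ((Nat.dvd_add_right (Dvd.dvd.mul_right hc _)).mp hd)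
  have hs2 : ¬ r ∣ s + 2 := by
    intro hc
    have h4 : (s + 1) ^ 2 + (s + 1) + 1 = (s + 2) * (s + 1) + 1 := by ring
    rw [h4] at hd
    exact n1 ((Nat.dvd_add_right (Dvd.dvd.mul_right hc _)).mp hd)
  have h3' : ¬ r ∣ s ^ 2 + s + 1 := by
    intro hc
    have h4 : (s + 1) ^ 2 + (s + 1) + 1 = (s ^ 2 + s + 1) + 2 * (s + 1) := by ring
    rw [h4] at hd
    have h5 := (Nat.dvd_add_right hc).mp hd
    rcases hr.dvd_mul.mp h5 with h6 | h6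
    · have h7 : r = 2 := (Nat.prime_dvd_prime_iff_eq hr Nat.prime_two).mp h6
      subst h7
      have h8 : s ^ 2 + s + 1 = s * (s + 1) + 1 := by ring
      rw [h8] at hc
      have h9 : 2 ∣ s * (s + 1) := (Nat.even_mul_succ_self s).two_dvd
      exact n1 ((Nat.dvd_add_right h9).mp hc)
    · exact hq1 h6
  refine Red3_core hr hN n1 hd ?_ h
  intro hc
  rcases hr.dvd_mul.mp hc with h3 | h3
  · rcases hr.dvd_mul.mp h3 with h4 | h4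
    · rcases hr.dvd_mul.mp h4 with h5 | h5
      · rcases hr.dvd_mul.mp h5 with h6 | h6
        · exact hq1 (hr.dvd_of_dvd_pow h6)
        · exact hs h6
      · exact hs2 h5
    · exact h3' h4
  · rcases hr.dvd_mul.mp h3 with h4 | h4
    · exact hs h4
    · exact hs2 h4

end Tuan
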