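import Pool.Agent.Tuan.Def

/-!
MODULE RedL2 (size 3).  What squarefullness of `|PSL_2(p^f)|`, `f = 2,3,4`, says about `p`.

SKETCH.  `ordL 2 q * gcd 2 (q-1) = q * (q^2 - 1)` (exact division).  Let `r` be an odd prime with
`r ∣ q^2 - 1`.  Then `r ∤ gcd 2 (q-1)`, so `r ∣ ordL 2 q`, so `r^2 ∣ ordL 2 q`, so
`r^2 ∣ q * (q^2 - 1)` and, as `r ∤ q`, `r^2 ∣ q^2 - 1`.
`q = p^2`, `p ≥ 3` odd: `q^2 - 1 = (p-1)(p+1)(p^2+1)`.  If `r ∣ (p-1)/2` is odd then `r ∣ p - 1`,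
`p+1 ≡ 2`, `p^2+1 ≡ 2 (mod r)`, so `r^2 ∣ p - 1 = 2 * ((p-1)/2)`, so `r^2 ∣ (p-1)/2`.  Similarly for
`(p-1)/2 + 1 = (p+1)/2`: `p - 1 ≡ -2`, `p^2 + 1 ≡ 2`.
`q = p^3`, `r ∤ 6`, `r ∣ p - 1`: `q^2 - 1 = (p-1)(p^2+p+1)(p^3+1)`, the other factors are `3, 2` mod `r`.
`q = p^4`, `r` odd, `r ∣ p - 1`: `q^2 - 1 = (p-1)(p+1)(p^2+1)(p^4+1)`, other factors `≡ 2`.
-/

namespace Tuan

private lemma redL2_key {q r : ℕ} (hq : 1 ≤ q) (hr : r.Prime) (hr2 : ¬ r ∣ 2)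
    (h : SqFull (ordL 2 q)) (hd : r ∣ q ^ 2 - 1) : r ^ 2 ∣ q ^ 2 - 1 := by
  have hdiv : Nat.gcd 2 (q - 1) ∣ q ^ 2 - 1 := by
    have h1 : q - 1 ∣ q ^ 2 - 1 := by
      have := Nat.sub_dvd_pow_sub_pow q 1 2
      simpa using this
    exact (Nat.gcd_dvd_right 2 (q - 1)).trans h1
  have hord : ordL 2 q * Nat.gcd 2 (q - 1) = q * (q ^ 2 - 1) := by
    have h1 : ordL 2 q = q * (q ^ 2 - 1) / Nat.gcd 2 (q - 1) := by
      unfold ordL
      simp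
    rw [h1]
    exact Nat.div_mul_cancel (hdiv.mul_left q)
  have hrd : ¬ r ∣ Nat.gcd 2 (q - 1) := fun h1 => hr2 (h1.trans (Nat.gcd_dvd_left 2 (q - 1)))
  have h2 : r ∣ ordL 2 q * Nat.gcd 2 (q - 1) := by
    rw [hord]
    exact hd.mul_left q
  have h3 : r ∣ ordL 2 q := (hr.dvd_mul.mp h2).resolve_right hrd
  have h4 : r ^ 2 ∣ ordL 2 q := h r hr h3
  have h5 : r ^ 2 ∣ q * (q ^ 2 - 1) := by
    rw [← hord]
    exact h4.mul_right _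
  have hrq : ¬ r ∣ q := by
    intro h6
    have h7 : 1 ≤ q ^ 2 := Nat.one_le_pow _ _ hq
    have h8 : r ∣ q ^ 2 := dvd_pow h6 two_ne_zero
    have h9 : r ∣ q ^ 2 - (q ^ 2 - 1) := Nat.dvd_sub h8 hd
    have h10 : q ^ 2 - (q ^ 2 - 1) = 1 := by omega
    rw [h10] at h9
    exact hr.one_lt.ne' (Nat.dvd_one.mp h9)
  exact ((hr.coprime_iff_not_dvd.mpr hrq).pow_left 2).dvd_of_dvd_mul_left h5

private lemma redL2_strip {r a b : ℕ} (hr : r.Prime) (hb : ¬ r ∣ b) (h : r ^ 2 ∣ a * b) :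
    r ^ 2 ∣ a :=
  ((hr.coprime_iff_not_dvd.mpr hb).pow_left 2).dvd_of_dvd_mul_right h

private lemma redL2_not {r a c : ℕ} (ha : r ∣ a) (hc : ¬ r ∣ c) : ¬ r ∣ a + c :=
  fun h => hc ((Nat.dvd_add_right ha).mp h)

theorem red_L2_sq (p : ℕ) (hp : p.Prime) (h3 : 3 ≤ p) (h : SqFull (ordL 2 (p ^ 2))) :
    SqOff 2 ((p - 1) / 2) ∧ SqOff 2 ((p - 1) / 2 + 1) := by
  obtain ⟨u, hu⟩ : ∃ u, p = 2 * u + 1 := by
    rcases hp.eq_two_or_odd' with h1 | h1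
    · omega
    · exact h1
  have hu1 : (p - 1) / 2 = u := by omega
  have hfac : (p ^ 2) ^ 2 - 1 = u * ((u + 1) * (8 * (2 * u ^ 2 + 2 * u + 1))) := by
    have h1 : (p ^ 2) ^ 2 = u * ((u + 1) * (8 * (2 * u ^ 2 + 2 * u + 1))) + 1 := by
      rw [hu]; ring
    rw [h1, Nat.add_sub_cancel]
  have hq1 : 1 ≤ p ^ 2 := Nat.one_le_pow _ _ hp.pos
  rw [hu1]
  have h8 : ∀ r : ℕ, r.Prime → ¬ r ∣ 2 → ¬ r ∣ 8 := by
    intro r hr hr2 h1
    apply hr2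
    have h2 : r ∣ 2 ^ 3 := by simpa using h1
    exact hr.dvd_of_dvd_pow h2
  constructor
  · intro r hr hr2 hru
    have h1 : r ∣ (p ^ 2) ^ 2 - 1 := by
      rw [hfac]
      exact hru.mul_right _
    have h2 := redL2_key hq1 hr hr2 h h1
    rw [hfac] at h2
    have hr1 : ¬ r ∣ 1 := fun h => hr.one_lt.ne' (Nat.dvd_one.mp h)
    refine redL2_strip hr ?_ h2
    intro h4
    rcases hr.dvd_mul.mp h4 with h5 | h5
    · exact redL2_not hru hr1 h5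
    · rcases hr.dvd_mul.mp h5 with h6 | h6
      · exact h8 r hr hr2 h6
      · have h7 : r ∣ 2 * u ^ 2 + 2 * u :=
          dvd_add ((dvd_pow hru two_ne_zero).mul_left 2) (hru.mul_left 2)
        exact redL2_not h7 hr1 h6
  · intro r hr hr2 hru
    have h1 : r ∣ (p ^ 2) ^ 2 - 1 := by
      rw [hfac]
      exact (hru.mul_right _).mul_left u
    have h2 := redL2_key hq1 hr hr2 h h1
    rw [hfac] at h2
    have hr1 : ¬ r ∣ 1 := fun h => hr.one_lt.ne' (Nat.dvd_one.mp h)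
    have h9 : u * ((u + 1) * (8 * (2 * u ^ 2 + 2 * u + 1)))
        = (u + 1) * (u * (8 * (2 * u ^ 2 + 2 * u + 1))) := by ring
    rw [h9] at h2
    refine redL2_strip hr ?_ h2
    intro h4
    rcases hr.dvd_mul.mp h4 with h5 | h5
    · exact hr1 ((Nat.dvd_add_right h5).mp hru)
    · rcases hr.dvd_mul.mp h5 with h6 | h6
      · exact h8 r hr hr2 h6
      · have h7 : r ∣ 2 * u ^ 2 + 2 * u := by
          have : 2 * u ^ 2 + 2 * u = (u + 1) * (2 * u) := by ring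
          rw [this]
          exact hru.mul_right _
        exact redL2_not h7 hr1 h6

theorem red_L2_cube (p : ℕ) (hp : p.Prime) (h : SqFull (ordL 2 (p ^ 3))) : SqOff 6 (p - 1) := by
  obtain ⟨m, hm⟩ : ∃ m, p = m + 1 := ⟨p - 1, by have := hp.pos; omega⟩
  have hm1 : p - 1 = m := by omega
  rw [hm1]
  intro r hr hr6 hrm
  have hr2 : ¬ r ∣ 2 := fun h1 => hr6 (h1.trans ⟨3, rfl⟩)
  have hr3 : ¬ r ∣ 3 := fun h1 => hr6 (h1.trans ⟨2, rfl⟩)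
  have hfac : (p ^ 3) ^ 2 - 1 =
      m * ((m * (m + 3) + 3) * (m * (m ^ 2 + 3 * m + 3) + 2)) := by
    have h1 : (p ^ 3) ^ 2 = m * ((m * (m + 3) + 3) * (m * (m ^ 2 + 3 * m + 3) + 2)) + 1 := by
      rw [hm]; ring
    rw [h1, Nat.add_sub_cancel]
  have h1 : r ∣ (p ^ 3) ^ 2 - 1 := by
    rw [hfac]
    exact hrm.mul_right _
  have h2 := redL2_key (Nat.one_le_pow _ _ hp.pos) hr hr2 h h1
  rw [hfac] at h2
  refine redL2_strip hr ?_ h2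
  intro h4
  rcases hr.dvd_mul.mp h4 with h5 | h5
  · exact redL2_not (hrm.mul_right _) hr3 h5
  · exact redL2_not (hrm.mul_right _) hr2 h5

theorem red_L2_four (p : ℕ) (hp : p.Prime) (h : SqFull (ordL 2 (p ^ 4))) : SqOff 2 (p - 1) := by
  obtain ⟨m, hm⟩ : ∃ m, p = m + 1 := ⟨p - 1, by have := hp.pos; omega⟩
  have hm1 : p - 1 = m := by omega
  rw [hm1]
  intro r hr hr2 hrm
  have hfac : (p ^ 4) ^ 2 - 1 =
      m * ((m + 2) * ((m * (m + 2) + 2) * (m * (m ^ 3 + 4 * m ^ 2 + 6 * m + 4) + 2))) := by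
    have h1 : (p ^ 4) ^ 2 =
        m * ((m + 2) * ((m * (m + 2) + 2) * (m * (m ^ 3 + 4 * m ^ 2 + 6 * m + 4) + 2))) + 1 := by
      rw [hm]; ring
    rw [h1, Nat.add_sub_cancel]
  have h1 : r ∣ (p ^ 4) ^ 2 - 1 := by
    rw [hfac]
    exact hrm.mul_right _
  have h2 := redL2_key (Nat.one_le_pow _ _ hp.pos) hr hr2 h h1
  rw [hfac] at h2
  refine redL2_strip hr ?_ h2
  intro h4
  rcases hr.dvd_mul.mp h4 with h5 | h5
  · exact redL2_not hrm hr2 h5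
  · rcases hr.dvd_mul.mp h5 with h6 | h6
    · exact redL2_not (hrm.mul_right _) hr2 h6
    · exact redL2_not (hrm.mul_right _) hr2 h6

end Tuan
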