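import Pool.Agent.Tuan.Def

/-!
MODULE Triv (size 2).  Cyclic groups, alternating groups, `PSL_2(p)`, and the named finite list.

SKETCH.  `not_alt`: Bertrand (`Nat.exists_prime_lt_and_le_two_mul` applied to `(n+1)/2` or `n/2`)
gives a prime `p ≤ n < 2 p` with `p ≥ 3`, so `p ∣ n!` exactly once (`n! ` is a product of
numbers `≤ n < 2p`; use `Nat.factorization`/`padicValNat` or `Nat.Prime.dvd_factorial` on
`n! = p! * ...`, e.g. `Nat.Prime.multiplicity_factorial`/`Nat.factorization_factorial`), and `p` odd,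
so `p ∣ n!/2` and `¬ p^2 ∣ n!/2`.
`not_L2_prime`: `ordL 2 p = p * (p^2 - 1) / gcd 2 (p-1)`, `p` odd, `p ∣` it, and
`p^2 ∣ p * (p^2 - 1)` is impossible.
-/

namespace Tuan

theorem not_cyclic (p : ℕ) (hp : p.Prime) : ¬ SqFull p := by
  intro h
  have h1 := Nat.le_of_dvd hp.pos (h p hp dvd_rfl)
  have h2 := hp.two_le
  nlinarith

theorem not_alt (n : ℕ) (hn : 5 ≤ n) : ¬ SqFull (n.factorial / 2) := by
  intro h
  obtain ⟨p, hp, h1, h2⟩ := Nat.exists_prime_lt_and_le_two_mul (n / 2) (by omega)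
  have h3 : p ≤ n := by omega
  have h4 : n < 2 * p := by omega
  have h5 : 3 ≤ p := by omega
  have h6 : n.factorial = 2 * (n.factorial / 2) :=
    (Nat.mul_div_cancel' (Nat.prime_two.dvd_factorial.2 (by omega))).symm
  have h7 : p ∣ n.factorial / 2 := by
    have h8 : p ∣ 2 * (n.factorial / 2) := h6 ▸ hp.dvd_factorial.2 h3
    rcases (hp.dvd_mul).1 h8 with h9 | h9
    · have := Nat.le_of_dvd (by norm_num) h9
      omega
    · exact h9
  have h8 : p ^ 2 ∣ n.factorial := by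
    rw [h6]
    exact (h p hp h7).mul_left 2
  have h9 : Nat.log p n < 2 := by
    apply Nat.log_lt_of_lt_pow (by omega)
    nlinarith
  rw [hp.pow_dvd_factorial_iff h9] at h8
  have h10 : n / p = 1 := by
    rw [Nat.div_eq_iff (by omega)]
    omega
  have h11 : ∑ i ∈ Finset.Ico 1 2, n / p ^ i = n / p := by
    rw [Finset.sum_Ico_succ_top (by norm_num)]
    simp
  rw [h11, h10] at h8
  omega

theorem not_L2_prime (p : ℕ) (hp : p.Prime) (h : 4 ≤ p) : ¬ SqFull (ordL 2 p) := by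
  intro hs
  have hodd : p % 2 = 1 := by
    rcases hp.eq_two_or_odd with h1 | h1
    · omega
    · exact h1
  have hg : Nat.gcd 2 (p - 1) = 2 := Nat.gcd_eq_left (by omega)
  have e : ordL 2 p = p * (p ^ 2 - 1) / 2 := by
    unfold ordL
    rw [hg]
    have : Finset.Icc 2 2 = {2} := by decide
    rw [this, Finset.prod_singleton]
    norm_num
  rw [e] at hs
  have h2 : 2 ∣ p * (p ^ 2 - 1) := by
    apply Dvd.dvd.mul_left
    have : (p ^ 2) % 2 = 1 := by
      rw [Nat.pow_mod, hodd]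
    omega
  have h6 : p * (p ^ 2 - 1) = 2 * (p * (p ^ 2 - 1) / 2) := (Nat.mul_div_cancel' h2).symm
  have h7 : p ∣ p * (p ^ 2 - 1) / 2 := by
    have h8 : p ∣ 2 * (p * (p ^ 2 - 1) / 2) := h6 ▸ Dvd.intro _ rfl
    rcases (hp.dvd_mul).1 h8 with h9 | h9
    · have := Nat.le_of_dvd (by norm_num) h9
      omega
    · exact h9
  have h8 : p ^ 2 ∣ p * (p ^ 2 - 1) := by
    rw [h6]
    exact (hs p hp h7).mul_left 2
  rw [pow_two, Nat.mul_dvd_mul_iff_left hp.pos] at h8
  have h9 : p ∣ p * p := Dvd.intro _ rfl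
  have h10 : p ∣ 1 := by
    have h11 := Nat.dvd_sub h9 h8
    have h12 : p * p - (p * p - 1) = 1 := by
      have : 1 ≤ p * p := Nat.mul_pos hp.pos hp.pos
      omega
    rwa [h12] at h11
  exact hp.one_lt.ne' (Nat.dvd_one.1 h10)

end Tuan
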