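import Pool.Agent.Tuan.COff
import Pool.Agent.Tuan.CCons
import Pool.Agent.Tuan.CQuad
import Pool.Agent.Tuan.Triv
import Pool.Agent.Tuan.RedL2
import Pool.Agent.Tuan.Red3
import Pool.Agent.Tuan.LowA
import Pool.Agent.Tuan.LowB
import Pool.Agent.Tuan.LowE
import Pool.Agent.Tuan.Grid
import Pool.Agent.Tuan.Power

namespace Tuan

private theorem pp_cases {q : ℕ} (hq : IsPrimePow q) :
    ∃ p f : ℕ, p.Prime ∧ 1 ≤ f ∧ q = p ^ f := by
  obtain ⟨p, f, hp, hf, h⟩ := hq
  exact ⟨p, f, hp.nat_prime, hf, h.symm⟩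

theorem small_L2 : Small (fun X => {s | s ∈ starSet X ∧ ∃ q, s = Name.L 2 q}) := by
  have h2 : Small (fun X => {s | ∃ n, 1 ≤ n ∧ s = Name.L 2 ((2 * n + 1) ^ 2) ∧
      n ^ 6 ≤ 16 * X ∧ (SqOff 2 n ∧ SqOff 2 (n + 1))}) :=
    power_small (fun n => Name.L 2 ((2 * n + 1) ^ 2)) (fun n => SqOff 2 n ∧ SqOff 2 (n + 1))
      (2 / 5) (by norm_num) 6 16 (by norm_num) (by norm_num) (by norm_num) count_consec _
      (fun X s hs => hs)
  have h3 : Small (fun X => {s | ∃ n, 1 ≤ n ∧ s = Name.L 2 ((n + 1) ^ 3) ∧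
      n ^ 9 ≤ 16 * X ∧ SqOff 6 n}) :=
    power_small (fun n => Name.L 2 ((n + 1) ^ 3)) (fun n => SqOff 6 n)
      (1 / 2) (by norm_num) 9 16 (by norm_num) (by norm_num) (by norm_num)
      (count_off 6 (by norm_num)) _ (fun X s hs => hs)
  have h4 : Small (fun X => {s | ∃ n, 1 ≤ n ∧ s = Name.L 2 ((n + 1) ^ 4) ∧
      n ^ 12 ≤ 16 * X ∧ SqOff 2 n}) :=
    power_small (fun n => Name.L 2 ((n + 1) ^ 4)) (fun n => SqOff 2 n)
      (1 / 2) (by norm_num) 12 16 (by norm_num) (by norm_num) (by norm_num)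
      (count_off 2 (by norm_num)) _ (fun X s hs => hs)
  have h5 : Small (fun X => {s | ∃ f p, s = Name.L 2 (p ^ f) ∧
      2 ^ f ≤ 16 * X ∧ p ^ 15 ≤ 16 * X}) :=
    grid_small (fun f p => Name.L 2 (p ^ f)) _ (fun X s hs => hs)
  have h0 : Small (fun _ => ({Name.L 2 4} : Set Name)) := const_small _ (Set.finite_singleton _)
  refine subset_small _ _ (union_small _ _ (union_small _ _ (union_small _ _
    (union_small _ _ h2 h3) h4) h5) h0) ?_
  rintro X s ⟨⟨hv, hX, hsq⟩, q, rfl⟩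
  obtain ⟨-, hpp, hne⟩ := hv
  have hq4 : 4 ≤ q := by
    by_contra hcon
    exact hne ⟨rfl, by omega⟩
  have hlow := (low_small q (by omega)).1
  have hX' : ordL 2 q ≤ X := hX
  have hq3 : q ^ 3 ≤ 16 * X := hlow.trans (by omega)
  obtain ⟨p, f, hp, hf, rfl⟩ := pp_cases hpp
  have hp2 := hp.two_le
  have hf' : f = 1 ∨ f = 2 ∨ f = 3 ∨ f = 4 ∨ 5 ≤ f := by omega
  rcases hf' with rfl | rfl | rfl | rfl | hf5
  · rw [pow_one] at *
    exact absurd hsq (not_L2_prime p hp hq4)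
  · by_cases hp3 : p = 2
    · subst hp3
      right
      norm_num
    · have h3p : 3 ≤ p := by omega
      have hodd : p % 2 = 1 := by
        rcases hp.eq_two_or_odd with h | h
        · exact absurd h hp3
        · exact h
      have hr := red_L2_sq p hp h3p hsq
      left; left; left; left
      refine ⟨(p - 1) / 2, by omega, ?_, ?_, hr⟩
      · have : 2 * ((p - 1) / 2) + 1 = p := by omega
        rw [this]
      · calc ((p - 1) / 2) ^ 6 ≤ p ^ 6 := Nat.pow_le_pow_left (by omega) 6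
          _ = (p ^ 2) ^ 3 := by ring
          _ ≤ 16 * X := hq3
  · left; left; left; right
    refine ⟨p - 1, by omega, ?_, ?_, red_L2_cube p hp hsq⟩
    · have : p - 1 + 1 = p := by omega
      rw [this]
    · calc (p - 1) ^ 9 ≤ p ^ 9 := Nat.pow_le_pow_left (by omega) 9
        _ = (p ^ 3) ^ 3 := by ring
        _ ≤ 16 * X := hq3
  · left; left; right
    refine ⟨p - 1, by omega, ?_, ?_, red_L2_four p hp hsq⟩
    · have : p - 1 + 1 = p := by omega
      rw [this]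
    · calc (p - 1) ^ 12 ≤ p ^ 12 := Nat.pow_le_pow_left (by omega) 12
        _ = (p ^ 4) ^ 3 := by ring
        _ ≤ 16 * X := hq3
  · left; right
    refine ⟨f, p, rfl, ?_, ?_⟩
    · calc 2 ^ f ≤ p ^ f := Nat.pow_le_pow_left hp2 f
        _ ≤ (p ^ f) ^ 3 := Nat.le_self_pow (by norm_num) _
        _ ≤ 16 * X := hq3
    · calc p ^ 15 = (p ^ 5) ^ 3 := by ring
        _ ≤ (p ^ f) ^ 3 := Nat.pow_le_pow_left (Nat.pow_le_pow_right (by omega) hf5) 3
        _ ≤ 16 * X := hq3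

theorem small_L3 : Small (fun X => {s | s ∈ starSet X ∧ ∃ q, s = Name.L 3 q}) := by
  have h : Small (fun X => {s | ∃ n, 1 ≤ n ∧ s = Name.L 3 (n - 1) ∧
      n ^ 8 ≤ 4096 * X ∧ SqOff 2 n}) :=
    power_small (fun n => Name.L 3 (n - 1)) (fun n => SqOff 2 n)
      (1 / 2) (by norm_num) 8 4096 (by norm_num) (by norm_num) (by norm_num)
      (count_off 2 (by norm_num)) _ (fun X s hs => hs)
  refine subset_small _ _ h ?_
  rintro X s ⟨⟨hv, hX, hsq⟩, q, rfl⟩
  obtain ⟨-, hpp, -⟩ := hv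
  have hq2 : 2 ≤ q := hpp.two_le
  have hlow := (low_small q hq2).2.1
  have hX' : ordL 3 q ≤ X := hX
  refine ⟨q + 1, by omega, rfl, ?_, red_L3 q hq2 hsq⟩
  have h1 : (q + 1) ^ 8 ≤ (2 * q) ^ 8 := Nat.pow_le_pow_left (by omega) 8
  have h2 : (2 * q) ^ 8 = 256 * q ^ 8 := by ring
  omega

theorem small_U3 : Small (fun X => {s | s ∈ starSet X ∧ ∃ q, s = Name.U 3 q}) := by
  have h : Small (fun X => {s | ∃ n, 1 ≤ n ∧ s = Name.U 3 (n + 1) ∧
      n ^ 8 ≤ 16 * X ∧ SqOff 2 n}) :=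
    power_small (fun n => Name.U 3 (n + 1)) (fun n => SqOff 2 n)
      (1 / 2) (by norm_num) 8 16 (by norm_num) (by norm_num) (by norm_num)
      (count_off 2 (by norm_num)) _ (fun X s hs => hs)
  refine subset_small _ _ h ?_
  rintro X s ⟨⟨hv, hX, hsq⟩, q, rfl⟩
  obtain ⟨-, hpp, -⟩ := hv
  have hq2 : 2 ≤ q := hpp.two_le
  have hlow := (low_small q hq2).2.2.1
  have hX' : ordU 3 q ≤ X := hX
  refine ⟨q - 1, by omega, ?_, ?_, red_U3 q hq2 hsq⟩
  · have : q - 1 + 1 = q := by omega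
    rw [this]
  · have h1 : (q - 1) ^ 8 ≤ q ^ 8 := Nat.pow_le_pow_left (by omega) 8
    omega

theorem small_B2 : Small (fun X => {s | s ∈ starSet X ∧ ∃ q, s = Name.B 2 q}) := by
  have h : Small (fun X => {s | ∃ n, 1 ≤ n ∧ s = Name.B 2 n ∧
      n ^ 10 ≤ 16 * X ∧ SqOff 2 (n ^ 2 + 1)}) :=
    power_small (fun n => Name.B 2 n) (fun n => SqOff 2 (n ^ 2 + 1))
      (2 / 3) (by norm_num) 10 16 (by norm_num) (by norm_num) (by norm_num)
      count_quad1 _ (fun X s hs => hs)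
  refine subset_small _ _ h ?_
  rintro X s ⟨⟨hv, hX, hsq⟩, q, rfl⟩
  obtain ⟨-, hpp, -⟩ := hv
  have hq2 : 2 ≤ q := hpp.two_le
  have hlow := (low_small q hq2).2.2.2.1
  have hX' : ordB 2 q ≤ X := hX
  exact ⟨q, by omega, rfl, by omega, red_B2 q hq2 hsq⟩

theorem small_G2 : Small (fun X => {s | s ∈ starSet X ∧ ∃ q, s = Name.G2 q}) := by
  have h : Small (fun X => {s | ∃ n, 1 ≤ n ∧ s = Name.G2 n ∧
      n ^ 14 ≤ 16 * X ∧ SqOff 3 (n ^ 2 + n + 1)}) :=
    power_small (fun n => Name.G2 n) (fun n => SqOff 3 (n ^ 2 + n + 1))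
      (2 / 3) (by norm_num) 14 16 (by norm_num) (by norm_num) (by norm_num)
      count_quad3 _ (fun X s hs => hs)
  refine subset_small _ _ h ?_
  rintro X s ⟨⟨hv, hX, hsq⟩, q, rfl⟩
  obtain ⟨hpp, -⟩ := hv
  have hq2 : 2 ≤ q := hpp.two_le
  have hlow := (low_small q hq2).2.2.2.2
  have hX' : ordG2 q ≤ X := hX
  exact ⟨q, by omega, rfl, by omega, red_G2 q hq2 hsq⟩

/-- The big classical families. -/
theorem small_classical : Small (fun X => {s | s ∈ starSet X ∧ ∃ n q,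
    (s = Name.L n q ∧ 4 ≤ n) ∨ (s = Name.U n q ∧ 4 ≤ n) ∨ (s = Name.B n q ∧ 3 ≤ n) ∨
      s = Name.C n q ∨ s = Name.D n q ∨ s = Name.D2 n q}) := by
  have h1 := grid_small Name.L (fun X => {s | ∃ n q, s = Name.L n q ∧ 2 ^ n ≤ 16 * X ∧
    q ^ 15 ≤ 16 * X}) (fun X s hs => hs)
  have h2 := grid_small Name.U (fun X => {s | ∃ n q, s = Name.U n q ∧ 2 ^ n ≤ 16 * X ∧
    q ^ 15 ≤ 16 * X}) (fun X s hs => hs)
  have h3 := grid_small Name.B (fun X => {s | ∃ n q, s = Name.B n q ∧ 2 ^ n ≤ 16 * X ∧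
    q ^ 15 ≤ 16 * X}) (fun X s hs => hs)
  have h4 := grid_small Name.C (fun X => {s | ∃ n q, s = Name.C n q ∧ 2 ^ n ≤ 16 * X ∧
    q ^ 15 ≤ 16 * X}) (fun X s hs => hs)
  have h5 := grid_small Name.D (fun X => {s | ∃ n q, s = Name.D n q ∧ 2 ^ n ≤ 16 * X ∧
    q ^ 15 ≤ 16 * X}) (fun X s hs => hs)
  have h6 := grid_small Name.D2 (fun X => {s | ∃ n q, s = Name.D2 n q ∧ 2 ^ n ≤ 16 * X ∧
    q ^ 15 ≤ 16 * X}) (fun X s hs => hs)
  refine subset_small _ _ (union_small _ _ (union_small _ _ (union_small _ _ (union_small _ _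
    (union_small _ _ h1 h2) h3) h4) h5) h6) ?_
  rintro X s ⟨⟨hv, hX, hsq⟩, n, q, h⟩
  rcases h with ⟨rfl, hn⟩ | ⟨rfl, hn⟩ | ⟨rfl, hn⟩ | rfl | rfl | rfl
  · left; left; left; left; left
    obtain ⟨-, hpp, -⟩ := hv
    have hX' : ordL n q ≤ X := hX
    have := low_L n q hn hpp.two_le
    exact ⟨n, q, rfl, by omega, by omega⟩
  · left; left; left; left; right
    obtain ⟨-, hpp, -⟩ := hv
    have hX' : ordU n q ≤ X := hX
    have := low_U n q hn hpp.two_le
    exact ⟨n, q, rfl, by omega, by omega⟩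
  · left; left; left; right
    obtain ⟨-, hpp, -⟩ := hv
    have hX' : ordB n q ≤ X := hX
    have := low_B n q hn hpp.two_le
    exact ⟨n, q, rfl, by omega, by omega⟩
  · left; left; right
    obtain ⟨hn, hpp⟩ := hv
    have hX' : ordB n q ≤ X := hX
    have := low_B n q hn hpp.two_le
    exact ⟨n, q, rfl, by omega, by omega⟩
  · left; right
    obtain ⟨hn, hpp⟩ := hv
    have hX' : ordD n q ≤ X := hX
    have := low_D n q hn hpp.two_le
    exact ⟨n, q, rfl, by omega, by omega⟩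
  · right
    obtain ⟨hn, hpp⟩ := hv
    have hX' : ordD2 n q ≤ X := hX
    have := low_D2 n q hn hpp.two_le
    exact ⟨n, q, rfl, by omega, by omega⟩

theorem small_exc : Small (fun X => {s | s ∈ starSet X ∧ ∃ q,
    s = Name.E6 q ∨ s = Name.E7 q ∨ s = Name.E8 q ∨ s = Name.F4 q ∨ s = Name.E62 q ∨
      s = Name.D43 q}) := by
  have h1 := line_small Name.E6 (fun X => {s | ∃ q, s = Name.E6 q ∧ q ^ 15 ≤ 16 * X})
    (fun X s hs => hs)
  have h2 := line_small Name.E7 (fun X => {s | ∃ q, s = Name.E7 q ∧ q ^ 15 ≤ 16 * X})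
    (fun X s hs => hs)
  have h3 := line_small Name.E8 (fun X => {s | ∃ q, s = Name.E8 q ∧ q ^ 15 ≤ 16 * X})
    (fun X s hs => hs)
  have h4 := line_small Name.F4 (fun X => {s | ∃ q, s = Name.F4 q ∧ q ^ 15 ≤ 16 * X})
    (fun X s hs => hs)
  have h5 := line_small Name.E62 (fun X => {s | ∃ q, s = Name.E62 q ∧ q ^ 15 ≤ 16 * X})
    (fun X s hs => hs)
  have h6 := line_small Name.D43 (fun X => {s | ∃ q, s = Name.D43 q ∧ q ^ 15 ≤ 16 * X})
    (fun X s hs => hs)
  refine subset_small _ _ (union_small _ _ (union_small _ _ (union_small _ _ (union_small _ _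
    (union_small _ _ h1 h2) h3) h4) h5) h6) ?_
  rintro X s ⟨⟨hv, hX, hsq⟩, q, h⟩
  rcases h with rfl | rfl | rfl | rfl | rfl | rfl
  · left; left; left; left; left
    have hX' : ordE6 q ≤ X := hX
    have := low_E q (IsPrimePow.two_le hv)
    exact ⟨q, rfl, by omega⟩
  · left; left; left; left; right
    have hX' : ordE7 q ≤ X := hX
    have := low_E q (IsPrimePow.two_le hv)
    exact ⟨q, rfl, by omega⟩
  · left; left; left; right
    have hX' : ordE8 q ≤ X := hX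
    have := low_E q (IsPrimePow.two_le hv)
    exact ⟨q, rfl, by omega⟩
  · left; left; right
    have hX' : ordF4 q ≤ X := hX
    have := low_E q (IsPrimePow.two_le hv)
    exact ⟨q, rfl, by omega⟩
  · left; right
    have hX' : ordE62 q ≤ X := hX
    have := low_E q (IsPrimePow.two_le hv)
    exact ⟨q, rfl, by omega⟩
  · right
    have hX' : ordD43 q ≤ X := hX
    have := low_E q (IsPrimePow.two_le hv)
    exact ⟨q, rfl, by omega⟩

theorem small_tw : Small (fun X => {s | s ∈ starSet X ∧ ∃ m,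
    s = Name.Sz m ∨ s = Name.Ree m ∨ s = Name.F42 m}) := by
  have h1 := log_small Name.Sz (fun X => {s | ∃ m, s = Name.Sz m ∧ 2 ^ m ≤ X})
    (fun X s hs => hs)
  have h2 := log_small Name.Ree (fun X => {s | ∃ m, s = Name.Ree m ∧ 2 ^ m ≤ X})
    (fun X s hs => hs)
  have h3 := log_small Name.F42 (fun X => {s | ∃ m, s = Name.F42 m ∧ 2 ^ m ≤ X})
    (fun X s hs => hs)
  refine subset_small _ _ (union_small _ _ (union_small _ _ h1 h2) h3) ?_
  rintro X s ⟨⟨hv, hX, hsq⟩, m, h⟩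
  rcases h with rfl | rfl | rfl
  · left; left
    have hX' : ordSz (2 ^ (2 * m + 1)) ≤ X := hX
    exact ⟨m, rfl, (low_tw m).1.trans hX'⟩
  · left; right
    have hX' : ordRee (3 ^ (2 * m + 1)) ≤ X := hX
    exact ⟨m, rfl, (low_tw m).2.1.trans hX'⟩
  · right
    have hX' : ordF42 (2 ^ (2 * m + 1)) ≤ X := hX
    exact ⟨m, rfl, (low_tw m).2.2.trans hX'⟩

theorem small_star : Small starSet := by
  have hc : Small (fun _ => ({Name.tits} ∪ Set.range Name.sporadic : Set Name)) :=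
    const_small _ ((Set.finite_singleton _).union (Set.finite_range _))
  refine subset_small _ _ (union_small _ _ (union_small _ _ (union_small _ _ (union_small _ _
    (union_small _ _ (union_small _ _ (union_small _ _ (union_small _ _
    small_L2 small_L3) small_U3) small_B2) small_G2) small_classical) small_exc) small_tw) hc) ?_
  intro X s hs
  have hs' := hs
  obtain ⟨hv, hX, hsq⟩ := hs'
  cases s with
  | cyclic p => exact absurd hsq (not_cyclic p hv)
  | alt n => exact absurd hsq (not_alt n hv)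
  | L n q =>
    have hn : 2 ≤ n := hv.1
    have : n = 2 ∨ n = 3 ∨ 4 ≤ n := by omega
    rcases this with rfl | rfl | h4
    · left; left; left; left; left; left; left; left; exact ⟨hs, q, rfl⟩
    · left; left; left; left; left; left; left; right; exact ⟨hs, q, rfl⟩
    · left; left; left; right; exact ⟨hs, n, q, Or.inl ⟨rfl, h4⟩⟩
  | U n q =>
    have hn : 3 ≤ n := hv.1
    have : n = 3 ∨ 4 ≤ n := by omega
    rcases this with rfl | h4
    · left; left; left; left; left; left; right; exact ⟨hs, q, rfl⟩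
    · left; left; left; right; exact ⟨hs, n, q, Or.inr (Or.inl ⟨rfl, h4⟩)⟩
  | B n q =>
    have hn : 2 ≤ n := hv.1
    have : n = 2 ∨ 3 ≤ n := by omega
    rcases this with rfl | h4
    · left; left; left; left; left; right; exact ⟨hs, q, rfl⟩
    · left; left; left; right; exact ⟨hs, n, q, Or.inr (Or.inr (Or.inl ⟨rfl, h4⟩))⟩
  | C n q => left; left; left; right; exact ⟨hs, n, q, Or.inr (Or.inr (Or.inr (Or.inl rfl)))⟩
  | D n q =>
    left; left; left; right; exact ⟨hs, n, q, Or.inr (Or.inr (Or.inr (Or.inr (Or.inl rfl))))⟩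
  | D2 n q =>
    left; left; left; right; exact ⟨hs, n, q, Or.inr (Or.inr (Or.inr (Or.inr (Or.inr rfl))))⟩
  | E6 q => left; left; right; exact ⟨hs, q, Or.inl rfl⟩
  | E7 q => left; left; right; exact ⟨hs, q, Or.inr (Or.inl rfl)⟩
  | E8 q => left; left; right; exact ⟨hs, q, Or.inr (Or.inr (Or.inl rfl))⟩
  | F4 q => left; left; right; exact ⟨hs, q, Or.inr (Or.inr (Or.inr (Or.inl rfl)))⟩
  | G2 q => left; left; left; left; right; exact ⟨hs, q, rfl⟩
  | E62 q =>
    left; left; right; exact ⟨hs, q, Or.inr (Or.inr (Or.inr (Or.inr (Or.inl rfl))))⟩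
  | D43 q =>
    left; left; right; exact ⟨hs, q, Or.inr (Or.inr (Or.inr (Or.inr (Or.inr rfl))))⟩
  | Sz m => left; right; exact ⟨hs, m, Or.inl rfl⟩
  | Ree m => left; right; exact ⟨hs, m, Or.inr (Or.inl rfl)⟩
  | F42 m => left; right; exact ⟨hs, m, Or.inr (Or.inr rfl)⟩
  | tits => right; left; rfl
  | sporadic i => right; right; exact ⟨i, rfl⟩

end Tuan
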