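import Pool.Agent.Tuan.Def

/-!
MODULE Pow (size 2).  Representation of squarefull numbers.

SKETCH.  `Nat.recOnPosPrimePosCoprime` (or induction with `Nat.recOnPrimeCoprime`).
Prime power `m = p ^ n`, `n > 0`.  If `¬ p ∣ T` then `SqOff` at `p` gives `n ≥ 2`; so `n = 2k`
(take `e = 1, a = p^k, b = 1`) or `n = 2k + 3` (take `e = 1, a = p^k, b = p`).  If `p ∣ T` the same
two cases, or `n = 1` (take `e = p, a = b = 1`).
Coprime product `m = m1 * m2` (`m1, m2 > 0`): `SqOff T m1` and `SqOff T m2` hold (if `r ∣ m1` then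
`r^2 ∣ m1 * m2` and `r` is coprime to `m2`, so `r^2 ∣ m1`); `m1 = e1 a1^2 b1^3`,
`m2 = e2 a2^2 b2^3`, `e1, e2` coprime divisors of `T`, so `e1 * e2 ∣ T`.  `m = 1`: `e = a = b = 1`.
-/

namespace Tuan

theorem rep_off (T m : ℕ) (hT : T ≠ 0) (hm : 0 < m) (h : SqOff T m) :
    ∃ e a b : ℕ, e ∣ T ∧ m = e * a ^ 2 * b ^ 3 := by
  induction m using Nat.recOnPosPrimePosCoprime with
  | prime_pow p n hp hn =>
    by_cases hpT : p ∣ T
    · rcases Nat.even_or_odd' n with ⟨k, hk | hk⟩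
      · exact ⟨1, p ^ k, 1, one_dvd _, by rw [hk]; ring⟩
      · by_cases hk0 : k = 0
        · exact ⟨p, 1, 1, hpT, by rw [hk, hk0]; ring⟩
        · obtain ⟨l, rfl⟩ := Nat.exists_eq_succ_of_ne_zero hk0
          exact ⟨1, p ^ l, p, one_dvd _, by rw [hk]; simp only [Nat.succ_eq_add_one]; ring⟩
    · have h2 : p ^ 2 ∣ p ^ n := h p hp hpT (dvd_pow_self p hn.ne')
      have h3 : 2 ≤ n := (Nat.pow_dvd_pow_iff_le_right hp.one_lt).1 h2
      rcases Nat.even_or_odd' n with ⟨k, hk | hk⟩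
      · exact ⟨1, p ^ k, 1, one_dvd _, by rw [hk]; ring⟩
      · have hk0 : k ≠ 0 := by omega
        obtain ⟨l, rfl⟩ := Nat.exists_eq_succ_of_ne_zero hk0
        exact ⟨1, p ^ l, p, one_dvd _, by rw [hk]; simp only [Nat.succ_eq_add_one]; ring⟩
  | zero => exact absurd hm (lt_irrefl 0)
  | one => exact ⟨1, 1, 1, one_dvd _, by norm_num⟩
  | coprime m1 m2 h1 h2 hc ih1 ih2 =>
    have hs1 : SqOff T m1 := by
      intro r hr hrT hrm
      have h3 : r ^ 2 ∣ m1 * m2 := h r hr hrT (hrm.mul_right m2)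
      have h4 : Nat.Coprime (r ^ 2) m2 :=
        Nat.Coprime.pow_left 2 (Nat.Coprime.coprime_dvd_left hrm hc)
      exact h4.dvd_of_dvd_mul_right h3
    have hs2 : SqOff T m2 := by
      intro r hr hrT hrm
      have h3 : r ^ 2 ∣ m1 * m2 := h r hr hrT (hrm.mul_left m1)
      have h4 : Nat.Coprime (r ^ 2) m1 :=
        Nat.Coprime.pow_left 2 (Nat.Coprime.coprime_dvd_left hrm hc.symm)
      exact h4.dvd_of_dvd_mul_left h3
    obtain ⟨e1, a1, b1, he1, hm1⟩ := ih1 (by omega) hs1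
    obtain ⟨e2, a2, b2, he2, hm2⟩ := ih2 (by omega) hs2
    have d1 : e1 ∣ m1 := ⟨a1 ^ 2 * b1 ^ 3, by rw [hm1]; ring⟩
    have d2 : e2 ∣ m2 := ⟨a2 ^ 2 * b2 ^ 3, by rw [hm2]; ring⟩
    have hce : Nat.Coprime e1 e2 :=
      Nat.Coprime.coprime_dvd_left d1 (Nat.Coprime.coprime_dvd_right d2 hc)
    refine ⟨e1 * e2, a1 * a2, b1 * b2, hce.mul_dvd_of_dvd_of_dvd he1 he2, ?_⟩
    calc m1 * m2 = (e1 * a1 ^ 2 * b1 ^ 3) * (e2 * a2 ^ 2 * b2 ^ 3) := by rw [← hm1, ← hm2]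
      _ = e1 * e2 * (a1 * a2) ^ 2 * (b1 * b2) ^ 3 := by ring

end Tuan
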