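import Mathlib

/-!
The groups `PSp_4(q)` of squarefull order.
-/

namespace TuanS4

/-- `m` is squarefull: no prime divides `m` exactly once. -/
def SqFull (m : ℕ) : Prop := ∀ r : ℕ, r.Prime → r ∣ m → r ^ 2 ∣ m

/-- The order of `PSp_4(q)`. -/
def ordS4 (q : ℕ) : ℕ := q ^ 4 * (q ^ 2 - 1) * (q ^ 4 - 1) / Nat.gcd 2 (q - 1)

/-! ### The negative Pell equation -/

section pell

variable {D x1 w1 : ℤ}

/-- descent step -/
private theorem descent (hx1 : 1 ≤ x1) (hw1 : 1 ≤ w1) (h1 : x1 ^ 2 + 1 = D * w1 ^ 2)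
    (hmin : ∀ x w : ℤ, 1 ≤ x → x ^ 2 + 1 = D * w ^ 2 → x1 ≤ x)
    (x w : ℤ) (hw : 1 ≤ w) (h : x ^ 2 + 1 = D * w ^ 2) (hx : x1 < x) :
    1 ≤ x * (2 * x1 ^ 2 + 1) - 2 * D * x1 * w1 * w ∧
    x * (2 * x1 ^ 2 + 1) - 2 * D * x1 * w1 * w < x ∧
    1 ≤ w * (2 * x1 ^ 2 + 1) - 2 * x1 * w1 * x ∧
    (x * (2 * x1 ^ 2 + 1) - 2 * D * x1 * w1 * w) ^ 2 + 1 =
      D * (w * (2 * x1 ^ 2 + 1) - 2 * x1 * w1 * x) ^ 2 := by
  have hD : 1 ≤ D := by
    by_contra hcon
    have : D * w1 ^ 2 ≤ 0 := by nlinarith [sq_nonneg w1]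
    nlinarith [sq_nonneg x1]
  set P : ℤ := D * w1 * w with hP
  have hP2 : P ^ 2 = (x1 ^ 2 + 1) * (x ^ 2 + 1) := by
    rw [h1, h, hP]; ring
  have hP0 : 0 < P := by positivity
  have heq : (x * (2 * x1 ^ 2 + 1) - 2 * D * x1 * w1 * w) ^ 2 + 1 =
      D * (w * (2 * x1 ^ 2 + 1) - 2 * x1 * w1 * x) ^ 2 := by
    have e1 : (x * (2 * x1 ^ 2 + 1) - 2 * D * x1 * w1 * w) ^ 2 -
        D * (w * (2 * x1 ^ 2 + 1) - 2 * x1 * w1 * x) ^ 2 =
        (x ^ 2 - D * w ^ 2) * ((2 * x1 ^ 2 + 1) ^ 2 - 4 * x1 ^ 2 * (D * w1 ^ 2)) := by ring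
    have e2 : x ^ 2 - D * w ^ 2 = -1 := by linarith
    rw [e2, ← h1] at e1
    nlinarith [e1]
  have hxP : x * x1 < P := by
    apply lt_of_pow_lt_pow_left₀ 2 hP0.le
    rw [hP2]
    nlinarith [sq_nonneg x, sq_nonneg x1]
  have hlt : x * (2 * x1 ^ 2 + 1) - 2 * D * x1 * w1 * w < x := by
    have : 2 * D * x1 * w1 * w = 2 * x1 * P := by rw [hP]; ring
    rw [this]
    nlinarith [mul_lt_mul_of_pos_left hxP (by linarith : (0 : ℤ) < 2 * x1)]
  have hw'pos : 1 ≤ w * (2 * x1 ^ 2 + 1) - 2 * x1 * w1 * x := by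
    have h3 : (2 * x1 * w1 * x) ^ 2 * D < (w * (2 * x1 ^ 2 + 1)) ^ 2 * D := by
      have a1 : (2 * x1 * w1 * x) ^ 2 * D = 4 * x1 ^ 2 * x ^ 2 * (x1 ^ 2 + 1) := by
        rw [h1]; ring
      have a2 : (w * (2 * x1 ^ 2 + 1)) ^ 2 * D = (x ^ 2 + 1) * (2 * x1 ^ 2 + 1) ^ 2 := by
        rw [h]; ring
      rw [a1, a2]
      nlinarith [sq_nonneg x, sq_nonneg x1, sq_nonneg (x1 ^ 2)]
    have h4 : (2 * x1 * w1 * x) ^ 2 < (w * (2 * x1 ^ 2 + 1)) ^ 2 :=
      lt_of_mul_lt_mul_right h3 (by linarith)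
    have h5 : 2 * x1 * w1 * x < w * (2 * x1 ^ 2 + 1) :=
      lt_of_pow_lt_pow_left₀ 2 (by positivity) h4
    linarith
  refine ⟨?_, hlt, hw'pos, heq⟩
  by_contra hcon
  push Not at hcon
  set x' := x * (2 * x1 ^ 2 + 1) - 2 * D * x1 * w1 * w with hx'
  set w' := w * (2 * x1 ^ 2 + 1) - 2 * x1 * w1 * x with hw'
  have hx'0 : x' ≤ 0 := by linarith
  have hxneg : -x' < x1 := by
    have e : -x' = 2 * x1 * P - x * (2 * x1 ^ 2 + 1) := by rw [hx', hP]; ring
    rw [e]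
    have : 2 * x1 * P < x * (2 * x1 ^ 2 + 1) + x1 := by
      apply lt_of_pow_lt_pow_left₀ 2 (by nlinarith [sq_nonneg x1])
      rw [mul_pow, hP2]
      have hx1' : x1 + 1 ≤ x := by linarith
      have k1 : x1 ^ 2 < x ^ 2 := by nlinarith
      have k2 : x1 ^ 2 * (2 * x1 ^ 2 + 1) < x * x1 * (2 * x1 ^ 2 + 1) := by
        have : x1 ^ 2 < x * x1 := by nlinarith
        have h7 : 0 < 2 * x1 ^ 2 + 1 := by positivity
        exact mul_lt_mul_of_pos_right this h7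
      nlinarith
    linarith
  rcases lt_or_eq_of_le hx'0 with hneg | hzero
  · have := hmin (-x') w' (by linarith) (by rw [neg_sq]; exact heq)
    linarith
  · rw [hzero] at heq
    have hw'1 : (1 : ℤ) ≤ w' := hw'pos
    have : D * w' ^ 2 = 1 := by linarith
    have hD1 : D = 1 := by
      have : D ∣ 1 := ⟨w' ^ 2, this.symm⟩
      exact Int.eq_one_of_dvd_one (by linarith) this
    rw [hD1, one_mul] at h1
    have k1 : x1 < w1 := by
      apply lt_of_pow_lt_pow_left₀ 2 (by linarith)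
      linarith
    have k2 : x1 + 1 ≤ w1 := k1
    nlinarith

open Zsqrtd in
/-- every solution is an odd power of the least one -/
private theorem exists_pow (hx1 : 1 ≤ x1) (hw1 : 1 ≤ w1) (h1 : x1 ^ 2 + 1 = D * w1 ^ 2)
    (hmin : ∀ x w : ℤ, 1 ≤ x → x ^ 2 + 1 = D * w ^ 2 → x1 ≤ x) :
    ∀ (n : ℕ) (x w : ℤ), x.toNat ≤ n → 1 ≤ x → 1 ≤ w → x ^ 2 + 1 = D * w ^ 2 →
      ∃ m : ℕ, (⟨x, w⟩ : ℤ√D) = (⟨x1, w1⟩ : ℤ√D) ^ (2 * m + 1) := by
  intro n
  induction n with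
  | zero =>
    intro x w hn hx
    omega
  | succ n ih =>
    intro x w hn hx hw h
    have hD : 1 ≤ D := by
      by_contra hcon
      have : D * w1 ^ 2 ≤ 0 := by nlinarith [sq_nonneg w1]
      nlinarith [sq_nonneg x1]
    rcases (hmin x w hx h).lt_or_eq with hlt | heq
    · obtain ⟨d1, d2, d3, d4⟩ := descent hx1 hw1 h1 hmin x w hw h hlt
      obtain ⟨m, hm⟩ := ih _ _ (by omega) d1 d3 d4
      refine ⟨m + 1, ?_⟩
      have e : (⟨x1, w1⟩ : ℤ√D) ^ (2 * (m + 1) + 1) =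
          (⟨x1, w1⟩ : ℤ√D) ^ (2 * m + 1) * ((⟨x1, w1⟩ : ℤ√D) * ⟨x1, w1⟩) := by ring
      rw [e, ← hm]
      ext
      · simp only [Zsqrtd.re_mul, Zsqrtd.im_mul]
        linear_combination (-(2 * x1 * D * w1 * w + x * (2 * x1 ^ 2 - 1))) * h1
      · simp only [Zsqrtd.re_mul, Zsqrtd.im_mul]
        linear_combination (-(2 * x1 * w1 * x + w * (2 * x1 ^ 2 - 1))) * h1
    · refine ⟨0, ?_⟩
      subst heq
      have : w = w1 := by
        have e : D * w ^ 2 = D * w1 ^ 2 := by linarith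
        have e2 : w ^ 2 = w1 ^ 2 := by
          have hD0 : D ≠ 0 := by omega
          exact mul_left_cancel₀ hD0 e
        exact (pow_left_inj₀ (by linarith) (by linarith) (by norm_num)).1 e2
      rw [this]
      simp

/-- the real part of `α` divides the real part of an odd power -/
private theorem re_dvd_re_pow (α : ℤ√D) (m : ℕ) : α.re ∣ (α ^ (2 * m + 1)).re := by
  induction m with
  | zero => simp
  | succ m ih =>
    -- `α ^ 2 = 2 re(α) α - N`
    have e : α ^ (2 * (m + 1) + 1) = α ^ (2 * m + 1) * (α * α) := by ring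
    have hre : (α * α).re = 2 * α.re * α.re - α.norm := by
      rw [Zsqrtd.re_mul, Zsqrtd.norm_def]; ring
    have him : (α * α).im = 2 * α.re * α.im := by
      rw [Zsqrtd.im_mul]; ring
    rw [e, Zsqrtd.re_mul, hre, him]
    obtain ⟨c, hc⟩ := ih
    rw [hc]
    exact ⟨c * (2 * α.re * α.re - α.norm) + D * (α ^ (2 * m + 1)).im * (2 * α.im), by ring⟩

/-- congruences for the odd powers of a unit of norm `-1` -/
private theorem pow_cong (x w : ℤ) (h : x ^ 2 + 1 = D * w ^ 2) (m : ℕ) :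
    (∃ s : ℤ, ((⟨x, w⟩ : ℤ√D) ^ (2 * m + 1)).re = (2 * m + 1) * x + x ^ 3 * s) ∧
    (∃ t : ℤ, ((⟨x, w⟩ : ℤ√D) ^ (2 * m + 1)).im = w + x ^ 2 * t) := by
  induction m with
  | zero => exact ⟨⟨0, by simp⟩, ⟨0, by simp⟩⟩
  | succ m ih =>
    obtain ⟨⟨s, hs⟩, ⟨t, ht⟩⟩ := ih
    have e : (⟨x, w⟩ : ℤ√D) ^ (2 * (m + 1) + 1) =
        (⟨x, w⟩ : ℤ√D) ^ (2 * m + 1) * ((⟨x, w⟩ : ℤ√D) * ⟨x, w⟩) := by ring
    constructor
    · refine ⟨(2 * m + 1) * 2 + s * (2 * x ^ 2 + 1) + 2 + 2 * D * w * t, ?_⟩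
      rw [e, Zsqrtd.re_mul, hs, ht]
      simp only [Zsqrtd.re_mul, Zsqrtd.im_mul]
      push_cast
      linear_combination (-(((2 * m + 1) * x + x ^ 3 * s) + 2 * x)) * h
    · refine ⟨2 * w * ((2 * m + 1) + x ^ 2 * s) + 2 * (w + x ^ 2 * t) + t, ?_⟩
      rw [e, Zsqrtd.im_mul, hs, ht]
      simp only [Zsqrtd.re_mul, Zsqrtd.im_mul]
      linear_combination (-(w + x ^ 2 * t)) * h

/-- growth of the odd powers -/
private theorem pow_growth (x w : ℤ) (hx : 1 ≤ x) (hw : 1 ≤ w) (hD : 1 ≤ D) (m : ℕ) :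
    x * (x ^ 2) ^ m ≤ ((⟨x, w⟩ : ℤ√D) ^ (2 * m + 1)).re ∧
      1 ≤ ((⟨x, w⟩ : ℤ√D) ^ (2 * m + 1)).im := by
  induction m with
  | zero => simp [hw]
  | succ m ih =>
    obtain ⟨i1, i2⟩ := ih
    have e : (⟨x, w⟩ : ℤ√D) ^ (2 * (m + 1) + 1) =
        (⟨x, w⟩ : ℤ√D) ^ (2 * m + 1) * ((⟨x, w⟩ : ℤ√D) * ⟨x, w⟩) := by ring
    set a := ((⟨x, w⟩ : ℤ√D) ^ (2 * m + 1)).re with ha
    set b := ((⟨x, w⟩ : ℤ√D) ^ (2 * m + 1)).im with hb
    have ha0 : 0 ≤ a := le_trans (by positivity) i1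
    rw [e, Zsqrtd.re_mul, Zsqrtd.im_mul, ← ha, ← hb]
    simp only [Zsqrtd.re_mul, Zsqrtd.im_mul]
    constructor
    · have h1 : x * (x ^ 2) ^ (m + 1) = (x * (x ^ 2) ^ m) * x ^ 2 := by ring
      rw [h1]
      have h2 : (x * (x ^ 2) ^ m) * x ^ 2 ≤ a * x ^ 2 :=
        mul_le_mul_of_nonneg_right i1 (by positivity)
      have h3 : 0 ≤ a * (D * w * w) := by positivity
      have h4 : 0 ≤ D * b * (x * w + w * x) := by positivity
      nlinarith
    · have h3 : 0 ≤ a * (x * w + w * x) := by positivity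
      have h4 : 1 ≤ b * (x * x + D * w * w) := by
        have : 1 ≤ x * x + D * w * w := by nlinarith [mul_pos (by linarith : (0:ℤ) < w) (by linarith : (0:ℤ) < w), mul_nonneg (by linarith : (0:ℤ) ≤ D) (mul_nonneg (by linarith : (0:ℤ) ≤ w) (by linarith : (0:ℤ) ≤ w))]
        nlinarith
      linarith

end pell

/-- A prime power `q` with `q^2 + 1 = D w^2` is the least positive `x` with `x^2 + 1 = D w^2`
solvable, unless `x = 1` is. -/
theorem prime_pow_least (D : ℤ) (p f : ℕ) (hp : p.Prime) (w : ℤ)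
    (h : ((p ^ f : ℕ) : ℤ) ^ 2 + 1 = D * w ^ 2) (h2 : ∀ v : ℤ, (1 : ℤ) ^ 2 + 1 ≠ D * v ^ 2) :
    ∀ x v : ℤ, 1 ≤ x → x ^ 2 + 1 = D * v ^ 2 → ((p ^ f : ℕ) : ℤ) ≤ x := by
  classical
  have hq1 : 1 ≤ p ^ f := Nat.one_le_pow _ _ hp.pos
  let S : ℕ → Prop := fun x => 1 ≤ x ∧ ∃ v : ℤ, (x : ℤ) ^ 2 + 1 = D * v ^ 2
  have hS : ∃ x, S x := ⟨p ^ f, hq1, w, h⟩
  set x1 := Nat.find hS with hx1def
  obtain ⟨hx1, v1, hv1⟩ := Nat.find_spec hS
  rw [← hx1def] at hx1 hv1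
  have hmin : ∀ x v : ℤ, 1 ≤ x → x ^ 2 + 1 = D * v ^ 2 → (x1 : ℤ) ≤ x := by
    intro x v hx hv
    lift x to ℕ using by linarith
    have : x1 ≤ x := Nat.find_min' hS ⟨by exact_mod_cast hx, v, hv⟩
    exact_mod_cast this
  -- it suffices that `x1 = q`
  suffices hsuff : x1 = p ^ f by
    intro x v hx hv
    rw [← hsuff]
    exact hmin x v hx hv
  have hx1ne : x1 ≠ 1 := by
    intro hcon
    rw [hcon] at hv1
    exact h2 v1 (by exact_mod_cast hv1)
  have hx1' : (1 : ℤ) ≤ x1 := by exact_mod_cast hx1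
  -- make `v1`, `w` positive
  have hw1 : (1 : ℤ) ≤ |v1| := by
    have : v1 ≠ 0 := by
      rintro rfl
      nlinarith
    exact Int.one_le_abs this
  have hw : (1 : ℤ) ≤ |w| := by
    have : w ≠ 0 := by
      rintro rfl
      nlinarith [sq_nonneg ((p ^ f : ℕ) : ℤ)]
    exact Int.one_le_abs this
  have e1 : (x1 : ℤ) ^ 2 + 1 = D * |v1| ^ 2 := by rw [sq_abs]; exact hv1
  have e2 : ((p ^ f : ℕ) : ℤ) ^ 2 + 1 = D * |w| ^ 2 := by rw [sq_abs]; exact h
  have hD : 1 ≤ D := by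
    by_contra hcon
    have : D * |v1| ^ 2 ≤ 0 := by nlinarith [sq_nonneg |v1|]
    nlinarith [sq_nonneg (x1 : ℤ)]
  obtain ⟨m, hm⟩ := exists_pow hx1' hw1 e1 hmin _ _ _ le_rfl (by exact_mod_cast hq1) hw e2
  set α : ℤ√D := ⟨(x1 : ℤ), |v1|⟩ with hα
  have hqre : ((p ^ f : ℕ) : ℤ) = (α ^ (2 * m + 1)).re := by rw [← hm]
  have hx1dvd : x1 ∣ p ^ f := by
    have : ((x1 : ℕ) : ℤ) ∣ ((p ^ f : ℕ) : ℤ) := by
      rw [hqre]; exact re_dvd_re_pow α m
    exact_mod_cast this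
  obtain ⟨j, hj, hx1j⟩ := (Nat.dvd_prime_pow hp).1 hx1dvd
  have hj1 : 1 ≤ j := by
    rcases Nat.eq_zero_or_pos j with rfl | h
    · exact absurd (by simpa using hx1j) hx1ne
    · exact h
  rcases Nat.eq_zero_or_pos m with rfl | hmpos
  · have : ((p ^ f : ℕ) : ℤ) = x1 := by rw [hqre]; simp [hα]
    exact_mod_cast this.symm
  exfalso
  -- least prime factor of `2m+1`
  set l := (2 * m + 1).minFac with hl
  have hlp : l.Prime := Nat.minFac_prime (by omega)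
  obtain ⟨k', hk'⟩ : l ∣ 2 * m + 1 := Nat.minFac_dvd _
  have hlodd : l % 2 = 1 := by
    rcases hlp.eq_two_or_odd with h | h
    · rw [h] at hk'; omega
    · exact h
  have hk'odd : k' % 2 = 1 := by
    by_contra hcon
    have : k' % 2 = 0 := by omega
    obtain ⟨c, rfl⟩ : 2 ∣ k' := Nat.dvd_of_mod_eq_zero this
    have : 2 * m + 1 = 2 * (l * c) := by rw [hk']; ring
    omega
  obtain ⟨a, ha⟩ : ∃ a, l = 2 * a + 1 := ⟨l / 2, by omega⟩
  obtain ⟨b, hb⟩ : ∃ b, k' = 2 * b + 1 := ⟨k' / 2, by omega⟩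
  have ha1 : 1 ≤ a := by
    have := hlp.two_le
    omega
  set y := (α ^ (2 * a + 1)).re with hy
  have hydvd : y ∣ ((p ^ f : ℕ) : ℤ) := by
    rw [hqre, hk', pow_mul, ha, hb, hy]
    exact re_dvd_re_pow _ b
  obtain ⟨⟨s, hs⟩, -⟩ := pow_cong (D := D) (x1 : ℤ) |v1| e1 a
  have hgrow := (pow_growth (D := D) (x1 : ℤ) |v1| hx1' hw1 hD a).1
  rw [← hα, ← hy] at hs hgrow
  have hx1p : (p : ℤ) ≤ x1 := by
    rw [hx1j]
    push_cast
    calc (p : ℤ) = (p : ℤ) ^ 1 := (pow_one _).symm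
      _ ≤ (p : ℤ) ^ j := pow_le_pow_right₀ (by exact_mod_cast hp.pos) hj1
  have hp2 : (2 : ℤ) ≤ p := by exact_mod_cast hp.two_le
  have hy3 : (x1 : ℤ) ^ 3 ≤ y := by
    have h1 : (x1 : ℤ) * ((x1 : ℤ) ^ 2) ^ 1 ≤ x1 * ((x1 : ℤ) ^ 2) ^ a := by
      apply mul_le_mul_of_nonneg_left _ (by linarith)
      exact pow_le_pow_right₀ (by nlinarith) ha1
    nlinarith
  have hypos : 0 < y := lt_of_lt_of_le (by positivity) hy3
  lift y to ℕ using hypos.le with yn hyn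
  have hyd : yn ∣ p ^ f := by exact_mod_cast hydvd
  obtain ⟨i, hi, hyi⟩ := (Nat.dvd_prime_pow hp).1 hyd
  -- `i ≥ j`
  have hji : j < i := by
    by_contra hcon
    push Not at hcon
    have h1 : yn ≤ x1 := by
      rw [hyi, hx1j]
      exact Nat.pow_le_pow_right hp.pos hcon
    have h2 : (yn : ℤ) ≤ x1 := by exact_mod_cast h1
    nlinarith
  obtain ⟨t, rfl⟩ : ∃ t, i = j + (t + 1) := ⟨i - j - 1, by omega⟩
  have hcong : (p : ℤ) ^ (t + 1) = (2 * a + 1) + (x1 : ℤ) ^ 2 * s := by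
    have h1 : (yn : ℤ) = x1 * (p : ℤ) ^ (t + 1) := by
      rw [hyi, hx1j]; push_cast; ring
    have h2 : (x1 : ℤ) * (p : ℤ) ^ (t + 1) = x1 * ((2 * a + 1) + (x1 : ℤ) ^ 2 * s) := by
      rw [← h1, hs]; ring
    exact mul_left_cancel₀ (by linarith) h2
  have hpx : (p : ℤ) ∣ x1 := by
    rw [hx1j]; push_cast
    exact dvd_pow_self _ (by omega)
  have hpl : p ∣ l := by
    have h1 : (p : ℤ) ∣ (2 * a + 1 : ℤ) := by
      have h2 : (2 * a + 1 : ℤ) = (p : ℤ) ^ (t + 1) - (x1 : ℤ) ^ 2 * s := by rw [hcong]; ring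
      rw [h2]
      exact dvd_sub (dvd_pow_self _ (by omega)) ((hpx.trans (dvd_pow_self _ (by norm_num))).mul_right _)
    rw [ha]
    exact_mod_cast h1
  have hpl' : p = l := (Nat.prime_dvd_prime_iff_eq hp hlp).1 hpl
  have hpa : (2 * a + 1 : ℤ) = p := by
    rw [hpl', ha]; push_cast; ring
  rw [hpa] at hcong
  have hp2x : (p : ℤ) ^ 2 ∣ (x1 : ℤ) ^ 2 := pow_dvd_pow_of_dvd hpx 2
  have ht0 : t = 0 := by
    by_contra hcon
    have h1 : (p : ℤ) ^ 2 ∣ (p : ℤ) ^ (t + 1) := pow_dvd_pow _ (by omega)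
    have h2 : (p : ℤ) ^ 2 ∣ (p : ℤ) := by
      have h3 : (p : ℤ) ^ (t + 1) - (x1 : ℤ) ^ 2 * s = (p : ℤ) := by rw [hcong]; ring
      have h5 := dvd_sub h1 (hp2x.mul_right s)
      rwa [h3] at h5
    have h4 := Int.le_of_dvd (by linarith) h2
    nlinarith
  subst ht0
  have hyfin : (yn : ℤ) = x1 * p := by
    rw [hyi, hx1j]; push_cast; ring
  rw [hyfin] at hy3
  nlinarith [mul_pos (by linarith : (0 : ℤ) < x1) (by linarith : (0 : ℤ) < x1)]

/-! ### The main theorem -/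

private theorem sqfull_of_sq {M : ℕ} (h : IsSquare M) : SqFull M := by
  obtain ⟨s, rfl⟩ := h
  intro r hr hd
  have : r ∣ s := by
    rcases (Nat.Prime.dvd_mul hr).1 hd with h | h <;> exact h
  rw [pow_two]
  exact mul_dvd_mul this this

private theorem sqfull_coprime {A M : ℕ} (hA : Nat.Coprime A M) :
    SqFull (A ^ 2 * M) ↔ SqFull M := by
  constructor
  · intro h r hr hd
    have h1 := h r hr (hd.mul_left _)
    have hc : Nat.Coprime (r ^ 2) (A ^ 2) := by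
      apply Nat.Coprime.pow
      exact (Nat.Coprime.coprime_dvd_right hd hA).symm
    exact hc.dvd_of_dvd_mul_left h1
  · intro h r hr hd
    rcases (Nat.Prime.dvd_mul hr).1 hd with h1 | h1
    · have h2 : r ∣ A := hr.dvd_of_dvd_pow h1
      exact (pow_dvd_pow_of_dvd h2 2).mul_right _
    · exact (h r hr h1).mul_left _

private theorem issq_coprime {A M : ℕ} (hA : A ≠ 0) : IsSquare (A ^ 2 * M) ↔ IsSquare M := by
  constructor
  · rintro ⟨s, hs⟩
    have h1 : A ^ 2 ∣ s ^ 2 := ⟨M, by rw [hs]; ring⟩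
    obtain ⟨c, rfl⟩ := (Nat.pow_dvd_pow_iff (by norm_num)).1 h1
    refine ⟨c, ?_⟩
    have h2 : A ^ 2 * M = A ^ 2 * (c * c) := by rw [hs]; ring
    exact Nat.eq_of_mul_eq_mul_left (by positivity) h2
  · rintro ⟨s, rfl⟩
    exact ⟨A * s, by ring⟩

theorem criterion (q : ℕ) (hq : IsPrimePow q) :
    SqFull (ordS4 q) ↔ IsSquare (ordS4 q) ∨
      ∃ b z : ℕ, 1 < b ∧ Squarefree b ∧ b ∣ z ∧ q ^ 2 + 1 = Nat.gcd 2 (q - 1) * b * z ^ 2 ∧
        ∀ x w : ℕ, 1 ≤ x → x ^ 2 + 1 = Nat.gcd 2 (q - 1) * b * w ^ 2 → q ≤ x := by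
  have hq2 : 2 ≤ q := hq.two_le
  set d := Nat.gcd 2 (q - 1) with hd
  have hd12 : (d = 1 ∧ q % 2 = 0) ∨ (d = 2 ∧ q % 2 = 1) := by
    rcases Nat.mod_two_eq_zero_or_one q with h | h
    · left
      refine ⟨?_, h⟩
      have : Nat.Coprime 2 (q - 1) := by
        rw [Nat.coprime_two_left]
        exact Nat.odd_iff.2 (by omega)
      exact this
    · right
      refine ⟨?_, h⟩
      exact Nat.gcd_eq_left (by omega)
  have hdvd : d ∣ q ^ 2 + 1 := by
    rcases hd12 with ⟨h, -⟩ | ⟨h, h'⟩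
    · rw [h]; exact one_dvd _
    · rw [h]
      have : (q ^ 2 + 1) % 2 = 0 := by
        rw [Nat.add_mod, Nat.pow_mod, h']
      exact Nat.dvd_of_mod_eq_zero this
  obtain ⟨M, hM⟩ := hdvd
  have hdpos : 0 < d := by rcases hd12 with ⟨h, -⟩ | ⟨h, -⟩ <;> omega
  have hMpos : 0 < M := by
    rcases Nat.eq_zero_or_pos M with rfl | h
    · simp at hM
    · exact h
  have hModd : M % 2 = 1 := by
    rcases hd12 with ⟨h, h'⟩ | ⟨h, h'⟩
    · rw [h, one_mul] at hM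
      rw [← hM, Nat.add_mod, Nat.pow_mod, h']
    · rw [h] at hM
      have h4 : (q ^ 2 + 1) % 4 = 2 := by
        have : q % 4 = 1 ∨ q % 4 = 3 := by omega
        rcases this with h5 | h5 <;> rw [Nat.add_mod, Nat.pow_mod, h5]
      omega
  set A := q ^ 2 * (q ^ 2 - 1) with hA
  have hq4 : 1 ≤ q ^ 2 - 1 := by
    have : 2 ^ 2 ≤ q ^ 2 := Nat.pow_le_pow_left hq2 2
    omega
  have hApos : A ≠ 0 := by positivity
  have hord : ordS4 q = A ^ 2 * M := by
    unfold ordS4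
    rw [← hd]
    apply Nat.div_eq_of_eq_mul_left hdpos
    have h4 : q ^ 4 - 1 = (q ^ 2 - 1) * (q ^ 2 + 1) := by
      have h1 : 1 ≤ q ^ 2 := Nat.one_le_pow _ _ (by omega)
      zify [h1, Nat.one_le_pow 4 q (by omega)]
      ring
    rw [h4, hM, hA]
    ring
  have hcop : Nat.Coprime A M := by
    rw [hA]
    apply Nat.Coprime.mul_left
    · apply Nat.Coprime.pow_left
      apply Nat.Coprime.coprime_dvd_right (⟨d, by rw [hM]; ring⟩ : M ∣ q ^ 2 + 1)
      have : q ^ 2 + 1 = q * q + 1 := by ring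
      rw [this]
      simp [Nat.coprime_mul_right_add_right]
    · rw [Nat.coprime_iff_gcd_eq_one]
      by_contra hcon
      obtain ⟨r, hr, hrd⟩ := Nat.exists_prime_and_dvd hcon
      have h1 : r ∣ q ^ 2 - 1 := hrd.trans (Nat.gcd_dvd_left _ _)
      have h2 : r ∣ M := hrd.trans (Nat.gcd_dvd_right _ _)
      have h3 : r ∣ q ^ 2 + 1 := by rw [hM]; exact h2.mul_left _
      have h4 : r ∣ (q ^ 2 + 1) - (q ^ 2 - 1) := Nat.dvd_sub h3 h1
      have h5 : (q ^ 2 + 1) - (q ^ 2 - 1) = 2 := by omega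
      rw [h5] at h4
      have h6 : r = 2 := (Nat.prime_dvd_prime_iff_eq hr Nat.prime_two).1 h4
      rw [h6] at h2
      omega
  rw [hord, sqfull_coprime hcop, issq_coprime hApos]
  constructor
  · intro h
    obtain ⟨b, s, hs, hb⟩ := Nat.sq_mul_squarefree M
    by_cases hb1 : b = 1
    · left
      rw [hb1, mul_one] at hs
      exact ⟨s, by rw [← hs]; ring⟩
    right
    have hbpos : 0 < b := Nat.pos_of_ne_zero hb.ne_zero
    have hspos : s ≠ 0 := by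
      rintro rfl
      simp at hs
      omega
    refine ⟨b, s, by omega, hb, ?_, by rw [hM, ← hs]; ring, ?_⟩
    · -- `b ∣ s`
      rw [← Nat.factorization_le_iff_dvd hb.ne_zero hspos]
      intro r
      by_cases hr : r.Prime
      · by_cases hrb : r ∣ b
        · have h1 : r ^ 2 ∣ M := h r hr (by rw [← hs]; exact hrb.mul_left _)
          have h2 := (hr.pow_dvd_iff_le_factorization hMpos.ne').1 h1
          rw [← hs, Nat.factorization_mul (by positivity) hbpos.ne', Nat.factorization_pow] at h2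
          have h3 : b.factorization r ≤ 1 := hb.natFactorization_le_one r
          simp at h2
          omega
        · rw [Nat.factorization_eq_zero_of_not_dvd hrb]
          exact Nat.zero_le _
      · rw [Nat.factorization_eq_zero_of_not_prime _ hr]
        exact Nat.zero_le _
    · intro x w hx hxw
      obtain ⟨p, f, hp, hf, rfl⟩ := hq
      have hleast := prime_pow_least ((d * b : ℕ) : ℤ) p f hp.nat_prime (s : ℤ)
        (by
          have : (p ^ f) ^ 2 + 1 = d * b * s ^ 2 := by rw [hM, ← hs]; ring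
          exact_mod_cast this)
        (by
          intro v hv
          have hv' : (2 : ℤ) = ((d * b : ℕ) : ℤ) * v ^ 2 := by linarith
          have hv2 : (2 : ℕ) = d * b * v.natAbs ^ 2 := by
            have : ((2 : ℕ) : ℤ) = ((d * b * v.natAbs ^ 2 : ℕ) : ℤ) := by
              push_cast
              rw [sq_abs]
              push_cast at hv'
              exact hv'
            exact_mod_cast this
          have hbodd : b % 2 = 1 := by
            by_contra hcon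
            have h0 : 2 ∣ b := Nat.dvd_of_mod_eq_zero (by omega)
            have h1 : 2 ∣ M := by rw [← hs]; exact h0.mul_left _
            omega
          have hv1 : v.natAbs ≠ 0 := by
            intro h0
            rw [h0] at hv2
            simp at hv2
          have hb3 : 3 ≤ b := by omega
          have : 3 ≤ d * b * v.natAbs ^ 2 := by
            have h1 : 1 ≤ d := hdpos
            have h2 : 1 ≤ v.natAbs ^ 2 := Nat.one_le_pow _ _ (Nat.pos_of_ne_zero hv1)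
            calc 3 = 1 * 3 * 1 := by norm_num
              _ ≤ d * b * v.natAbs ^ 2 := Nat.mul_le_mul (Nat.mul_le_mul h1 hb3) h2
          omega)
      have := hleast (x : ℤ) (w : ℤ) (by exact_mod_cast hx) (by exact_mod_cast hxw)
      exact_mod_cast this
  · rintro (h | ⟨b, z, hb1, hb, hbz, hqb, -⟩)
    · exact sqfull_of_sq h
    · have hMz : M = b * z ^ 2 := by
        have : d * M = d * (b * z ^ 2) := by rw [← hM, hqb]; ring
        exact Nat.eq_of_mul_eq_mul_left hdpos this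
      intro r hr hrM
      rw [hMz] at hrM ⊢
      have hrz : r ∣ z := by
        rcases (Nat.Prime.dvd_mul hr).1 hrM with h | h
        · exact h.trans hbz
        · exact hr.dvd_of_dvd_pow h
      exact (pow_dvd_pow_of_dvd hrz 2).mul_left _

end TuanS4
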