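import Pool.Agent.Tuan.WLib

/-!
MODULE WB (size 3).  The criterion for `PSp_{2n}(q)` and `Omega_{2n+1}(q)`.

SKETCH.  `N = q^(n^2) ∏_{i=1}^n (q^(2i) - 1)`, `g = gcd 2 (q-1)`, `ordB n q * g = N`.  `r ∣ q`: fine
(`n^2 ≥ 4`, `g` prime to `q`).  `r = 2 ∤ q`: `8 ∣ q^2-1`, so `4 ∣ ordB`.
`r` odd, `e = ordSq q r`: `r ∣ q^(2i) - 1 ↔ e ∣ i`.  `e > n`: no.  `n < 2e, e ≤ n`: exactly one factor
`i = e`, `r^2 ∣ q^(2e) - 1 ↔ Wief q r` (`sq_dvd_iff`, `¬ r ∣ 2e` because `2e ≤ r - 1`, `ordSq_le`).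
`2e ≤ n`: the two factors `i = e, 2e`.
-/

namespace Tuan

theorem wb_mul (n q : ℕ) (hn : 2 ≤ n) (hq : 2 ≤ q) :
    ordB n q * Nat.gcd 2 (q - 1) = q ^ (n ^ 2) * ∏ i ∈ Finset.Icc 1 n, (q ^ (2 * i) - 1) := by
  unfold ordB
  apply Nat.div_mul_cancel
  have h1 : Nat.gcd 2 (q - 1) ∣ q - 1 := Nat.gcd_dvd_right _ _
  have h2 : q - 1 ∣ q ^ (2 * 1) - 1 := by
    have := Nat.sub_dvd_pow_sub_pow q 1 (2 * 1)
    rwa [one_pow] at this
  have h3 : q ^ (2 * 1) - 1 ∣ ∏ i ∈ Finset.Icc 1 n, (q ^ (2 * i) - 1) :=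
    Finset.dvd_prod_of_mem (fun i => q ^ (2 * i) - 1)
      (Finset.mem_Icc.2 ⟨le_rfl, by omega⟩)
  exact ((h1.trans h2).trans h3).mul_left _

theorem crit_B (n q : ℕ) (hn : 2 ≤ n) (hq : 2 ≤ q) :
    SqFull (ordB n q) ↔ ∀ r : ℕ, r.Prime → ¬ r ∣ 2 * q →
      (n < 2 * ordSq q r ∧ ordSq q r ≤ n) → Wief q r := by
  have hN := wb_mul n q hn hq
  set P := ∏ i ∈ Finset.Icc 1 n, (q ^ (2 * i) - 1) with hP
  have hq1 : 1 ≤ q := by omega
  have hmem : ∀ i, 1 ≤ i → i ≤ n → q ^ (2 * i) - 1 ∣ P := fun i h1 h2 =>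
    Finset.dvd_prod_of_mem (fun i => q ^ (2 * i) - 1) (Finset.mem_Icc.2 ⟨h1, h2⟩)
  have hg2 : Nat.gcd 2 (q - 1) ∣ 2 := Nat.gcd_dvd_left _ _
  have hgq : Nat.gcd 2 (q - 1) ∣ q - 1 := Nat.gcd_dvd_right _ _
  constructor
  · intro hS r hr hr2 hc
    obtain ⟨hc1, hc2⟩ := hc
    have hrq : ¬ r ∣ q := fun h => hr2 (h.mul_left 2)
    have hr2' : ¬ r ∣ 2 := fun h => hr2 (h.mul_right q)
    have he0 : 0 < ordSq q r := ordSq_pos q r hr hrq
    have hrg : Nat.Coprime r (Nat.gcd 2 (q - 1)) :=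
      (Nat.Prime.coprime_iff_not_dvd hr).2 fun h => hr2' (h.trans hg2)
    have hd : r ∣ q ^ (2 * ordSq q r) - 1 := (ordSq_dvd q r _ hq1).2 dvd_rfl
    have h1 : r ∣ ordB n q := by
      apply hrg.dvd_of_dvd_mul_right
      rw [hN]
      exact (hd.trans (hmem _ he0 hc2)).mul_left _
    have h2 := hS r hr h1
    have h3 : r ^ 2 ∣ q ^ (n ^ 2) * P := by
      rw [← hN]; exact h2.mul_right _
    have h4 : r ^ 2 ∣ P := by
      apply Nat.Coprime.dvd_of_dvd_mul_left _ h3
      exact (Nat.Coprime.pow 2 (n ^ 2) ((Nat.Prime.coprime_iff_not_dvd hr).2 hrq))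
    have h5 : P = (q ^ (2 * ordSq q r) - 1) *
        ∏ i ∈ (Finset.Icc 1 n).erase (ordSq q r), (q ^ (2 * i) - 1) := by
      rw [hP]
      exact (Finset.mul_prod_erase _ (fun i => q ^ (2 * i) - 1)
        (Finset.mem_Icc.2 ⟨he0, hc2⟩)).symm
    have h6 : ¬ r ∣ ∏ i ∈ (Finset.Icc 1 n).erase (ordSq q r), (q ^ (2 * i) - 1) := by
      intro h
      obtain ⟨i, hi, hi2⟩ := (Prime.dvd_finsetProd_iff hr.prime _).1 h
      rw [Finset.mem_erase, Finset.mem_Icc] at hi
      obtain ⟨hi3, hi4, hi5⟩ := hi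
      rw [ordSq_dvd q r i hq1] at hi2
      obtain ⟨k, hk⟩ := hi2
      rcases Nat.lt_or_ge k 2 with hk2 | hk2
      · interval_cases k
        · omega
        · omega
      · have : ordSq q r * 2 ≤ ordSq q r * k := Nat.mul_le_mul_left _ hk2
        omega
    rw [h5] at h4
    have h7 : r ^ 2 ∣ q ^ (2 * ordSq q r) - 1 :=
      (Nat.Coprime.pow_left 2 ((Nat.Prime.coprime_iff_not_dvd hr).2 h6)).dvd_of_dvd_mul_right h4
    refine (sq_dvd_iff q r (2 * ordSq q r) hr hq1 hrq ?_ hd).1 h7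
    intro h
    have h8 := ordSq_le q r hr hr2
    have h9 := Nat.le_of_dvd (by omega) h
    have := hr.two_le
    omega
  · intro hS r hr hd
    have hdN : r ∣ q ^ (n ^ 2) * P := by
      rw [← hN]; exact hd.mul_right _
    by_cases hrq : r ∣ q
    · have hrg : Nat.Coprime (r ^ 2) (Nat.gcd 2 (q - 1)) := by
        apply Nat.Coprime.pow_left 2
        refine (Nat.Prime.coprime_iff_not_dvd hr).2 fun h => ?_
        have h1 := Nat.dvd_sub hrq (h.trans hgq)
        have h2 : q - (q - 1) = 1 := by omega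
        rw [h2] at h1
        exact hr.one_lt.ne' (Nat.dvd_one.1 h1)
      apply hrg.dvd_of_dvd_mul_right
      rw [hN]
      have h3 : r ^ 2 ∣ q ^ (n ^ 2) := by
        have h4 : 2 ≤ n ^ 2 := by nlinarith
        exact (pow_dvd_pow_of_dvd hrq 2).trans (pow_dvd_pow q h4)
      exact h3.mul_right _
    · rcases eq_or_ne r 2 with h2 | h2
      · subst h2
        have hodd : q % 2 = 1 := by omega
        have h8 : 8 ∣ q ^ (2 * 1) - 1 := by
          have h5 : q ^ 2 % 8 = 1 := by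
            have h6 : q % 8 = 1 ∨ q % 8 = 3 ∨ q % 8 = 5 ∨ q % 8 = 7 := by omega
            rcases h6 with h | h | h | h <;> rw [Nat.pow_mod, h]
          have h7 : 1 ≤ q ^ 2 := Nat.one_le_pow _ _ hq1
          rw [mul_one]
          omega
        have h8N : 8 ∣ ordB n q * Nat.gcd 2 (q - 1) := by
          rw [hN]
          exact (h8.trans (hmem 1 le_rfl (by omega))).mul_left _
        have hg : Nat.gcd 2 (q - 1) = 2 := by
          apply Nat.gcd_eq_left
          omega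
        rw [hg] at h8N
        have : (8 : ℕ) = 4 * 2 := by norm_num
        rw [this] at h8N
        have h9 := Nat.dvd_of_mul_dvd_mul_right (by norm_num) h8N
        simpa using h9
      · have hr2 : ¬ r ∣ 2 * q := by
          intro h
          rcases (Nat.Prime.dvd_mul hr).1 h with h3 | h3
          · exact h2 ((Nat.prime_dvd_prime_iff_eq hr Nat.prime_two).1 h3)
          · exact hrq h3
        have hr2' : ¬ r ∣ 2 := fun h => hr2 (h.mul_right q)
        have he0 : 0 < ordSq q r := ordSq_pos q r hr hrq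
        have hrg : Nat.Coprime (r ^ 2) (Nat.gcd 2 (q - 1)) :=
          Nat.Coprime.pow_left 2
            ((Nat.Prime.coprime_iff_not_dvd hr).2 fun h => hr2' (h.trans hg2))
        apply hrg.dvd_of_dvd_mul_right
        rw [hN]
        apply Dvd.dvd.mul_left
        have h3 : r ∣ P := by
          rcases (Nat.Prime.dvd_mul hr).1 hdN with h | h
          · exact absurd (hr.dvd_of_dvd_pow h) hrq
          · exact h
        obtain ⟨i, hi, hi2⟩ := (Prime.dvd_finsetProd_iff hr.prime _).1 h3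
        rw [Finset.mem_Icc] at hi
        obtain ⟨hi3, hi4⟩ := hi
        rw [ordSq_dvd q r i hq1] at hi2
        have he : ordSq q r ≤ n := (Nat.le_of_dvd (by omega) hi2).trans hi4
        have hd1 : r ∣ q ^ (2 * ordSq q r) - 1 := (ordSq_dvd q r _ hq1).2 dvd_rfl
        by_cases hc : n < 2 * ordSq q r
        · have hw := hS r hr hr2 ⟨hc, he⟩
          have h7 : r ^ 2 ∣ q ^ (2 * ordSq q r) - 1 := by
            refine (sq_dvd_iff q r (2 * ordSq q r) hr hq1 hrq ?_ hd1).2 hw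
            intro h
            have h8 := ordSq_le q r hr hr2
            have h9 := Nat.le_of_dvd (by omega) h
            have := hr.two_le
            omega
          exact h7.trans (hmem _ he0 he)
        · rw [not_lt] at hc
          have hd2 : r ∣ q ^ (2 * (2 * ordSq q r)) - 1 :=
            (ordSq_dvd q r _ hq1).2 (Dvd.intro_left 2 rfl)
          have h5 : P = (q ^ (2 * ordSq q r) - 1) *
              ∏ i ∈ (Finset.Icc 1 n).erase (ordSq q r), (q ^ (2 * i) - 1) := by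
            rw [hP]
            exact (Finset.mul_prod_erase _ (fun i => q ^ (2 * i) - 1)
              (Finset.mem_Icc.2 ⟨he0, he⟩)).symm
          rw [h5, pow_two]
          apply Nat.mul_dvd_mul hd1
          refine hd2.trans (Finset.dvd_prod_of_mem (fun i => q ^ (2 * i) - 1) ?_)
          rw [Finset.mem_erase, Finset.mem_Icc]
          omega

end Tuan
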