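import Pool.Agent.Tuan.Def

/-!
MODULE WCard (size 3).  The order of the group `PSL_n(F)` of Mathlib.

SKETCH.  `Matrix.card_GL_field : Nat.card (GL (Fin n) F) = ∏ i : Fin n, (q^n - q^i)`.  The determinant
`GL (Fin n) F →* Fˣ` is surjective with kernel isomorphic to `SL`, so
`Nat.card SL * (q - 1) = Nat.card GL` (`n ≥ 1`).  `PSL = SL / center`, and the centre is isomorphic to
`rootsOfUnity (max (Fintype.card (Fin n)) 1) F`
(`Matrix.SpecialLinearGroup.center_equiv_rootsOfUnity`), i.e. the `n`-torsion of the cyclic group `Fˣ`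
of order `q - 1`, which has `gcd n (q-1)` elements (`IsCyclic.card_powMonoidHom_ker`-like lemma, or
count solutions of `x^n = 1` in a cyclic group).  Finally
`∏_{i<n} (q^n - q^i) = q^(n(n-1)/2) ∏_{i=1}^n (q^i - 1)`.
-/

namespace Tuan

private theorem WCard_prod (q n : ℕ) (hn : 1 ≤ n) :
    ∏ i : Fin n, (q ^ n - q ^ (i : ℕ)) =
      q ^ (n * (n - 1) / 2) * ((q - 1) * ∏ i ∈ Finset.Icc 2 n, (q ^ i - 1)) := by
  have h1 : ∏ i : Fin n, (q ^ n - q ^ (i : ℕ)) = ∏ i ∈ Finset.range n, (q ^ n - q ^ i) :=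
    Fin.prod_univ_eq_prod_range (fun i => q ^ n - q ^ i) n
  have h2 : ∏ i ∈ Finset.range n, (q ^ n - q ^ i) =
      ∏ i ∈ Finset.range n, (q ^ i * (q ^ (n - i) - 1)) := by
    refine Finset.prod_congr rfl fun i hi => ?_
    have hi' := Finset.mem_range.1 hi
    rw [Nat.mul_sub, ← pow_add, mul_one, Nat.add_sub_cancel' hi'.le]
  have h3 : ∏ i ∈ Finset.range n, q ^ i = q ^ (n * (n - 1) / 2) := by
    rw [Finset.prod_pow_eq_pow_sum, Finset.sum_range_id]
  have h4 : ∏ i ∈ Finset.range n, (q ^ (n - i) - 1) = ∏ i ∈ Finset.range n, (q ^ (i + 1) - 1) := by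
    rw [← Finset.prod_range_reflect]
    refine Finset.prod_congr rfl fun i hi => ?_
    have hi' := Finset.mem_range.1 hi
    congr 2
    omega
  have h5 : ∏ i ∈ Finset.range n, (q ^ (i + 1) - 1) =
      (q - 1) * ∏ i ∈ Finset.Icc 2 n, (q ^ i - 1) := by
    obtain ⟨m, rfl⟩ := Nat.exists_eq_add_of_le' hn
    rw [Finset.prod_range_succ']
    have : ∏ i ∈ Finset.Icc 2 (m + 1), (q ^ i - 1) = ∏ k ∈ Finset.range m, (q ^ (k + 1 + 1) - 1) := by
      rw [← Finset.Ico_succ_right_eq_Icc, Finset.prod_Ico_eq_prod_range]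
      have e : Order.succ (m + 1) - 2 = m := by
        rw [Nat.succ_eq_succ]; omega
      rw [e]
      refine Finset.prod_congr rfl fun k _ => ?_
      congr 2
      omega
    rw [this]
    simp [mul_comm]
  rw [h1, h2, Finset.prod_mul_distrib, h3, h4, h5]

theorem card_PSL (F : Type) [Field F] [Finite F] (n : ℕ) (hn : 2 ≤ n) :
    Nat.card (Matrix.ProjectiveSpecialLinearGroup (Fin n) F) = ordL n (Nat.card F) := by
  classical
  have : Fintype F := Fintype.ofFinite F
  have : NeZero n := ⟨by omega⟩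
  set q := Nat.card F with hq
  have hq1 : 1 < q := Finite.one_lt_card
  have hGL : Nat.card (Matrix.GeneralLinearGroup (Fin n) F) = ∏ i : Fin n, (q ^ n - q ^ (i : ℕ)) := by
    rw [Matrix.card_GL_field n, hq, Nat.card_eq_fintype_card]
  have hU : Nat.card Fˣ = q - 1 := Nat.card_units F
  have hdet : Nat.card (Matrix.GeneralLinearGroup.det : Matrix.GeneralLinearGroup (Fin n) F →* Fˣ).ker *
      Nat.card Fˣ = Nat.card (Matrix.GeneralLinearGroup (Fin n) F) := by
    have hs : (Matrix.GeneralLinearGroup.det : Matrix.GeneralLinearGroup (Fin n) F →* Fˣ).range = ⊤ :=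
      MonoidHom.range_eq_top.2 Matrix.GeneralLinearGroup.det_surjective
    have := Subgroup.card_mul_index
      (Matrix.GeneralLinearGroup.det : Matrix.GeneralLinearGroup (Fin n) F →* Fˣ).ker
    rw [Subgroup.index_ker, hs] at this
    rw [← this]
    congr 1
    exact (Nat.card_congr Subgroup.topEquiv.toEquiv).symm
  have hSL : Nat.card (Matrix.SpecialLinearGroup (Fin n) F) =
      Nat.card (Matrix.GeneralLinearGroup.det : Matrix.GeneralLinearGroup (Fin n) F →* Fˣ).ker := by
    refine Nat.card_congr (Equiv.ofBijective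
      (fun g => ⟨Matrix.SpecialLinearGroup.toGL g, ?_⟩) ⟨?_, ?_⟩)
    · exact Matrix.SpecialLinearGroup.coeToGL_det g
    · intro g h hgh
      exact Matrix.SpecialLinearGroup.toGL_injective (Subtype.ext_iff.1 hgh)
    · rintro ⟨A, hA⟩
      have hA' : (A : Matrix (Fin n) (Fin n) F).det = 1 := by
        have := congrArg Units.val (MonoidHom.mem_ker.1 hA)
        simpa using this
      refine ⟨⟨A, hA'⟩, ?_⟩
      apply Subtype.ext
      apply Units.ext
      rfl
  have hcen : Nat.card (Subgroup.center (Matrix.SpecialLinearGroup (Fin n) F)) = Nat.gcd n (q - 1) := by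
    rw [Nat.card_congr (Matrix.SpecialLinearGroup.center_equiv_rootsOfUnity' (R := F)
      (0 : Fin n)).toEquiv, Fintype.card_fin]
    have h := IsCyclic.card_powMonoidHom_ker (G := Fˣ) n
    rw [hU] at h
    rw [Nat.gcd_comm, ← h]
    rfl
  have hPSL := Subgroup.card_eq_card_quotient_mul_card_subgroup
    (Subgroup.center (Matrix.SpecialLinearGroup (Fin n) F))
  rw [hcen] at hPSL
  have hg : 0 < Nat.gcd n (q - 1) := Nat.gcd_pos_of_pos_left _ (by omega)
  unfold ordL
  symm
  apply Nat.div_eq_of_eq_mul_left hg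
  have hfin : Nat.card (Matrix.SpecialLinearGroup (Fin n) F) * (q - 1) =
      q ^ (n * (n - 1) / 2) * (∏ i ∈ Finset.Icc 2 n, (q ^ i - 1)) * (q - 1) := by
    rw [hSL, ← hU, hdet, hGL, WCard_prod q n (by omega), hU]
    ring
  have hfin' := Nat.eq_of_mul_eq_mul_right (by omega : 0 < q - 1) hfin
  rw [← hfin', hPSL]

end Tuan
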