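import Pool.Agent.Tuan.WLib

/-!
MODULE WD (size 4).  The criterion for `D_n(q)`.

SKETCH.  `N = q^(n(n-1)) (q^n-1) ∏_{i=1}^{n-1} (q^(2i) - 1)`, `g = gcd 4 (q^n-1)`, `ordD * g = N`.
`r ∣ q`: fine.  `r = 2 ∤ q`: `8 ∣ q^2-1`, `16 ∣ q^4-1` (or at least `8 * 8 ∣` the product), `g ∣ 4`.
`r ∤ 2q` odd: `r ∤ g`.  Let `e = ord q r`, `e' = ordSq q r` (`e' ∣ e ∣ 2e'`; `e ∣ 2 i ↔ e' ∣ i`).
`r ∣ q^(2i) - 1 ↔ e' ∣ i`; `r ∣ q^n - 1 ↔ e ∣ n`.
* `2e' ≤ n - 1`: two factors `i = e', 2e'`: `r^2 ∣ N`, and not critical (`n < 2e'` fails; `e = n` odd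
  would give `e' = e = n`).
* `e' < n ≤ 2e'` and `2 e' = n`: the factor `i = e'` and `q^n - 1` (`e ∣ 2e' = n`): `r^2 ∣ N`, not
  critical.
* `n < 2e'`, `e' < n` (critical): `e' ∤ n` so `e ∤ n`; only the factor `i = e'` is divisible by `r`;
  `r^2 ∣ q^(2e') - 1 ↔ Wief q r` (`sq_dvd_iff`, `2e' ≤ r-1`).
* `e' ≥ n`: no factor `i`; `e ∣ n` iff `e = n` (then `e' = n`, and `n` is odd: if `n` were even,
  `e' = n/2`), the only factor is `q^n - 1` and `r^2 ∣ q^n - 1 ↔ Wief` (`n = e ∣ r-1`).
-/

namespace Tuan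

private theorem WD_two {S : Finset ℕ} {f : ℕ → ℕ} {r i j : ℕ} (hi : i ∈ S) (hj : j ∈ S)
    (hij : i ≠ j) (h1 : r ∣ f i) (h2 : r ∣ f j) : r ^ 2 ∣ ∏ k ∈ S, f k := by
  have h : ({i, j} : Finset ℕ) ⊆ S := by
    intro x hx
    rw [Finset.mem_insert, Finset.mem_singleton] at hx
    rcases hx with rfl | rfl
    · exact hi
    · exact hj
  have h3 := Finset.prod_dvd_prod_of_subset {i, j} S f h
  rw [Finset.prod_pair hij] at h3
  rw [pow_two]
  exact (mul_dvd_mul h1 h2).trans h3

private theorem WD_one {S : Finset ℕ} {f : ℕ → ℕ} {r e : ℕ} (hr : r.Prime) (he : e ∈ S)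
    (h : ∀ i ∈ S, r ∣ f i → i = e) : r ^ 2 ∣ ∏ k ∈ S, f k ↔ r ^ 2 ∣ f e := by
  constructor
  · intro hd
    rw [← Finset.mul_prod_erase S f he] at hd
    have hc : Nat.Coprime (r ^ 2) (∏ k ∈ S.erase e, f k) := by
      apply Nat.Coprime.pow_left
      apply Nat.Coprime.prod_right
      intro i hi
      rw [Nat.Prime.coprime_iff_not_dvd hr]
      intro hd'
      exact (Finset.ne_of_mem_erase hi) (h i (Finset.mem_of_mem_erase hi) hd')
    exact hc.dvd_of_dvd_mul_right hd
  · intro hd
    exact hd.trans (Finset.dvd_prod_of_mem f he)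

theorem crit_D (n q : ℕ) (hn : 4 ≤ n) (hq : 2 ≤ q) :
    SqFull (ordD n q) ↔ ∀ r : ℕ, r.Prime → ¬ r ∣ 2 * q →
      ((n < 2 * ordSq q r ∧ ordSq q r < n) ∨ (Odd n ∧ ord q r = n)) → Wief q r := by
  obtain ⟨F, hF⟩ : ∃ F : ℕ → ℕ, F = fun i => q ^ (2 * i) - 1 := ⟨_, rfl⟩
  obtain ⟨g, hg⟩ : ∃ g : ℕ, g = Nat.gcd 4 (q ^ n - 1) := ⟨_, rfl⟩
  obtain ⟨a, ha⟩ : ∃ a : ℕ, a = n * (n - 1) := ⟨_, rfl⟩
  obtain ⟨Q, hQ⟩ : ∃ Q : ℕ, Q = q ^ n - 1 := ⟨_, rfl⟩
  obtain ⟨P, hP⟩ : ∃ P : ℕ, P = ∏ i ∈ Finset.Icc 1 (n - 1), F i := ⟨_, rfl⟩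
  have hgpos : 0 < g := by
    rw [hg]; exact Nat.gcd_pos_of_pos_left _ (by omega)
  have hg4 : g ∣ 4 := by rw [hg]; exact Nat.gcd_dvd_left _ _
  have hgQ : g ∣ Q := by rw [hg, hQ]; exact Nat.gcd_dvd_right _ _
  have ha3 : 2 ≤ a := by
    rw [ha]
    have : 4 * 3 ≤ n * (n - 1) := Nat.mul_le_mul hn (by omega)
    omega
  obtain ⟨c, hc⟩ := hgQ
  have hord : ordD n q = q ^ a * (c * P) := by
    have h1 : ordD n q = q ^ a * Q * P / g := by
      rw [hP, hF, hg, ha, hQ]; rfl
    rw [h1, hc]
    apply Nat.div_eq_of_eq_mul_left hgpos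
    ring
  have hmul : ordD n q * g = q ^ a * (Q * P) := by
    rw [hord, hc]
    ring
  have hPd : P ∣ ordD n q := by
    rw [hord]
    exact ⟨q ^ a * c, by ring⟩
  have hA : ∀ r : ℕ, r.Prime → r ∣ 2 * q → r ^ 2 ∣ ordD n q := by
    intro r hr hd
    by_cases hrq : r ∣ q
    · have h1 : r ^ 2 ∣ q ^ a := by
        calc r ^ 2 ∣ r ^ a := pow_dvd_pow r (by omega)
          _ ∣ q ^ a := pow_dvd_pow_of_dvd hrq a
      rw [hord]
      exact h1.trans (Dvd.intro _ rfl)
    · have hr2 : r = 2 := by
        rcases (Nat.Prime.dvd_mul hr).1 hd with h | h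
        · exact (Nat.prime_dvd_prime_iff_eq hr Nat.prime_two).1 h
        · exact absurd h hrq
      subst hr2
      have hodd : q % 2 = 1 := by omega
      have hF1 : 2 ^ 2 ∣ F 1 := by
        rw [hF]
        obtain ⟨k, hk⟩ : ∃ k, q = 2 * k + 1 := ⟨q / 2, by omega⟩
        have e1 : q ^ (2 * 1) = 4 * (k ^ 2 + k) + 1 := by
          rw [hk]; ring
        show 2 ^ 2 ∣ q ^ (2 * 1) - 1
        rw [e1, Nat.add_sub_cancel]
        exact ⟨k ^ 2 + k, by ring⟩
      have h5 : F 1 ∣ P := by
        rw [hP]
        exact Finset.dvd_prod_of_mem F (Finset.mem_Icc.2 ⟨by omega, by omega⟩)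
      exact (hF1.trans h5).trans hPd
  have hB : ∀ r : ℕ, r.Prime → ¬ r ∣ 2 * q → ((r ∣ ordD n q → r ^ 2 ∣ ordD n q) ↔
      (((n < 2 * ordSq q r ∧ ordSq q r < n) ∨ (Odd n ∧ ord q r = n)) → Wief q r)) := by
    intro r hr h2
    have hrq : ¬ r ∣ q := fun h => h2 (h.mul_left 2)
    have hr2 : ¬ r ∣ 2 := fun h => h2 (h.mul_right q)
    have hiff : ∀ i, r ∣ F i ↔ ordSq q r ∣ i := by
      intro i
      rw [hF]
      exact ordSq_dvd q r i (by omega)
    have hiff2 : ∀ i, r ∣ q ^ i - 1 ↔ ord q r ∣ i := fun i => dvd_iff q r i (by omega)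
    have hepos := ordSq_pos q r hr hrq
    have hele := ordSq_le q r hr h2
    have hopos := ord_pos q r hr hrq
    have hodvd := ord_dvd_pred q r hr hrq
    have hr1 : 0 < r - 1 := by have := hr.two_le; omega
    have hole : ord q r ≤ r - 1 := Nat.le_of_dvd hr1 hodvd
    obtain ⟨e, he⟩ : ∃ e, e = ordSq q r := ⟨_, rfl⟩
    obtain ⟨o, ho⟩ : ∃ o, o = ord q r := ⟨_, rfl⟩
    rw [← he] at hiff hepos hele ⊢
    rw [← ho] at hiff2 hopos hodvd hole ⊢
    -- relation between e and o
    have hrel : ∀ i, o ∣ 2 * i ↔ e ∣ i := by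
      intro i
      rw [← hiff i, ← hiff2 (2 * i), hF]
    have heo : e ∣ o := (hrel o).1 (Dvd.intro_left 2 rfl)
    have hoe : o ∣ 2 * e := (hrel e).2 (dvd_refl e)
    have hrg : ¬ r ∣ g := by
      intro h
      have h4 : r ∣ 2 ^ 2 := by
        have := h.trans hg4
        norm_num
        exact this
      exact hr2 (hr.dvd_of_dvd_pow h4)
    have hcop : Nat.Coprime r g := (Nat.Prime.coprime_iff_not_dvd hr).2 hrg
    have hcopq : Nat.Coprime r (q ^ a) :=
      Nat.Coprime.pow_right a ((Nat.Prime.coprime_iff_not_dvd hr).2 hrq)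
    have hd1 : r ∣ ordD n q ↔ r ∣ Q * P := by
      constructor
      · intro h
        have h1 : r ∣ ordD n q * g := h.mul_right g
        rw [hmul] at h1
        exact hcopq.dvd_of_dvd_mul_left h1
      · intro h
        have h1 : r ∣ ordD n q * g := by rw [hmul]; exact h.mul_left _
        exact hcop.dvd_of_dvd_mul_right h1
    have hd2 : r ^ 2 ∣ ordD n q ↔ r ^ 2 ∣ Q * P := by
      constructor
      · intro h
        have h1 : r ^ 2 ∣ ordD n q * g := h.mul_right g
        rw [hmul] at h1
        exact (Nat.Coprime.pow_left 2 hcopq).dvd_of_dvd_mul_left h1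
      · intro h
        have h1 : r ^ 2 ∣ ordD n q * g := by rw [hmul]; exact h.mul_left _
        exact (Nat.Coprime.pow_left 2 hcop).dvd_of_dvd_mul_right h1
    have hrQ : r ∣ Q ↔ o ∣ n := by rw [hQ]; exact hiff2 n
    rw [hd1, hd2]
    rcases Nat.lt_or_ge e n with hen | hen
    · have heI : e ∈ Finset.Icc 1 (n - 1) := Finset.mem_Icc.2 ⟨hepos, by omega⟩
      have hrFe : r ∣ F e := by rw [hiff]
      have hrP : r ∣ P := by rw [hP]; exact hrFe.trans (Finset.dvd_prod_of_mem F heI)
      rcases Nat.lt_or_ge n (2 * e) with hn2 | hn2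
      · -- critical
        have hnQ : ¬ r ∣ Q := by
          rw [hrQ]
          intro h
          have h3 : e ∣ n := heo.trans h
          obtain ⟨k, hk⟩ := h3
          have hk0 : k ≠ 0 := by
            rintro rfl
            omega
          have hk1' : k ≠ 1 := by
            rintro rfl
            omega
          have hk2 : 2 ≤ k := by omega
          have : e * 2 ≤ e * k := Nat.mul_le_mul_left e hk2
          omega
        have hcopQ : Nat.Coprime r Q := (Nat.Prime.coprime_iff_not_dvd hr).2 hnQ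
        have hd3 : r ^ 2 ∣ Q * P ↔ r ^ 2 ∣ P := by
          constructor
          · intro h
            exact (Nat.Coprime.pow_left 2 hcopQ).dvd_of_dvd_mul_left h
          · intro h
            exact h.mul_left _
        have huniq : ∀ i ∈ Finset.Icc 1 (n - 1), r ∣ F i → i = e := by
          intro i hi hi2
          rw [hiff] at hi2
          rw [Finset.mem_Icc] at hi
          obtain ⟨k, hk⟩ := hi2
          have hk0 : k ≠ 0 := by
            rintro rfl
            omega
          have hk2 : k < 2 := by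
            by_contra hcon
            push Not at hcon
            have : e * 2 ≤ e * k := Nat.mul_le_mul_left e hcon
            omega
          have hk1 : k = 1 := by omega
          rw [hk, hk1, mul_one]
        rw [hd3, hP, WD_one hr heI huniq]
        have hre : ¬ r ∣ 2 * e := by
          intro h
          have := Nat.le_of_dvd (by omega) h
          omega
        have hW : r ^ 2 ∣ F e ↔ Wief q r := by
          rw [hF] at hrFe ⊢
          exact sq_dvd_iff q r (2 * e) hr (by omega) hrq hre hrFe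
        rw [hW]
        rw [hP] at hrP
        constructor
        · intro h _
          exact h (hrP.mul_left _)
        · intro h _
          exact h (Or.inl ⟨hn2, hen⟩)
      · -- two factors
        have hnot : ¬ (Odd n ∧ o = n) := by
          rintro ⟨hodd, hon⟩
          -- o = n odd so o ∣ 2 * e gives o ∣ e
          have h3 : Nat.Coprime n 2 := Nat.Coprime.symm (Nat.coprime_two_left.2 hodd)
          rw [hon] at hoe
          have h4 : n ∣ e := h3.dvd_of_dvd_mul_left hoe
          have := Nat.le_of_dvd hepos h4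
          omega
        have hsqd : r ^ 2 ∣ Q * P := by
          rcases Nat.lt_or_ge (2 * e) n with h2e | h2e
          · have h3 : r ^ 2 ∣ P := by
              rw [hP]
              apply WD_two (i := e) (j := 2 * e) heI
                (Finset.mem_Icc.2 ⟨by omega, by omega⟩) (by omega)
              · exact hrFe
              · rw [hiff]; exact Dvd.intro_left _ rfl
            exact h3.mul_left _
          · have h2n : 2 * e = n := by omega
            have h3 : r ∣ Q := by rw [hrQ, ← h2n]; exact hoe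
            rw [pow_two]
            exact mul_dvd_mul h3 hrP
        constructor
        · intro _ h
          rcases h with h | h
          · omega
          · exact absurd h hnot
        · intro _ _
          exact hsqd
    · -- e ≥ n : no factor in P
      have hnP : ¬ r ∣ P := by
        intro h
        rw [hP, hr.prime.dvd_finsetProd_iff] at h
        obtain ⟨i, hi, hi2⟩ := h
        rw [hiff] at hi2
        rw [Finset.mem_Icc] at hi
        have := Nat.le_of_dvd (by omega) hi2
        omega
      have hcopP : Nat.Coprime r P := (Nat.Prime.coprime_iff_not_dvd hr).2 hnP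
      have hd3 : r ^ 2 ∣ Q * P ↔ r ^ 2 ∣ Q := by
        constructor
        · intro h
          exact (Nat.Coprime.pow_left 2 hcopP).dvd_of_dvd_mul_right h
        · intro h
          exact h.mul_right _
      have hd4 : r ∣ Q * P ↔ r ∣ Q := by
        constructor
        · intro h
          exact hcopP.dvd_of_dvd_mul_right h
        · intro h
          exact h.mul_right _
      rw [hd3, hd4, hrQ]
      by_cases hon : o = n
      · have hodd : Odd n := by
          rcases Nat.even_or_odd n with hev | hodd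
          · exfalso
            obtain ⟨m, hm⟩ := hev
            have h3 : e ∣ m := by
              rw [← hrel m, hon, hm]
              exact ⟨1, by ring⟩
            have := Nat.le_of_dvd (by omega) h3
            omega
          · exact hodd
        have hrn : ¬ r ∣ n := by
          intro h
          have := Nat.le_of_dvd (by omega) h
          omega
        have hrQ' : r ∣ q ^ n - 1 := by rw [hiff2, hon]
        have hW : r ^ 2 ∣ Q ↔ Wief q r := by
          rw [hQ]
          exact sq_dvd_iff q r n hr (by omega) hrq hrn hrQ'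
        rw [hW]
        constructor
        · intro h _
          exact h (by rw [hon])
        · intro h _
          exact h (Or.inr ⟨hodd, hon⟩)
      · have hno : ¬ o ∣ n := by
          intro h
          have h5 : e ∣ n := heo.trans h
          have h6 := Nat.le_of_dvd (by omega) h5
          have h7 := Nat.le_of_dvd (by omega) h
          have h8 := Nat.le_of_dvd hopos heo
          omega
        constructor
        · intro _ h
          rcases h with h | h
          · omega
          · exact absurd h.2 hon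
        · intro _ h
          exact absurd h hno
  constructor
  · intro h r hr h2
    exact (hB r hr h2).1 (h r hr)
  · intro h r hr
    by_cases h2 : r ∣ 2 * q
    · intro _
      exact hA r hr h2
    · exact (hB r hr h2).2 (h r hr h2)

end Tuan
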