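import Pool.Agent.Tuan.WLib

/-!
MODULE WD2 (size 4).  The criterion for `2D_n(q)`.

SKETCH.  `N = q^(n(n-1)) (q^n+1) ∏_{i=1}^{n-1} (q^(2i) - 1)`, `g = gcd 4 (q^n+1)`, `ordD2 * g = N`.
`r ∣ q`: fine.  `r = 2 ∤ q`: `8 ∣ q^2-1`, `8 ∣ q^4-1`, `g ∣ 4`.
`r ∤ 2q` odd: `r ∤ g`.  `e = ord q r`, `e' = ordSq q r` (`e' ∣ e ∣ 2e'`; `e ∣ 2 i ↔ e' ∣ i`).
`r ∣ q^(2i) - 1 ↔ e' ∣ i`; `r ∣ q^n + 1 ↔ e ∣ 2n ∧ ¬ e ∣ n` (`dvd_add_iff`), in particular `e' ∣ n`.
* `2e' ≤ n - 1`: two factors; not critical (`n ≤ 2e'` fails; `e = 2n` would give `e' = n`).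
* `n ≤ 2e'`, `e' < n` (critical): `r ∤ q^n+1`: otherwise `e' ∣ n`, `e' < n ≤ 2e'`, so `n = 2e'`, but
  then `e ∣ 2e' = n`, contradiction.  Only the factor `i = e'`; `r^2 ∣ q^(2e') - 1 ↔ Wief`.
* `e' ≥ n`: no factor `i`; `r ∣ q^n + 1` iff `e = 2n` (`e' ∣ n` gives `e' = n`, `e ∣ 2n`, `e ∤ n`,
  `e' ∣ e`, so `e = 2n`; conversely clear); `r^2 ∣ q^n+1 ↔ Wief` (`sq_dvd_add_iff`, `2n = e ∣ r-1`).
-/

namespace Tuan

private theorem WD2_odd (n q r : ℕ) (hn : 4 ≤ n) (hq : 2 ≤ q) (hr : r.Prime) (h2 : ¬ r ∣ 2 * q) :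
    (r ∣ (q ^ n + 1) * ∏ i ∈ Finset.Icc 1 (n - 1), (q ^ (2 * i) - 1) →
      r ^ 2 ∣ (q ^ n + 1) * ∏ i ∈ Finset.Icc 1 (n - 1), (q ^ (2 * i) - 1)) ↔
    (((n ≤ 2 * ordSq q r ∧ ordSq q r < n) ∨ ord q r = 2 * n) → Wief q r) := by
  have hq1 : 1 ≤ q := by omega
  have hrq : ¬ r ∣ q := fun h => h2 (dvd_mul_of_dvd_right h 2)
  have hr2 : ¬ r ∣ 2 := fun h => h2 (dvd_mul_of_dvd_left h q)
  have hpos : 0 < ordSq q r := ordSq_pos q r hr hrq
  have hle : 2 * ordSq q r ≤ r - 1 := ordSq_le q r hr h2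
  have hepos : 0 < ord q r := ord_pos q r hr hrq
  have hedvd : ord q r ∣ r - 1 := ord_dvd_pred q r hr hrq
  have hr1 : 2 ≤ r := hr.two_le
  have F1 : ∀ i, r ∣ q ^ (2 * i) - 1 ↔ ordSq q r ∣ i := fun i => ordSq_dvd q r i hq1
  have F2 : r ∣ q ^ n + 1 ↔ ord q r ∣ 2 * n ∧ ¬ ord q r ∣ n := dvd_add_iff q r n hr h2
  have F3 : ∀ i, ord q r ∣ 2 * i ↔ ordSq q r ∣ i := fun i =>
    (dvd_iff q r (2 * i) hq1).symm.trans (F1 i)
  set e := ord q r with he
  set e' := ordSq q r with he'
  set A := q ^ n + 1 with hA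
  set P := ∏ i ∈ Finset.Icc 1 (n - 1), (q ^ (2 * i) - 1) with hP
  rcases Nat.lt_or_ge (n - 1) (2 * e') with hc | hc
  · rcases Nat.lt_or_ge e' n with hc2 | hc2
    · -- the critical case
      have hcrit : (n ≤ 2 * e' ∧ e' < n) ∨ e = 2 * n := Or.inl ⟨by omega, hc2⟩
      have hrA : ¬ r ∣ A := by
        intro h
        obtain ⟨h3, h4⟩ := F2.1 h
        have h5 : e' ∣ n := (F3 n).1 h3
        obtain ⟨k, hk⟩ := h5
        have hk2 : k = 2 := by
          rcases Nat.lt_or_ge k 2 with h6 | h6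
          · interval_cases k <;> omega
          · rcases Nat.lt_or_ge 2 k with h7 | h7
            · have : e' * 3 ≤ e' * k := Nat.mul_le_mul_left _ h7
              omega
            · omega
        apply h4
        rw [hk, hk2, mul_comm]
        exact (F3 e').2 dvd_rfl
      have hmem : e' ∈ Finset.Icc 1 (n - 1) := Finset.mem_Icc.2 ⟨hpos, by omega⟩
      have hPe : P = (q ^ (2 * e') - 1) * ∏ i ∈ (Finset.Icc 1 (n - 1)).erase e', (q ^ (2 * i) - 1) :=
        (Finset.mul_prod_erase _ _ hmem).symm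
      have hrest : Nat.Coprime r (∏ i ∈ (Finset.Icc 1 (n - 1)).erase e', (q ^ (2 * i) - 1)) := by
        refine Nat.Coprime.prod_right ?_
        intro i hi
        rw [Finset.mem_erase, Finset.mem_Icc] at hi
        refine (Nat.Prime.coprime_iff_not_dvd hr).2 ?_
        rw [F1 i]
        rintro ⟨k, hk⟩
        rcases Nat.lt_or_ge k 2 with h6 | h6
        · interval_cases k
          · omega
          · exact hi.1 (by omega)
        · have : e' * 2 ≤ e' * k := Nat.mul_le_mul_left _ h6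
          omega
      have hcopA : Nat.Coprime r A := (Nat.Prime.coprime_iff_not_dvd hr).2 hrA
      have h3 : r ∣ A * P := by
        rw [hPe]
        exact dvd_mul_of_dvd_right (dvd_mul_of_dvd_left ((F1 e').2 dvd_rfl) _) _
      have h4 : r ^ 2 ∣ A * P ↔ r ^ 2 ∣ q ^ (2 * e') - 1 := by
        constructor
        · intro h
          have h5 : r ^ 2 ∣ P := Nat.Coprime.dvd_of_dvd_mul_left (Nat.Coprime.pow_left 2 hcopA) h
          rw [hPe] at h5
          exact Nat.Coprime.dvd_of_dvd_mul_right (Nat.Coprime.pow_left 2 hrest) h5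
        · intro h
          rw [hPe]
          exact dvd_mul_of_dvd_right (dvd_mul_of_dvd_left h _) _
      have h5 : r ^ 2 ∣ q ^ (2 * e') - 1 ↔ Wief q r := by
        refine sq_dvd_iff q r (2 * e') hr hq1 hrq ?_ ((F1 e').2 dvd_rfl)
        intro h
        have := Nat.le_of_dvd (by omega) h
        omega
      constructor
      · intro h _
        exact h5.1 (h4.1 (h h3))
      · intro h _
        exact h4.2 (h5.2 (h hcrit))
    · -- large order
      have hcopP : Nat.Coprime r P := by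
        refine Nat.Coprime.prod_right ?_
        intro i hi
        rw [Finset.mem_Icc] at hi
        refine (Nat.Prime.coprime_iff_not_dvd hr).2 ?_
        rw [F1 i]
        intro h
        have := Nat.le_of_dvd (by omega) h
        omega
      have h3 : r ∣ A ↔ e = 2 * n := by
        rw [F2]
        constructor
        · rintro ⟨h4, h5⟩
          have h6 : e' ∣ n := (F3 n).1 h4
          have h7 : e' = n := le_antisymm (Nat.le_of_dvd (by omega) h6) hc2
          rcases Nat.even_or_odd e with h8 | h8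
          · obtain ⟨k, hk⟩ := h8
            have h9 : e ∣ 2 * k := by rw [hk, two_mul]
            have h10 : e' ∣ k := (F3 k).1 h9
            rw [h7] at h10
            have hkpos : 0 < k := by omega
            have h11 := Nat.le_of_dvd hkpos h10
            have h12 := Nat.le_of_dvd (by omega) h4
            omega
          · exfalso
            apply h5
            exact Nat.Coprime.dvd_of_dvd_mul_left (Nat.coprime_two_right.2 h8) h4
        · intro h4
          refine ⟨by rw [h4], ?_⟩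
          rw [h4]
          intro h5
          have := Nat.le_of_dvd (by omega) h5
          omega
      have h4 : r ∣ A * P ↔ r ∣ A :=
        ⟨fun h => Nat.Coprime.dvd_of_dvd_mul_right hcopP h, fun h => dvd_mul_of_dvd_left h _⟩
      have h5 : r ^ 2 ∣ A * P ↔ r ^ 2 ∣ A :=
        ⟨fun h => Nat.Coprime.dvd_of_dvd_mul_right (Nat.Coprime.pow_left 2 hcopP) h,
          fun h => dvd_mul_of_dvd_left h _⟩
      rw [h4, h5]
      have h6 : r ∣ A → (r ^ 2 ∣ A ↔ Wief q r) := by
        intro h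
        refine sq_dvd_add_iff q r n hr h2 ?_ h
        intro h7
        have h8 : e = 2 * n := h3.1 h
        have h9 := Nat.le_of_dvd (by omega) hedvd
        have h10 := Nat.le_of_dvd (by omega) h7
        omega
      constructor
      · rintro h (⟨-, h7⟩ | h7)
        · omega
        · have h8 := h3.2 h7
          exact (h6 h8).1 (h h8)
      · intro h h7
        exact (h6 h7).2 (h (Or.inr (h3.1 h7)))
  · -- two factors
    constructor
    · rintro _ (⟨h3, -⟩ | h3)
      · omega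
      · exfalso
        have h4 : e ∣ 2 * e' := (F3 e').2 dvd_rfl
        have h5 := Nat.le_of_dvd (by omega) h4
        omega
    · intro _ _
      have h3 : r ^ 2 ∣ P := by
        have h4 : ({e', 2 * e'} : Finset ℕ) ⊆ Finset.Icc 1 (n - 1) := by
          intro i hi
          rw [Finset.mem_insert, Finset.mem_singleton] at hi
          rw [Finset.mem_Icc]
          omega
        have h5 := Finset.prod_dvd_prod_of_subset _ _ (fun i => q ^ (2 * i) - 1) h4
        rw [Finset.prod_pair (by omega)] at h5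
        refine dvd_trans ?_ h5
        rw [sq]
        exact mul_dvd_mul ((F1 e').2 dvd_rfl) ((F1 (2 * e')).2 (dvd_mul_left _ _))
      exact dvd_mul_of_dvd_right h3 _

theorem crit_D2 (n q : ℕ) (hn : 4 ≤ n) (hq : 2 ≤ q) :
    SqFull (ordD2 n q) ↔ ∀ r : ℕ, r.Prime → ¬ r ∣ 2 * q →
      ((n ≤ 2 * ordSq q r ∧ ordSq q r < n) ∨ ord q r = 2 * n) → Wief q r := by
  obtain ⟨A, hA⟩ : ∃ A, A = q ^ n + 1 := ⟨_, rfl⟩
  obtain ⟨P, hP⟩ : ∃ P, P = ∏ i ∈ Finset.Icc 1 (n - 1), (q ^ (2 * i) - 1) := ⟨_, rfl⟩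
  obtain ⟨g, hg⟩ : ∃ g, g = Nat.gcd 4 A := ⟨_, rfl⟩
  have hgA : g ∣ A := hg ▸ Nat.gcd_dvd_right 4 A
  have hg4 : g ∣ 4 := hg ▸ Nat.gcd_dvd_left 4 A
  have hM : ordD2 n q = q ^ (n * (n - 1)) * P * (A / g) := by
    rw [ordD2, ← hA, ← hP, ← hg, mul_right_comm]
    exact Nat.mul_div_assoc _ hgA
  have hMg : ordD2 n q * g = q ^ (n * (n - 1)) * (A * P) := by
    rw [hM, mul_assoc, Nat.div_mul_cancel hgA]
    ring
  have key : ∀ r : ℕ, r.Prime → ¬ r ∣ 2 * q → ∀ k, (r ^ k ∣ ordD2 n q ↔ r ^ k ∣ A * P) := by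
    intro r hr h2 k
    have hrq : ¬ r ∣ q := fun h => h2 (dvd_mul_of_dvd_right h 2)
    have hr2 : ¬ r ∣ 2 := fun h => h2 (dvd_mul_of_dvd_left h q)
    have hcg : Nat.Coprime (r ^ k) g := by
      refine Nat.Coprime.pow_left k ((Nat.Prime.coprime_iff_not_dvd hr).2 ?_)
      intro h
      have h3 : r ∣ 2 ^ 2 := h.trans hg4
      exact hr2 (hr.dvd_of_dvd_pow h3)
    have hcq : Nat.Coprime (r ^ k) (q ^ (n * (n - 1))) :=
      Nat.Coprime.pow_left k (Nat.Coprime.pow_right _ ((Nat.Prime.coprime_iff_not_dvd hr).2 hrq))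
    constructor
    · intro h
      have h3 : r ^ k ∣ q ^ (n * (n - 1)) * (A * P) := hMg ▸ dvd_mul_of_dvd_left h g
      exact Nat.Coprime.dvd_of_dvd_mul_left hcq h3
    · intro h
      have h3 : r ^ k ∣ ordD2 n q * g := hMg ▸ dvd_mul_of_dvd_right h _
      exact Nat.Coprime.dvd_of_dvd_mul_right hcg h3
  constructor
  · intro hs r hr h2
    have h3 := WD2_odd n q r hn hq hr h2
    rw [← hA, ← hP] at h3
    refine h3.1 ?_
    intro h
    have h4 := (key r hr h2 1).2 (by rw [pow_one]; exact h)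
    rw [pow_one] at h4
    exact (key r hr h2 2).1 (hs r hr h4)
  · intro hc r hr hrM
    by_cases h2 : r ∣ 2 * q
    · by_cases hrq : r ∣ q
      · have h3 : r ^ 2 ∣ q ^ (n * (n - 1)) := by
          refine (pow_dvd_pow_of_dvd hrq 2).trans (pow_dvd_pow q ?_)
          have : 4 * 3 ≤ n * (n - 1) := Nat.mul_le_mul hn (by omega)
          omega
        rw [hM, mul_assoc]
        exact dvd_mul_of_dvd_left h3 _
      · have hr2 : r = 2 := by
          rcases (Nat.Prime.dvd_mul hr).1 h2 with h | h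
          · exact (Nat.prime_dvd_prime_iff_eq hr Nat.prime_two).1 h
          · exact absurd h hrq
        subst hr2
        have hodd : q % 2 = 1 := by omega
        have h1 : 2 ∣ q ^ (2 * 1) - 1 := by
          have : Odd (q ^ (2 * 1)) := (Nat.odd_iff.2 hodd).pow
          obtain ⟨k, hk⟩ := this
          exact ⟨k, by omega⟩
        have h1' : 2 ∣ q ^ (2 * 2) - 1 := by
          have : Odd (q ^ (2 * 2)) := (Nat.odd_iff.2 hodd).pow
          obtain ⟨k, hk⟩ := this
          exact ⟨k, by omega⟩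
        have h3 : 2 ^ 2 ∣ P := by
          have h4 : ({1, 2} : Finset ℕ) ⊆ Finset.Icc 1 (n - 1) := by
            intro i hi
            rw [Finset.mem_insert, Finset.mem_singleton] at hi
            rw [Finset.mem_Icc]
            omega
          have h5 := Finset.prod_dvd_prod_of_subset _ _ (fun i => q ^ (2 * i) - 1) h4
          rw [Finset.prod_pair (by omega)] at h5
          rw [hP]
          refine dvd_trans ?_ h5
          rw [sq]
          exact mul_dvd_mul h1 h1'
        rw [hM]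
        exact dvd_mul_of_dvd_left (dvd_mul_of_dvd_right h3 _) _
    · have h3 := WD2_odd n q r hn hq hr h2
      rw [← hA, ← hP] at h3
      have h4 := (key r hr h2 1).1 (by rw [pow_one]; exact hrM)
      rw [pow_one] at h4
      exact (key r hr h2 2).2 (h3.2 (hc r hr h2) h4)

end Tuan
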