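import Pool.Agent.Tuan.Def

/-!
Wieferich primes to a base and the critical primes of a group of Lie type.
-/

namespace Tuan

/-- `q ^ (r - 1)` is `1` modulo `r ^ 2`: the prime `r` is a Wieferich prime to the base `q`. -/
def Wief (q r : ℕ) : Prop := r ^ 2 ∣ q ^ (r - 1) - 1

/-- The primes not dividing `q` which are not Wieferich primes to the base `q`. -/
def NonW (q : ℕ) : Set ℕ := {r | r.Prime ∧ ¬ r ∣ q ∧ ¬ Wief q r}

/-- The names of the groups of Lie type. -/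
def IsLie : Name → Prop
  | .cyclic _ => False
  | .alt _ => False
  | .tits => False
  | .sporadic _ => False
  | _ => True

/-- The field parameter of a group of Lie type. -/
def base : Name → ℕ
  | .L _ q => q
  | .U _ q => q
  | .B _ q => q
  | .C _ q => q
  | .D _ q => q
  | .D2 _ q => q
  | .E6 q => q
  | .E7 q => q
  | .E8 q => q
  | .F4 q => q
  | .G2 q => q
  | .E62 q => q
  | .D43 q => q
  | .Sz m => 2 ^ (2 * m + 1)
  | .Ree m => 3 ^ (2 * m + 1)
  | .F42 m => 2 ^ (2 * m + 1)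
  | _ => 1

/-- `ord q r` is the order of `q` modulo `r`. -/
noncomputable def ord (q r : ℕ) : ℕ := orderOf (q : ZMod r)

/-- `ordNeg q r` is the order of `-q` modulo `r`. -/
noncomputable def ordNeg (q r : ℕ) : ℕ := orderOf (-(q : ZMod r))

/-- `ordSq q r` is the order of `q ^ 2` modulo `r`. -/
noncomputable def ordSq (q r : ℕ) : ℕ := orderOf ((q : ZMod r) ^ 2)

/-- The critical primes `r` of a group of Lie type, in terms of the orders modulo `r` of
`q`, `-q`, `q ^ 2`, where `q` is the field parameter. -/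
def Critical : Name → ℕ → Prop
  | .L n q, r => (n = 2 ∧ ord q r ≤ 2) ∨ (n < 2 * ord q r ∧ ord q r ≤ n)
  | .U n q, r => n < 2 * ordNeg q r ∧ ordNeg q r ≤ n
  | .B n q, r => n < 2 * ordSq q r ∧ ordSq q r ≤ n
  | .C n q, r => n < 2 * ordSq q r ∧ ordSq q r ≤ n
  | .D n q, r => (n < 2 * ordSq q r ∧ ordSq q r < n) ∨ (Odd n ∧ ord q r = n)
  | .D2 n q, r => (n ≤ 2 * ordSq q r ∧ ordSq q r < n) ∨ ord q r = 2 * n
  | .E6 q, r => ord q r ∈ ({5, 8, 9, 12} : Set ℕ)
  | .E7 q, r => ord q r ∈ ({5, 7, 8, 9, 10, 12, 14, 18} : Set ℕ)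
  | .E8 q, r => ord q r ∈ ({7, 9, 14, 15, 18, 20, 24, 30} : Set ℕ)
  | .F4 q, r => ord q r ∈ ({8, 12} : Set ℕ)
  | .G2 q, r => ord q r ∈ ({3, 6} : Set ℕ)
  | .E62 q, r => ord q r ∈ ({8, 10, 12, 18} : Set ℕ)
  | .D43 q, r => ord q r = 12
  | .Sz m, r => ord (2 ^ (2 * m + 1)) r ∈ ({1, 4} : Set ℕ)
  | .Ree m, r => ord (3 ^ (2 * m + 1)) r ∈ ({1, 2, 6} : Set ℕ)
  | .F42 m, r => ord (2 ^ (2 * m + 1)) r ∈ ({6, 12} : Set ℕ)
  | _, _ => False

end Tuan
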