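import Pool.Agent.Tuan.WLib

/-!
MODULE WE6 (size 3).  The criterion for `E6(q)`: degrees 2,5,6,8,9,12; centre gcd 3 (q-1).

SKETCH.  `ordE6 q * g = q^a * ∏ (q^d - 1)` over the degrees `d`, `g` the centre order (`g = 1` for E8).
`r ∣ q`: fine.  `r = 2 ∤ q`: several factors divisible by `8`, `g ≤ 3`.
`r` odd, `r ∤ q`, `e = ord q r`; `r ∣ q^d - 1 ↔ e ∣ d`.  The number `T(e)` of degrees divisible by `e`
is `0`, or exactly `1` for `e` in the set {5, 8, 9, 12}, or at least `2` (check all `e` up to the largest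
degree; `e` divides some degree).  If `T ≥ 2`: `r^2 ∣` the product (if `r ∣ g`, so `e = 1`, there are at
least six factors divisible by `r`, enough).  If `T = 1`, degree `d`: `r^2 ∣ ordE6 q ↔ r^2 ∣ q^d - 1 ↔
Wief q r` (`sq_dvd_iff`; `¬ r ∣ d`: `e ∣ r - 1` and `e ≥ 5`, so `r > e`; a prime `r ≡ 1 mod e` dividing
`d` is excluded in each of the cases since the prime factors of the degrees are `2,3,5,7`).
A useful general lemma: for a list of degrees `ds`, `T = 1` case and `T ≥ 2` case of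
`r^2 ∣ (ds.map (fun d => q^d - 1)).prod`.
-/

namespace Tuan

private theorem we6_cop {r m k : ℕ} (hr : r.Prime) (h : ¬ r ∣ m) : (r ^ k).Coprime m :=
  Nat.Coprime.pow_left k ((Nat.Prime.coprime_iff_not_dvd hr).mpr h)

theorem crit_E6 (q : ℕ) (hq : 2 ≤ q) :
    SqFull (ordE6 q) ↔ ∀ r : ℕ, r.Prime → ¬ r ∣ 2 * q →
      ord q r ∈ ({5, 8, 9, 12} : Set ℕ) → Wief q r := by
  set A := q ^ 36 * (q ^ 12 - 1) * (q ^ 9 - 1) * (q ^ 8 - 1) * (q ^ 6 - 1) * (q ^ 5 - 1) *
    (q ^ 2 - 1) with hA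
  set g := Nat.gcd 3 (q - 1) with hg
  have hg3 : g ∣ 3 := Nat.gcd_dvd_left _ _
  have hgq : g ∣ q - 1 := Nat.gcd_dvd_right _ _
  have hgA : g ∣ A := by
    have h1 : q - 1 ∣ q ^ 2 - 1 := by
      have := Nat.sub_dvd_pow_sub_pow q 1 2
      rwa [one_pow] at this
    exact (hgq.trans h1).trans (Dvd.intro_left _ rfl)
  have hord : ordE6 q = A / g := rfl
  obtain ⟨B, hB⟩ := hgA
  have hg0 : 0 < g := Nat.pos_of_dvd_of_pos hg3 (by norm_num)
  have hord' : ordE6 q = B := by
    rw [hord, hB, Nat.mul_div_cancel_left B hg0]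
  rw [hord']
  -- divisibility of A and B
  have key : ∀ r : ℕ, r.Prime → ¬ r ∣ g → ∀ k : ℕ, r ^ k ∣ A ↔ r ^ k ∣ B := by
    intro r hr hrg k
    rw [hB]
    exact (we6_cop hr hrg).dvd_mul_left
  have hq1 : 1 ≤ q := by omega
  constructor
  · intro hS r hr h2 he
    have hrq : ¬ r ∣ q := fun h => h2 (h.mul_left 2)
    have hpred := ord_dvd_pred q r hr hrq
    have hr1 : 0 < r - 1 := by have := hr.two_le; omega
    have hle := Nat.le_of_dvd hr1 hpred
    have hcop : ∀ m, ¬ ord q r ∣ m → ¬ r ∣ q ^ m - 1 := fun m h1 h3 =>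
      h1 ((dvd_iff q r m hq1).mp h3)
    have hrpow : ¬ r ∣ q ^ 36 := fun h => hrq (hr.dvd_of_dvd_pow h)
    have hrg : ¬ r ∣ g := by
      intro h
      have h3 : r ∣ 3 := h.trans hg3
      have h4 : r = 3 := (Nat.prime_dvd_prime_iff_eq hr Nat.prime_three).mp h3
      rw [h4] at hle he
      simp only [Set.mem_insert_iff, Set.mem_singleton_iff] at he
      omega
    have fin : ∀ d R : ℕ, A = (q ^ d - 1) * R → ¬ r ∣ R → ord q r ∣ d → ¬ r ∣ d → Wief q r := by
      intro d R hAR hR hd hrd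
      have h3 : r ∣ q ^ d - 1 := (dvd_iff q r d hq1).mpr hd
      have h4 : r ^ 1 ∣ A := by rw [hAR, pow_one]; exact h3.mul_right R
      have h5 : r ^ 2 ∣ A := (key r hr hrg 2).mpr (hS r hr (by
        have := (key r hr hrg 1).mp h4
        rwa [pow_one] at this))
      rw [hAR] at h5
      have h6 : r ^ 2 ∣ q ^ d - 1 := (we6_cop hr hR).dvd_of_dvd_mul_right h5
      exact (sq_dvd_iff q r d hr hq1 hrq hrd h3).mp h6
    have hnd : ∀ d : ℕ, 0 < d → ord q r = d → r ∣ d → False := by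
      intro d hd h3 h4
      have := Nat.le_of_dvd hd h4
      omega
    simp only [Set.mem_insert_iff, Set.mem_singleton_iff] at he
    rcases he with he | he | he | he
    · refine fin 5 (q ^ 36 * (q ^ 12 - 1) * (q ^ 9 - 1) * (q ^ 8 - 1) * (q ^ 6 - 1) *
        (q ^ 2 - 1)) (by rw [hA]; ring) ?_ (by rw [he]) (hnd 5 (by norm_num) he)
      simp only [hr.dvd_mul, not_or]
      refine ⟨⟨⟨⟨⟨hrpow, ?_⟩, ?_⟩, ?_⟩, ?_⟩, ?_⟩ <;> (apply hcop; rw [he]; norm_num)
    · refine fin 8 (q ^ 36 * (q ^ 12 - 1) * (q ^ 9 - 1) * (q ^ 6 - 1) * (q ^ 5 - 1) *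
        (q ^ 2 - 1)) (by rw [hA]; ring) ?_ (by rw [he]) (hnd 8 (by norm_num) he)
      simp only [hr.dvd_mul, not_or]
      refine ⟨⟨⟨⟨⟨hrpow, ?_⟩, ?_⟩, ?_⟩, ?_⟩, ?_⟩ <;> (apply hcop; rw [he]; norm_num)
    · refine fin 9 (q ^ 36 * (q ^ 12 - 1) * (q ^ 8 - 1) * (q ^ 6 - 1) * (q ^ 5 - 1) *
        (q ^ 2 - 1)) (by rw [hA]; ring) ?_ (by rw [he]) (hnd 9 (by norm_num) he)
      simp only [hr.dvd_mul, not_or]
      refine ⟨⟨⟨⟨⟨hrpow, ?_⟩, ?_⟩, ?_⟩, ?_⟩, ?_⟩ <;> (apply hcop; rw [he]; norm_num)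
    · refine fin 12 (q ^ 36 * (q ^ 9 - 1) * (q ^ 8 - 1) * (q ^ 6 - 1) * (q ^ 5 - 1) *
        (q ^ 2 - 1)) (by rw [hA]; ring) ?_ (by rw [he]) (hnd 12 (by norm_num) he)
      simp only [hr.dvd_mul, not_or]
      refine ⟨⟨⟨⟨⟨hrpow, ?_⟩, ?_⟩, ?_⟩, ?_⟩, ?_⟩ <;> (apply hcop; rw [he]; norm_num)
  · intro hW r hr hrB
    by_cases hrq : r ∣ q
    · have hrg : ¬ r ∣ g := by
        intro h
        have h3 : r ∣ q - 1 := h.trans hgq
        have h4 : r ∣ q - (q - 1) := Nat.dvd_sub hrq h3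
        have h5 : q - (q - 1) = 1 := by omega
        rw [h5] at h4
        exact hr.one_lt.ne' (Nat.dvd_one.mp h4)
      rw [← key r hr hrg 2]
      have h3 : r ^ 2 ∣ q ^ 36 := (pow_dvd_pow_of_dvd hrq 2).trans (pow_dvd_pow q (by norm_num))
      have h4 : A = q ^ 36 * ((q ^ 12 - 1) * (q ^ 9 - 1) * (q ^ 8 - 1) * (q ^ 6 - 1) *
        (q ^ 5 - 1) * (q ^ 2 - 1)) := by rw [hA]; ring
      rw [h4]
      exact h3.mul_right _
    · have hpred := ord_dvd_pred q r hr hrq
      have hpos := ord_pos q r hr hrq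
      have hrA : r ∣ A := by rw [hB]; exact hrB.mul_left g
      have hdv : ∀ m, ord q r ∣ m → r ∣ q ^ m - 1 := fun m h => (dvd_iff q r m hq1).mpr h
      have hex : ord q r ∣ 12 ∨ ord q r ∣ 9 ∨ ord q r ∣ 8 ∨ ord q r ∣ 6 ∨ ord q r ∣ 5 ∨
          ord q r ∣ 2 := by
        rw [hA] at hrA
        simp only [hr.dvd_mul] at hrA
        rcases hrA with (((((h | h) | h) | h) | h) | h) | h
        · exact absurd (hr.dvd_of_dvd_pow h) hrq
        all_goals
          have := (dvd_iff q r _ hq1).mp h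
          tauto
      by_cases he1 : ord q r = 1
      · -- all factors are divisible by r
        have h3 : r ^ 3 ∣ A := by
          have e1 := hdv 12 (by rw [he1]; exact one_dvd _)
          have e2 := hdv 9 (by rw [he1]; exact one_dvd _)
          have e3 := hdv 8 (by rw [he1]; exact one_dvd _)
          have e4 : r ^ 3 ∣ (q ^ 12 - 1) * (q ^ 9 - 1) * (q ^ 8 - 1) := by
            have := mul_dvd_mul (mul_dvd_mul e1 e2) e3
            have e : r ^ 3 = r * r * r := by ring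
            rwa [e]
          have h4 : A = (q ^ 12 - 1) * (q ^ 9 - 1) * (q ^ 8 - 1) * (q ^ 36 * (q ^ 6 - 1) *
            (q ^ 5 - 1) * (q ^ 2 - 1)) := by rw [hA]; ring
          rw [h4]
          exact e4.mul_right _
        by_cases hrg : r ∣ g
        · have h4 : r = 3 :=
            (Nat.prime_dvd_prime_iff_eq hr Nat.prime_three).mp (hrg.trans hg3)
          have h5 : g = r := by
            rw [h4]
            exact Nat.dvd_antisymm hg3 (h4 ▸ hrg)
          rw [hB, h5, pow_succ'] at h3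
          exact Nat.dvd_of_mul_dvd_mul_left hr.pos h3
        · have h4 := (key r hr hrg 3).mp h3
          exact (pow_dvd_pow r (by norm_num)).trans h4
      · have hrg : ¬ r ∣ g := by
          intro h
          have h3 : r ∣ q ^ 1 - 1 := by rw [pow_one]; exact h.trans hgq
          exact he1 (Nat.dvd_one.mp ((dvd_iff q r 1 hq1).mp h3))
        have hr2 : ¬ r ∣ 2 * q := by
          intro h
          rcases (hr.dvd_mul).mp h with h | h
          · have : r = 2 := (Nat.prime_dvd_prime_iff_eq hr Nat.prime_two).mp h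
            rw [this] at hpred
            rw [this] at he1
            exact he1 (Nat.dvd_one.mp hpred)
          · exact hrq h
        rw [← key r hr hrg 2]
        have hr1 : 0 < r - 1 := by have := hr.two_le; omega
        have hle := Nat.le_of_dvd hr1 hpred
        have two : ∀ d d' R : ℕ, A = (q ^ d - 1) * (q ^ d' - 1) * R → ord q r ∣ d →
            ord q r ∣ d' → r ^ 2 ∣ A := by
          intro d d' R hAR h1 h3
          rw [hAR, sq]
          exact (mul_dvd_mul (hdv d h1) (hdv d' h3)).mul_right R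
        have one : ∀ d R : ℕ, 0 < d → A = (q ^ d - 1) * R → ord q r = d →
            ord q r ∈ ({5, 8, 9, 12} : Set ℕ) → r ^ 2 ∣ A := by
          intro d R hd hAR h1 h3
          have hnd : ¬ r ∣ d := by
            intro h4
            have := Nat.le_of_dvd hd h4
            omega
          have h4 := hdv d (by rw [h1])
          rw [hAR]
          exact ((sq_dvd_iff q r d hr hq1 hrq hnd h4).mpr (hW r hr hr2 h3)).mul_right R
        have hle12 : ord q r ≤ 12 := by
          rcases hex with h | h | h | h | h | h <;>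
            exact (Nat.le_of_dvd (by norm_num) h).trans (by norm_num)
        generalize hE : ord q r = e at *
        interval_cases e
        · exact absurd rfl he1
        · exact two 12 8 (q ^ 36 * (q ^ 9 - 1) * (q ^ 6 - 1) * (q ^ 5 - 1) * (q ^ 2 - 1))
            (by rw [hA]; ring) (by norm_num) (by norm_num)
        · exact two 12 9 (q ^ 36 * (q ^ 8 - 1) * (q ^ 6 - 1) * (q ^ 5 - 1) * (q ^ 2 - 1))
            (by rw [hA]; ring) (by norm_num) (by norm_num)
        · exact two 12 8 (q ^ 36 * (q ^ 9 - 1) * (q ^ 6 - 1) * (q ^ 5 - 1) * (q ^ 2 - 1))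
            (by rw [hA]; ring) (by norm_num) (by norm_num)
        · exact one 5 (q ^ 36 * (q ^ 12 - 1) * (q ^ 9 - 1) * (q ^ 8 - 1) * (q ^ 6 - 1) *
            (q ^ 2 - 1)) (by norm_num) (by rw [hA]; ring) rfl (by simp)
        · exact two 12 6 (q ^ 36 * (q ^ 9 - 1) * (q ^ 8 - 1) * (q ^ 5 - 1) * (q ^ 2 - 1))
            (by rw [hA]; ring) (by norm_num) (by norm_num)
        · exfalso; revert hex; decide
        · exact one 8 (q ^ 36 * (q ^ 12 - 1) * (q ^ 9 - 1) * (q ^ 6 - 1) * (q ^ 5 - 1) *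
            (q ^ 2 - 1)) (by norm_num) (by rw [hA]; ring) rfl (by simp)
        · exact one 9 (q ^ 36 * (q ^ 12 - 1) * (q ^ 8 - 1) * (q ^ 6 - 1) * (q ^ 5 - 1) *
            (q ^ 2 - 1)) (by norm_num) (by rw [hA]; ring) rfl (by simp)
        · exfalso; revert hex; decide
        · exfalso; revert hex; decide
        · exact one 12 (q ^ 36 * (q ^ 9 - 1) * (q ^ 8 - 1) * (q ^ 6 - 1) * (q ^ 5 - 1) *
            (q ^ 2 - 1)) (by norm_num) (by rw [hA]; ring) rfl (by simp)

end Tuan
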