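import Pool.Agent.Tuan.WLib

/-!
MODULE WE62 (size 3).  The criteria for `2E_6(q)` and `3D_4(q)`.

SKETCH.  `ordE62 q * g = q^36 (q^12-1)(q^9+1)(q^8-1)(q^6-1)(q^5+1)(q^2-1)`, `g = gcd 3 (q+1)`.
`r ∣ q`: fine; `r = 2 ∤ q`: many factors.  `r` odd, `e = ord q r`: `r ∣ q^d-1 ↔ e ∣ d`;
`r ∣ q^9+1 ↔ e ∣ 18 ∧ ¬ e ∣ 9 ↔ e ∈ {2,6,18}`; `r ∣ q^5+1 ↔ e ∈ {2,10}`.  Number of factors divisible
by `r`: `e=1: 4 (12,8,6,2)`, `e=2: 6`, `e=3: 2`, `e=4: 2`, `e=6: 3`, `e=8,10,12,18`: exactly one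
(`q^8-1`, `q^5+1`, `q^12-1`, `q^9+1`), others none (`e = 5, 9` none).  `r ∣ g`: `r = 3`, `e = 2`, six
factors.  One factor: `sq_dvd_iff` / `sq_dvd_add_iff` (`r > e ≥ 8`, so `r ∤ 12, 9, 8, 5`).
`ordD43 q = q^12 (q^8+q^4+1)(q^6-1)(q^2-1)`.  `(q^8+q^4+1)(q^4-1) = q^12-1`.  `r ≠ 3` odd:
`r ∣ q^8+q^4+1 ↔ e ∣ 12 ∧ ¬ e ∣ 4` (`e ∈ {3,6,12}`; if `r ∣ q^4-1` then `q^8+q^4+1 ≡ 3`);
`e = 1,2`: the factors `q^6-1, q^2-1`; `e = 3, 6`: `q^8+q^4+1`, `q^6-1`; `e = 12`: only
`q^8+q^4+1`, and `r^2 ∣ q^8+q^4+1 ↔ r^2 ∣ q^12 - 1 ↔ Wief` (`r ∤ q^4-1`, `r ≥ 13`).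
`r = 3 ∤ q`: `e ∈ {1,2}`, `3 ∣ q^2-1`, `3 ∣ q^6-1`: `9 ∣` the order; not critical.
-/

namespace Tuan

private theorem we62_cop {r m k : ℕ} (hr : r.Prime) (h : ¬ r ∣ m) : (r ^ k).Coprime m :=
  Nat.Coprime.pow_left k ((Nat.Prime.coprime_iff_not_dvd hr).mpr h)

theorem crit_E62 (q : ℕ) (hq : 2 ≤ q) :
    SqFull (ordE62 q) ↔ ∀ r : ℕ, r.Prime → ¬ r ∣ 2 * q →
      ord q r ∈ ({8, 10, 12, 18} : Set ℕ) → Wief q r := by
  set A := q ^ 36 * (q ^ 12 - 1) * (q ^ 9 + 1) * (q ^ 8 - 1) * (q ^ 6 - 1) * (q ^ 5 + 1) *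
    (q ^ 2 - 1) with hA
  set g := Nat.gcd 3 (q + 1) with hg
  have hg3 : g ∣ 3 := Nat.gcd_dvd_left _ _
  have hgq : g ∣ q + 1 := Nat.gcd_dvd_right _ _
  have hq2 : q ^ 2 - 1 = (q + 1) * (q - 1) := by
    have := Nat.sq_sub_sq q 1
    rwa [one_pow] at this
  have hg2 : g ∣ q ^ 2 - 1 := by
    rw [hq2]
    exact hgq.mul_right _
  have hgA : g ∣ A := hg2.trans (Dvd.intro_left _ rfl)
  have hord : ordE62 q = A / g := rfl
  obtain ⟨B, hB⟩ := hgA
  have hg0 : 0 < g := Nat.pos_of_dvd_of_pos hg3 (by norm_num)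
  have hord' : ordE62 q = B := by
    rw [hord, hB, Nat.mul_div_cancel_left B hg0]
  rw [hord']
  have key : ∀ r : ℕ, r.Prime → ¬ r ∣ g → ∀ k : ℕ, r ^ k ∣ A ↔ r ^ k ∣ B := by
    intro r hr hrg k
    rw [hB]
    exact (we62_cop hr hrg).dvd_mul_left
  have hq1 : 1 ≤ q := by omega
  constructor
  · intro hS r hr h2 he
    have hrq : ¬ r ∣ q := fun h => h2 (h.mul_left 2)
    have hpred := ord_dvd_pred q r hr hrq
    have hr1 : 0 < r - 1 := by have := hr.two_le; omega
    have hle := Nat.le_of_dvd hr1 hpred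
    have hcop : ∀ m, ¬ ord q r ∣ m → ¬ r ∣ q ^ m - 1 := fun m h1 h3 =>
      h1 ((dvd_iff q r m hq1).mp h3)
    have hcop' : ∀ m, ¬ (ord q r ∣ 2 * m ∧ ¬ ord q r ∣ m) → ¬ r ∣ q ^ m + 1 := fun m h1 h3 =>
      h1 ((dvd_add_iff q r m hr h2).mp h3)
    have hrpow : ¬ r ∣ q ^ 36 := fun h => hrq (hr.dvd_of_dvd_pow h)
    have hrg : ¬ r ∣ g := by
      intro h
      have h3 : r ∣ 3 := h.trans hg3
      have h4 : r = 3 := (Nat.prime_dvd_prime_iff_eq hr Nat.prime_three).mp h3
      rw [h4] at hle he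
      simp only [Set.mem_insert_iff, Set.mem_singleton_iff] at he
      omega
    have fin0 : ∀ F R : ℕ, A = F * R → ¬ r ∣ R → r ∣ F → r ^ 2 ∣ F := by
      intro F R hAR hR h3
      have h4 : r ^ 1 ∣ A := by rw [hAR, pow_one]; exact h3.mul_right R
      have h5 : r ^ 2 ∣ A := (key r hr hrg 2).mpr (hS r hr (by
        have := (key r hr hrg 1).mp h4
        rwa [pow_one] at this))
      rw [hAR] at h5
      exact (we62_cop hr hR).dvd_of_dvd_mul_right h5
    have hnd : ∀ d : ℕ, 0 < d → d ≤ ord q r → ¬ r ∣ d := by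
      intro d hd h3 h4
      have := Nat.le_of_dvd hd h4
      omega
    simp only [Set.mem_insert_iff, Set.mem_singleton_iff] at he
    rcases he with he | he | he | he
    · have h3 : r ∣ q ^ 8 - 1 := (dvd_iff q r 8 hq1).mpr (by rw [he])
      refine (sq_dvd_iff q r 8 hr hq1 hrq (hnd 8 (by norm_num) (by rw [he])) h3).mp
        (fin0 _ (q ^ 36 * (q ^ 12 - 1) * (q ^ 9 + 1) * (q ^ 6 - 1) * (q ^ 5 + 1) *
          (q ^ 2 - 1)) (by rw [hA]; ring) ?_ h3)
      simp only [hr.dvd_mul, not_or]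
      refine ⟨⟨⟨⟨⟨hrpow, ?_⟩, ?_⟩, ?_⟩, ?_⟩, ?_⟩ <;>
        first
          | (apply hcop; rw [he]; norm_num)
          | (apply hcop'; rw [he]; norm_num)
    · have h3 : r ∣ q ^ 5 + 1 := (dvd_add_iff q r 5 hr h2).mpr (by rw [he]; norm_num)
      refine (sq_dvd_add_iff q r 5 hr h2 (hnd 5 (by norm_num) (by rw [he]; norm_num)) h3).mp
        (fin0 _ (q ^ 36 * (q ^ 12 - 1) * (q ^ 9 + 1) * (q ^ 8 - 1) * (q ^ 6 - 1) *
          (q ^ 2 - 1)) (by rw [hA]; ring) ?_ h3)
      simp only [hr.dvd_mul, not_or]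
      refine ⟨⟨⟨⟨⟨hrpow, ?_⟩, ?_⟩, ?_⟩, ?_⟩, ?_⟩ <;>
        first
          | (apply hcop; rw [he]; norm_num)
          | (apply hcop'; rw [he]; norm_num)
    · have h3 : r ∣ q ^ 12 - 1 := (dvd_iff q r 12 hq1).mpr (by rw [he])
      refine (sq_dvd_iff q r 12 hr hq1 hrq (hnd 12 (by norm_num) (by rw [he])) h3).mp
        (fin0 _ (q ^ 36 * (q ^ 9 + 1) * (q ^ 8 - 1) * (q ^ 6 - 1) * (q ^ 5 + 1) *
          (q ^ 2 - 1)) (by rw [hA]; ring) ?_ h3)
      simp only [hr.dvd_mul, not_or]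
      refine ⟨⟨⟨⟨⟨hrpow, ?_⟩, ?_⟩, ?_⟩, ?_⟩, ?_⟩ <;>
        first
          | (apply hcop; rw [he]; norm_num)
          | (apply hcop'; rw [he]; norm_num)
    · have h3 : r ∣ q ^ 9 + 1 := (dvd_add_iff q r 9 hr h2).mpr (by rw [he]; norm_num)
      refine (sq_dvd_add_iff q r 9 hr h2 (hnd 9 (by norm_num) (by rw [he]; norm_num)) h3).mp
        (fin0 _ (q ^ 36 * (q ^ 12 - 1) * (q ^ 8 - 1) * (q ^ 6 - 1) * (q ^ 5 + 1) *
          (q ^ 2 - 1)) (by rw [hA]; ring) ?_ h3)
      simp only [hr.dvd_mul, not_or]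
      refine ⟨⟨⟨⟨⟨hrpow, ?_⟩, ?_⟩, ?_⟩, ?_⟩, ?_⟩ <;>
        first
          | (apply hcop; rw [he]; norm_num)
          | (apply hcop'; rw [he]; norm_num)
  · intro hW r hr hrB
    by_cases hrq : r ∣ q
    · have hrg : ¬ r ∣ g := by
        intro h
        have h3 : r ∣ q + 1 := h.trans hgq
        have h4 : r ∣ 1 := (Nat.dvd_add_right hrq).mp h3
        exact hr.one_lt.ne' (Nat.dvd_one.mp h4)
      rw [← key r hr hrg 2]
      have h3 : r ^ 2 ∣ q ^ 36 := (pow_dvd_pow_of_dvd hrq 2).trans (pow_dvd_pow q (by norm_num))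
      have h4 : A = q ^ 36 * ((q ^ 12 - 1) * (q ^ 9 + 1) * (q ^ 8 - 1) * (q ^ 6 - 1) *
        (q ^ 5 + 1) * (q ^ 2 - 1)) := by rw [hA]; ring
      rw [h4]
      exact h3.mul_right _
    · have hpred := ord_dvd_pred q r hr hrq
      have hpos := ord_pos q r hr hrq
      have hrA : r ∣ A := by rw [hB]; exact hrB.mul_left g
      have hdv : ∀ m, ord q r ∣ m → r ∣ q ^ m - 1 := fun m h => (dvd_iff q r m hq1).mpr h
      by_cases he1 : ord q r ∣ 2
      · have h3 : r ^ 3 ∣ A := by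
          have e1 := hdv 12 (he1.trans (by norm_num))
          have e2 := hdv 8 (he1.trans (by norm_num))
          have e3 := hdv 6 (he1.trans (by norm_num))
          have e4 : r ^ 3 ∣ (q ^ 12 - 1) * (q ^ 8 - 1) * (q ^ 6 - 1) := by
            have := mul_dvd_mul (mul_dvd_mul e1 e2) e3
            have e : r ^ 3 = r * r * r := by ring
            rwa [e]
          have h4 : A = (q ^ 12 - 1) * (q ^ 8 - 1) * (q ^ 6 - 1) * (q ^ 36 * (q ^ 9 + 1) *
            (q ^ 5 + 1) * (q ^ 2 - 1)) := by rw [hA]; ring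
          rw [h4]
          exact e4.mul_right _
        by_cases hrg : r ∣ g
        · have h4 : r = 3 :=
            (Nat.prime_dvd_prime_iff_eq hr Nat.prime_three).mp (hrg.trans hg3)
          have h5 : g = r := by
            rw [h4]
            exact Nat.dvd_antisymm hg3 (h4 ▸ hrg)
          rw [hB, h5, pow_succ'] at h3
          exact Nat.dvd_of_mul_dvd_mul_left hr.pos h3
        · have h4 := (key r hr hrg 3).mp h3
          exact (pow_dvd_pow r (by norm_num)).trans h4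
      · have hrg : ¬ r ∣ g := by
          intro h
          exact he1 ((dvd_iff q r 2 hq1).mp (h.trans hg2))
        have hr2 : ¬ r ∣ 2 * q := by
          intro h
          rcases (hr.dvd_mul).mp h with h | h
          · have : r = 2 := (Nat.prime_dvd_prime_iff_eq hr Nat.prime_two).mp h
            rw [this] at hpred
            rw [this] at he1
            exact he1 (hpred.trans (by norm_num))
          · exact hrq h
        have hex : ord q r ∣ 12 ∨ (ord q r ∣ 2 * 9 ∧ ¬ ord q r ∣ 9) ∨ ord q r ∣ 8 ∨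
            ord q r ∣ 6 ∨ (ord q r ∣ 2 * 5 ∧ ¬ ord q r ∣ 5) ∨ ord q r ∣ 2 := by
          rw [hA] at hrA
          simp only [hr.dvd_mul] at hrA
          rcases hrA with (((((h | h) | h) | h) | h) | h) | h
          · exact absurd (hr.dvd_of_dvd_pow h) hrq
          · exact Or.inl ((dvd_iff q r _ hq1).mp h)
          · exact Or.inr (Or.inl ((dvd_add_iff q r _ hr hr2).mp h))
          · exact Or.inr (Or.inr (Or.inl ((dvd_iff q r _ hq1).mp h)))
          · exact Or.inr (Or.inr (Or.inr (Or.inl ((dvd_iff q r _ hq1).mp h))))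
          · exact Or.inr (Or.inr (Or.inr (Or.inr (Or.inl ((dvd_add_iff q r _ hr hr2).mp h)))))
          · exact Or.inr (Or.inr (Or.inr (Or.inr (Or.inr ((dvd_iff q r _ hq1).mp h)))))
        rw [← key r hr hrg 2]
        have hr1 : 0 < r - 1 := by have := hr.two_le; omega
        have hle := Nat.le_of_dvd hr1 hpred
        have two : ∀ d d' R : ℕ, A = (q ^ d - 1) * (q ^ d' - 1) * R → ord q r ∣ d →
            ord q r ∣ d' → r ^ 2 ∣ A := by
          intro d d' R hAR h1 h3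
          rw [hAR, sq]
          exact (mul_dvd_mul (hdv d h1) (hdv d' h3)).mul_right R
        have hnd : ∀ d : ℕ, 0 < d → d ≤ ord q r → ¬ r ∣ d := by
          intro d hd h3 h4
          have := Nat.le_of_dvd hd h4
          omega
        have one : ∀ d R : ℕ, 0 < d → A = (q ^ d - 1) * R → ord q r = d →
            ord q r ∈ ({8, 10, 12, 18} : Set ℕ) → r ^ 2 ∣ A := by
          intro d R hd hAR h1 h3
          have h4 := hdv d (by rw [h1])
          rw [hAR]
          exact ((sq_dvd_iff q r d hr hq1 hrq (hnd d hd h1.ge) h4).mpr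
            (hW r hr hr2 h3)).mul_right R
        have one' : ∀ d R : ℕ, 0 < d → A = (q ^ d + 1) * R → ord q r ∣ 2 * d ∧ ¬ ord q r ∣ d →
            d ≤ ord q r → ord q r ∈ ({8, 10, 12, 18} : Set ℕ) → r ^ 2 ∣ A := by
          intro d R hd hAR h1 h5 h3
          have h4 : r ∣ q ^ d + 1 := (dvd_add_iff q r d hr hr2).mpr h1
          rw [hAR]
          exact ((sq_dvd_add_iff q r d hr hr2 (hnd d hd h5) h4).mpr
            (hW r hr hr2 h3)).mul_right R
        have hlem : ord q r ≤ 18 := by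
          rcases hex with h | ⟨h, -⟩ | h | h | ⟨h, -⟩ | h <;>
            exact (Nat.le_of_dvd (by norm_num) h).trans (by norm_num)
        generalize hE : ord q r = e at *
        interval_cases e
        · exact absurd (one_dvd 2) he1
        · exact absurd (dvd_refl 2) he1
        · exact two 12 6 (q ^ 36 * (q ^ 9 + 1) * (q ^ 8 - 1) * (q ^ 5 + 1) * (q ^ 2 - 1))
            (by rw [hA]; ring) (by norm_num) (by norm_num)
        · exact two 12 8 (q ^ 36 * (q ^ 9 + 1) * (q ^ 6 - 1) * (q ^ 5 + 1) * (q ^ 2 - 1))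
            (by rw [hA]; ring) (by norm_num) (by norm_num)
        · exfalso; revert hex; decide
        · exact two 12 6 (q ^ 36 * (q ^ 9 + 1) * (q ^ 8 - 1) * (q ^ 5 + 1) * (q ^ 2 - 1))
            (by rw [hA]; ring) (by norm_num) (by norm_num)
        · exfalso; revert hex; decide
        · exact one 8 (q ^ 36 * (q ^ 12 - 1) * (q ^ 9 + 1) * (q ^ 6 - 1) * (q ^ 5 + 1) *
            (q ^ 2 - 1)) (by norm_num) (by rw [hA]; ring) rfl (by simp)
        · exfalso; revert hex; decide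
        · exact one' 5 (q ^ 36 * (q ^ 12 - 1) * (q ^ 9 + 1) * (q ^ 8 - 1) * (q ^ 6 - 1) *
            (q ^ 2 - 1)) (by norm_num) (by rw [hA]; ring) (by norm_num) (by norm_num) (by simp)
        · exfalso; revert hex; decide
        · exact one 12 (q ^ 36 * (q ^ 9 + 1) * (q ^ 8 - 1) * (q ^ 6 - 1) * (q ^ 5 + 1) *
            (q ^ 2 - 1)) (by norm_num) (by rw [hA]; ring) rfl (by simp)
        · exfalso; revert hex; decide
        · exfalso; revert hex; decide
        · exfalso; revert hex; decide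
        · exfalso; revert hex; decide
        · exfalso; revert hex; decide
        · exact one' 9 (q ^ 36 * (q ^ 12 - 1) * (q ^ 8 - 1) * (q ^ 6 - 1) * (q ^ 5 + 1) *
            (q ^ 2 - 1)) (by norm_num) (by rw [hA]; ring) (by norm_num) (by norm_num) (by simp)

theorem crit_D43 (q : ℕ) (hq : 2 ≤ q) :
    SqFull (ordD43 q) ↔ ∀ r : ℕ, r.Prime → ¬ r ∣ 2 * q →
      ord q r = 12 → Wief q r := by
  set A := ordD43 q with hA
  have hA' : A = q ^ 12 * (q ^ 8 + q ^ 4 + 1) * (q ^ 6 - 1) * (q ^ 2 - 1) := rfl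
  have hq1 : 1 ≤ q := by omega
  have h12 : q ^ 12 - 1 = (q ^ 4 - 1) * (q ^ 8 + q ^ 4 + 1) := by
    have h4 : 1 ≤ q ^ 4 := Nat.one_le_pow _ _ hq1
    have h12' : 1 ≤ q ^ 12 := Nat.one_le_pow _ _ hq1
    zify [h4, h12']
    ring
  have h3 : q ^ 8 + q ^ 4 + 1 = (q ^ 4 - 1) * (q ^ 4 + 2) + 3 := by
    have h4 : 1 ≤ q ^ 4 := Nat.one_le_pow _ _ hq1
    zify [h4]
    ring
  constructor
  · intro hS r hr h2 he
    have hrq : ¬ r ∣ q := fun h => h2 (h.mul_left 2)
    have hpred := ord_dvd_pred q r hr hrq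
    have hr1 : 0 < r - 1 := by have := hr.two_le; omega
    have hle := Nat.le_of_dvd hr1 hpred
    have hcop : ∀ m, ¬ ord q r ∣ m → ¬ r ∣ q ^ m - 1 := fun m h1 h3 =>
      h1 ((dvd_iff q r m hq1).mp h3)
    have hrpow : ¬ r ∣ q ^ 12 := fun h => hrq (hr.dvd_of_dvd_pow h)
    have hd : r ∣ q ^ 12 - 1 := (dvd_iff q r 12 hq1).mpr (by rw [he])
    have h4 : ¬ r ∣ q ^ 4 - 1 := hcop 4 (by rw [he]; norm_num)
    have h6 : ¬ r ∣ q ^ 6 - 1 := hcop 6 (by rw [he]; norm_num)
    have h22 : ¬ r ∣ q ^ 2 - 1 := hcop 2 (by rw [he]; norm_num)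
    have h5 : r ∣ q ^ 8 + q ^ 4 + 1 := by
      rw [h12] at hd
      exact (hr.dvd_mul.mp hd).resolve_left h4
    have h7 : r ^ 2 ∣ A := hS r hr (by
      rw [hA']
      exact ((h5.mul_left _).mul_right _).mul_right _)
    have h8 : A = (q ^ 8 + q ^ 4 + 1) * (q ^ 12 * (q ^ 6 - 1) * (q ^ 2 - 1)) := by
      rw [hA']; ring
    rw [h8] at h7
    have h9 : r ^ 2 ∣ q ^ 8 + q ^ 4 + 1 := (we62_cop hr (by
      simp only [hr.dvd_mul, not_or]
      exact ⟨⟨hrpow, h6⟩, h22⟩)).dvd_of_dvd_mul_right h7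
    have hnd : ¬ r ∣ 12 := by
      intro h
      have := Nat.le_of_dvd (by norm_num) h
      omega
    refine (sq_dvd_iff q r 12 hr hq1 hrq hnd hd).mp ?_
    rw [h12]
    exact h9.mul_left _
  · intro hW r hr hrA
    by_cases hrq : r ∣ q
    · have h5 : r ^ 2 ∣ q ^ 12 := (pow_dvd_pow_of_dvd hrq 2).trans (pow_dvd_pow q (by norm_num))
      rw [hA']
      exact ((h5.mul_right _).mul_right _).mul_right _
    · have hpred := ord_dvd_pred q r hr hrq
      have hpos := ord_pos q r hr hrq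
      have hdv : ∀ m, ord q r ∣ m → r ∣ q ^ m - 1 := fun m h => (dvd_iff q r m hq1).mpr h
      have hr1 : 0 < r - 1 := by have := hr.two_le; omega
      have hle := Nat.le_of_dvd hr1 hpred
      by_cases he1 : ord q r ∣ 2
      · have e1 := hdv 6 (he1.trans (by norm_num))
        have e2 := hdv 2 he1
        rw [hA', mul_assoc, sq]
        exact (mul_dvd_mul e1 e2).mul_left _
      · have hr2 : ¬ r ∣ 2 * q := by
          intro h
          rcases (hr.dvd_mul).mp h with h | h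
          · have : r = 2 := (Nat.prime_dvd_prime_iff_eq hr Nat.prime_two).mp h
            rw [this] at hpred
            rw [this] at he1
            exact he1 (hpred.trans (by norm_num))
          · exact hrq h
        have hr3 : ¬ r ∣ 3 := by
          intro h
          have : r = 3 := (Nat.prime_dvd_prime_iff_eq hr Nat.prime_three).mp h
          rw [this] at hpred
          rw [this] at he1
          exact he1 hpred
        -- if `e ∣ 12` and `¬ e ∣ 4` then `r ∣ q^8+q^4+1`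
        have hmid : ord q r ∣ 12 → ¬ ord q r ∣ 4 → r ∣ q ^ 8 + q ^ 4 + 1 := by
          intro h5 h6
          have h7 := hdv 12 h5
          rw [h12] at h7
          exact (hr.dvd_mul.mp h7).resolve_left fun h => h6 ((dvd_iff q r 4 hq1).mp h)
        have hn4 : r ∣ q ^ 8 + q ^ 4 + 1 → ¬ ord q r ∣ 4 := by
          intro h5 h6
          have h7 := hdv 4 h6
          rw [h3] at h5
          exact hr3 ((Nat.dvd_add_right (h7.mul_right _)).mp h5)
        have hex : (ord q r ∣ 12 ∧ ¬ ord q r ∣ 4) ∨ ord q r ∣ 6 := by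
          rw [hA'] at hrA
          simp only [hr.dvd_mul] at hrA
          rcases hrA with ((h | h) | h) | h
          · exact absurd (hr.dvd_of_dvd_pow h) hrq
          · refine Or.inl ⟨(dvd_iff q r 12 hq1).mp ?_, hn4 h⟩
            rw [h12]
            exact h.mul_left _
          · exact Or.inr ((dvd_iff q r _ hq1).mp h)
          · exact absurd ((dvd_iff q r _ hq1).mp h) he1
        have hlem : ord q r ≤ 12 := by
          rcases hex with ⟨h, -⟩ | h <;>
            exact (Nat.le_of_dvd (by norm_num) h).trans (by norm_num)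
        have hA2 : A = (q ^ 8 + q ^ 4 + 1) * (q ^ 6 - 1) * (q ^ 12 * (q ^ 2 - 1)) := by
          rw [hA']; ring
        have hA3 : A = (q ^ 8 + q ^ 4 + 1) * (q ^ 12 * (q ^ 6 - 1) * (q ^ 2 - 1)) := by
          rw [hA']; ring
        have two : ord q r ∣ 6 → ord q r ∣ 12 → ¬ ord q r ∣ 4 → r ^ 2 ∣ A := by
          intro h5 h6 h7
          rw [hA2, sq]
          exact (mul_dvd_mul (hmid h6 h7) (hdv 6 h5)).mul_right _
        have tw : ord q r = 12 → r ^ 2 ∣ A := by
          intro h5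
          have hnd : ¬ r ∣ 12 := by
            intro h
            have := Nat.le_of_dvd (by norm_num) h
            omega
          have h6 := (sq_dvd_iff q r 12 hr hq1 hrq hnd (hdv 12 (by rw [h5]))).mpr
            (hW r hr hr2 h5)
          rw [h12] at h6
          have h7 : ¬ r ∣ q ^ 4 - 1 := by
            intro h
            have := (dvd_iff q r 4 hq1).mp h
            rw [h5] at this
            norm_num at this
          rw [hA3]
          exact ((we62_cop hr h7).dvd_of_dvd_mul_left h6).mul_right _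
        generalize hE : ord q r = e at *
        interval_cases e
        · exact absurd (one_dvd 2) he1
        · exact absurd (dvd_refl 2) he1
        · exact two (by norm_num) (by norm_num) (by norm_num)
        · exfalso; revert hex; decide
        · exfalso; revert hex; decide
        · exact two (by norm_num) (by norm_num) (by norm_num)
        · exfalso; revert hex; decide
        · exfalso; revert hex; decide
        · exfalso; revert hex; decide
        · exfalso; revert hex; decide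
        · exfalso; revert hex; decide
        · exact tw rfl

end Tuan
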