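import Pool.Agent.Tuan.WLib

/-!
MODULE WFG (size 3).  The criteria for `F_4(q)` (degrees 2,6,8,12) and `G_2(q)` (degrees 2,6).

SKETCH.  `ordF4 q = q^24 ∏ (q^d - 1)`, `ordG2 q = q^6 (q^6-1)(q^2-1)`, no centre.  `r ∣ q`: fine.
`r = 2 ∤ q`: `8 ∣ q^2 - 1`.  `r` odd, `e = ord q r`; `r ∣ q^d - 1 ↔ e ∣ d`.
F4: `e = 1,2,3,4,6` divide at least two of the degrees; `e = 8` and `e = 12` exactly one; others
none.  G2: `e = 1,2` divide both; `e = 3, 6` only `6`.  If exactly one factor `q^d-1` is divisible by `r`: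
`r^2 ∣ order ↔ r^2 ∣ q^d - 1 ↔ Wief q r` (`sq_dvd_iff`; `¬ r ∣ d`: `e ≥ 3` divides `r-1`, so `r ≥ 5`,
and `d ∈ {6, 8, 12}` has only the prime factors `2, 3`).
-/

namespace Tuan

private theorem WFG_cop {r x : ℕ} (hr : r.Prime) (h : ¬ r ∣ x) : Nat.Coprime (r ^ 2) x :=
  ((Nat.Prime.coprime_iff_not_dvd hr).2 h).pow_left 2

private theorem WFG_two (q : ℕ) (h : ¬ 2 ∣ q) : 2 ^ 2 ∣ q ^ 2 - 1 := by
  obtain ⟨k, rfl⟩ : ∃ k, q = 2 * k + 1 := ⟨q / 2, by omega⟩
  refine ⟨k ^ 2 + k, ?_⟩
  have : (2 * k + 1) ^ 2 = 2 ^ 2 * (k ^ 2 + k) + 1 := by ring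
  omega

private theorem WFG_gt {q r : ℕ} (hr : r.Prime) (h : ¬ r ∣ q) : ord q r < r := by
  have h1 := ord_dvd_pred q r hr h
  have h2 := hr.two_le
  have h3 := Nat.le_of_dvd (by omega) h1
  omega

theorem crit_F4 (q : ℕ) (hq : 2 ≤ q) :
    SqFull (ordF4 q) ↔ ∀ r : ℕ, r.Prime → ¬ r ∣ 2 * q →
      ord q r ∈ ({8, 12} : Set ℕ) → Wief q r := by
  have hq1 : 1 ≤ q := by omega
  simp only [Set.mem_insert_iff, Set.mem_singleton_iff]
  constructor
  · intro h r hr h2 he
    have hrq : ¬ r ∣ q := fun h' => h2 (dvd_mul_of_dvd_right h' 2)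
    have hA := dvd_iff q r 12 hq1
    have hB := dvd_iff q r 8 hq1
    have hC := dvd_iff q r 6 hq1
    have hD := dvd_iff q r 2 hq1
    have hgt := WFG_gt hr hrq
    have cq : Nat.Coprime (r ^ 2) (q ^ 24) := (WFG_cop hr hrq).pow_right 24
    rcases he with he | he
    · rw [he] at hA hB hC hD hgt
      have nA : ¬ r ∣ q ^ 12 - 1 := by rw [hA]; decide
      have yB : r ∣ q ^ 8 - 1 := by rw [hB]
      have nC : ¬ r ∣ q ^ 6 - 1 := by rw [hC]; decide
      have nD : ¬ r ∣ q ^ 2 - 1 := by rw [hD]; decide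
      have h3 : r ^ 2 ∣ ordF4 q := by
        apply h r hr
        unfold ordF4
        exact dvd_mul_of_dvd_left (dvd_mul_of_dvd_left (dvd_mul_of_dvd_right yB _) _) _
      unfold ordF4 at h3
      have h4 := (WFG_cop hr nD).dvd_of_dvd_mul_right h3
      have h5 := (WFG_cop hr nC).dvd_of_dvd_mul_right h4
      have h6 := (cq.mul_right (WFG_cop hr nA)).dvd_of_dvd_mul_left h5
      exact (sq_dvd_iff q r 8 hr hq1 hrq (fun h' => by
        have := Nat.le_of_dvd (by norm_num) h'; omega) yB).1 h6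
    · rw [he] at hA hB hC hD hgt
      have yA : r ∣ q ^ 12 - 1 := by rw [hA]
      have nB : ¬ r ∣ q ^ 8 - 1 := by rw [hB]; decide
      have nC : ¬ r ∣ q ^ 6 - 1 := by rw [hC]; decide
      have nD : ¬ r ∣ q ^ 2 - 1 := by rw [hD]; decide
      have h3 : r ^ 2 ∣ ordF4 q := by
        apply h r hr
        unfold ordF4
        exact dvd_mul_of_dvd_left (dvd_mul_of_dvd_left (dvd_mul_of_dvd_left
          (dvd_mul_of_dvd_right yA _) _) _) _
      unfold ordF4 at h3
      have h4 := (WFG_cop hr nD).dvd_of_dvd_mul_right h3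
      have h5 := (WFG_cop hr nC).dvd_of_dvd_mul_right h4
      have h6 := (WFG_cop hr nB).dvd_of_dvd_mul_right h5
      have h7 := cq.dvd_of_dvd_mul_left h6
      exact (sq_dvd_iff q r 12 hr hq1 hrq (fun h' => by
        have := Nat.le_of_dvd (by norm_num) h'; omega) yA).1 h7
  · intro h r hr hdvd
    by_cases hrq : r ∣ q
    · unfold ordF4
      refine dvd_mul_of_dvd_left (dvd_mul_of_dvd_left (dvd_mul_of_dvd_left
        (dvd_mul_of_dvd_left ?_ _) _) _) _
      exact (pow_dvd_pow_of_dvd hrq 2).trans (pow_dvd_pow q (by norm_num))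
    by_cases hr2 : r = 2
    · subst hr2
      unfold ordF4
      exact dvd_mul_of_dvd_right (WFG_two q hrq) _
    have h2 : ¬ r ∣ 2 * q := by
      intro h'
      rcases (Nat.Prime.dvd_mul hr).1 h' with h' | h'
      · exact hr2 ((Nat.prime_dvd_prime_iff_eq hr Nat.prime_two).1 h')
      · exact hrq h'
    have hA := dvd_iff q r 12 hq1
    have hB := dvd_iff q r 8 hq1
    have hC := dvd_iff q r 6 hq1
    have hD := dvd_iff q r 2 hq1
    have hgt := WFG_gt hr hrq
    have hpos := ord_pos q r hr hrq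
    have hW := h r hr h2
    have hsA := fun hN hd => sq_dvd_iff q r 12 hr hq1 hrq hN hd
    have hsB := fun hN hd => sq_dvd_iff q r 8 hr hq1 hrq hN hd
    generalize ord q r = e at *
    -- it is enough to have two factors or a square in one
    have key : (r ^ 2 ∣ q ^ 12 - 1) ∨ (r ^ 2 ∣ q ^ 8 - 1) ∨ (r ∣ q ^ 12 - 1 ∧ r ∣ q ^ 8 - 1) ∨
        (r ∣ q ^ 12 - 1 ∧ r ∣ q ^ 6 - 1) := by
      have h24 : e ∣ 12 ∨ e ∣ 8 := by
        unfold ordF4 at hdvd
        rcases (Nat.Prime.dvd_mul hr).1 hdvd with h' | h'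
        · rcases (Nat.Prime.dvd_mul hr).1 h' with h' | h'
          · rcases (Nat.Prime.dvd_mul hr).1 h' with h' | h'
            · rcases (Nat.Prime.dvd_mul hr).1 h' with h' | h'
              · exact absurd (hr.dvd_of_dvd_pow h') hrq
              · exact Or.inl (hA.1 h')
            · exact Or.inr (hB.1 h')
          · exact Or.inl ((hC.1 h').trans (by norm_num))
        · exact Or.inl ((hD.1 h').trans (by norm_num))
      have hle : e ≤ 12 := by
        rcases h24 with h' | h'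
        · exact Nat.le_of_dvd (by norm_num) h'
        · exact (Nat.le_of_dvd (by norm_num) h').trans (by norm_num)
      by_cases h12 : e = 12
      · left
        have hd : r ∣ q ^ 12 - 1 := hA.2 (by rw [h12])
        exact (hsA (fun h' => by have := Nat.le_of_dvd (by norm_num) h'; omega) hd).2
          (hW (Or.inr h12))
      by_cases h8 : e = 8
      · right; left
        have hd : r ∣ q ^ 8 - 1 := hB.2 (by rw [h8])
        exact (hsB (fun h' => by have := Nat.le_of_dvd (by norm_num) h'; omega) hd).2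
          (hW (Or.inl h8))
      right; right
      rw [hA, hB, hC]
      clear hA hB hC hD hW hsA hsB hgt h
      interval_cases e <;> omega
    unfold ordF4
    rcases key with k | k | ⟨k, k'⟩ | ⟨k, k'⟩
    · exact dvd_mul_of_dvd_left (dvd_mul_of_dvd_left (dvd_mul_of_dvd_left
          (dvd_mul_of_dvd_right k _) _) _) _
    · exact dvd_mul_of_dvd_left (dvd_mul_of_dvd_left (dvd_mul_of_dvd_right k _) _) _
    · have : r ^ 2 ∣ (q ^ 12 - 1) * (q ^ 8 - 1) := by rw [sq]; exact mul_dvd_mul k k'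
      refine dvd_mul_of_dvd_left (dvd_mul_of_dvd_left ?_ _) _
      rw [mul_assoc]
      exact dvd_mul_of_dvd_right this _
    · have : r ^ 2 ∣ (q ^ 12 - 1) * (q ^ 6 - 1) := by rw [sq]; exact mul_dvd_mul k k'
      refine dvd_mul_of_dvd_left ?_ _
      refine this.trans ⟨q ^ 24 * (q ^ 8 - 1), by ring⟩

theorem crit_G2 (q : ℕ) (hq : 2 ≤ q) :
    SqFull (ordG2 q) ↔ ∀ r : ℕ, r.Prime → ¬ r ∣ 2 * q →
      ord q r ∈ ({3, 6} : Set ℕ) → Wief q r := by
  have hq1 : 1 ≤ q := by omega
  simp only [Set.mem_insert_iff, Set.mem_singleton_iff]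
  have hN : ∀ r, r.Prime → ¬ r ∣ q → (ord q r = 3 ∨ ord q r = 6) → ¬ r ∣ 6 := by
    intro r hr hrq he h6
    have hgt := WFG_gt hr hrq
    have hle := Nat.le_of_dvd (by norm_num) h6
    have : r = 4 ∨ r = 5 ∨ r = 6 := by omega
    rcases this with rfl | rfl | rfl
    · exact absurd hr (by norm_num)
    · omega
    · exact absurd hr (by norm_num)
  constructor
  · intro h r hr h2 he
    have hrq : ¬ r ∣ q := fun h' => h2 (dvd_mul_of_dvd_right h' 2)
    have hC := dvd_iff q r 6 hq1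
    have hD := dvd_iff q r 2 hq1
    have cq : Nat.Coprime (r ^ 2) (q ^ 6) := (WFG_cop hr hrq).pow_right 6
    have yC : r ∣ q ^ 6 - 1 := by
      rw [hC]
      rcases he with he | he <;> rw [he] <;> norm_num
    have nD : ¬ r ∣ q ^ 2 - 1 := by
      rw [hD]
      rcases he with he | he <;> rw [he] <;> norm_num
    have h3 : r ^ 2 ∣ ordG2 q := by
      apply h r hr
      unfold ordG2
      exact dvd_mul_of_dvd_left (dvd_mul_of_dvd_right yC _) _
    unfold ordG2 at h3
    have h4 := (WFG_cop hr nD).dvd_of_dvd_mul_right h3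
    have h7 := cq.dvd_of_dvd_mul_left h4
    exact (sq_dvd_iff q r 6 hr hq1 hrq (hN r hr hrq he) yC).1 h7
  · intro h r hr hdvd
    by_cases hrq : r ∣ q
    · unfold ordG2
      refine dvd_mul_of_dvd_left (dvd_mul_of_dvd_left ?_ _) _
      exact (pow_dvd_pow_of_dvd hrq 2).trans (pow_dvd_pow q (by norm_num))
    by_cases hr2 : r = 2
    · subst hr2
      unfold ordG2
      exact dvd_mul_of_dvd_right (WFG_two q hrq) _
    have h2 : ¬ r ∣ 2 * q := by
      intro h'
      rcases (Nat.Prime.dvd_mul hr).1 h' with h' | h'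
      · exact hr2 ((Nat.prime_dvd_prime_iff_eq hr Nat.prime_two).1 h')
      · exact hrq h'
    have hC := dvd_iff q r 6 hq1
    have hD := dvd_iff q r 2 hq1
    have hpos := ord_pos q r hr hrq
    have h6 : ord q r ∣ 6 := by
      unfold ordG2 at hdvd
      rcases (Nat.Prime.dvd_mul hr).1 hdvd with h' | h'
      · rcases (Nat.Prime.dvd_mul hr).1 h' with h' | h'
        · exact absurd (hr.dvd_of_dvd_pow h') hrq
        · exact hC.1 h'
      · exact (hD.1 h').trans (by norm_num)
    have yC := hC.2 h6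
    unfold ordG2
    by_cases h36 : ord q r = 3 ∨ ord q r = 6
    · refine dvd_mul_of_dvd_left (dvd_mul_of_dvd_right ?_ _) _
      exact (sq_dvd_iff q r 6 hr hq1 hrq (hN r hr hrq h36) yC).2 (h r hr h2 h36)
    · have h2' : ord q r ∣ 2 := by
        have hle := Nat.le_of_dvd (by norm_num) h6
        generalize ord q r = e at *
        clear hC hD h yC
        interval_cases e <;> omega
      have yD := hD.2 h2'
      have : r ^ 2 ∣ (q ^ 6 - 1) * (q ^ 2 - 1) := by rw [sq]; exact mul_dvd_mul yC yD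
      rw [mul_assoc]
      exact dvd_mul_of_dvd_right this _

end Tuan
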