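import Pool.Agent.Tuan.WL

/-!
MODULE WInf (size 3).  Infinitely many `PSL_n(q)` fail iff there are infinitely many non-Wieferich
primes to the base `q`.

SKETCH.  By `crit_L` (for `n ≥ 3`), `¬ SqFull (ordL n q)` iff some prime `r ∤ 2q`, `r ∈ NonW q`, has
`n < 2 ord q r`, `ord q r ≤ n`.
`←`: suppose the set of `n` is finite, bounded by `M ≥ 3`.  Every `r ∈ NonW q`, `r ≠ 2`, has
`ord q r ≤ M` (otherwise `n = ord q r` is in the set), so `r ∣ ∏_{e=1}^{M} (q^e - 1)`, a fixed positive
number (`q ≥ 2`): finitely many `r`.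
`→` (contrapositive): if `NonW q` is finite, all `ord q r`, `r ∈ NonW q`, are at most some `M`;
for `n ≥ max 3 (2M)` there is no critical non-Wieferich prime, so the set is finite.
-/

namespace Tuan

theorem inf_iff (q : ℕ) (hq : 2 ≤ q) :
    {n : ℕ | 2 ≤ n ∧ ¬ SqFull (ordL n q)}.Infinite ↔ (NonW q).Infinite := by
  constructor
  · intro hinf hfin
    obtain ⟨M, hM⟩ := (hfin.image (ord q)).bddAbove
    refine hinf ((Set.finite_Iio (max 3 (2 * M))).subset ?_)
    rintro n ⟨_, hn2⟩
    by_contra hn
    rw [Set.mem_Iio, not_lt] at hn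
    have h3 : 3 ≤ n := (le_max_left _ _).trans hn
    have h4 : 2 * M ≤ n := (le_max_right _ _).trans hn
    refine hn2 ((crit_L n q h3 hq).2 ?_)
    rintro r hr hr2 ⟨h5, _⟩
    by_contra hw
    have h6 : r ∈ NonW q := ⟨hr, fun h => hr2 (h.mul_left 2), hw⟩
    have h7 : ord q r ≤ M := hM (Set.mem_image_of_mem _ h6)
    omega
  · intro hinf hfin
    obtain ⟨M, hM⟩ := hfin.bddAbove
    refine hinf ((Set.finite_Iic (q ^ (max M 2))).subset ?_)
    rintro r ⟨hr, hrq, hw⟩
    rw [Set.mem_Iic]
    rcases eq_or_ne r 2 with h2 | h2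
    · subst h2
      calc 2 ≤ q := hq
        _ = q ^ 1 := (pow_one q).symm
        _ ≤ q ^ (max M 2) := Nat.pow_le_pow_right (by omega) (by
            have := le_max_right M 2
            omega)
    · have hr2 : ¬ r ∣ 2 * q := by
        intro h
        rcases (Nat.Prime.dvd_mul hr).1 h with h3 | h3
        · exact h2 ((Nat.prime_dvd_prime_iff_eq hr Nat.prime_two).1 h3)
        · exact hrq h3
      have he : ord q r ≤ max M 2 := by
        by_contra hc
        rw [not_le] at hc
        have h3 : 3 ≤ ord q r := by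
          have := le_max_right M 2
          omega
        have h4 : ¬ SqFull (ordL (ord q r) q) := by
          intro h5
          exact hw ((crit_L _ q h3 hq).1 h5 r hr hr2 ⟨by omega, le_rfl⟩)
        have h5 : ord q r ≤ M := hM (show ord q r ∈ _ from ⟨by omega, h4⟩)
        have := le_max_left M 2
        omega
      have hpos : 0 < ord q r := ord_pos q r hr hrq
      have hd : r ∣ q ^ ord q r - 1 := (dvd_iff q r _ (by omega)).2 dvd_rfl
      have hlt : 0 < q ^ ord q r - 1 := by
        have : q ^ 1 ≤ q ^ ord q r := Nat.pow_le_pow_right (by omega) hpos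
        rw [pow_one] at this
        omega
      calc r ≤ q ^ ord q r - 1 := Nat.le_of_dvd hlt hd
        _ ≤ q ^ ord q r := Nat.sub_le _ _
        _ ≤ q ^ (max M 2) := Nat.pow_le_pow_right (by omega) he

end Tuan
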