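import Pool.Agent.Tuan.WLib

/-!
MODULE WL (size 4).  The criterion for `PSL_n(q)`.

SKETCH.  `N = q^(n(n-1)/2) * ∏_{i=2}^n (q^i - 1)`, `g = gcd n (q-1)`, `g ∣ q - 1 ∣ q^2 - 1`, so
`ordL n q = q^(n(n-1)/2) * ((q^2-1)/g) * ∏_{i=3}^n (q^i - 1)` and `ordL n q * g = N`.
`n ≥ 3`.  Primes `r ∣ q`: `n(n-1)/2 ≥ 3`, `r^2 ∣ ordL n q` (g is prime to q).
`r = 2 ∤ q`: `8 ∣ q^2 - 1`; if `n = 3` then `g` is odd (`g ∣ 3`), so `4 ∣ (q^2-1)/g`; if `n ≥ 4` then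
`16 ∣ q^4 - 1` (or `4 ∣`), a factor of the last product.
`r ∤ 2q` odd, `e = ord q r`; `r ∣ q^i - 1 ↔ e ∣ i`.
(a) `r ∣ g` (so `e = 1`, not critical as `n ≥ 3`): if `n ≥ 4` then `r ∣ q^3-1, q^4-1`, so
`r^2 ∣ ∏_{i≥3}`.  If `n = 3`: `r = 3`, `q ≡ 1 mod 3`, so `9 ∣ q^3 - 1`.
(b) `r ∤ g`: `r^2 ∣ ordL ↔ r^2 ∣ N`, `r ∣ ordL ↔ r ∣ N ↔ r ∣ some q^i - 1`, `2 ≤ i ≤ n`.
If `e > n`: `r ∤ ordL`.  If `n < 2e`, `e ≤ n` (critical; `e ≥ 2`): only `i = e` has `r ∣ q^i - 1`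
so `r ∣ ordL`, and `r^2 ∣ ordL ↔ r^2 ∣ q^e - 1 ↔ Wief q r` (`sq_dvd_iff`, `r ∤ e` because
`e ∣ r - 1`).  If `2e ≤ n`: two different `i` in `[2,n]` divisible by `e` (`e, 2e` if `e ≥ 2`;
`2, 3` if `e = 1`), so `r^2 ∣ N`.
`n = 2`: `ordL 2 q * gcd 2 (q-1) = q (q^2 - 1)`; `r ∣ q`: `r^2 ∣ ordL ↔ r^2 ∣ q`; `r = 2 ∤ q`:
`8 ∣ q^2-1`, so `4 ∣ ordL`; `r` odd: `r ∣ q^2-1 ↔ e ∣ 2 ↔ e ≤ 2`, `r^2 ∣ q^2 - 1 ↔ Wief`.
-/

namespace Tuan

private theorem WL_two (s : Finset ℕ) (f : ℕ → ℕ) (r i j : ℕ) (hi : i ∈ s) (hj : j ∈ s)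
    (hij : i ≠ j) (h1 : r ∣ f i) (h2 : r ∣ f j) : r ^ 2 ∣ ∏ k ∈ s, f k := by
  rw [← Finset.mul_prod_erase s f hi, pow_two]
  apply Nat.mul_dvd_mul h1
  exact h2.trans (Finset.dvd_prod_of_mem f (Finset.mem_erase.mpr ⟨hij.symm, hj⟩))

private theorem WL_one (s : Finset ℕ) (f : ℕ → ℕ) (r i : ℕ) (hr : r.Prime) (hi : i ∈ s)
    (h : ∀ j ∈ s, j ≠ i → ¬ r ∣ f j) : r ^ 2 ∣ ∏ k ∈ s, f k ↔ r ^ 2 ∣ f i := by
  rw [← Finset.mul_prod_erase s f hi]
  have hc : Nat.Coprime (r ^ 2) (∏ k ∈ s.erase i, f k) := by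
    apply Nat.Coprime.pow_left
    apply Nat.Coprime.prod_right
    intro j hj
    rw [Finset.mem_erase] at hj
    exact (Nat.Prime.coprime_iff_not_dvd hr).2 (h j hj.2 hj.1)
  exact ⟨fun h => hc.dvd_of_dvd_mul_right h, fun h => h.mul_right _⟩

private theorem WL_sub_dvd (q i : ℕ) : q - 1 ∣ q ^ i - 1 := by
  have := Nat.sub_dvd_pow_sub_pow q 1 i
  rwa [one_pow] at this

private theorem WL_g (n q : ℕ) : Nat.gcd n (q - 1) ∣ q ^ 2 - 1 :=
  (Nat.gcd_dvd_right _ _).trans (WL_sub_dvd q 2)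

private theorem WL_gpos (n q : ℕ) (hq : 2 ≤ q) : 0 < Nat.gcd n (q - 1) :=
  Nat.gcd_pos_of_pos_right _ (by omega)

private theorem WL_split (n q : ℕ) (hn : 2 ≤ n) :
    ∏ i ∈ Finset.Icc 2 n, (q ^ i - 1) = (q ^ 2 - 1) * ∏ i ∈ Finset.Icc 3 n, (q ^ i - 1) := by
  rw [← Finset.mul_prod_Ioc_eq_prod_Icc hn]
  rfl

private theorem WL_eq (n q : ℕ) (hn : 2 ≤ n) : ordL n q =
    q ^ (n * (n - 1) / 2) * ((q ^ 2 - 1) / Nat.gcd n (q - 1)) *
      ∏ i ∈ Finset.Icc 3 n, (q ^ i - 1) := by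
  unfold ordL
  rw [WL_split n q hn]
  obtain ⟨b, hb⟩ := WL_g n q
  rcases Nat.eq_zero_or_pos (Nat.gcd n (q - 1)) with h0 | h0
  · rw [h0] at hb ⊢
    simp
  · rw [hb, Nat.mul_div_cancel_left _ h0]
    have e : q ^ (n * (n - 1) / 2) * (Nat.gcd n (q - 1) * b *
        ∏ i ∈ Finset.Icc 3 n, (q ^ i - 1)) = Nat.gcd n (q - 1) * (q ^ (n * (n - 1) / 2) * b *
        ∏ i ∈ Finset.Icc 3 n, (q ^ i - 1)) := by ring
    rw [e, Nat.mul_div_cancel_left _ h0]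

private theorem WL_mul (n q : ℕ) (hn : 2 ≤ n) : ordL n q * Nat.gcd n (q - 1) =
    q ^ (n * (n - 1) / 2) * ∏ i ∈ Finset.Icc 2 n, (q ^ i - 1) := by
  rw [WL_eq n q hn, WL_split n q hn]
  obtain ⟨b, hb⟩ := WL_g n q
  rcases Nat.eq_zero_or_pos (Nat.gcd n (q - 1)) with h0 | h0
  · rw [h0] at hb ⊢
    rw [hb]
    simp
  · rw [hb, Nat.mul_div_cancel_left _ h0]
    ring

private theorem WL_exp (n : ℕ) (hn : 3 ≤ n) : 2 ≤ n * (n - 1) / 2 := by
  rw [Nat.le_div_iff_mul_le (by norm_num)]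
  obtain ⟨k, rfl⟩ := Nat.exists_eq_add_of_le hn
  have : 3 + k - 1 = 2 + k := by omega
  rw [this]
  nlinarith

private theorem WL_dvd_one (q r i : ℕ) (h : r ∣ q - 1) : r ∣ q ^ i - 1 :=
  h.trans (WL_sub_dvd q i)

private theorem WL_case_g (n q r : ℕ) (hn : 3 ≤ n) (hq : 2 ≤ q) (hr : r.Prime)
    (h1 : r ∣ q - 1) (h2 : r = 2 ∨ r ∣ n) : r ^ 2 ∣ ordL n q := by
  rw [WL_eq n q (by omega)]
  rcases Nat.lt_or_ge n 4 with h4 | h4
  · have hn3 : n = 3 := by omega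
    subst hn3
    rcases h2 with rfl | h3
    · apply Dvd.dvd.mul_right
      apply Dvd.dvd.mul_left
      have hg3 : Nat.gcd 3 (q - 1) ∣ 3 := Nat.gcd_dvd_left _ _
      have hc : Nat.Coprime (2 ^ 2) (Nat.gcd 3 (q - 1)) :=
        Nat.Coprime.coprime_dvd_right hg3 (by norm_num)
      have h4' : 2 ^ 2 ∣ q ^ 2 - 1 := by
        obtain ⟨m, hm⟩ := h1
        have hq' : q = 2 * m + 1 := by omega
        refine ⟨m * (m + 1), ?_⟩
        rw [hq']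
        have : (2 * m + 1) ^ 2 = 2 ^ 2 * (m * (m + 1)) + 1 := by ring
        rw [this]
        simp
      obtain ⟨b, hb⟩ := WL_g 3 q
      rw [hb, Nat.mul_div_cancel_left _ (WL_gpos 3 q hq)]
      rw [hb] at h4'
      exact hc.dvd_of_dvd_mul_left h4'
    · have hr3 : r = 3 := (Nat.prime_dvd_prime_iff_eq hr Nat.prime_three).1 h3
      subst hr3
      apply Dvd.dvd.mul_left
      have h9 : 3 ^ 2 ∣ q ^ 3 - 1 := by
        obtain ⟨m, hm⟩ := h1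
        have hq' : q = 3 * m + 1 := by omega
        refine ⟨m * (3 * m ^ 2 + 3 * m + 1), ?_⟩
        rw [hq']
        have : (3 * m + 1) ^ 3 = 3 ^ 2 * (m * (3 * m ^ 2 + 3 * m + 1)) + 1 := by ring
        rw [this]
        simp
      exact h9.trans (Finset.dvd_prod_of_mem (fun i => q ^ i - 1)
        (Finset.mem_Icc.mpr ⟨le_rfl, le_rfl⟩))
  · apply Dvd.dvd.mul_left
    exact WL_two _ _ r 3 4 (Finset.mem_Icc.mpr ⟨by omega, by omega⟩)
      (Finset.mem_Icc.mpr ⟨by omega, by omega⟩) (by omega) (WL_dvd_one q r 3 h1)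
      (WL_dvd_one q r 4 h1)

private theorem WL_ord_one (q r : ℕ) (hq : 1 ≤ q) (h : r ∣ q - 1) : ord q r ∣ 1 := by
  rw [← dvd_iff q r 1 hq, pow_one]
  exact h

private theorem WL_not_dvd_ord (q r : ℕ) (hr : r.Prime) (h : ¬ r ∣ q) : ¬ r ∣ ord q r :=
  fun h1 => wlib_not_dvd_pred r hr (h1.trans (ord_dvd_pred q r hr h))

private theorem WL_prime (n q r : ℕ) (hn : 3 ≤ n) (hq : 2 ≤ q) (hr : r.Prime) :
    (r ∣ ordL n q → r ^ 2 ∣ ordL n q) ↔
      (¬ r ∣ 2 * q → (n < 2 * ord q r ∧ ord q r ≤ n) → Wief q r) := by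
  by_cases hrq : r ∣ q
  · -- `r ∣ q`
    refine ⟨fun _ h => absurd (hrq.mul_left 2) h, fun _ _ => ?_⟩
    rw [WL_eq n q (by omega)]
    apply Dvd.dvd.mul_right
    apply Dvd.dvd.mul_right
    exact (pow_dvd_pow_of_dvd hrq 2).trans (pow_dvd_pow q (WL_exp n hn))
  by_cases hr2 : r = 2
  · -- `r = 2`
    subst hr2
    refine ⟨fun _ h => absurd (dvd_mul_right 2 q) h, fun _ _ => ?_⟩
    apply WL_case_g n q 2 hn hq hr _ (Or.inl rfl)
    omega
  have h2 : ¬ r ∣ 2 * q := by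
    intro h
    rcases (Nat.Prime.dvd_mul hr).1 h with h1 | h1
    · exact hr2 ((Nat.prime_dvd_prime_iff_eq hr Nat.prime_two).1 h1)
    · exact hrq h1
  have hepos : 0 < ord q r := ord_pos q r hr hrq
  have hq1 : 1 ≤ q := by omega
  by_cases hg : r ∣ Nat.gcd n (q - 1)
  · -- `r ∣ g`
    have h3 : r ∣ q - 1 := hg.trans (Nat.gcd_dvd_right _ _)
    have he := Nat.le_of_dvd one_pos (WL_ord_one q r hq1 h3)
    refine ⟨fun _ _ h => by omega, fun _ _ => ?_⟩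
    exact WL_case_g n q r hn hq hr h3 (Or.inr (hg.trans (Nat.gcd_dvd_left _ _)))
  -- `r ∤ g`
  have hmul := WL_mul n q (by omega)
  have hA : ¬ r ∣ q ^ (n * (n - 1) / 2) := fun h => hrq (hr.dvd_of_dvd_pow h)
  have hd1 : r ∣ ordL n q ↔ ∃ i ∈ Finset.Icc 2 n, ord q r ∣ i := by
    constructor
    · intro h
      have h4 : r ∣ ordL n q * Nat.gcd n (q - 1) := h.mul_right _
      rw [hmul] at h4
      rcases (Nat.Prime.dvd_mul hr).1 h4 with h5 | h5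
      · exact absurd h5 hA
      · obtain ⟨i, hi, h6⟩ := (Prime.dvd_finsetProd_iff hr.prime _).1 h5
        exact ⟨i, hi, (dvd_iff q r i hq1).1 h6⟩
    · rintro ⟨i, hi, h6⟩
      have h5 : r ∣ ordL n q * Nat.gcd n (q - 1) := by
        rw [hmul]
        apply Dvd.dvd.mul_left
        exact ((dvd_iff q r i hq1).2 h6).trans
          (Finset.dvd_prod_of_mem (fun i => q ^ i - 1) hi)
      rcases (Nat.Prime.dvd_mul hr).1 h5 with h7 | h7
      · exact h7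
      · exact absurd h7 hg
  have hd2 : r ^ 2 ∣ ordL n q ↔ r ^ 2 ∣ ∏ i ∈ Finset.Icc 2 n, (q ^ i - 1) := by
    have hcg : Nat.Coprime (r ^ 2) (Nat.gcd n (q - 1)) :=
      Nat.Coprime.pow_left 2 ((Nat.Prime.coprime_iff_not_dvd hr).2 hg)
    have hcA : Nat.Coprime (r ^ 2) (q ^ (n * (n - 1) / 2)) :=
      Nat.Coprime.pow_left 2 ((Nat.Prime.coprime_iff_not_dvd hr).2 hA)
    constructor
    · intro h
      have h4 : r ^ 2 ∣ ordL n q * Nat.gcd n (q - 1) := h.mul_right _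
      rw [hmul] at h4
      exact hcA.dvd_of_dvd_mul_left h4
    · intro h
      have h4 : r ^ 2 ∣ ordL n q * Nat.gcd n (q - 1) := by
        rw [hmul]
        exact h.mul_left _
      exact hcg.dvd_of_dvd_mul_right h4
  rcases Nat.lt_or_ge n (ord q r) with h3 | h3
  · -- `n < e`
    refine ⟨fun _ _ h => by omega, fun _ h => ?_⟩
    obtain ⟨i, hi, h4⟩ := hd1.1 h
    rw [Finset.mem_Icc] at hi
    have := Nat.le_of_dvd (by omega) h4
    omega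
  rcases Nat.lt_or_ge n (2 * ord q r) with h4 | h4
  · -- critical
    have hmem : ord q r ∈ Finset.Icc 2 n := Finset.mem_Icc.mpr ⟨by omega, h3⟩
    have hr1 : r ∣ ordL n q := hd1.2 ⟨ord q r, hmem, dvd_rfl⟩
    have hw : r ^ 2 ∣ ordL n q ↔ Wief q r := by
      rw [hd2, WL_one _ _ r (ord q r) hr hmem]
      · exact sq_dvd_iff q r (ord q r) hr hq1 hrq (WL_not_dvd_ord q r hr hrq)
          ((dvd_iff q r _ hq1).2 dvd_rfl)
      · intro j hj hje h5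
        rw [Finset.mem_Icc] at hj
        obtain ⟨c, hc⟩ := (dvd_iff q r j hq1).1 h5
        have hc1 : c ≠ 1 := by
          rintro rfl
          exact hje (by rw [hc, mul_one])
        have hc0 : c ≠ 0 := by
          rintro rfl
          omega
        have hc2 : 2 ≤ c := by omega
        have : ord q r * 2 ≤ ord q r * c := Nat.mul_le_mul_left _ hc2
        omega
    exact ⟨fun h _ _ => hw.1 (h hr1), fun h _ => hw.2 (h h2 ⟨h4, h3⟩)⟩
  · -- `2 e ≤ n`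
    refine ⟨fun _ _ h => by omega, fun _ _ => ?_⟩
    rw [hd2]
    rcases Nat.lt_or_ge (ord q r) 2 with h5 | h5
    · have he : ord q r = 1 := by omega
      have hall : ∀ i, r ∣ q ^ i - 1 := fun i => (dvd_iff q r i hq1).2 (by rw [he]; exact one_dvd _)
      exact WL_two _ _ r 2 3 (Finset.mem_Icc.mpr ⟨by omega, by omega⟩)
        (Finset.mem_Icc.mpr ⟨by omega, by omega⟩) (by omega) (hall 2) (hall 3)
    · exact WL_two _ _ r (ord q r) (2 * ord q r) (Finset.mem_Icc.mpr ⟨by omega, by omega⟩)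
        (Finset.mem_Icc.mpr ⟨by omega, by omega⟩) (by omega)
        ((dvd_iff q r _ hq1).2 dvd_rfl) ((dvd_iff q r _ hq1).2 (dvd_mul_left _ _))

theorem crit_L (n q : ℕ) (hn : 3 ≤ n) (hq : 2 ≤ q) :
    SqFull (ordL n q) ↔ ∀ r : ℕ, r.Prime → ¬ r ∣ 2 * q →
      (n < 2 * ord q r ∧ ord q r ≤ n) → Wief q r := by
  constructor
  · intro h r hr
    exact (WL_prime n q r hn hq hr).1 (h r hr)
  · intro h r hr
    exact (WL_prime n q r hn hq hr).2 (h r hr)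

private theorem WL_prime2 (q r : ℕ) (hq : 2 ≤ q) (hr : r.Prime) :
    (r ∣ ordL 2 q → r ^ 2 ∣ ordL 2 q) ↔
      (r ∣ q → r ^ 2 ∣ q) ∧ (¬ r ∣ 2 * q → ord q r ≤ 2 → Wief q r) := by
  have hmul : ordL 2 q * Nat.gcd 2 (q - 1) = q * (q ^ 2 - 1) := by
    have := WL_mul 2 q le_rfl
    simpa using this
  have heq : ordL 2 q = q * ((q ^ 2 - 1) / Nat.gcd 2 (q - 1)) := by
    have := WL_eq 2 q le_rfl
    simpa using this
  have hg2 : Nat.gcd 2 (q - 1) ∣ 2 := Nat.gcd_dvd_left _ _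
  have hq1 : 1 ≤ q := by omega
  by_cases hrq : r ∣ q
  · -- `r ∣ q`
    have hnd : ¬ r ∣ q ^ 2 - 1 := by
      intro h
      have h3 : r ∣ q ^ 2 := hrq.trans (dvd_pow_self q (by norm_num))
      have h4 := Nat.dvd_sub h3 h
      have h5 : q ^ 2 - (q ^ 2 - 1) = 1 := by
        have := Nat.one_le_pow 2 q hq1
        omega
      rw [h5] at h4
      exact hr.one_lt.ne' (Nat.dvd_one.1 h4)
    have hnB : ¬ r ∣ (q ^ 2 - 1) / Nat.gcd 2 (q - 1) := fun h =>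
      hnd (h.trans (Nat.div_dvd_of_dvd (WL_g 2 q)))
    have hc : Nat.Coprime (r ^ 2) ((q ^ 2 - 1) / Nat.gcd 2 (q - 1)) :=
      Nat.Coprime.pow_left 2 ((Nat.Prime.coprime_iff_not_dvd hr).2 hnB)
    rw [heq]
    constructor
    · intro h
      refine ⟨fun h1 => hc.dvd_of_dvd_mul_right (h (h1.mul_right _)), fun h1 => ?_⟩
      exact absurd (hrq.mul_left 2) h1
    · rintro ⟨h, _⟩ _
      exact (h hrq).mul_right _
  by_cases hr2 : r = 2
  · -- `r = 2`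
    subst hr2
    refine ⟨fun _ => ⟨fun h => absurd h hrq, fun h => absurd (dvd_mul_right 2 q) h⟩,
      fun _ _ => ?_⟩
    have h8 : 8 ∣ q ^ 2 - 1 := by
      have hq' : ∃ m, q = 2 * m + 1 := ⟨q / 2, by omega⟩
      obtain ⟨m, hm⟩ := hq'
      obtain ⟨t, ht⟩ := Nat.even_mul_succ_self m
      refine ⟨t, ?_⟩
      have e : q ^ 2 = 8 * t + 1 := by
        rw [hm]
        calc (2 * m + 1) ^ 2 = 4 * (m * (m + 1)) + 1 := by ring
          _ = 8 * t + 1 := by rw [ht]; ring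
      rw [e]
      simp
    have h8' : 2 * 2 ^ 2 ∣ ordL 2 q * Nat.gcd 2 (q - 1) := by
      rw [hmul]
      exact Dvd.dvd.mul_left h8 q
    obtain ⟨c, hc⟩ := hg2
    have h9 : 2 * 2 ^ 2 ∣ 2 * ordL 2 q := by
      have h10 : ordL 2 q * Nat.gcd 2 (q - 1) ∣ 2 * ordL 2 q := by
        refine ⟨c, ?_⟩
        rw [mul_assoc, ← hc]
        ring
      exact h8'.trans h10
    exact Nat.dvd_of_mul_dvd_mul_left (by norm_num) h9
  have h2 : ¬ r ∣ 2 * q := by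
    intro h
    rcases (Nat.Prime.dvd_mul hr).1 h with h1 | h1
    · exact hr2 ((Nat.prime_dvd_prime_iff_eq hr Nat.prime_two).1 h1)
    · exact hrq h1
  have hepos : 0 < ord q r := ord_pos q r hr hrq
  have hr2' : ¬ r ∣ 2 := fun h => hr2 ((Nat.prime_dvd_prime_iff_eq hr Nat.prime_two).1 h)
  have hg : ¬ r ∣ Nat.gcd 2 (q - 1) := fun h => hr2' (h.trans hg2)
  have hd1 : r ∣ ordL 2 q ↔ ord q r ≤ 2 := by
    have h3 : r ∣ ordL 2 q ↔ r ∣ q ^ 2 - 1 := by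
      constructor
      · intro h
        have h4 : r ∣ ordL 2 q * Nat.gcd 2 (q - 1) := h.mul_right _
        rw [hmul] at h4
        rcases (Nat.Prime.dvd_mul hr).1 h4 with h5 | h5
        · exact absurd h5 hrq
        · exact h5
      · intro h
        have h4 : r ∣ ordL 2 q * Nat.gcd 2 (q - 1) := by
          rw [hmul]
          exact h.mul_left _
        rcases (Nat.Prime.dvd_mul hr).1 h4 with h5 | h5
        · exact h5
        · exact absurd h5 hg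
    rw [h3, dvd_iff q r 2 hq1]
    constructor
    · intro h
      exact Nat.le_of_dvd (by norm_num) h
    · intro h
      have : ord q r = 1 ∨ ord q r = 2 := by omega
      rcases this with h4 | h4 <;> rw [h4] <;> norm_num
  have hd2 : r ^ 2 ∣ ordL 2 q ↔ r ^ 2 ∣ q ^ 2 - 1 := by
    have hcg : Nat.Coprime (r ^ 2) (Nat.gcd 2 (q - 1)) :=
      Nat.Coprime.pow_left 2 ((Nat.Prime.coprime_iff_not_dvd hr).2 hg)
    have hcA : Nat.Coprime (r ^ 2) q :=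
      Nat.Coprime.pow_left 2 ((Nat.Prime.coprime_iff_not_dvd hr).2 hrq)
    constructor
    · intro h
      have h4 : r ^ 2 ∣ ordL 2 q * Nat.gcd 2 (q - 1) := h.mul_right _
      rw [hmul] at h4
      exact hcA.dvd_of_dvd_mul_left h4
    · intro h
      have h4 : r ^ 2 ∣ ordL 2 q * Nat.gcd 2 (q - 1) := by
        rw [hmul]
        exact h.mul_left _
      exact hcg.dvd_of_dvd_mul_right h4
  constructor
  · intro h
    refine ⟨fun h1 => absurd h1 hrq, fun _ h4 => ?_⟩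
    have h5 := hd1.2 h4
    have h6 := hd2.1 (h h5)
    exact (sq_dvd_iff q r 2 hr hq1 hrq hr2'
      (((pow_dvd_pow r (by norm_num : 1 ≤ 2)).trans h6 |> fun h => by rwa [pow_one] at h))).1 h6
  · rintro ⟨_, h⟩ h5
    have h4 := hd1.1 h5
    have h7 : r ∣ q ^ 2 - 1 := by
      rw [dvd_iff q r 2 hq1]
      have : ord q r = 1 ∨ ord q r = 2 := by omega
      rcases this with h8 | h8 <;> rw [h8] <;> norm_num
    exact hd2.2 ((sq_dvd_iff q r 2 hr hq1 hrq hr2' h7).2 (h h2 h4))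

theorem crit_L2 (q : ℕ) (hq : 2 ≤ q) :
    SqFull (ordL 2 q) ↔ SqFull q ∧ ∀ r : ℕ, r.Prime → ¬ r ∣ 2 * q →
      ord q r ≤ 2 → Wief q r := by
  constructor
  · intro h
    exact ⟨fun r hr => ((WL_prime2 q r hq hr).1 (h r hr)).1,
      fun r hr => ((WL_prime2 q r hq hr).1 (h r hr)).2⟩
  · rintro ⟨h1, h2⟩ r hr
    exact (WL_prime2 q r hq hr).2 ⟨h1 r hr, h2 r hr⟩

end Tuan
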