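import Pool.Agent.Tuan.WDef

/-!
MODULE WSpor (size 1).  The sporadic groups and the Tits group.

SKETCH.  Each listed order has a prime exactly once (11 for most; 7 for J2 and He? : in every row
look for a prime with exponent one, e.g. M11: 11, J2: 7, He: 17, Tits: 13).  Produce the prime by
`fin_cases i` and `norm_num`/`decide`.
-/

namespace Tuan

private def sporPrime : Fin 26 → ℕ := ![11, 11, 11, 23, 23, 7, 7, 17, 23, 11, 11, 17, 29, 13, 31,
  23, 23, 23, 13, 23, 29, 19, 67, 31, 47, 71]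

private theorem WSpor_aux {m r : ℕ} (hr : r.Prime) (h1 : m % r = 0) (h2 : m % (r ^ 2) ≠ 0) :
    ¬ SqFull m := fun h =>
  h2 (Nat.mod_eq_zero_of_dvd (h r hr (Nat.dvd_of_mod_eq_zero h1)))

theorem not_spor (i : Fin 26) : ¬ SqFull (ordSpor i) := by
  have hp : ∀ i : Fin 26, (sporPrime i).Prime := by
    intro i
    fin_cases i <;> simp [sporPrime] <;> norm_num
  have h1 : ∀ i : Fin 26, ordSpor i % sporPrime i = 0 := by decide +kernel
  have h2 : ∀ i : Fin 26, ordSpor i % (sporPrime i ^ 2) ≠ 0 := by decide +kernel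
  exact WSpor_aux (hp i) (h1 i) (h2 i)

theorem not_tits : ¬ SqFull (2 ^ 11 * 3 ^ 3 * 5 ^ 2 * 13) :=
  WSpor_aux (r := 13) (by norm_num) (by norm_num) (by norm_num)

end Tuan
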