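import Pool.Agent.Tuan.WLib

/-!
MODULE WTw (size 3).  The criteria for the Suzuki and Ree groups.

SKETCH.  `q = 2^(2m+1)` or `3^(2m+1)`, `m ≥ 1`, `e = ord q r`, `r ∤ 2q`.
`ordSz q = q^2 (q^2+1)(q-1)`, `q` even; `r = 2` divides `q^2`.  `r` odd: `r ∣ q-1 ↔ e = 1`;
`r ∣ q^2+1 ↔ e ∣ 4 ∧ ¬ e ∣ 2 ↔ e = 4`; exactly one factor in each case; `sq_dvd_iff` with `N = 1`,
`sq_dvd_add_iff` with `N = 2`.
`ordRee q = q^3 (q^3+1)(q-1)`, `q = 3^(2m+1)`: `r = 3` fine; `r = 2`: `q ≡ 3 mod 8`, so `4 ∣ q^3+1`.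
`r ≥ 5`: `r ∣ q - 1 ↔ e = 1`; `r ∣ q^3+1 ↔ e ∣ 6 ∧ ¬ e ∣ 3 ↔ e ∈ {2, 6}`; one factor in each case
(`N = 1`, `N = 3`, `r ∤ 3`).
`ordF42 q = q^12 (q^6+1)(q^4-1)(q^3+1)(q-1)`, `q = 2^(2m+1)`: `r` odd:
`r ∣ q^6+1 ↔ e ∣ 12 ∧ ¬ e ∣ 6 ↔ e ∈ {4,12}`, `r ∣ q^4-1 ↔ e ∈ {1,2,4}`, `r ∣ q^3+1 ↔ e ∈ {2,6}`,
`r ∣ q-1 ↔ e = 1`.  `e = 1, 2, 4`: two factors.  `e = 6`: only `q^3+1`; `e = 12`: only `q^6+1`
(`r ≥ 7`, `r ∤ 3, 6`).
-/

namespace Tuan

private theorem wtw_one {n F R r : ℕ} (hn : n = F * R) (hS : SqFull n) (hr : r.Prime)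
    (hF : r ∣ F) (hR : ¬ r ∣ R) : r ^ 2 ∣ F := by
  have h1 : r ^ 2 ∣ F * R := by
    rw [← hn]
    exact hS r hr (by rw [hn]; exact hF.mul_right R)
  exact (Nat.Coprime.pow_left 2 ((Nat.Prime.coprime_iff_not_dvd hr).2 hR)).dvd_of_dvd_mul_right h1

private theorem wtw_sub (q r : ℕ) (hq : 1 ≤ q) : r ∣ q - 1 ↔ ord q r = 1 := by
  have h := dvd_iff q r 1 hq
  rw [pow_one, Nat.dvd_one] at h
  exact h

private theorem wtw_sub_sq (q r : ℕ) (hq : 1 ≤ q) (hr : r.Prime) (h : ¬ r ∣ q)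
    (hd : r ∣ q - 1) : r ^ 2 ∣ q - 1 ↔ Wief q r := by
  have h1 := sq_dvd_iff q r 1 hr hq h (fun h' => hr.one_lt.ne' (Nat.dvd_one.1 h'))
    (by rw [pow_one]; exact hd)
  rwa [pow_one] at h1

private theorem wtw_lt {q r : ℕ} (hr : r.Prime) (h : ¬ r ∣ q) : ord q r < r := by
  have h1 := ord_dvd_pred q r hr h
  have h2 := hr.two_le
  have h3 := Nat.le_of_dvd (by omega) h1
  omega

private theorem wtw_not2q {q r : ℕ} (hr : r.Prime) (h : ¬ r ∣ q) (h2 : r ≠ 2) :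
    ¬ r ∣ 2 * q := by
  intro h'
  rcases (Nat.Prime.dvd_mul hr).1 h' with h' | h'
  · exact h2 ((Nat.prime_dvd_prime_iff_eq hr Nat.prime_two).1 h')
  · exact h h'

private theorem wtw_even (m : ℕ) : 2 ∣ 2 ^ (2 * m + 1) := dvd_pow_self 2 (by omega)

theorem crit_Sz (m : ℕ) (hm : 1 ≤ m) :
    SqFull (ordSz (2 ^ (2 * m + 1))) ↔ ∀ r : ℕ, r.Prime → ¬ r ∣ 2 * 2 ^ (2 * m + 1) →
      ord (2 ^ (2 * m + 1)) r ∈ ({1, 4} : Set ℕ) → Wief (2 ^ (2 * m + 1)) r := by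
  have hev : 2 ∣ 2 ^ (2 * m + 1) := wtw_even m
  have hq1 : 1 ≤ 2 ^ (2 * m + 1) := Nat.one_le_two_pow
  generalize 2 ^ (2 * m + 1) = q at *
  simp only [Set.mem_insert_iff, Set.mem_singleton_iff]
  have hfacA : ∀ r : ℕ, r.Prime → ¬ r ∣ 2 * q → (r ∣ q ^ 2 + 1 ↔ ord q r = 4) := by
    intro r hr h2
    rw [dvd_add_iff q r 2 hr h2]
    constructor
    · rintro ⟨h3, h4⟩
      have h5 := Nat.le_of_dvd (by norm_num) h3
      generalize ord q r = e at *
      interval_cases e <;> omega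
    · intro h
      rw [h]; norm_num
  constructor
  · intro hS r hr h2 he
    have hrq : ¬ r ∣ q := fun h' => h2 (dvd_mul_of_dvd_right h' 2)
    have hrq2 : ¬ r ∣ q ^ 2 := fun h' => hrq (hr.dvd_of_dvd_pow h')
    have hA := hfacA r hr h2
    have hB := wtw_sub q r hq1
    rcases he with he | he
    · have h3 : r ∣ q - 1 := hB.2 he
      have h4 : ¬ r ∣ q ^ 2 + 1 := by rw [hA, he]; norm_num
      have h5 : r ^ 2 ∣ q - 1 := by
        refine wtw_one (R := q ^ 2 * (q ^ 2 + 1)) ?_ hS hr h3 ?_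
        · unfold ordSz; ring
        · simp only [hr.dvd_mul, not_or]; exact ⟨hrq2, h4⟩
      exact (wtw_sub_sq q r hq1 hr hrq h3).1 h5
    · have h3 : r ∣ q ^ 2 + 1 := hA.2 he
      have h4 : ¬ r ∣ q - 1 := by rw [hB, he]; norm_num
      have h5 : r ^ 2 ∣ q ^ 2 + 1 := by
        refine wtw_one (R := q ^ 2 * (q - 1)) ?_ hS hr h3 ?_
        · unfold ordSz; ring
        · simp only [hr.dvd_mul, not_or]; exact ⟨hrq2, h4⟩
      have hlt := wtw_lt hr hrq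
      exact (sq_dvd_add_iff q r 2 hr h2 (fun h' => by
        have := Nat.le_of_dvd (by norm_num) h'; omega) h3).1 h5
  · intro hW r hr hdvd
    by_cases hrq : r ∣ q
    · unfold ordSz
      refine dvd_mul_of_dvd_left (dvd_mul_of_dvd_left ?_ _) _
      exact pow_dvd_pow_of_dvd hrq 2
    have hr2 : r ≠ 2 := by rintro rfl; exact hrq hev
    have h2 : ¬ r ∣ 2 * q := wtw_not2q hr hrq hr2
    have hA := hfacA r hr h2
    have hB := wtw_sub q r hq1
    have hlt := wtw_lt hr hrq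
    unfold ordSz at hdvd ⊢
    rcases (Nat.Prime.dvd_mul hr).1 hdvd with h' | h'
    · rcases (Nat.Prime.dvd_mul hr).1 h' with h' | h'
      · exact absurd (hr.dvd_of_dvd_pow h') hrq
      · have he := hA.1 h'
        refine dvd_mul_of_dvd_left (dvd_mul_of_dvd_right ?_ _) _
        exact (sq_dvd_add_iff q r 2 hr h2 (fun h' => by
          have := Nat.le_of_dvd (by norm_num) h'; omega) h').2 (hW r hr h2 (Or.inr he))
    · have he := hB.1 h'
      refine dvd_mul_of_dvd_right ?_ _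
      exact (wtw_sub_sq q r hq1 hr hrq h').2 (hW r hr h2 (Or.inl he))

theorem crit_Ree (m : ℕ) (hm : 1 ≤ m) :
    SqFull (ordRee (3 ^ (2 * m + 1))) ↔ ∀ r : ℕ, r.Prime → ¬ r ∣ 2 * 3 ^ (2 * m + 1) →
      ord (3 ^ (2 * m + 1)) r ∈ ({1, 2, 6} : Set ℕ) → Wief (3 ^ (2 * m + 1)) r := by
  have h3q : 3 ∣ 3 ^ (2 * m + 1) := dvd_pow_self 3 (by omega)
  have hq1 : 1 ≤ 3 ^ (2 * m + 1) := Nat.one_le_pow _ _ (by norm_num)
  have hq8 : 3 ^ (2 * m + 1) % 4 = 3 := by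
    rw [pow_succ, pow_mul, Nat.mul_mod, Nat.pow_mod]
    norm_num
  generalize 3 ^ (2 * m + 1) = q at *
  simp only [Set.mem_insert_iff, Set.mem_singleton_iff]
  have hfacA : ∀ r : ℕ, r.Prime → ¬ r ∣ 2 * q →
      (r ∣ q ^ 3 + 1 ↔ (ord q r = 2 ∨ ord q r = 6)) := by
    intro r hr h2
    rw [dvd_add_iff q r 3 hr h2]
    constructor
    · rintro ⟨h3, h4⟩
      have h5 := Nat.le_of_dvd (by norm_num) h3
      generalize ord q r = e at *
      interval_cases e <;> omega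
    · rintro (h | h) <;> rw [h] <;> norm_num
  have h3r : ∀ r : ℕ, r.Prime → ¬ r ∣ q → ¬ r ∣ 3 := by
    intro r hr hrq h
    have : r = 3 := (Nat.prime_dvd_prime_iff_eq hr Nat.prime_three).1 h
    rw [this] at hrq
    exact hrq h3q
  constructor
  · intro hS r hr h2 he
    have hrq : ¬ r ∣ q := fun h' => h2 (dvd_mul_of_dvd_right h' 2)
    have hrq3 : ¬ r ∣ q ^ 3 := fun h' => hrq (hr.dvd_of_dvd_pow h')
    have hA := hfacA r hr h2
    have hB := wtw_sub q r hq1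
    rcases he with he | he
    · have h3 : r ∣ q - 1 := hB.2 he
      have h4 : ¬ r ∣ q ^ 3 + 1 := by rw [hA, he]; norm_num
      have h5 : r ^ 2 ∣ q - 1 := by
        refine wtw_one (R := q ^ 3 * (q ^ 3 + 1)) ?_ hS hr h3 ?_
        · unfold ordRee; ring
        · simp only [hr.dvd_mul, not_or]; exact ⟨hrq3, h4⟩
      exact (wtw_sub_sq q r hq1 hr hrq h3).1 h5
    · have h3 : r ∣ q ^ 3 + 1 := hA.2 he
      have h4 : ¬ r ∣ q - 1 := by
        rw [hB]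
        rcases he with he | he <;> rw [he] <;> norm_num
      have h5 : r ^ 2 ∣ q ^ 3 + 1 := by
        refine wtw_one (R := q ^ 3 * (q - 1)) ?_ hS hr h3 ?_
        · unfold ordRee; ring
        · simp only [hr.dvd_mul, not_or]; exact ⟨hrq3, h4⟩
      exact (sq_dvd_add_iff q r 3 hr h2 (h3r r hr hrq) h3).1 h5
  · intro hW r hr hdvd
    by_cases hrq : r ∣ q
    · unfold ordRee
      refine dvd_mul_of_dvd_left (dvd_mul_of_dvd_left ?_ _) _
      exact (pow_dvd_pow_of_dvd hrq 2).trans (pow_dvd_pow q (by norm_num))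
    by_cases hr2 : r = 2
    · subst hr2
      unfold ordRee
      refine dvd_mul_of_dvd_left (dvd_mul_of_dvd_right ?_ _) _
      have h5 : (q ^ 3 + 1) % 4 = 0 := by
        rw [Nat.add_mod, Nat.pow_mod, hq8]
      have h6 : 4 ∣ q ^ 3 + 1 := Nat.dvd_of_mod_eq_zero h5
      simpa using h6
    have h2 : ¬ r ∣ 2 * q := wtw_not2q hr hrq hr2
    have hA := hfacA r hr h2
    have hB := wtw_sub q r hq1
    unfold ordRee at hdvd ⊢
    rcases (Nat.Prime.dvd_mul hr).1 hdvd with h' | h'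
    · rcases (Nat.Prime.dvd_mul hr).1 h' with h' | h'
      · exact absurd (hr.dvd_of_dvd_pow h') hrq
      · have he := hA.1 h'
        refine dvd_mul_of_dvd_left (dvd_mul_of_dvd_right ?_ _) _
        exact (sq_dvd_add_iff q r 3 hr h2 (h3r r hr hrq) h').2 (hW r hr h2 (Or.inr he))
    · have he := hB.1 h'
      refine dvd_mul_of_dvd_right ?_ _
      exact (wtw_sub_sq q r hq1 hr hrq h').2 (hW r hr h2 (Or.inl he))

theorem crit_F42 (m : ℕ) (hm : 1 ≤ m) :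
    SqFull (ordF42 (2 ^ (2 * m + 1))) ↔ ∀ r : ℕ, r.Prime → ¬ r ∣ 2 * 2 ^ (2 * m + 1) →
      ord (2 ^ (2 * m + 1)) r ∈ ({6, 12} : Set ℕ) → Wief (2 ^ (2 * m + 1)) r := by
  have hev : 2 ∣ 2 ^ (2 * m + 1) := wtw_even m
  have hq1 : 1 ≤ 2 ^ (2 * m + 1) := Nat.one_le_two_pow
  generalize 2 ^ (2 * m + 1) = q at *
  simp only [Set.mem_insert_iff, Set.mem_singleton_iff]
  have hfacA : ∀ r : ℕ, r.Prime → ¬ r ∣ 2 * q →
      (r ∣ q ^ 6 + 1 ↔ (ord q r = 4 ∨ ord q r = 12)) := by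
    intro r hr h2
    rw [dvd_add_iff q r 6 hr h2]
    constructor
    · rintro ⟨h3, h4⟩
      have h5 := Nat.le_of_dvd (by norm_num) h3
      generalize ord q r = e at *
      interval_cases e <;> omega
    · rintro (h | h) <;> rw [h] <;> norm_num
  have hfacC : ∀ r : ℕ, r.Prime → ¬ r ∣ 2 * q →
      (r ∣ q ^ 3 + 1 ↔ (ord q r = 2 ∨ ord q r = 6)) := by
    intro r hr h2
    rw [dvd_add_iff q r 3 hr h2]
    constructor
    · rintro ⟨h3, h4⟩
      have h5 := Nat.le_of_dvd (by norm_num) h3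
      generalize ord q r = e at *
      interval_cases e <;> omega
    · rintro (h | h) <;> rw [h] <;> norm_num
  have hfacB : ∀ r : ℕ, r ∣ q ^ 4 - 1 ↔ (ord q r = 1 ∨ ord q r = 2 ∨ ord q r = 4) := by
    intro r
    rw [dvd_iff q r 4 hq1]
    constructor
    · intro h3
      have h5 := Nat.le_of_dvd (by norm_num) h3
      generalize ord q r = e at *
      interval_cases e <;> omega
    · rintro (h | h | h) <;> rw [h] <;> norm_num
  constructor
  · intro hS r hr h2 he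
    have hrq : ¬ r ∣ q := fun h' => h2 (dvd_mul_of_dvd_right h' 2)
    have hrq12 : ¬ r ∣ q ^ 12 := fun h' => hrq (hr.dvd_of_dvd_pow h')
    have hA := hfacA r hr h2
    have hB := hfacB r
    have hC := hfacC r hr h2
    have hD := wtw_sub q r hq1
    have hlt := wtw_lt hr hrq
    rcases he with he | he
    · rw [he] at hA hB hC hD hlt
      have h3 : r ∣ q ^ 3 + 1 := hC.2 (Or.inr rfl)
      have h5 : r ^ 2 ∣ q ^ 3 + 1 := by
        refine wtw_one (R := q ^ 12 * (q ^ 6 + 1) * (q ^ 4 - 1) * (q - 1)) ?_ hS hr h3 ?_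
        · unfold ordF42; ring
        · simp only [hr.dvd_mul, not_or]
          refine ⟨⟨⟨hrq12, ?_⟩, ?_⟩, ?_⟩
          · rw [hA]; norm_num
          · rw [hB]; norm_num
          · rw [hD]; norm_num
      exact (sq_dvd_add_iff q r 3 hr h2 (fun h' => by
        have := Nat.le_of_dvd (by norm_num) h'; omega) h3).1 h5
    · rw [he] at hA hB hC hD hlt
      have h3 : r ∣ q ^ 6 + 1 := hA.2 (Or.inr rfl)
      have h5 : r ^ 2 ∣ q ^ 6 + 1 := by
        refine wtw_one (R := q ^ 12 * (q ^ 4 - 1) * (q ^ 3 + 1) * (q - 1)) ?_ hS hr h3 ?_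
        · unfold ordF42; ring
        · simp only [hr.dvd_mul, not_or]
          refine ⟨⟨⟨hrq12, ?_⟩, ?_⟩, ?_⟩
          · rw [hB]; norm_num
          · rw [hC]; norm_num
          · rw [hD]; norm_num
      exact (sq_dvd_add_iff q r 6 hr h2 (fun h' => by
        have := Nat.le_of_dvd (by norm_num) h'; omega) h3).1 h5
  · intro hW r hr hdvd
    by_cases hrq : r ∣ q
    · unfold ordF42
      refine dvd_mul_of_dvd_left (dvd_mul_of_dvd_left (dvd_mul_of_dvd_left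
        (dvd_mul_of_dvd_left ?_ _) _) _) _
      exact (pow_dvd_pow_of_dvd hrq 2).trans (pow_dvd_pow q (by norm_num))
    have hr2 : r ≠ 2 := by rintro rfl; exact hrq hev
    have h2 : ¬ r ∣ 2 * q := wtw_not2q hr hrq hr2
    have hA := hfacA r hr h2
    have hB := hfacB r
    have hC := hfacC r hr h2
    have hD := wtw_sub q r hq1
    have hlt := wtw_lt hr hrq
    have hW' := hW r hr h2
    have hcase : ord q r = 1 ∨ ord q r = 2 ∨ ord q r = 4 ∨ ord q r = 6 ∨ ord q r = 12 := by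
      unfold ordF42 at hdvd
      simp only [hr.dvd_mul, hA, hB, hC, hD] at hdvd
      rcases hdvd with (((h' | h') | h') | h') | h'
      · exact absurd (hr.dvd_of_dvd_pow h') hrq
      · omega
      · omega
      · omega
      · omega
    unfold ordF42
    rcases hcase with he | he | he | he | he
    · have x1 : r ∣ q ^ 4 - 1 := hB.2 (by omega)
      have x2 : r ∣ q - 1 := hD.2 he
      have x3 : r ^ 2 ∣ (q ^ 4 - 1) * (q - 1) := by rw [sq]; exact mul_dvd_mul x1 x2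
      exact x3.trans ⟨q ^ 12 * (q ^ 6 + 1) * (q ^ 3 + 1), by ring⟩
    · have x1 : r ∣ q ^ 4 - 1 := hB.2 (by omega)
      have x2 : r ∣ q ^ 3 + 1 := hC.2 (by omega)
      have x3 : r ^ 2 ∣ (q ^ 4 - 1) * (q ^ 3 + 1) := by rw [sq]; exact mul_dvd_mul x1 x2
      exact x3.trans ⟨q ^ 12 * (q ^ 6 + 1) * (q - 1), by ring⟩
    · have x1 : r ∣ q ^ 4 - 1 := hB.2 (by omega)
      have x2 : r ∣ q ^ 6 + 1 := hA.2 (by omega)
      have x3 : r ^ 2 ∣ (q ^ 4 - 1) * (q ^ 6 + 1) := by rw [sq]; exact mul_dvd_mul x1 x2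
      exact x3.trans ⟨q ^ 12 * (q ^ 3 + 1) * (q - 1), by ring⟩
    · have x1 : r ∣ q ^ 3 + 1 := hC.2 (by omega)
      have x3 : r ^ 2 ∣ q ^ 3 + 1 := (sq_dvd_add_iff q r 3 hr h2 (fun h' => by
        have := Nat.le_of_dvd (by norm_num) h'; omega) x1).2 (hW' (by omega))
      exact x3.trans ⟨q ^ 12 * (q ^ 6 + 1) * (q ^ 4 - 1) * (q - 1), by ring⟩
    · have x1 : r ∣ q ^ 6 + 1 := hA.2 (by omega)
      have x3 : r ^ 2 ∣ q ^ 6 + 1 := (sq_dvd_add_iff q r 6 hr h2 (fun h' => by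
        have := Nat.le_of_dvd (by norm_num) h'; omega) x1).2 (hW' (by omega))
      exact x3.trans ⟨q ^ 12 * (q ^ 4 - 1) * (q ^ 3 + 1) * (q - 1), by ring⟩

end Tuan
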