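import Pool.Agent.Tuan.WLib

/-!
MODULE WU (size 4).  The criterion for `PSU_n(q)`.

SKETCH.  As for `PSL_n(q)` (see the docstring of WL) with `-q` in place of `q`:
`F_i = if Even i then q^i - 1 else q^i + 1`, `g = gcd n (q+1)`, `g ∣ q + 1 ∣ q^2 - 1`,
`ordU n q = q^(n(n-1)/2) * ((q^2-1)/g) * ∏_{i=3}^n F_i`.  `r ∣ q`: exponent `≥ 3`.
`r = 2 ∤ q`: `n = 3`: `g` odd, `8 ∣ q^2 - 1`; `n ≥ 4`: `4 ∣ q^4 - 1`.
`r` odd, `e = ordNeg q r`, `r ∣ F_i ↔ e ∣ i` (`ordNeg_dvd`).
`r ∣ g` (`r ∣ q+1`, `e = 1`): `n ≥ 4`: `r ∣ q^3+1`, `r ∣ q^4-1`; `n = 3`: `r = 3`, `9 ∣ q^3+1`.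
`r ∤ g`: `e > n`: not dividing; `n < 2e, e ≤ n`: exactly one factor `F_e`, and `r^2 ∣ F_e ↔ Wief q r`
(`sq_dvd_iff` if `e` even, `sq_dvd_add_iff` if `e` odd, `r ∤ e` since `e ∣ r-1`); `2e ≤ n`: two
factors.
-/

namespace Tuan

private theorem WU_two {S : Finset ℕ} {f : ℕ → ℕ} {r i j : ℕ} (hi : i ∈ S) (hj : j ∈ S)
    (hij : i ≠ j) (h1 : r ∣ f i) (h2 : r ∣ f j) : r ^ 2 ∣ ∏ k ∈ S, f k := by
  have h : ({i, j} : Finset ℕ) ⊆ S := by
    intro x hx
    rw [Finset.mem_insert, Finset.mem_singleton] at hx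
    rcases hx with rfl | rfl
    · exact hi
    · exact hj
  have h3 := Finset.prod_dvd_prod_of_subset {i, j} S f h
  rw [Finset.prod_pair hij] at h3
  rw [pow_two]
  exact (mul_dvd_mul h1 h2).trans h3

private theorem WU_one {S : Finset ℕ} {f : ℕ → ℕ} {r e : ℕ} (hr : r.Prime) (he : e ∈ S)
    (h : ∀ i ∈ S, r ∣ f i → i = e) : r ^ 2 ∣ ∏ k ∈ S, f k ↔ r ^ 2 ∣ f e := by
  constructor
  · intro hd
    rw [← Finset.mul_prod_erase S f he] at hd
    have hc : Nat.Coprime (r ^ 2) (∏ k ∈ S.erase e, f k) := by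
      apply Nat.Coprime.pow_left
      apply Nat.Coprime.prod_right
      intro i hi
      rw [Nat.Prime.coprime_iff_not_dvd hr]
      intro hd'
      exact (Finset.ne_of_mem_erase hi) (h i (Finset.mem_of_mem_erase hi) hd')
    exact hc.dvd_of_dvd_mul_right hd
  · intro hd
    exact hd.trans (Finset.dvd_prod_of_mem f he)

theorem crit_U (n q : ℕ) (hn : 3 ≤ n) (hq : 2 ≤ q) :
    SqFull (ordU n q) ↔ ∀ r : ℕ, r.Prime → ¬ r ∣ 2 * q →
      (n < 2 * ordNeg q r ∧ ordNeg q r ≤ n) → Wief q r := by
  obtain ⟨F, hF⟩ : ∃ F : ℕ → ℕ, F = fun i => if Even i then q ^ i - 1 else q ^ i + 1 := ⟨_, rfl⟩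
  obtain ⟨g, hg⟩ : ∃ g : ℕ, g = Nat.gcd n (q + 1) := ⟨_, rfl⟩
  obtain ⟨a, ha⟩ : ∃ a : ℕ, a = n * (n - 1) / 2 := ⟨_, rfl⟩
  have hgpos : 0 < g := by
    rw [hg]; exact Nat.gcd_pos_of_pos_right _ (by omega)
  have hgn : g ∣ n := by rw [hg]; exact Nat.gcd_dvd_left _ _
  have hgq : g ∣ q + 1 := by rw [hg]; exact Nat.gcd_dvd_right _ _
  have hsq : q ^ 2 - 1 = (q + 1) * (q - 1) := by
    have := Nat.sq_sub_sq q 1
    simpa using this
  have hF2 : F 2 = q ^ 2 - 1 := by rw [hF]; simp
  have hF3 : F 3 = q ^ 3 + 1 := by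
    rw [hF]
    have h3 : ¬ Even 3 := by decide
    simp only [h3, if_false]
  have hF4 : F 4 = q ^ 4 - 1 := by
    rw [hF]
    have h3 : Even 4 := by decide
    simp only [h3, if_true]
  have hgF2 : g ∣ F 2 := by
    rw [hF2, hsq]
    exact hgq.trans (Dvd.intro _ rfl)
  have ha3 : 3 ≤ a := by
    rw [ha]
    have : 3 * 2 ≤ n * (n - 1) := Nat.mul_le_mul hn (by omega)
    omega
  have hprod : ∏ i ∈ Finset.Icc 2 n, F i = F 2 * ∏ i ∈ Finset.Icc 3 n, F i := by
    have h : Finset.Icc 2 n = insert 2 (Finset.Icc 3 n) := by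
      ext x
      simp only [Finset.mem_Icc, Finset.mem_insert]
      omega
    rw [h, Finset.prod_insert]
    simp
  obtain ⟨c, hc⟩ := hgF2
  have hord : ordU n q = q ^ a * (c * ∏ i ∈ Finset.Icc 3 n, F i) := by
    have h1 : ordU n q = q ^ a * (∏ i ∈ Finset.Icc 2 n, F i) / g := by
      rw [hF, hg, ha]; rfl
    rw [h1, hprod, hc]
    apply Nat.div_eq_of_eq_mul_left hgpos
    ring
  have hmul : ordU n q * g = q ^ a * ∏ i ∈ Finset.Icc 2 n, F i := by
    rw [hord, hprod, hc]
    ring
  have hP3 : (∏ i ∈ Finset.Icc 3 n, F i) ∣ ordU n q := by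
    rw [hord]
    exact ⟨q ^ a * c, by ring⟩
  have hA : ∀ r : ℕ, r.Prime → r ∣ 2 * q → r ^ 2 ∣ ordU n q := by
    intro r hr hd
    by_cases hrq : r ∣ q
    · have h1 : r ^ 2 ∣ q ^ a := by
        calc r ^ 2 ∣ r ^ a := pow_dvd_pow r (by omega)
          _ ∣ q ^ a := pow_dvd_pow_of_dvd hrq a
      rw [hord]
      exact h1.trans (Dvd.intro _ rfl)
    · have hr2 : r = 2 := by
        rcases (Nat.Prime.dvd_mul hr).1 hd with h | h
        · exact (Nat.prime_dvd_prime_iff_eq hr Nat.prime_two).1 h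
        · exact absurd h hrq
      subst hr2
      have hodd : q % 2 = 1 := by omega
      rcases Nat.lt_or_ge n 4 with h4 | h4
      · have hn3 : n = 3 := by omega
        have hg3 : g ∣ 3 := by rw [← hn3]; exact hgn
        have h4F : 2 ^ 2 ∣ F 2 := by
          rw [hF2, hsq]
          obtain ⟨k, hk⟩ : ∃ k, q = 2 * k + 1 := ⟨q / 2, by omega⟩
          have e1 : q + 1 = 2 * (k + 1) := by omega
          have e2 : q - 1 = 2 * k := by omega
          rw [e1, e2]
          exact ⟨(k + 1) * k, by ring⟩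
        have h5 : 2 ^ 2 ∣ ordU n q * g := by
          rw [hmul, hprod]
          exact (h4F.trans (Dvd.intro _ rfl)).trans (Dvd.intro_left _ rfl)
        have hcop : Nat.Coprime (2 ^ 2) g := by
          apply Nat.Coprime.coprime_dvd_right hg3
          decide
        exact hcop.dvd_of_dvd_mul_right h5
      · have h4F : 2 ^ 2 ∣ F 4 := by
          rw [hF4]
          obtain ⟨k, hk⟩ : ∃ k, q = 2 * k + 1 := ⟨q / 2, by omega⟩
          have e1 : q ^ 4 = 4 * (4 * k ^ 4 + 8 * k ^ 3 + 6 * k ^ 2 + 2 * k) + 1 := by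
            rw [hk]; ring
          rw [e1, Nat.add_sub_cancel]
          exact ⟨4 * k ^ 4 + 8 * k ^ 3 + 6 * k ^ 2 + 2 * k, by ring⟩
        have h5 : F 4 ∣ ∏ i ∈ Finset.Icc 3 n, F i :=
          Finset.dvd_prod_of_mem F (Finset.mem_Icc.2 ⟨by omega, h4⟩)
        exact (h4F.trans h5).trans hP3
  have hB : ∀ r : ℕ, r.Prime → ¬ r ∣ 2 * q → ((r ∣ ordU n q → r ^ 2 ∣ ordU n q) ↔
      ((n < 2 * ordNeg q r ∧ ordNeg q r ≤ n) → Wief q r)) := by
    intro r hr h2
    have hrq : ¬ r ∣ q := fun h => h2 (h.mul_left 2)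
    have hr2 : ¬ r ∣ 2 := fun h => h2 (h.mul_right q)
    have hiff : ∀ i, r ∣ F i ↔ ordNeg q r ∣ i := by
      intro i
      rw [hF]
      exact ordNeg_dvd q r i hr h2
    have hepos := ordNeg_pos q r hr hrq
    have hepred := ordNeg_dvd_pred q r hr h2
    have hr1 : 0 < r - 1 := by have := hr.two_le; omega
    have hele : ordNeg q r ≤ r - 1 := Nat.le_of_dvd hr1 hepred
    obtain ⟨e, he⟩ : ∃ e, e = ordNeg q r := ⟨_, rfl⟩
    rw [← he] at hiff hepos hepred hele ⊢
    by_cases hrg : r ∣ g
    · have hr1' : r ∣ q + 1 := hrg.trans hgq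
      have h1 : e ∣ 1 := by
        rw [← hiff 1, hF]
        simpa using hr1'
      have he1 : e = 1 := Nat.dvd_one.1 h1
      have hsqd : r ^ 2 ∣ ordU n q := by
        refine dvd_trans ?_ hP3
        rcases Nat.lt_or_ge n 4 with h4 | h4
        · have hn3 : n = 3 := by omega
          have hg3 : g ∣ 3 := by rw [← hn3]; exact hgn
          have hr3 : r = 3 := (Nat.prime_dvd_prime_iff_eq hr Nat.prime_three).1 (hrg.trans hg3)
          have h9 : r ^ 2 ∣ F 3 := by
            rw [hF3, hr3]
            rw [hr3] at hr1'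
            obtain ⟨k, hk⟩ := hr1'
            have hk1 : 1 ≤ k := by omega
            obtain ⟨m, hm⟩ : ∃ m, k = m + 1 := ⟨k - 1, by omega⟩
            have hqm : q = 3 * m + 2 := by omega
            rw [hqm]
            exact ⟨3 * m ^ 3 + 6 * m ^ 2 + 4 * m + 1, by ring⟩
          exact h9.trans (Finset.dvd_prod_of_mem F (Finset.mem_Icc.2 ⟨le_refl 3, hn⟩))
        · apply WU_two (i := 3) (j := 4) (Finset.mem_Icc.2 ⟨le_refl 3, hn⟩)
            (Finset.mem_Icc.2 ⟨by omega, h4⟩) (by omega)
          · rw [hiff, he1]; exact one_dvd _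
          · rw [hiff, he1]; exact one_dvd _
      constructor
      · intro _ h
        omega
      · intro _ _
        exact hsqd
    · have hcop : Nat.Coprime r g := (Nat.Prime.coprime_iff_not_dvd hr).2 hrg
      have hcopq : Nat.Coprime r (q ^ a) :=
        Nat.Coprime.pow_right a ((Nat.Prime.coprime_iff_not_dvd hr).2 hrq)
      have hd1 : r ∣ ordU n q ↔ r ∣ ∏ i ∈ Finset.Icc 2 n, F i := by
        constructor
        · intro h
          have h1 : r ∣ ordU n q * g := h.mul_right g
          rw [hmul] at h1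
          exact hcopq.dvd_of_dvd_mul_left h1
        · intro h
          have h1 : r ∣ ordU n q * g := by rw [hmul]; exact h.mul_left _
          exact hcop.dvd_of_dvd_mul_right h1
      have hd2 : r ^ 2 ∣ ordU n q ↔ r ^ 2 ∣ ∏ i ∈ Finset.Icc 2 n, F i := by
        constructor
        · intro h
          have h1 : r ^ 2 ∣ ordU n q * g := h.mul_right g
          rw [hmul] at h1
          exact (Nat.Coprime.pow_left 2 hcopq).dvd_of_dvd_mul_left h1
        · intro h
          have h1 : r ^ 2 ∣ ordU n q * g := by rw [hmul]; exact h.mul_left _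
          exact (Nat.Coprime.pow_left 2 hcop).dvd_of_dvd_mul_right h1
      rw [hd1, hd2]
      rcases Nat.lt_or_ge n e with hne | hne
      · -- no factor
        constructor
        · intro _ h
          omega
        · intro _ h
          exfalso
          rw [hr.prime.dvd_finsetProd_iff] at h
          obtain ⟨i, hi, hi2⟩ := h
          rw [hiff] at hi2
          rw [Finset.mem_Icc] at hi
          have := Nat.le_of_dvd (by omega) hi2
          omega
      · rcases Nat.lt_or_ge n (2 * e) with hn2 | hn2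
        · have heI : e ∈ Finset.Icc 2 n := Finset.mem_Icc.2 ⟨by omega, hne⟩
          have huniq : ∀ i ∈ Finset.Icc 2 n, r ∣ F i → i = e := by
            intro i hi hi2
            rw [hiff] at hi2
            rw [Finset.mem_Icc] at hi
            obtain ⟨k, hk⟩ := hi2
            have hk0 : k ≠ 0 := by
              rintro rfl
              omega
            have hk2 : k < 2 := by
              by_contra hcon
              push Not at hcon
              have : e * 2 ≤ e * k := Nat.mul_le_mul_left e hcon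
              omega
            have hk1 : k = 1 := by omega
            rw [hk, hk1, mul_one]
          rw [WU_one hr heI huniq]
          have hrFe : r ∣ F e := by rw [hiff]
          have hrprod : r ∣ ∏ i ∈ Finset.Icc 2 n, F i := hrFe.trans (Finset.dvd_prod_of_mem F heI)
          have hre : ¬ r ∣ e := by
            intro h
            have := Nat.le_of_dvd hepos h
            omega
          have hW : r ^ 2 ∣ F e ↔ Wief q r := by
            rw [hF] at hrFe ⊢
            by_cases hev : Even e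
            · simp only [hev, if_true] at hrFe ⊢
              exact sq_dvd_iff q r e hr (by omega) hrq hre hrFe
            · simp only [hev, if_false] at hrFe ⊢
              exact sq_dvd_add_iff q r e hr h2 hre hrFe
          rw [hW]
          constructor
          · intro h _
            exact h hrprod
          · intro h _
            exact h ⟨hn2, hne⟩
        · have hsqd : r ^ 2 ∣ ∏ i ∈ Finset.Icc 2 n, F i := by
            rcases Nat.lt_or_ge e 2 with he2 | he2
            · have he1 : e = 1 := by omega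
              apply WU_two (i := 2) (j := 3) (Finset.mem_Icc.2 ⟨le_refl 2, by omega⟩)
                (Finset.mem_Icc.2 ⟨by omega, hn⟩) (by omega)
              · rw [hiff, he1]; exact one_dvd _
              · rw [hiff, he1]; exact one_dvd _
            · apply WU_two (i := e) (j := 2 * e) (Finset.mem_Icc.2 ⟨he2, hne⟩)
                (Finset.mem_Icc.2 ⟨by omega, hn2⟩) (by omega)
              · rw [hiff]
              · rw [hiff]; exact Dvd.intro_left _ rfl
          constructor
          · intro _ h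
            omega
          · intro _ _
            exact hsqd
  constructor
  · intro h r hr h2
    exact (hB r hr h2).1 (h r hr)
  · intro h r hr
    by_cases h2 : r ∣ 2 * q
    · intro _
      exact hA r hr h2
    · exact (hB r hr h2).2 (h r hr h2)

end Tuan
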