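import Pool.Agent.Tuan.WLib
import Pool.Agent.Tuan.WL
import Pool.Agent.Tuan.WU
import Pool.Agent.Tuan.WB
import Pool.Agent.Tuan.WD
import Pool.Agent.Tuan.WD2
import Pool.Agent.Tuan.WE6
import Pool.Agent.Tuan.WE7
import Pool.Agent.Tuan.WE8
import Pool.Agent.Tuan.WFG
import Pool.Agent.Tuan.WE62
import Pool.Agent.Tuan.WTw
import Pool.Agent.Tuan.WSpor
import Pool.Agent.Tuan.WInf
import Pool.Agent.Tuan.WCard
import Pool.Agent.Tuan.Triv

namespace Tuan

private theorem sqFull_primePow {q : ℕ} (hq : IsPrimePow q) : SqFull q ↔ ¬ q.Prime := by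
  obtain ⟨p, f, hp, hf, rfl⟩ := hq
  have hp' := hp.nat_prime
  constructor
  · intro h hpr
    have h1 := h _ hpr dvd_rfl
    have h2 := Nat.le_of_dvd hpr.pos h1
    have h3 := hpr.two_le
    nlinarith
  · intro h r hr hd
    have h1 : r ∣ p := hr.dvd_of_dvd_pow hd
    have h2 : r = p := (Nat.prime_dvd_prime_iff_eq hr hp').1 h1
    subst h2
    have hf2 : 2 ≤ f := by
      rcases Nat.lt_or_ge f 2 with h3 | h3
      · exfalso
        have : f = 1 := by omega
        rw [this, pow_one] at h
        exact h hr
      · exact h3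
    exact pow_dvd_pow _ hf2

theorem criterion (s : Name) (hs : Valid s) :
    SqFull (order s) ↔ IsLie s ∧ (∀ q, s = Name.L 2 q → ¬ q.Prime) ∧
      ∀ r : ℕ, r.Prime → ¬ r ∣ 2 * base s → Critical s r → Wief (base s) r := by
  have aux : ∀ s : Name, (∀ q, s ≠ Name.L 2 q) → IsLie s →
      ∀ P : Prop, (IsLie s ∧ (∀ q, s = Name.L 2 q → ¬ q.Prime) ∧ P) ↔ P := by
    intro s h1 h2 P
    constructor
    · exact fun h => h.2.2
    · exact fun h => ⟨h2, fun q hq => absurd hq (h1 q), h⟩
  cases s with
  | cyclic p =>
    constructor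
    · intro h; exact absurd h (not_cyclic p hs)
    · intro h; exact absurd h.1 id
  | alt n =>
    constructor
    · intro h; exact absurd h (not_alt n hs)
    · intro h; exact absurd h.1 id
  | tits =>
    constructor
    · intro h; exact absurd h not_tits
    · intro h; exact absurd h.1 id
  | sporadic i =>
    constructor
    · intro h; exact absurd h (not_spor i)
    · intro h; exact absurd h.1 id
  | L n q =>
    obtain ⟨hn, hpp, hne⟩ := hs
    by_cases h2 : n = 2
    · subst h2
      show SqFull (ordL 2 q) ↔ _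
      rw [crit_L2 q hpp.two_le, sqFull_primePow hpp]
      constructor
      · rintro ⟨h1, h3⟩
        refine ⟨trivial, ?_, ?_⟩
        · intro q' hq'
          cases hq'
          exact h1
        · intro r hr hrd hc
          rcases hc with ⟨-, hc⟩ | ⟨hc1, hc2⟩
          · exact h3 r hr hrd hc
          · exact h3 r hr hrd hc2
      · rintro ⟨-, h1, h3⟩
        exact ⟨h1 q rfl, fun r hr hrd hc => h3 r hr hrd (Or.inl ⟨rfl, hc⟩)⟩
    · rw [aux (Name.L n q) (by intro q' hq'; cases hq'; exact h2 rfl) trivial]
      show SqFull (ordL n q) ↔ _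
      rw [crit_L n q (by omega) hpp.two_le]
      constructor
      · intro h r hr hrd hc
        rcases hc with ⟨hc, -⟩ | hc
        · exact absurd hc h2
        · exact h r hr hrd hc
      · intro h r hr hrd hc
        exact h r hr hrd (Or.inr hc)
  | U n q =>
    obtain ⟨hn, hpp, hne⟩ := hs
    rw [aux (Name.U n q) (by intro q' hq'; cases hq') trivial]
    exact crit_U n q hn hpp.two_le
  | B n q =>
    obtain ⟨hn, hpp, hne⟩ := hs
    rw [aux (Name.B n q) (by intro q' hq'; cases hq') trivial]
    exact crit_B n q hn hpp.two_le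
  | C n q =>
    obtain ⟨hn, hpp⟩ := hs
    rw [aux (Name.C n q) (by intro q' hq'; cases hq') trivial]
    exact crit_B n q (by omega) hpp.two_le
  | D n q =>
    obtain ⟨hn, hpp⟩ := hs
    rw [aux (Name.D n q) (by intro q' hq'; cases hq') trivial]
    exact crit_D n q hn hpp.two_le
  | D2 n q =>
    obtain ⟨hn, hpp⟩ := hs
    rw [aux (Name.D2 n q) (by intro q' hq'; cases hq') trivial]
    exact crit_D2 n q hn hpp.two_le
  | E6 q =>
    rw [aux (Name.E6 q) (by intro q' hq'; cases hq') trivial]
    exact crit_E6 q (IsPrimePow.two_le hs)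
  | E7 q =>
    rw [aux (Name.E7 q) (by intro q' hq'; cases hq') trivial]
    exact crit_E7 q (IsPrimePow.two_le hs)
  | E8 q =>
    rw [aux (Name.E8 q) (by intro q' hq'; cases hq') trivial]
    exact crit_E8 q (IsPrimePow.two_le hs)
  | F4 q =>
    rw [aux (Name.F4 q) (by intro q' hq'; cases hq') trivial]
    exact crit_F4 q (IsPrimePow.two_le hs)
  | G2 q =>
    rw [aux (Name.G2 q) (by intro q' hq'; cases hq') trivial]
    exact crit_G2 q (IsPrimePow.two_le hs.1)
  | E62 q =>
    rw [aux (Name.E62 q) (by intro q' hq'; cases hq') trivial]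
    exact crit_E62 q (IsPrimePow.two_le hs)
  | D43 q =>
    rw [aux (Name.D43 q) (by intro q' hq'; cases hq') trivial]
    exact crit_D43 q (IsPrimePow.two_le hs)
  | Sz m =>
    rw [aux (Name.Sz m) (by intro q' hq'; cases hq') trivial]
    exact crit_Sz m hs
  | Ree m =>
    rw [aux (Name.Ree m) (by intro q' hq'; cases hq') trivial]
    exact crit_Ree m hs
  | F42 m =>
    rw [aux (Name.F42 m) (by intro q' hq'; cases hq') trivial]
    exact crit_F42 m hs

theorem dichotomy (p : ℕ) (hp : p.Prime) :
    (NonW p).Infinite ∨ ∃ M : ℕ, Odd M ∧ ∀ s : Name, Valid s → IsLie s →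
      ∀ f : ℕ, base s = p ^ f → M ∣ f → 2 ≤ f → SqFull (order s) := by
  by_cases hfin : (NonW p).Finite
  · right
    classical
    refine ⟨∏ r ∈ hfin.toFinset.erase 2, r, ?_, ?_⟩
    · rw [Nat.odd_iff, ← Nat.odd_iff]
      apply Finset.prod_induction _ Odd
      · intro a b ha hb; exact ha.mul hb
      · exact odd_one
      · intro r hr
        rw [Finset.mem_erase] at hr
        have hrp : r.Prime := (hfin.mem_toFinset.1 hr.2).1
        exact hrp.odd_of_ne_two hr.1
    · intro s hv hl f hb hM hf
      rw [criterion s hv]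
      refine ⟨hl, ?_, ?_⟩
      · rintro q rfl hqp
        have : q = p ^ f := hb
        rw [this] at hqp
        exact Nat.Prime.not_prime_pow hf hqp
      · intro r hr hrd _
        rw [hb]
        have hr2 : r ≠ 2 := by
          rintro rfl
          exact hrd (dvd_mul_right _ _)
        have hrp : ¬ r ∣ p := by
          intro h
          apply hrd
          rw [hb]
          exact (h.trans (dvd_pow_self p (by omega))).mul_left 2
        by_cases hw : Wief p r
        · exact wief_pow p f r hw
        · apply wief_of_dvd_exp p f r hr hrp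
          refine dvd_trans ?_ hM
          apply Finset.dvd_prod_of_mem
          rw [Finset.mem_erase]
          exact ⟨hr2, hfin.mem_toFinset.2 ⟨hr, hrp, hw⟩⟩
  · left
    exact hfin

end Tuan
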