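import Pool.Agent.Tuan.WDef

/-!
MODULE WLib (size 3).  Orders modulo `r` and Wieferich primes.

SKETCH.  `dvd_iff`: `r ∣ q^d - 1 ↔ (q : ZMod r)^d = 1` (`q ≥ 1`), `orderOf_dvd_iff_pow_eq_one`.
`dvd_add_iff` (r odd, `¬ r ∣ q`): `r ∣ q^d + 1 ↔ (q:ZMod r)^d = -1`; then `q^(2d) = 1`, `q^d ≠ 1`
(as `2 ≠ 0`); conversely `q^(2d) = 1` gives `q^d = 1` or `-1` (field).
`sq_dvd_iff` (the main lemma): `r` prime, `¬ r ∣ q`, `r ∣ q^N - 1`, `¬ r ∣ N`; then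
`r^2 ∣ q^N - 1 ↔ Wief q r`.  Let `o` be the order of `q` in `ZMod (r^2)` (a unit), `e` its order mod
`r`.  `e ∣ o`, `o ∣ e * r` (if `x ≡ 1 mod r` then `x^r ≡ 1 mod r^2`), `e ∣ r - 1`.
`→`: `o ∣ N`, so `¬ r ∣ o`, so (`o ∣ e*r`) `o ∣ e`, `o ∣ r - 1`, i.e. Wieferich.
`←`: `o ∣ r - 1`, so `¬ r ∣ o`, so `o ∣ e ∣ N`.
`sq_dvd_add_iff`: `r` odd, `r ∣ q^N + 1`; `q^(2N) - 1 = (q^N-1)(q^N+1)`, `r ∤ q^N - 1`, use
`sq_dvd_iff` with `2N`.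
`wief_of_dvd_exp`: `r ∣ f`: `q = p^f`, `(p^(r-1))^f` with `p^(r-1) ≡ 1 mod r`, so
`p^((r-1) f) ≡ 1 mod r^2`.  `wief_pow`: if `p^(r-1) ≡ 1 mod r^2` then so is its power.
`ordNeg_dvd`: `ordNeg q r ∣ i ↔ r ∣ (q^i - 1 if i even, q^i + 1 if i odd)`.
`ordSq_dvd`: `ordSq q r ∣ i ↔ r ∣ q^(2i) - 1`.
`ordSq_lt`: `2 * ordSq q r ≤ r - 1` for odd `r ∤ q` (`(q^2)^((r-1)/2) = 1`).
-/

namespace Tuan

theorem dvd_iff (q r d : ℕ) (hq : 1 ≤ q) : r ∣ q ^ d - 1 ↔ ord q r ∣ d := by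
  unfold ord
  rw [orderOf_dvd_iff_pow_eq_one, ← ZMod.natCast_eq_zero_iff,
    Nat.cast_sub (Nat.one_le_pow _ _ hq), Nat.cast_pow, Nat.cast_one, sub_eq_zero]

theorem dvd_add_iff (q r d : ℕ) (hr : r.Prime) (h2 : ¬ r ∣ 2 * q) :
    r ∣ q ^ d + 1 ↔ ord q r ∣ 2 * d ∧ ¬ ord q r ∣ d := by
  haveI : Fact r.Prime := ⟨hr⟩
  have h20 : (2 : ZMod r) ≠ 0 := by
    intro h
    have : ((2 : ℕ) : ZMod r) = 0 := by exact_mod_cast h
    rw [ZMod.natCast_eq_zero_iff] at this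
    exact h2 (this.mul_right q)
  unfold ord
  rw [orderOf_dvd_iff_pow_eq_one, orderOf_dvd_iff_pow_eq_one, ← ZMod.natCast_eq_zero_iff]
  push_cast
  set x : ZMod r := (q : ZMod r) ^ d with hx
  have e : (q : ZMod r) ^ (2 * d) = x ^ 2 := by rw [hx, ← pow_mul, mul_comm]
  rw [e]
  constructor
  · intro h
    have hx1 : x = -1 := eq_neg_of_add_eq_zero_left h
    refine ⟨by rw [hx1]; ring, fun h1 => h20 ?_⟩
    rw [h1] at h
    rw [← h]; norm_num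
  · rintro ⟨h1, h3⟩
    have h4 : (x - 1) * (x + 1) = 0 := by
      have : (x - 1) * (x + 1) = x ^ 2 - 1 := by ring
      rw [this, h1, sub_self]
    rcases mul_eq_zero.1 h4 with h5 | h5
    · exact absurd (sub_eq_zero.1 h5) h3
    · exact h5

theorem wlib_ne_zero (q r : ℕ) (h : ¬ r ∣ q) : (q : ZMod r) ≠ 0 := by
  intro h0
  exact h ((ZMod.natCast_eq_zero_iff q r).1 h0)

theorem ord_dvd_pred (q r : ℕ) (hr : r.Prime) (h : ¬ r ∣ q) : ord q r ∣ r - 1 := by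
  haveI : Fact r.Prime := ⟨hr⟩
  unfold ord
  exact orderOf_dvd_of_pow_eq_one (ZMod.pow_card_sub_one_eq_one (wlib_ne_zero q r h))

theorem wlib_pred_pos (r : ℕ) (hr : r.Prime) : 0 < r - 1 := by
  have := hr.two_le
  omega

theorem ord_pos (q r : ℕ) (hr : r.Prime) (h : ¬ r ∣ q) : 0 < ord q r :=
  Nat.pos_of_dvd_of_pos (ord_dvd_pred q r hr h) (wlib_pred_pos r hr)

theorem wlib_ord_sq (q r : ℕ) (hq : 1 ≤ q) : ord q (r ^ 2) ∣ ord q r * r := by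
  rw [← dvd_iff q (r ^ 2) _ hq]
  have h1 : r ∣ q ^ ord q r - 1 := (dvd_iff q r _ hq).2 dvd_rfl
  have h2 : ((r : ℕ) : ℤ) ∣ (q : ℤ) ^ ord q r - 1 := by
    have := Int.natCast_dvd_natCast.2 h1
    rwa [Nat.cast_sub (Nat.one_le_pow _ _ hq), Nat.cast_pow, Nat.cast_one] at this
  have h3 := dvd_sub_pow_of_dvd_sub h2 1
  rw [one_pow, pow_one, ← pow_mul] at h3
  have h4 : (((r ^ 2 : ℕ)) : ℤ) ∣ ((q ^ (ord q r * r) - 1 : ℕ) : ℤ) := by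
    rw [Nat.cast_sub (Nat.one_le_pow _ _ hq)]
    push_cast
    exact h3
  exact Int.natCast_dvd_natCast.1 h4

theorem wlib_not_dvd_pred (r : ℕ) (hr : r.Prime) : ¬ r ∣ r - 1 := by
  intro h
  have := Nat.le_of_dvd (wlib_pred_pos r hr) h
  have := hr.two_le
  omega

theorem sq_dvd_iff (q r N : ℕ) (hr : r.Prime) (hq : 1 ≤ q) (h : ¬ r ∣ q) (hN : ¬ r ∣ N)
    (hd : r ∣ q ^ N - 1) : r ^ 2 ∣ q ^ N - 1 ↔ Wief q r := by
  unfold Wief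
  rw [dvd_iff q (r ^ 2) N hq, dvd_iff q (r ^ 2) (r - 1) hq]
  rw [dvd_iff q r N hq] at hd
  have key : ¬ r ∣ ord q (r ^ 2) → ord q (r ^ 2) ∣ ord q r := by
    intro h1
    have hc : Nat.Coprime (ord q (r ^ 2)) r := ((Nat.Prime.coprime_iff_not_dvd hr).2 h1).symm
    exact hc.dvd_of_dvd_mul_right (wlib_ord_sq q r hq)
  constructor
  · intro h1
    exact (key fun h2 => hN (h2.trans h1)).trans (ord_dvd_pred q r hr h)
  · intro h1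
    exact (key fun h2 => wlib_not_dvd_pred r hr (h2.trans h1)).trans hd

theorem wlib_q_pos (q r : ℕ) (h : ¬ r ∣ q) : 1 ≤ q := by
  rcases Nat.eq_zero_or_pos q with h0 | h0
  · subst h0; exact absurd (dvd_zero r) h
  · exact h0

theorem sq_dvd_add_iff (q r N : ℕ) (hr : r.Prime) (h2 : ¬ r ∣ 2 * q) (hN : ¬ r ∣ N)
    (hd : r ∣ q ^ N + 1) : r ^ 2 ∣ q ^ N + 1 ↔ Wief q r := by
  have hrq : ¬ r ∣ q := fun h => h2 (h.mul_left 2)
  have hr2 : ¬ r ∣ 2 := fun h => h2 (h.mul_right q)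
  have hq : 1 ≤ q := wlib_q_pos q r hrq
  have hfac : q ^ (2 * N) - 1 = (q ^ N - 1) * (q ^ N + 1) := by
    have h1 : 1 ≤ q ^ N := Nat.one_le_pow _ _ hq
    obtain ⟨m, hm⟩ := Nat.exists_eq_add_of_le h1
    have h3 : q ^ (2 * N) = (q ^ N) ^ 2 := by rw [← pow_mul, mul_comm]
    rw [h3, hm]
    have h4 : (1 + m) ^ 2 = m * (1 + m + 1) + 1 := by ring
    rw [h4]
    simp
  have hnd : ¬ r ∣ q ^ N - 1 := by
    intro h1
    have h3 := Nat.dvd_sub hd h1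
    have h4 : q ^ N + 1 - (q ^ N - 1) = 2 := by
      have := Nat.one_le_pow N q hq
      omega
    rw [h4] at h3
    exact hr2 h3
  have hc : Nat.Coprime (r ^ 2) (q ^ N - 1) :=
    Nat.Coprime.pow_left 2 ((Nat.Prime.coprime_iff_not_dvd hr).2 hnd)
  have hN2 : ¬ r ∣ 2 * N := by
    intro h1
    rcases (Nat.Prime.dvd_mul hr).1 h1 with h3 | h3
    · exact hr2 h3
    · exact hN h3
  have hd2 : r ∣ q ^ (2 * N) - 1 := by
    rw [hfac]; exact hd.mul_left _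
  rw [← sq_dvd_iff q r (2 * N) hr hq hrq hN2 hd2, hfac]
  exact ⟨fun h => h.mul_left _, fun h => hc.dvd_of_dvd_mul_left h⟩

theorem wief_of_dvd_exp (p f r : ℕ) (hr : r.Prime) (h : ¬ r ∣ p) (hf : r ∣ f) :
    Wief (p ^ f) r := by
  have hp : 1 ≤ p := wlib_q_pos p r h
  unfold Wief
  rw [← pow_mul, dvd_iff p (r ^ 2) _ hp]
  refine (wlib_ord_sq p r hp).trans ?_
  rw [mul_comm f]
  exact Nat.mul_dvd_mul (ord_dvd_pred p r hr h) hf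

theorem wief_pow (p f r : ℕ) (h : Wief p r) : Wief (p ^ f) r := by
  unfold Wief at *
  have h1 := Nat.sub_dvd_pow_sub_pow (p ^ (r - 1)) 1 f
  rw [one_pow] at h1
  have h2 : (p ^ f) ^ (r - 1) = (p ^ (r - 1)) ^ f := by
    rw [← pow_mul, ← pow_mul, mul_comm]
  rw [h2]
  exact h.trans h1

theorem ordSq_dvd (q r i : ℕ) (hq : 1 ≤ q) : r ∣ q ^ (2 * i) - 1 ↔ ordSq q r ∣ i := by
  unfold ordSq
  rw [orderOf_dvd_iff_pow_eq_one, ← ZMod.natCast_eq_zero_iff,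
    Nat.cast_sub (Nat.one_le_pow _ _ hq), Nat.cast_pow, Nat.cast_one, sub_eq_zero, pow_mul]

theorem ordSq_pos (q r : ℕ) (hr : r.Prime) (h : ¬ r ∣ q) : 0 < ordSq q r := by
  haveI : Fact r.Prime := ⟨hr⟩
  unfold ordSq
  exact Nat.pos_of_dvd_of_pos (orderOf_dvd_of_pow_eq_one
    (ZMod.pow_card_sub_one_eq_one (pow_ne_zero 2 (wlib_ne_zero q r h)))) (wlib_pred_pos r hr)

theorem wlib_odd (q r : ℕ) (hr : r.Prime) (h2 : ¬ r ∣ 2 * q) : Even (r - 1) ∧ 2 < r := by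
  have hr2 : r ≠ 2 := by
    intro h; subst h; exact h2 (dvd_mul_right 2 q)
  refine ⟨hr.even_sub_one hr2, lt_of_le_of_ne hr.two_le (Ne.symm hr2)⟩

theorem ordSq_le (q r : ℕ) (hr : r.Prime) (h2 : ¬ r ∣ 2 * q) : 2 * ordSq q r ≤ r - 1 := by
  haveI : Fact r.Prime := ⟨hr⟩
  have hrq : ¬ r ∣ q := fun h => h2 (h.mul_left 2)
  obtain ⟨hev, hlt⟩ := wlib_odd q r hr h2
  obtain ⟨k, hk⟩ := hev
  have h3 : ordSq q r ∣ k := by
    unfold ordSq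
    apply orderOf_dvd_of_pow_eq_one
    rw [← pow_mul]
    have h4 : 2 * k = r - 1 := by omega
    rw [h4]
    exact ZMod.pow_card_sub_one_eq_one (wlib_ne_zero q r hrq)
  have h5 : 0 < k := by omega
  have := Nat.le_of_dvd h5 h3
  omega

theorem ordNeg_dvd (q r i : ℕ) (hr : r.Prime) (h2 : ¬ r ∣ 2 * q) :
    r ∣ (if Even i then q ^ i - 1 else q ^ i + 1) ↔ ordNeg q r ∣ i := by
  have hrq : ¬ r ∣ q := fun h => h2 (h.mul_left 2)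
  have hq : 1 ≤ q := wlib_q_pos q r hrq
  unfold ordNeg
  rw [orderOf_dvd_iff_pow_eq_one]
  split_ifs with hi
  · rw [hi.neg_pow, ← ZMod.natCast_eq_zero_iff,
      Nat.cast_sub (Nat.one_le_pow _ _ hq), Nat.cast_pow, Nat.cast_one, sub_eq_zero]
  · rw [Nat.not_even_iff_odd] at hi
    rw [hi.neg_pow, ← ZMod.natCast_eq_zero_iff]
    push_cast
    constructor
    · intro h
      rw [eq_neg_of_add_eq_zero_left h, neg_neg]
    · intro h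
      rw [← h]; ring

theorem ordNeg_pos (q r : ℕ) (hr : r.Prime) (h : ¬ r ∣ q) : 0 < ordNeg q r := by
  haveI : Fact r.Prime := ⟨hr⟩
  unfold ordNeg
  exact Nat.pos_of_dvd_of_pos (orderOf_dvd_of_pow_eq_one
    (ZMod.pow_card_sub_one_eq_one (neg_ne_zero.2 (wlib_ne_zero q r h)))) (wlib_pred_pos r hr)

theorem ordNeg_dvd_pred (q r : ℕ) (hr : r.Prime) (h2 : ¬ r ∣ 2 * q) : ordNeg q r ∣ r - 1 := by
  haveI : Fact r.Prime := ⟨hr⟩
  have hrq : ¬ r ∣ q := fun h => h2 (h.mul_left 2)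
  unfold ordNeg
  exact orderOf_dvd_of_pow_eq_one
    (ZMod.pow_card_sub_one_eq_one (neg_ne_zero.2 (wlib_ne_zero q r hrq)))

end Tuan
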